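import Pool.Agent.MP_f7f40d_pr.Seq

set_option autoImplicit false

namespace Pool.Agent.MP_f7f40d_pr

open Function

variable {k : ℕ}

/-- Finitely supported real functions on `ℤ^k`. -/
abbrev FE (k : ℕ) := (Fin k → ℤ) →₀ ℝ

/-- Translation: `(sh a f) x = f (x - a)`. -/
noncomputable def sh (a : Fin k → ℤ) : FE k →ₗ[ℝ] FE k :=
  (Finsupp.domLCongr (Equiv.addRight a)).toLinearMap

@[simp] theorem sh_apply (a : Fin k → ℤ) (f : FE k) (x : Fin k → ℤ) :
    sh a f x = f (x - a) := by
  simp [sh, sub_eq_add_neg]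

/-- The Laplacian on finitely supported functions. -/
noncomputable def lapF (k : ℕ) : FE k →ₗ[ℝ] FE k :=
  ∑ i : Fin k, ((2 : ℝ) • LinearMap.id - sh (Pi.single i 1) - sh (-Pi.single i 1))

theorem lapF_apply (f : FE k) (x : Fin k → ℤ) :
    lapF k f x = ∑ i : Fin k, (2 * f x - f (x - Pi.single i 1) - f (x + Pi.single i 1)) := by
  simp [lapF, LinearMap.sum_apply]
  ring

/-- The `ℓ²` inner product. -/
noncomputable def ip (k : ℕ) : FE k →ₗ[ℝ] FE k →ₗ[ℝ] ℝ :=
  Finsupp.linearCombination ℝ (fun y => (Finsupp.lapply y : FE k →ₗ[ℝ] ℝ))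

theorem ip_def (f g : FE k) : ip k f g = ∑ x ∈ f.support, f x * g x := by
  simp [ip, Finsupp.linearCombination_apply, Finsupp.sum, LinearMap.sum_apply]

theorem ip_eq_sum (f g : FE k) (s : Finset (Fin k → ℤ)) (hs : f.support ⊆ s) :
    ip k f g = ∑ x ∈ s, f x * g x := by
  rw [ip_def]
  apply Finset.sum_subset hs
  intro x _ hx
  simp [Finsupp.notMem_support_iff.mp hx]

theorem ip_tsum (f g : FE k) : ip k f g = ∑' x, f x * g x := by
  rw [ip_def, tsum_eq_sum]
  intro x hx
  simp [Finsupp.notMem_support_iff.mp hx]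

theorem ip_comm (f g : FE k) : ip k f g = ip k g f := by
  rw [ip_tsum, ip_tsum]
  congr 1; ext x; ring

theorem ip_nonneg (f : FE k) : 0 ≤ ip k f f := by
  rw [ip_def]
  exact Finset.sum_nonneg fun x _ => mul_self_nonneg _

theorem ip_sh (a : Fin k → ℤ) (f g : FE k) : ip k (sh a f) (sh a g) = ip k f g := by
  rw [ip_tsum, ip_tsum]
  simp only [sh_apply]
  exact (Equiv.subRight a).tsum_eq (fun x => f x * g x)

theorem sh_sh (a b : Fin k → ℤ) (f : FE k) : sh a (sh b f) = sh (a + b) f := by
  ext x
  simp [sub_sub]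

theorem sh_zero (f : FE k) : sh 0 f = f := by
  ext x; simp

theorem ip_sh_neg (a : Fin k → ℤ) (f g : FE k) : ip k f (sh (-a) g) = ip k (sh a f) g := by
  rw [← ip_sh a f (sh (-a) g), sh_sh]
  simp [sh_zero]

theorem ip_lap_comm (f g : FE k) : ip k f (lapF k g) = ip k (lapF k f) g := by
  simp only [lapF, LinearMap.sum_apply, map_sum, LinearMap.sub_apply, LinearMap.smul_apply,
    LinearMap.id_apply, map_sub, map_smul]
  apply Finset.sum_congr rfl
  intro i _
  have h1 := ip_sh_neg (Pi.single i 1) f g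
  have h2 := ip_sh_neg (-Pi.single i 1) f g
  rw [neg_neg] at h2
  rw [h1, h2]
  ring

theorem ip_lap_nonneg (f : FE k) : 0 ≤ ip k f (lapF k f) := by
  simp only [lapF, LinearMap.sum_apply, map_sum]
  apply Finset.sum_nonneg
  intro i _
  have h := ip_nonneg (f - sh (Pi.single i 1) f)
  simp only [map_sub, LinearMap.sub_apply, LinearMap.smul_apply, LinearMap.id_apply,
    map_smul, smul_eq_mul] at h ⊢
  rw [ip_sh, ip_comm (sh (Pi.single i 1) f) f] at h
  have h1 := ip_sh_neg (Pi.single i 1) f f
  rw [h1, ip_comm (sh (Pi.single i 1) f) f]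
  linarith

/-- The slice of `f` at first coordinate `j`. -/
noncomputable def sl (j : ℤ) : FE (k + 1) →ₗ[ℝ] FE k :=
  Finsupp.lcomapDomain (fun y : Fin k → ℤ => (Fin.cons j y : Fin (k + 1) → ℤ))
    (Fin.cons_right_injective (α := fun _ => ℤ) j)

@[simp] theorem sl_apply (j : ℤ) (f : FE (k + 1)) (y : Fin k → ℤ) :
    sl j f y = f (Fin.cons j y) := rfl

theorem sl_finite (f : FE (k + 1)) : (support fun j => sl j f).Finite := by
  refine (f.support.image (fun x => x 0)).finite_toSet.subset ?_
  intro j hj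
  simp only [mem_support, ne_eq] at hj
  obtain ⟨y, hy⟩ : ∃ y, sl j f y ≠ 0 := by
    by_contra h
    push Not at h
    exact hj (Finsupp.ext h)
  simp only [Finset.coe_image, Set.mem_image, Finset.mem_coe, Finsupp.mem_support_iff]
  exact ⟨_, hy, by simp⟩

theorem ip_slices (f : FE (k + 1)) : ip (k + 1) f f = ∑' j, ip k (sl j f) (sl j f) := by
  rw [ip_tsum, ← (Fin.consEquiv (fun _ : Fin (k + 1) => ℤ)).tsum_eq]
  rw [Summable.tsum_prod]
  · congr 1
    ext j
    rw [ip_tsum]
    rfl
  · have : Summable fun x : Fin (k + 1) → ℤ => f x * f x := by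
      apply summable_of_hasFiniteSupport
      refine f.support.finite_toSet.subset ?_
      intro x hx
      simp only [mem_support, ne_eq, mul_eq_zero, or_self] at hx
      simpa using hx
    exact (Fin.consEquiv (fun _ : Fin (k + 1) => ℤ)).summable_iff.mpr this

theorem cons_single_zero (j : ℤ) (y : Fin k → ℤ) :
    (Fin.cons j y : Fin (k + 1) → ℤ) + Pi.single 0 1 = Fin.cons (j + 1) y := by
  funext i
  refine Fin.cases ?_ (fun i => ?_) i <;> simp

theorem cons_sub_single_zero (j : ℤ) (y : Fin k → ℤ) :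
    (Fin.cons j y : Fin (k + 1) → ℤ) - Pi.single 0 1 = Fin.cons (j - 1) y := by
  funext i
  refine Fin.cases ?_ (fun i => ?_) i <;> simp

theorem cons_add_single_succ (j : ℤ) (y : Fin k → ℤ) (i : Fin k) :
    (Fin.cons j y : Fin (k + 1) → ℤ) + Pi.single i.succ 1 = Fin.cons j (y + Pi.single i 1) := by
  funext l
  refine Fin.cases ?_ (fun l => ?_) l
  · simp
  · simp [Pi.single_apply, Fin.succ_inj]

theorem cons_sub_single_succ (j : ℤ) (y : Fin k → ℤ) (i : Fin k) :
    (Fin.cons j y : Fin (k + 1) → ℤ) - Pi.single i.succ 1 = Fin.cons j (y - Pi.single i 1) := by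
  funext l
  refine Fin.cases ?_ (fun l => ?_) l
  · simp
  · simp [Pi.single_apply, Fin.succ_inj]

theorem sl_lap (j : ℤ) (f : FE (k + 1)) :
    sl j (lapF (k + 1) f) = (2 : ℝ) • sl j f - sl (j - 1) f - sl (j + 1) f
      + lapF k (sl j f) := by
  ext y
  simp only [sl_apply, lapF_apply, Fin.sum_univ_succ, Finsupp.add_apply, Finsupp.sub_apply,
    Finsupp.smul_apply, smul_eq_mul]
  rw [cons_single_zero, cons_sub_single_zero]
  simp only [cons_add_single_succ, cons_sub_single_succ]

/-- The larger root of `R + 1/R = a`. -/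
noncomputable def bigR (a : ℝ) : ℝ := (a + Real.sqrt (a ^ 2 - 4)) / 2

theorem bigR_pos {a : ℝ} (ha : 2 ≤ a) : 1 ≤ bigR a := by
  unfold bigR
  have := Real.sqrt_nonneg (a ^ 2 - 4)
  linarith

theorem bigR_eq {a : ℝ} (ha : 2 ≤ a) : bigR a + 1 / bigR a = a := by
  have h1 : 0 < bigR a := lt_of_lt_of_le one_pos (bigR_pos ha)
  have h2 : Real.sqrt (a ^ 2 - 4) ^ 2 = a ^ 2 - 4 := Real.sq_sqrt (by nlinarith)
  have h3 : bigR a ^ 2 + 1 = a * bigR a := by
    unfold bigR
    nlinarith
  field_simp
  linarith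

/-- The recursively defined pivots: `piv 0 s = s`, `piv (k+1) s = piv k (R (s+2))`. -/
noncomputable def piv : ℕ → ℝ → ℝ
  | 0, s => s
  | (k + 1), s => piv k (bigR (s + 2))

theorem pivot_aux : ∀ (k : ℕ) (s : ℝ), 0 ≤ s → ∀ V : Finset (Fin k → ℤ), V.Nonempty →
    ∃ x ∈ V, ∀ w : FE k, w.support ⊆ V → w x = 1 →
      (piv k s) ^ 2 ≤ ip k (s • w + lapF k w) (s • w + lapF k w) := by
  intro k
  induction k with
  | zero =>
    intro s hs V hV
    obtain ⟨x, hx⟩ := hV
    refine ⟨x, hx, ?_⟩
    intro w hw hwx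
    rw [ip_eq_sum _ _ Finset.univ (Finset.subset_univ _)]
    have hl : lapF 0 w = 0 := by
      ext; rw [lapF_apply]; simp
    have hall : ∀ y : Fin 0 → ℤ, w y = 1 := fun y => by
      rw [← hwx]; exact congrArg w (Subsingleton.elim _ _)
    rw [hl, add_zero]
    simp only [piv, Finset.univ_unique, Finsupp.smul_apply, smul_eq_mul, Finset.sum_singleton,
      hall]
    nlinarith
  | succ k ih =>
    intro s hs V hV
    -- top slice
    obtain ⟨x0, hx0, hmax⟩ := Finset.exists_max_image V (fun x => x 0) hV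
    set J := x0 0 with hJ
    set V' : Finset (Fin k → ℤ) := (V.filter (fun x => x 0 = J)).image Fin.tail with hV'
    have hV'ne : V'.Nonempty := ⟨Fin.tail x0, by
      rw [hV', Finset.mem_image]
      exact ⟨x0, by simp [hx0, hJ], rfl⟩⟩
    have ha : 2 ≤ s + 2 := by linarith
    have hr1 := bigR_pos ha
    obtain ⟨x', hx', hpiv⟩ := ih (bigR (s + 2)) (by linarith) V' hV'ne
    have hmem : ∀ y : Fin k → ℤ, y ∈ V' ↔ (Fin.cons J y : Fin (k + 1) → ℤ) ∈ V := by
      intro y
      rw [hV', Finset.mem_image]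
      constructor
      · rintro ⟨x, hx, rfl⟩
        rw [Finset.mem_filter] at hx
        have : (Fin.cons J (Fin.tail x) : Fin (k + 1) → ℤ) = x := by
          rw [← hx.2]; exact Fin.cons_self_tail x
        rw [this]; exact hx.1
      · intro h
        exact ⟨Fin.cons J y, by simp [h], by simp⟩
    refine ⟨Fin.cons J x', (hmem x').mp hx', ?_⟩
    intro w hw hwx
    set r := bigR (s + 2) with hr
    have hrpos : 0 < r := by linarith
    have hreq : r + 1 / r = s + 2 := bigR_eq ha
    set W : ℤ → FE k := fun j => sl j w with hW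
    have hWfin : (support W).Finite := sl_finite w
    have htop : ∀ j, J < j → W j = 0 := by
      intro j hj
      ext y
      simp only [hW, sl_apply, Finsupp.coe_zero, Pi.zero_apply]
      by_contra h
      have h1 : (Fin.cons j y : Fin (k + 1) → ℤ) ∈ V := hw (by simpa using h)
      have := hmax _ h1
      simp at this
      omega
    -- the three bounds
    have b1 := (seq_bound (ip k) ip_comm ip_nonneg hWfin htop hrpos).2
    have hQ : ∀ x y : FE k, ((ip k).compr₂ LinearMap.id) x y = ip k x y := fun x y => rfl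
    set QT : FE k →ₗ[ℝ] FE k →ₗ[ℝ] ℝ := (ip k).compl₂ (lapF k) with hQT
    have hQTa : ∀ x y, QT x y = ip k x (lapF k y) := fun x y => rfl
    have b2 := (seq_bound QT (fun x y => by rw [hQTa, hQTa, ip_lap_comm, ip_comm])
      (fun x => by rw [hQTa]; exact ip_lap_nonneg x) hWfin htop hrpos).1
    have hTfin : (support fun j => lapF k (W j)).Finite := by
      refine hWfin.subset ?_
      intro j hj
      by_contra h
      apply hj
      have : W j = 0 := by simpa using h
      simp [this]
    have b3 : ip k (lapF k (W J)) (lapF k (W J)) ≤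
        ∑' j, ip k (lapF k (W j)) (lapF k (W j)) :=
      (summable_corr (ip k) hTfin).le_tsum J (fun j _ => ip_nonneg _)
    -- decomposition
    rw [ip_slices]
    have hsl : ∀ j, sl j (s • w + lapF (k + 1) w) =
        ((r + 1 / r) • W j - W (j - 1) - W (j + 1)) + lapF k (W j) := by
      intro j
      rw [map_add, map_smul, sl_lap, hreq, add_smul]
      simp only [hW]
      abel
    simp_rw [hsl]
    have hBfin : (support fun j => (r + 1 / r) • W j - W (j - 1) - W (j + 1)).Finite := by
      refine ((hWfin.union (finite_shift hWfin (-1))).union (finite_shift hWfin 1)).subset ?_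
      intro j hj
      by_contra h
      apply hj
      simp only [Set.mem_union, mem_support, ne_eq, not_or, not_not] at h
      have h1 := h.1.1
      have h2 := h.1.2
      have h3 := h.2
      rw [← sub_eq_add_neg] at h2
      simp [h1, h2, h3]
    have e : ∀ j, ip k (((r + 1 / r) • W j - W (j - 1) - W (j + 1)) + lapF k (W j))
        (((r + 1 / r) • W j - W (j - 1) - W (j + 1)) + lapF k (W j)) =
        ip k ((r + 1 / r) • W j - W (j - 1) - W (j + 1))
          ((r + 1 / r) • W j - W (j - 1) - W (j + 1))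
        + 2 * QT ((r + 1 / r) • W j - W (j - 1) - W (j + 1)) (W j)
        + ip k (lapF k (W j)) (lapF k (W j)) := by
      intro j
      rw [hQTa]
      generalize (r + 1 / r) • W j - W (j - 1) - W (j + 1) = B
      simp only [map_add, LinearMap.add_apply]
      rw [ip_comm (lapF k (W j)) B]
      ring
    simp_rw [e]
    have s1 := summable_corr (ip k) (W := fun j => (r + 1 / r) • W j - W (j - 1) - W (j + 1)) hBfin
    have s2 := (summable_corr QT (W := W) hBfin).mul_left 2
    have s3 := summable_corr (ip k) (W := fun j => lapF k (W j)) hTfin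
    rw [Summable.tsum_add (s1.add s2) s3, Summable.tsum_add s1 s2, tsum_mul_left]
    have hfin := hpiv (W J) (by
      intro y hy
      rw [hmem]
      apply hw
      simpa [hW] using hy) (by simpa [hW] using hwx)
    have hexp : ip k (r • W J + lapF k (W J)) (r • W J + lapF k (W J)) =
        r ^ 2 * ip k (W J) (W J) + 2 * (r * QT (W J) (W J))
        + ip k (lapF k (W J)) (lapF k (W J)) := by
      rw [hQTa]
      simp only [map_add, map_smul, LinearMap.add_apply, LinearMap.smul_apply, smul_eq_mul]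
      rw [ip_comm (lapF k (W J)) (W J)]
      ring
    rw [hexp] at hfin
    show piv k (bigR (s + 2)) ^ 2 ≤ _
    linarith

end Pool.Agent.MP_f7f40d_pr
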