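import Mathlib

set_option autoImplicit false

namespace Pool.Agent.MP_f7f40d_pr

open Real

/-- The theta constant `∑ exp(-a n^2)`. -/
noncomputable def theta (a : ℝ) : ℝ := ∑' n : ℤ, rexp (-a * (n : ℝ) ^ 2)

theorem summable_gauss {a : ℝ} (ha : 0 < a) (c : ℝ) :
    Summable fun n : ℤ => rexp (-a * ((n : ℝ) + c) ^ 2) := by
  have h : Summable fun n : ℤ => jacobiTheta₂_term n (Complex.I * (a * c / π : ℝ))
      (Complex.I * (a / π : ℝ)) := by
    rw [summable_jacobiTheta₂_term_iff]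
    simp only [Complex.mul_im, Complex.I_re, Complex.ofReal_im, mul_zero, Complex.I_im,
      Complex.ofReal_re, one_mul, zero_add]
    positivity
  have h2 := (h.norm).mul_left (rexp (-a * c ^ 2))
  refine h2.congr ?_
  intro n
  have hpi : (π : ℝ) ≠ 0 := Real.pi_ne_zero
  rw [jacobiTheta₂_term]
  have e1 : (2 * (π : ℂ) * Complex.I * n * (Complex.I * (a * c / π : ℝ)) +
      π * Complex.I * n ^ 2 * (Complex.I * (a / π : ℝ))) =
      ((-(2 * a * c * n + a * n ^ 2) : ℝ) : ℂ) := by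
    push_cast
    have hpc : (π : ℂ) ≠ 0 := by exact_mod_cast hpi
    field_simp
    ring_nf
    simp only [Complex.I_sq]
    ring
  rw [e1, ← Complex.ofReal_exp, Complex.norm_real, Real.norm_eq_abs, abs_of_pos (Real.exp_pos _),
    ← Real.exp_add]
  congr 1
  ring

/-- A shifted Gaussian sum over the integers is at most the unshifted one. -/
theorem tsum_gauss_shift_le {a : ℝ} (ha : 0 < a) (c : ℝ) :
    ∑' n : ℤ, rexp (-a * ((n : ℝ) + c) ^ 2) ≤ theta a := by
  have hpi : (π : ℝ) ≠ 0 := Real.pi_ne_zero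
  have hpp := Real.pi_pos
  set A : ℝ := π / a with hA
  have hA0 : 0 < A := by positivity
  have hAc : 0 < ((A : ℝ) : ℂ).re := by simpa using hA0
  have h1 := Complex.tsum_exp_neg_quadratic hAc (-(Complex.I * (c : ℂ)))
  have h2 := Complex.tsum_exp_neg_quadratic hAc 0
  have hAa : (-π / A : ℝ) = -a := by
    rw [hA]; field_simp
  have hAac : (-(π : ℂ) / (A : ℂ)) = ((-a : ℝ) : ℂ) := by
    rw [← hAa]; push_cast; ring
  have e1 : ∀ n : ℤ, Complex.exp (-(π : ℂ) / (A : ℂ) * (n + Complex.I * (-(Complex.I * (c : ℂ)))) ^ 2)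
      = ((rexp (-a * ((n : ℝ) + c) ^ 2) : ℝ) : ℂ) := by
    intro n
    rw [hAac]
    push_cast
    congr 1
    have : Complex.I * (-(Complex.I * (c : ℂ))) = c := by
      rw [mul_neg, ← mul_assoc, Complex.I_mul_I]; ring
    rw [this]
  have e2 : ∀ n : ℤ, Complex.exp (-(π : ℂ) / (A : ℂ) * (n + Complex.I * 0) ^ 2)
      = ((rexp (-a * (n : ℝ) ^ 2) : ℝ) : ℂ) := by
    intro n
    rw [hAac]
    push_cast
    congr 1
    ring
  simp_rw [e1] at h1
  simp_rw [e2] at h2
  rw [← Complex.ofReal_tsum] at h1 h2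
  have hpow : ((A : ℂ) ^ (1 / 2 : ℂ)) ≠ 0 := by
    rw [Complex.cpow_ne_zero_iff]
    left
    exact_mod_cast hA0.ne'
  have hinv : (1 / (A : ℂ) ^ (1 / 2 : ℂ)) ≠ 0 := one_div_ne_zero hpow
  have hs0 : Summable fun n : ℤ => rexp (-(π * A) * ((n : ℝ) + 0) ^ 2) :=
    summable_gauss (by positivity) 0
  have hs : Summable fun n : ℤ => Complex.exp (-(π : ℂ) * A * n ^ 2 + 2 * π * 0 * n) := by
    have := Complex.ofRealCLM.summable hs0
    refine this.congr ?_
    intro n
    simp only [Complex.ofRealCLM_apply]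
    push_cast
    congr 1
    ring
  have key : ‖∑' n : ℤ, Complex.exp (-(π : ℂ) * A * n ^ 2 + 2 * π * (-(Complex.I * (c : ℂ))) * n)‖ ≤
      ‖∑' n : ℤ, Complex.exp (-(π : ℂ) * A * n ^ 2 + 2 * π * 0 * n)‖ := by
    have r2 : (∑' n : ℤ, Complex.exp (-(π : ℂ) * A * n ^ 2 + 2 * π * 0 * n)) =
        ((∑' n : ℤ, rexp (-(π * A) * ((n : ℝ) + 0) ^ 2) : ℝ) : ℂ) := by
      rw [Complex.ofReal_tsum]
      congr 1
      ext n
      push_cast
      congr 1
      ring
    have hn : ∀ n : ℤ, ‖Complex.exp (-(π : ℂ) * A * n ^ 2 + 2 * π * (-(Complex.I * (c : ℂ))) * n)‖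
        = rexp (-(π * A) * ((n : ℝ) + 0) ^ 2) := by
      intro n
      rw [Complex.norm_exp]
      have : (-(π : ℂ) * A * n ^ 2 + 2 * π * (-(Complex.I * (c : ℂ))) * n) =
        ((-(π * A) * ((n : ℝ) + 0) ^ 2 : ℝ) : ℂ) + ((-2 * π * c * n : ℝ) : ℂ) * Complex.I := by
        push_cast; ring
      rw [this, Complex.add_re, Complex.ofReal_re, Complex.re_ofReal_mul, Complex.I_re,
        mul_zero, add_zero]
    have hsn : Summable fun n : ℤ =>
        ‖Complex.exp (-(π : ℂ) * A * n ^ 2 + 2 * π * (-(Complex.I * (c : ℂ))) * n)‖ := by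
      refine hs0.congr fun n => (hn n).symm
    refine (norm_tsum_le_tsum_norm hsn).trans ?_
    rw [r2, Complex.norm_real, Real.norm_eq_abs,
      abs_of_nonneg (tsum_nonneg fun n => (Real.exp_pos _).le)]
    exact le_of_eq (tsum_congr hn)
  rw [h1, h2, norm_mul, norm_mul] at key
  have hpos : 0 < ‖1 / (A : ℂ) ^ (1 / 2 : ℂ)‖ := norm_pos_iff.mpr hinv
  have key2 := le_of_mul_le_mul_left key hpos
  rw [Complex.norm_real, Complex.norm_real, Real.norm_eq_abs, Real.norm_eq_abs,
    abs_of_nonneg (tsum_nonneg fun n => (Real.exp_pos _).le),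
    abs_of_nonneg (tsum_nonneg fun n => (Real.exp_pos _).le)] at key2
  exact key2

theorem summable_gauss0 {a : ℝ} (ha : 0 < a) :
    Summable fun n : ℤ => rexp (-a * (n : ℝ) ^ 2) := by
  simpa using summable_gauss ha 0

theorem theta_nonneg (a : ℝ) : 0 ≤ theta a := tsum_nonneg fun _ => (Real.exp_pos _).le

theorem one_le_theta {a : ℝ} (ha : 0 < a) : 1 ≤ theta a := by
  have := (summable_gauss0 ha).le_tsum 0 (fun n _ => (Real.exp_pos _).le)
  simpa [theta] using this

theorem theta_anti {a b : ℝ} (ha : 0 < a) (hab : a ≤ b) : theta b ≤ theta a := by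
  apply Summable.tsum_le_tsum _ (summable_gauss0 (ha.trans_le hab)) (summable_gauss0 ha)
  intro n
  apply Real.exp_le_exp.mpr
  nlinarith [sq_nonneg (n : ℝ)]

/-- ENNReal form of the shifted Gaussian bound, for a line in an inner product space. -/
theorem line_sum_le {F : Type*} [NormedAddCommGroup F] [InnerProductSpace ℝ F]
    {α m : ℝ} (hα : 0 < α) (hm : 0 < m) (v y : F) (hy : m ≤ ‖y‖ ^ 2) :
    ∑' n : ℤ, ENNReal.ofReal (rexp (-α * ‖v + (n : ℝ) • y‖ ^ 2)) ≤
      ENNReal.ofReal (theta (α * m)) := by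
  have hy0 : 0 < ‖y‖ ^ 2 := hm.trans_le hy
  set c : ℝ := inner ℝ v y / ‖y‖ ^ 2 with hc
  have hle : ∀ n : ℤ, rexp (-α * ‖v + (n : ℝ) • y‖ ^ 2) ≤
      rexp (-(α * ‖y‖ ^ 2) * ((n : ℝ) + c) ^ 2) := by
    intro n
    apply Real.exp_le_exp.mpr
    have h1 : ‖v + (n : ℝ) • y‖ ^ 2 = ‖v‖ ^ 2 + 2 * n * inner ℝ v y + n ^ 2 * ‖y‖ ^ 2 := by
      rw [norm_add_sq_real, inner_smul_right, norm_smul, mul_pow]
      simp only [Real.norm_eq_abs, sq_abs]
      ring
    have h2 : ‖y‖ ^ 2 * ((n : ℝ) + c) ^ 2 ≤ ‖v + (n : ℝ) • y‖ ^ 2 := by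
      rw [h1, hc]
      have h3 : (inner ℝ v y) ^ 2 ≤ ‖v‖ ^ 2 * ‖y‖ ^ 2 := by
        have := abs_real_inner_le_norm v y
        rw [← mul_pow, ← sq_abs]
        exact pow_le_pow_left₀ (abs_nonneg _) this 2
      have h4 : (inner ℝ v y) ^ 2 / ‖y‖ ^ 2 ≤ ‖v‖ ^ 2 := by
        rw [div_le_iff₀ hy0]; exact h3
      have h5 : ‖y‖ ^ 2 * ((n : ℝ) + inner ℝ v y / ‖y‖ ^ 2) ^ 2 =
        (inner ℝ v y) ^ 2 / ‖y‖ ^ 2 + 2 * n * inner ℝ v y + n ^ 2 * ‖y‖ ^ 2 := by
        have hyn : ‖y‖ ≠ 0 := by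
          intro h; rw [h] at hy0; simp at hy0
        field_simp
        ring
      rw [h5]
      linarith
    nlinarith
  have hs := summable_gauss (a := α * ‖y‖ ^ 2) (by positivity) c
  calc ∑' n : ℤ, ENNReal.ofReal (rexp (-α * ‖v + (n : ℝ) • y‖ ^ 2))
      ≤ ∑' n : ℤ, ENNReal.ofReal (rexp (-(α * ‖y‖ ^ 2) * ((n : ℝ) + c) ^ 2)) :=
        ENNReal.tsum_le_tsum fun n => ENNReal.ofReal_le_ofReal (hle n)
    _ = ENNReal.ofReal (∑' n : ℤ, rexp (-(α * ‖y‖ ^ 2) * ((n : ℝ) + c) ^ 2)) :=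
        (ENNReal.ofReal_tsum_of_nonneg (fun n => (Real.exp_pos _).le) hs).symm
    _ ≤ ENNReal.ofReal (theta (α * m)) := by
        apply ENNReal.ofReal_le_ofReal
        exact (tsum_gauss_shift_le (by positivity) c).trans
          (theta_anti (by positivity) (mul_le_mul_of_nonneg_left hy hα.le))

/-- The Gram-Schmidt lattice sum bound. `b` is a family of vectors such that every nonempty
finite subfamily has a member at squared distance at least `m` from the span of the others. -/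
theorem lattice_sum_le {F : Type*} [NormedAddCommGroup F] [InnerProductSpace ℝ F]
    {α m : ℝ} (hα : 0 < α) (hm : 0 < m) :
    ∀ (n : ℕ) (ι : Type) [Fintype ι] [DecidableEq ι], Fintype.card ι = n → ∀ (b : ι → F),
    (∀ V : Finset ι, V.Nonempty → ∃ x ∈ V, ∀ w : ι → ℝ, (∀ i, i ∉ V → w i = 0) → w x = 1 →
      m ≤ ‖∑ i, w i • b i‖ ^ 2) → ∀ v : F,
    ∑' u : ι → ℤ, ENNReal.ofReal (rexp (-α * ‖v + ∑ i, (u i : ℝ) • b i‖ ^ 2)) ≤
      ENNReal.ofReal (theta (α * m)) ^ n := by
  intro n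
  induction n with
  | zero =>
    intro ι _ _ hcard b _ v
    have : IsEmpty ι := Fintype.card_eq_zero_iff.mp hcard
    rw [tsum_eq_single default (by intro u hu; exact absurd (Subsingleton.elim u default) hu)]
    simp only [Finset.univ_eq_empty, Finset.sum_empty, add_zero, pow_zero]
    rw [← ENNReal.ofReal_one]
    apply ENNReal.ofReal_le_ofReal
    rw [Real.exp_le_one_iff]
    nlinarith [sq_nonneg ‖v‖]
  | succ n ih =>
    intro ι _ _ hcard b H v
    have hne : (Finset.univ : Finset ι).Nonempty := by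
      rw [← Finset.card_pos, Finset.card_univ, hcard]; omega
    obtain ⟨x, -, hx⟩ := H Finset.univ hne
    set b' : {j // j ≠ x} → F := fun j => b j with hb'
    have hcard' : Fintype.card {j // j ≠ x} = n := by
      rw [Fintype.card_subtype_compl, hcard]; simp
    have H' : ∀ V : Finset {j // j ≠ x}, V.Nonempty → ∃ z ∈ V, ∀ w : {j // j ≠ x} → ℝ,
        (∀ i, i ∉ V → w i = 0) → w z = 1 → m ≤ ‖∑ i, w i • b' i‖ ^ 2 := by
      intro V hV
      obtain ⟨z, hz, hzw⟩ := H (V.map (Function.Embedding.subtype _)) (hV.map)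
      rw [Finset.mem_map] at hz
      obtain ⟨z', hz', rfl⟩ := hz
      refine ⟨z', hz', ?_⟩
      intro w hw hwz
      have hzx : (z' : ι) ≠ x := z'.2
      have := hzw (fun i => if h : i ≠ x then w ⟨i, h⟩ else 0) (by
        intro i hi
        by_cases h : i ≠ x
        · simp only [h, ne_eq, not_false_eq_true, dite_true]
          apply hw
          intro h2
          apply hi
          rw [Finset.mem_map]
          exact ⟨⟨i, h⟩, h2, rfl⟩
        · simp [h]) (by
        exact (dif_pos hzx).trans hwz)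
      refine this.trans (le_of_eq ?_)
      congr 2
      rw [Fintype.sum_eq_add_sum_subtype_ne _ x]
      simp only [ne_eq, not_true_eq_false, dite_false, zero_smul, zero_add]
      apply Finset.sum_congr rfl
      intro i _
      rw [dif_pos i.2]
    -- projection
    set W : Submodule ℝ F := Submodule.span ℝ (Set.range b') with hW
    have : FiniteDimensional ℝ W := FiniteDimensional.span_of_finite ℝ (Set.finite_range b')
    set y : F := b x - W.starProjection (b x) with hy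
    have hyW : y ∈ Wᗮ := W.sub_starProjection_mem_orthogonal (b x)
    have hym : m ≤ ‖y‖ ^ 2 := by
      have hmem : W.starProjection (b x) ∈ W := W.starProjection_apply_mem (b x)
      have hmem2 : W.starProjection (b x) ∈ Submodule.span ℝ (Set.range b') := hmem
      obtain ⟨c, hc⟩ := (Submodule.mem_span_range_iff_exists_fun ℝ).mp hmem2
      have := hx (fun i => if h : i ≠ x then - c ⟨i, h⟩ else 1) (by
        intro i hi; exact absurd (Finset.mem_univ i) hi) (by simp)
      refine this.trans (le_of_eq ?_)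
      congr 2
      rw [Fintype.sum_eq_add_sum_subtype_ne _ x]
      simp only [ne_eq, not_true_eq_false, dite_false, one_smul]
      rw [hy, sub_eq_add_neg, ← hc, ← Finset.sum_neg_distrib]
      congr 1
      apply Finset.sum_congr rfl
      intro i _
      rw [dif_pos i.2, neg_smul]
    rw [← (Equiv.funSplitAt x ℤ).symm.tsum_eq, ENNReal.tsum_prod']
    have hsplit : ∀ (a : ℤ) (u : {j // j ≠ x} → ℤ),
        v + ∑ i, (((Equiv.funSplitAt x ℤ).symm (a, u) i : ℤ) : ℝ) • b i =
        (W.starProjection (v + (a : ℝ) • b x) + ∑ i, (u i : ℝ) • b' i) +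
        ((v - W.starProjection v) + (a : ℝ) • y) := by
      intro a u
      rw [Fintype.sum_eq_add_sum_subtype_ne _ x]
      have h1 : (Equiv.funSplitAt x ℤ).symm (a, u) x = a := by
        simp [Equiv.funSplitAt]
      have h2 : ∀ i : {j // j ≠ x}, (Equiv.funSplitAt x ℤ).symm (a, u) i = u i := by
        intro i
        have : (i : ι) ≠ x := i.2
        simp [Equiv.funSplitAt, Equiv.piSplitAt, this]
      rw [h1]
      simp_rw [h2]
      rw [map_add, map_smul, hy, smul_sub]
      abel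
    have horth : ∀ (a : ℤ) (u : {j // j ≠ x} → ℤ),
        ‖v + ∑ i, (((Equiv.funSplitAt x ℤ).symm (a, u) i : ℤ) : ℝ) • b i‖ ^ 2 =
        ‖W.starProjection (v + (a : ℝ) • b x) + ∑ i, (u i : ℝ) • b' i‖ ^ 2 +
        ‖(v - W.starProjection v) + (a : ℝ) • y‖ ^ 2 := by
      intro a u
      rw [hsplit]
      have hA : W.starProjection (v + (a : ℝ) • b x) + ∑ i, (u i : ℝ) • b' i ∈ W := by
        apply W.add_mem (W.starProjection_apply_mem _)
        apply W.sum_mem
        intro i _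
        exact W.smul_mem _ (Submodule.subset_span ⟨i, rfl⟩)
      have hB : (v - W.starProjection v) + (a : ℝ) • y ∈ Wᗮ :=
        Wᗮ.add_mem (W.sub_starProjection_mem_orthogonal v) (Wᗮ.smul_mem _ hyW)
      have h0 := Submodule.inner_right_of_mem_orthogonal hA hB
      rw [norm_add_sq_real, h0]
      ring
    have hterm : ∀ (a : ℤ) (u : {j // j ≠ x} → ℤ),
        ENNReal.ofReal (rexp (-α * ‖v + ∑ i, (((Equiv.funSplitAt x ℤ).symm (a, u) i : ℤ) : ℝ) • b i‖ ^ 2))
        = ENNReal.ofReal (rexp (-α * ‖W.starProjection (v + (a : ℝ) • b x)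
          + ∑ i, (u i : ℝ) • b' i‖ ^ 2)) *
          ENNReal.ofReal (rexp (-α * ‖(v - W.starProjection v) + (a : ℝ) • y‖ ^ 2)) := by
      intro a u
      rw [horth, ← ENNReal.ofReal_mul (Real.exp_pos _).le, ← Real.exp_add]
      congr 2
      ring
    simp_rw [hterm, ENNReal.tsum_mul_right]
    calc ∑' a : ℤ, (∑' u : {j // j ≠ x} → ℤ, ENNReal.ofReal (rexp (-α *
            ‖W.starProjection (v + (a : ℝ) • b x) + ∑ i, (u i : ℝ) • b' i‖ ^ 2))) *
            ENNReal.ofReal (rexp (-α * ‖(v - W.starProjection v) + (a : ℝ) • y‖ ^ 2))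
        ≤ ∑' a : ℤ, ENNReal.ofReal (theta (α * m)) ^ n *
            ENNReal.ofReal (rexp (-α * ‖(v - W.starProjection v) + (a : ℝ) • y‖ ^ 2)) := by
          apply ENNReal.tsum_le_tsum
          intro a
          gcongr
          exact ih {j // j ≠ x} hcard' b' H' _
      _ = ENNReal.ofReal (theta (α * m)) ^ n * ∑' a : ℤ,
            ENNReal.ofReal (rexp (-α * ‖(v - W.starProjection v) + (a : ℝ) • y‖ ^ 2)) := by
          rw [ENNReal.tsum_mul_left]
      _ ≤ ENNReal.ofReal (theta (α * m)) ^ n * ENNReal.ofReal (theta (α * m)) := by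
          gcongr
          exact line_sum_le hα hm _ y hym
      _ = ENNReal.ofReal (theta (α * m)) ^ (n + 1) := by rw [pow_succ]

end Pool.Agent.MP_f7f40d_pr
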