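import Pool.Agent.MP_f7f40d_pr.Dyn
import Pool.Agent.MP_f7f40d_pr.Pivot
import Pool.Agent.MP_f7f40d_pr.Theta

set_option autoImplicit false

namespace Pool.Agent.MP_f7f40d_pr

open Function

/-- The box `[-n, n]^d`. -/
noncomputable def Bx (d n : ℕ) : Finset (Fin d → ℤ) := Fintype.piFinset fun _ => Finset.Icc (-(n : ℤ)) n

variable {d : ℕ}

theorem mem_Bx {n : ℕ} {x : Fin d → ℤ} : x ∈ Bx d n ↔ ∀ i, -(n : ℤ) ≤ x i ∧ x i ≤ n := by
  simp [Bx, Fintype.mem_piFinset, Finset.mem_Icc]

theorem card_Bx (d n : ℕ) : (Bx d n).card = (2 * n + 1) ^ d := by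
  simp only [Bx, Fintype.card_piFinset, Int.card_Icc, Finset.prod_const, Finset.card_univ,
    Fintype.card_fin]
  congr 1
  omega

theorem Bx_mono {m n : ℕ} (h : m ≤ n) : Bx d m ⊆ Bx d n := by
  intro x hx
  rw [mem_Bx] at hx ⊢
  intro i
  have := hx i
  omega

theorem add_single_mem {n : ℕ} {x : Fin d → ℤ} (hx : x ∈ Bx d n) (i : Fin d) :
    x + Pi.single i 1 ∈ Bx d (n + 1) := by
  rw [mem_Bx] at hx ⊢
  intro j
  have := hx j
  simp only [Pi.add_apply, Pi.single_apply]
  push_cast
  split_ifs <;> omega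

theorem sub_single_mem {n : ℕ} {x : Fin d → ℤ} (hx : x ∈ Bx d n) (i : Fin d) :
    x - Pi.single i 1 ∈ Bx d (n + 1) := by
  rw [mem_Bx] at hx ⊢
  intro j
  have := hx j
  simp only [Pi.sub_apply, Pi.single_apply]
  push_cast
  split_ifs <;> omega

/-- One directional telescoping. -/
theorem sum_diff_le {n t : ℕ} {o : (Fin d → ℤ) → ℤ} (h0 : ∀ x, 0 ≤ o x) (h1 : ∀ x, o x ≤ t)
    (e : (Fin d → ℤ)) (he : ∀ x ∈ Bx d n, x - e ∈ Bx d (n + 1)) :
    ∑ x ∈ Bx d (n + 1), o x - ∑ x ∈ Bx d (n + 1), o (x + e) ≤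
      t * ((Bx d (n + 1)) \ (Bx d n)).card := by
  have h2 : ∑ x ∈ Bx d (n + 1), o (x + e) =
      ∑ x ∈ (Bx d (n + 1)).image (fun x => x + e), o x := by
    rw [Finset.sum_image (fun x _ y _ h => by simpa using h)]
  have h3 : ∑ x ∈ Bx d (n + 1), o x ≤ ∑ x ∈ (Bx d (n + 1)).image (fun x => x + e), o x +
      ∑ x ∈ (Bx d (n + 1)) \ (Bx d n), o x := by
    calc ∑ x ∈ Bx d (n + 1), o x
        ≤ ∑ x ∈ (Bx d (n + 1)).image (fun x => x + e) ∪ ((Bx d (n + 1)) \ (Bx d n)), o x := by
          apply Finset.sum_le_sum_of_subset_of_nonneg _ (fun _ _ _ => h0 _)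
          intro x hx
          rw [Finset.mem_union]
          by_cases hn : x ∈ Bx d n
          · left
            rw [Finset.mem_image]
            exact ⟨x - e, he x hn, by simp⟩
          · right
            exact Finset.mem_sdiff.mpr ⟨hx, hn⟩
      _ ≤ _ := by
          have := Finset.sum_union_inter (s₁ := (Bx d (n + 1)).image (fun x => x + e))
            (s₂ := (Bx d (n + 1)) \ (Bx d n)) (f := o)
          have h5 : 0 ≤ ∑ x ∈ (Bx d (n + 1)).image (fun x => x + e) ∩ ((Bx d (n + 1)) \ (Bx d n)), o x :=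
            Finset.sum_nonneg fun _ _ => h0 _
          linarith
  have h4 : ∑ x ∈ (Bx d (n + 1)) \ (Bx d n), o x ≤ t * ((Bx d (n + 1)) \ (Bx d n)).card := by
    calc ∑ x ∈ (Bx d (n + 1)) \ (Bx d n), o x ≤ ∑ x ∈ (Bx d (n + 1)) \ (Bx d n), (t : ℤ) :=
          Finset.sum_le_sum fun x _ => h1 x
      _ = _ := by rw [Finset.sum_const, nsmul_eq_mul]; ring
  rw [h2]
  linarith

theorem sum_lap_le {n t : ℕ} {o : (Fin d → ℤ) → ℤ} (h0 : ∀ x, 0 ≤ o x) (h1 : ∀ x, o x ≤ t) :
    ∑ x ∈ Bx d (n + 1), lapZ o x ≤ 2 * d * t * ((Bx d (n + 1)) \ (Bx d n)).card := by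
  unfold lapZ
  rw [Finset.sum_comm]
  calc ∑ i : Fin d, ∑ x ∈ Bx d (n + 1), (2 * o x - o (x + Pi.single i 1) - o (x - Pi.single i 1))
      ≤ ∑ i : Fin d, (2 * (t * ((Bx d (n + 1)) \ (Bx d n)).card) : ℤ) := by
        apply Finset.sum_le_sum
        intro i _
        have a1 := sum_diff_le h0 h1 (Pi.single i 1) (n := n) (fun x hx => sub_single_mem hx i)
        have a2 := sum_diff_le h0 h1 (-Pi.single i 1) (n := n) (fun x hx => by
          rw [sub_neg_eq_add]; exact add_single_mem hx i)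
        have e : ∑ x ∈ Bx d (n + 1), (2 * o x - o (x + Pi.single i 1) - o (x - Pi.single i 1)) =
          (∑ x ∈ Bx d (n + 1), o x - ∑ x ∈ Bx d (n + 1), o (x + Pi.single i 1)) +
          (∑ x ∈ Bx d (n + 1), o x - ∑ x ∈ Bx d (n + 1), o (x + -Pi.single i 1)) := by
          rw [← Finset.sum_sub_distrib, ← Finset.sum_sub_distrib, ← Finset.sum_add_distrib]
          apply Finset.sum_congr rfl
          intro x _
          rw [← sub_eq_add_neg]
          ring
        rw [e]
        linarith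
    _ = _ := by
        rw [Finset.sum_const, Finset.card_univ, Fintype.card_fin, nsmul_eq_mul]
        ring

/-- Extension by zero of a function on the box. -/
noncomputable def ext0 {n : ℕ} (u : Bx d n → ℤ) : (Fin d → ℤ) → ℤ := fun v => if h : v ∈ Bx d n then u ⟨v, h⟩ else 0

/-- The lattice map `u ↦ Δ u` from functions on `B_n` to functions on `B_{n+1}`. -/
noncomputable def DD (d n : ℕ) (u : Bx d n → ℤ) (x : Bx d (n + 1)) : ℤ := lapZ (ext0 u) x

theorem DD_sub (n : ℕ) (a b : Bx d n → ℤ) (x : Bx d (n + 1)) :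
    DD d n (a - b) x = DD d n a x - DD d n b x := by
  unfold DD lapZ
  rw [← Finset.sum_sub_distrib]
  apply Finset.sum_congr rfl
  intro i _
  have : ∀ v, ext0 (a - b) v = ext0 a v - ext0 b v := by
    intro v
    unfold ext0
    by_cases h : v ∈ Bx d n
    · simp [h]
    · simp [h]
  rw [this, this, this]
  ring

/-- The decomposition of a configuration at time `t`. -/
theorem decomposition (A : (Fin d → ℤ) → ℤ) (t n : ℕ) :
    ∃ b : (Fin d → ℤ) → ℤ, (∀ x, |b x| ≤ 2 * d * t) ∧ (∀ x ∈ Bx d (n - 1), 1 ≤ n → b x = 0) ∧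
      ∀ x : Bx d (n + 1), A x = (step d)^[t] A x + b x +
        DD d n (fun v => odo A t v) x := by
  set o := odo A t with ho
  set f : (Fin d → ℤ) → ℤ := fun v => if v ∈ Bx d n then 0 else o v with hf
  have hf0 : ∀ v, 0 ≤ f v := by
    intro v; simp only [hf]; split_ifs; exact le_rfl; exact odo_nonneg _ _ _
  have hf1 : ∀ v, f v ≤ t := by
    intro v; simp only [hf]; split_ifs; exact Int.natCast_nonneg t; exact odo_le _ _ _
  refine ⟨lapZ f, ?_, ?_, ?_⟩
  · intro x
    unfold lapZ
    refine (Finset.abs_sum_le_sum_abs _ _).trans ?_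
    calc ∑ i : Fin d, |2 * f x - f (x + Pi.single i 1) - f (x - Pi.single i 1)|
        ≤ ∑ i : Fin d, (2 * t : ℤ) := by
          apply Finset.sum_le_sum
          intro i _
          have h1 := hf0 x; have h2 := hf1 x
          have h3 := hf0 (x + Pi.single i 1); have h4 := hf1 (x + Pi.single i 1)
          have h5 := hf0 (x - Pi.single i 1); have h6 := hf1 (x - Pi.single i 1)
          rw [abs_le]
          constructor <;> linarith
      _ = 2 * d * t := by
          rw [Finset.sum_const, Finset.card_univ, Fintype.card_fin, nsmul_eq_mul]; ring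
  · intro x hx hn
    unfold lapZ
    apply Finset.sum_eq_zero
    intro i _
    have e : n - 1 + 1 = n := by omega
    have h1 : x + Pi.single i 1 ∈ Bx d n := by
      have := add_single_mem hx i; rwa [e] at this
    have h2 : x - Pi.single i 1 ∈ Bx d n := by
      have := sub_single_mem hx i; rwa [e] at this
    have h3 : x ∈ Bx d n := Bx_mono (by omega) hx
    simp only [hf, h1, h2, h3, if_true]
    ring
  · intro x
    rw [eta_eq A t x]
    have hsplit : ∀ v, o v = f v + ext0 (fun v : Bx d n => o v) v := by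
      intro v
      simp only [hf, ext0]
      by_cases h : v ∈ Bx d n
      · simp [h]
      · simp [h]
    have : lapZ o x = lapZ f x + lapZ (ext0 (fun v : Bx d n => o v)) x := by
      rw [← lapZ_add]
      congr 1
      funext v
      exact hsplit v
    unfold DD
    rw [← ho, this]
    ring

/-- The pivot hypothesis in dimension `d`. -/
def PivotHyp (d : ℕ) (m : ℝ) : Prop :=
  ∀ V : Finset (Fin d → ℤ), V.Nonempty → ∃ x ∈ V, ∀ w : FE d, w.support ⊆ V → w x = 1 →
    m ≤ ip d (lapF d w) (lapF d w)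

theorem pivotHyp_piv (d : ℕ) : PivotHyp d ((piv d 0) ^ 2) := by
  intro V hV
  obtain ⟨x, hx, h⟩ := pivot_aux d 0 le_rfl V hV
  refine ⟨x, hx, ?_⟩
  intro w hw hwx
  have := h w hw hwx
  simpa using this

/-- The lattice sum over the Laplacian lattice of a box. -/
theorem box_lattice_sum {m α : ℝ} (hm : 0 < m) (hα : 0 < α) (hp : PivotHyp d m) (n : ℕ) :
    ∑' u : Bx d n → ℤ, ENNReal.ofReal (Real.exp (-α * ∑ x : Bx d (n + 1), (DD d n u x : ℝ) ^ 2)) ≤
      ENNReal.ofReal (theta (α * m)) ^ (Bx d n).card := by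
  classical
  set b : Bx d n → EuclideanSpace ℝ (Bx d (n + 1)) := fun i =>
    WithLp.toLp 2 fun x => (DD d n (Pi.single i 1) x : ℝ) with hb
  -- linear expansion
  have hlin : ∀ (w : Bx d n → ℝ) (x : Bx d (n + 1)), (∑ i, w i • b i) x =
      ∑ j : Fin d, (2 * (if h : (x : Fin d → ℤ) ∈ Bx d n then w ⟨x, h⟩ else 0)
        - (if h : (x : Fin d → ℤ) + Pi.single j 1 ∈ Bx d n then w ⟨_, h⟩ else 0)
        - (if h : (x : Fin d → ℤ) - Pi.single j 1 ∈ Bx d n then w ⟨_, h⟩ else 0)) := by
    intro w x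
    have h1 : (∑ i, w i • b i) x = ∑ i, w i * (DD d n (Pi.single i 1) x : ℝ) := by
      simp [hb]
    rw [h1]
    have h2 : ∀ v : Fin d → ℤ, ∑ i : Bx d n, w i * ((ext0 (Pi.single i 1 : Bx d n → ℤ) v : ℤ) : ℝ) =
        if h : v ∈ Bx d n then w ⟨v, h⟩ else 0 := by
      intro v
      unfold ext0
      by_cases h : v ∈ Bx d n
      · simp only [h, dite_true]
        rw [Finset.sum_eq_single ⟨v, h⟩]
        · simp
        · intro i _ hi
          rw [Pi.single_apply, if_neg (fun hh => hi hh.symm)]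
          simp
        · intro hh; exact absurd (Finset.mem_univ _) hh
      · simp [h]
    simp_rw [← h2]
    unfold DD lapZ
    push_cast
    simp_rw [Finset.mul_sum]
    rw [Finset.sum_comm]
    apply Finset.sum_congr rfl
    intro j _
    rw [← Finset.sum_sub_distrib, ← Finset.sum_sub_distrib]
    apply Finset.sum_congr rfl
    intro i _
    ring
  have hint : ∀ u : Bx d n → ℤ, ‖(0 : EuclideanSpace ℝ (Bx d (n + 1))) + ∑ i, (u i : ℝ) • b i‖ ^ 2 =
      ∑ x : Bx d (n + 1), (DD d n u x : ℝ) ^ 2 := by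
    intro u
    rw [zero_add, EuclideanSpace.norm_sq_eq]
    apply Finset.sum_congr rfl
    intro x _
    rw [Real.norm_eq_abs, sq_abs, hlin]
    congr 1
    unfold DD lapZ ext0
    push_cast
    apply Finset.sum_congr rfl
    intro j _
    split_ifs <;> simp
  have H : ∀ V : Finset (Bx d n), V.Nonempty → ∃ x ∈ V, ∀ w : Bx d n → ℝ,
      (∀ i, i ∉ V → w i = 0) → w x = 1 → m ≤ ‖∑ i, w i • b i‖ ^ 2 := by
    intro V hV
    obtain ⟨z, hz, hzw⟩ := hp (V.map (Embedding.subtype _)) hV.map
    rw [Finset.mem_map] at hz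
    obtain ⟨z', hz', rfl⟩ := hz
    refine ⟨z', hz', ?_⟩
    intro w hw hwz
    set w' : FE d := Finsupp.onFinset (Bx d n)
      (fun v => if h : v ∈ Bx d n then w ⟨v, h⟩ else 0) (by
        intro v hv
        by_contra h
        apply hv
        simp [h]) with hw'
    have hw'a : ∀ v, w' v = if h : v ∈ Bx d n then w ⟨v, h⟩ else 0 := fun v => rfl
    have h1 := hzw w' (by
      intro v hv
      rw [Finsupp.mem_support_iff, hw'a] at hv
      have hvn : v ∈ Bx d n := by
        by_contra h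
        apply hv
        simp [h]
      rw [dif_pos hvn] at hv
      rw [Finset.mem_map]
      refine ⟨⟨v, hvn⟩, ?_, rfl⟩
      by_contra h
      exact hv (hw _ h)) (by
      rw [hw'a]
      rw [Embedding.coe_subtype, dif_pos z'.2]
      exact hwz)
    refine h1.trans (le_of_eq ?_)
    rw [EuclideanSpace.norm_sq_eq, ip_eq_sum _ _ (Bx d (n + 1))]
    · rw [← Finset.sum_coe_sort (Bx d (n + 1))]
      apply Finset.sum_congr rfl
      intro x _
      rw [Real.norm_eq_abs, sq_abs, hlin, lapF_apply]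
      simp_rw [hw'a]
      rw [← sq]
      congr 1
      apply Finset.sum_congr rfl
      intro j _
      ring
    · intro v hv
      rw [Finsupp.mem_support_iff] at hv
      by_contra hcon
      apply hv
      rw [lapF_apply]
      apply Finset.sum_eq_zero
      intro j _
      have a0 : v ∉ Bx d n := fun h => hcon (Bx_mono (by omega) h)
      have a1 : v - Pi.single j 1 ∉ Bx d n := fun h => hcon (by
        have := add_single_mem h j; simpa using this)
      have a2 : v + Pi.single j 1 ∉ Bx d n := fun h => hcon (by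
        have := sub_single_mem h j; simpa using this)
      simp [hw'a, a0, a1, a2]
  have := lattice_sum_le hα hm (Fintype.card (Bx d n)) (Bx d n) rfl b H 0
  simp_rw [hint] at this
  rwa [Fintype.card_coe] at this

end Pool.Agent.MP_f7f40d_pr
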