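import Pool.Agent.MP_f7f40d_pr.Dom

set_option autoImplicit false

namespace Pool.Agent.MP_f7f40d_pr

open MeasureTheory Filter Topology
open scoped Real Nat ENNReal NNReal

/-- Product of sums in `ℝ≥0∞`. -/
theorem tsum_pi_prod {α : Type} : ∀ (n : ℕ) (ι : Type) [Fintype ι] [DecidableEq ι],
    Fintype.card ι = n → ∀ h : ι → α → ℝ≥0∞,
    ∑' a : ι → α, ∏ x, h x (a x) = ∏ x, ∑' y, h x y := by
  intro n
  induction n with
  | zero =>
    intro ι _ _ hcard h
    have : IsEmpty ι := Fintype.card_eq_zero_iff.mp hcard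
    rw [tsum_eq_single (fun i => isEmptyElim i)
      (by intro u hu; exact absurd (Subsingleton.elim u _) hu)]
    simp
  | succ n ih =>
    intro ι _ _ hcard h
    obtain ⟨x⟩ : Nonempty ι := by
      rw [← Fintype.card_pos_iff, hcard]; omega
    have hcard' : Fintype.card {j // j ≠ x} = n := by
      rw [Fintype.card_subtype_compl, hcard]; simp
    rw [← (Equiv.funSplitAt x α).symm.tsum_eq, ENNReal.tsum_prod']
    have hterm : ∀ (a : α) (u : {j // j ≠ x} → α),
        ∏ i, h i ((Equiv.funSplitAt x α).symm (a, u) i) =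
        h x a * ∏ i : {j // j ≠ x}, h i (u i) := by
      intro a u
      rw [Fintype.prod_eq_mul_prod_subtype_ne _ x]
      have h1 : (Equiv.funSplitAt x α).symm (a, u) x = a := by
        simp [Equiv.funSplitAt]
      have h2 : ∀ i : {j // j ≠ x}, (Equiv.funSplitAt x α).symm (a, u) i = u i := by
        intro i
        have : (i : ι) ≠ x := i.2
        simp [Equiv.funSplitAt, Equiv.piSplitAt, this]
      rw [h1]
      simp_rw [h2]
    simp_rw [hterm, ENNReal.tsum_mul_left, ENNReal.tsum_mul_right]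
    rw [ih {j // j ≠ x} hcard' (fun i => h i), Fintype.prod_eq_mul_prod_subtype_ne _ x]

/-- `ℝ≥0∞` valued Poisson weight. -/
noncomputable def pwE (lam : ℝ) (n : ℕ) : ℝ≥0∞ := ENNReal.ofReal (pw lam n)

theorem pf_ofReal {lam : ℝ} (h : 0 ≤ lam) (k : ℤ) :
    ENNReal.ofReal (pf lam k) = ∑' q : ℕ × ℕ,
      if (q.1 : ℤ) - q.2 = k then pwE lam q.1 * pwE lam q.2 else 0 := by
  unfold pf
  rw [ENNReal.ofReal_tsum_of_nonneg _ (summable_pf h k)]
  · apply tsum_congr
    intro q
    split_ifs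
    · rw [ENNReal.ofReal_mul (pw_nonneg h _)]; rfl
    · simp
  · intro q
    split_ifs
    · exact mul_nonneg (pw_nonneg h _) (pw_nonneg h _)
    · exact le_rfl

/-- The probability that two independent configurations differ by a prescribed vector. -/
theorem pair_diff {ι : Type} [Fintype ι] [DecidableEq ι] {lam : ℝ} (h : 0 ≤ lam) (k : ι → ℤ) :
    ∑' q : (ι → ℕ) × (ι → ℕ), (if (∀ x, (q.1 x : ℤ) - q.2 x = k x) then
      (∏ x, pwE lam (q.1 x)) * ∏ x, pwE lam (q.2 x) else 0) =
    ENNReal.ofReal (∏ x, pf lam (k x)) := by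
  rw [ENNReal.ofReal_prod_of_nonneg (fun x _ => pf_nonneg h _)]
  simp_rw [pf_ofReal h]
  rw [← tsum_pi_prod (Fintype.card ι) ι rfl (fun x (q : ℕ × ℕ) =>
    if (q.1 : ℤ) - q.2 = k x then pwE lam q.1 * pwE lam q.2 else 0),
    ← (Equiv.arrowProdEquivProdArrow ι (fun _ => ℕ) (fun _ => ℕ)).tsum_eq]
  apply tsum_congr
  intro a
  have e1 : ∀ x, (Equiv.arrowProdEquivProdArrow ι (fun _ => ℕ) (fun _ => ℕ) a).1 x = (a x).1 :=
    fun x => rfl
  have e2 : ∀ x, (Equiv.arrowProdEquivProdArrow ι (fun _ => ℕ) (fun _ => ℕ) a).2 x = (a x).2 :=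
    fun x => rfl
  simp only [e1, e2]
  by_cases hc : ∀ x, ((a x).1 : ℤ) - (a x).2 = k x
  · rw [if_pos hc, ← Finset.prod_mul_distrib]
    apply Finset.prod_congr rfl
    intro x _
    rw [if_pos (hc x)]
  · rw [if_neg hc]
    push Not at hc
    obtain ⟨x, hx⟩ := hc
    symm
    apply Finset.prod_eq_zero (Finset.mem_univ x)
    rw [if_neg hx]

/-- The product Poisson law on a finite index set. -/
noncomputable def PP (ι : Type) [Fintype ι] (lam : ℝ≥0) : Measure (ι → ℕ) :=
  Measure.pi fun _ => ProbabilityTheory.poissonMeasure lam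

instance (ι : Type) [Fintype ι] (lam : ℝ≥0) : IsProbabilityMeasure (PP ι lam) := by
  unfold PP; infer_instance

theorem PP_singleton {ι : Type} [Fintype ι] (lam : ℝ≥0) (a : ι → ℕ) :
    PP ι lam {a} = ∏ x, pwE lam (a x) := by
  unfold PP
  rw [Measure.pi_singleton]
  apply Finset.prod_congr rfl
  intro x _
  rw [ProbabilityTheory.poissonMeasure_singleton]
  rfl

theorem PP_apply {ι : Type} [Fintype ι] (lam : ℝ≥0) (E : Set (ι → ℕ)) :
    PP ι lam E = ∑' a, E.indicator (fun a => ∏ x, pwE lam (a x)) a := by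
  rw [← Measure.tsum_indicator_apply_singleton _ E (Set.to_countable E).measurableSet]
  apply tsum_congr
  intro a
  by_cases ha : a ∈ E
  · rw [Set.indicator_of_mem ha, Set.indicator_of_mem ha, PP_singleton]
  · rw [Set.indicator_of_notMem ha, Set.indicator_of_notMem ha]

/-- The collision bound. -/
theorem collision {ι κ' : Type} [Fintype ι] [DecidableEq ι] (lam : ℝ≥0)
    (D : (κ' → ℤ) → ι → ℤ) (hD : ∀ a b x, D (a - b) x = D a x - D b x)
    (S : Finset (ι → ℤ)) (E : Set (ι → ℕ))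
    (hE : ∀ a ∈ E, ∃ s ∈ S, ∃ u, ∀ x, (a x : ℤ) = s x + D u x) :
    (PP ι lam E) ^ 2 ≤ S.card * ∑' u, ENNReal.ofReal (∏ x, pf lam (D u x)) := by
  classical
  set P : (ι → ℕ) → ℝ≥0∞ := fun a => ∏ x, pwE lam (a x) with hP
  -- choose the representative
  have hch : ∀ a : ι → ℕ, ∃ s : ι → ℤ, a ∈ E → s ∈ S ∧ ∃ u, ∀ x, (a x : ℤ) = s x + D u x := by
    intro a
    by_cases ha : a ∈ E
    · obtain ⟨s, hs, hu⟩ := hE a ha
      exact ⟨s, fun _ => ⟨hs, hu⟩⟩
    · exact ⟨0, fun h => absurd h ha⟩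
  choose sr hsr using hch
  set Es : (ι → ℤ) → Set (ι → ℕ) := fun s => {a | a ∈ E ∧ sr a = s} with hEs
  have hcover : PP ι lam E ≤ ∑ s ∈ S, PP ι lam (Es s) := by
    have : E ⊆ ⋃ s ∈ S, Es s := by
      intro a ha
      simp only [Set.mem_iUnion, hEs, Set.mem_ofPred_eq, exists_prop]
      exact ⟨sr a, (hsr a ha).1, ha, rfl⟩
    exact (measure_mono this).trans (measure_biUnion_finset_le _ _)
  have hreal : ((∑ s ∈ S, PP ι lam (Es s)) ^ 2 : ℝ≥0∞) ≤ S.card * ∑ s ∈ S, (PP ι lam (Es s)) ^ 2 := by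
    have hfin : ∀ s, PP ι lam (Es s) ≠ ⊤ := fun s => measure_ne_top _ _
    have h1 := sq_sum_le_card_mul_sum_sq (s := S) (f := fun s => (PP ι lam (Es s)).toReal)
    have h2 : ∑ s ∈ S, PP ι lam (Es s) =
        ENNReal.ofReal (∑ s ∈ S, (PP ι lam (Es s)).toReal) := by
      rw [ENNReal.ofReal_sum_of_nonneg (fun _ _ => ENNReal.toReal_nonneg)]
      exact Finset.sum_congr rfl fun s _ => (ENNReal.ofReal_toReal (hfin s)).symm
    have h3 : ∑ s ∈ S, (PP ι lam (Es s)) ^ 2 =
        ENNReal.ofReal (∑ s ∈ S, (PP ι lam (Es s)).toReal ^ 2) := by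
      rw [ENNReal.ofReal_sum_of_nonneg (fun _ _ => by positivity)]
      refine Finset.sum_congr rfl fun s _ => ?_
      rw [ENNReal.ofReal_pow ENNReal.toReal_nonneg, ENNReal.ofReal_toReal (hfin s)]
    rw [h2, h3, ← ENNReal.ofReal_pow (Finset.sum_nonneg fun _ _ => ENNReal.toReal_nonneg),
      ← ENNReal.ofReal_natCast, ← ENNReal.ofReal_mul (by positivity)]
    exact ENNReal.ofReal_le_ofReal h1
  have hsq : ∑ s ∈ S, (PP ι lam (Es s)) ^ 2 ≤
      ∑' u, ENNReal.ofReal (∏ x, pf lam (D u x)) := by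
    have e1 : ∀ s, (PP ι lam (Es s)) ^ 2 = ∑' q : (ι → ℕ) × (ι → ℕ),
        (Es s).indicator P q.1 * (Es s).indicator P q.2 := by
      intro s
      rw [PP_apply, sq, ENNReal.tsum_prod', ← ENNReal.tsum_mul_right]
      apply tsum_congr
      intro a
      exact ENNReal.tsum_mul_left.symm
    simp_rw [e1, ← pair_diff (NNReal.coe_nonneg lam)]
    rw [← Summable.tsum_finsetSum (fun _ _ => ENNReal.summable), ENNReal.tsum_comm]
    apply ENNReal.tsum_le_tsum
    intro q
    by_cases hq : q.1 ∈ E ∧ q.2 ∈ E ∧ sr q.1 = sr q.2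
    · obtain ⟨h1, h2, h3⟩ := hq
      obtain ⟨-, u1, hu1⟩ := hsr _ h1
      obtain ⟨-, u2, hu2⟩ := hsr _ h2
      have hu : ∀ x, (q.1 x : ℤ) - q.2 x = D (u1 - u2) x := by
        intro x
        rw [hD, hu1 x, hu2 x, h3]
        ring
      calc ∑ s ∈ S, (Es s).indicator P q.1 * (Es s).indicator P q.2 ≤ P q.1 * P q.2 := by
            have : ∀ s ∈ S, s ≠ sr q.1 →
                (Es s).indicator P q.1 * (Es s).indicator P q.2 = 0 := by
              intro s _ hs
              have : q.1 ∉ Es s := fun h => hs h.2.symm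
              rw [Set.indicator_of_notMem this, zero_mul]
            by_cases hS : sr q.1 ∈ S
            · rw [Finset.sum_eq_single_of_mem _ hS this]
              gcongr
              · exact Set.indicator_le_self _ _ _
              · exact Set.indicator_le_self _ _ _
            · rw [Finset.sum_eq_zero]
              · exact zero_le
              · intro s hs
                exact this s hs (fun h => hS (h ▸ hs))
        _ ≤ ∑' u, (if (∀ x, (q.1 x : ℤ) - q.2 x = D u x) then P q.1 * P q.2 else 0) := by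
            refine le_trans ?_ (ENNReal.le_tsum (u1 - u2))
            rw [if_pos hu]
    · have : ∑ s ∈ S, (Es s).indicator P q.1 * (Es s).indicator P q.2 = 0 := by
        apply Finset.sum_eq_zero
        intro s _
        by_contra hne
        apply hq
        have h1 : q.1 ∈ Es s := by
          by_contra h; apply hne; rw [Set.indicator_of_notMem h, zero_mul]
        have h2 : q.2 ∈ Es s := by
          by_contra h; apply hne; rw [Set.indicator_of_notMem h, mul_zero]
        exact ⟨h1.1, h2.1, h1.2.trans h2.2.symm⟩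
      rw [this]
      exact zero_le
  calc (PP ι lam E) ^ 2 ≤ (∑ s ∈ S, PP ι lam (Es s)) ^ 2 := by gcongr
    _ ≤ S.card * ∑ s ∈ S, (PP ι lam (Es s)) ^ 2 := hreal
    _ ≤ _ := by gcongr

end Pool.Agent.MP_f7f40d_pr
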