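import Pool.Agent.MP_f7f40d_pr.Coll
import Pool.Agent.MP_f7f40d_pr.Box

set_option autoImplicit false

namespace Pool.Agent.MP_f7f40d_pr

open MeasureTheory Filter Topology
open scoped Real Nat ENNReal NNReal

/-- The weight of a height: `z` per missing grain, `y` per excess grain (relative to `L`). -/
noncomputable def wt (L : ℕ) (z y : ℝ) (k : ℕ) : ℝ := z ^ (L - k) * y ^ (k - L)

/-- The total weight. -/
noncomputable def WW (L : ℕ) (z y : ℝ) : ℝ := (∑ j ∈ Finset.range (L + 1), z ^ j) + y / (1 - y)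

theorem hasSum_wt (L : ℕ) (z : ℝ) {y : ℝ} (hy0 : 0 < y) (hy1 : y < 1) :
    HasSum (wt L z y) (WW L z y) := by
  have h1 : HasSum (fun n => wt L z y (n + (L + 1))) (y / (1 - y)) := by
    have h2 : ∀ n, wt L z y (n + (L + 1)) = y * y ^ n := by
      intro n
      unfold wt
      rw [show L - (n + (L + 1)) = 0 by omega, show n + (L + 1) - L = n + 1 by omega, pow_zero,
        one_mul, pow_succ]
      ring
    simp_rw [h2, div_eq_mul_inv]
    exact (hasSum_geometric_of_lt_one hy0.le hy1).mul_left y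
  have h3 := (hasSum_nat_add_iff (L + 1)).mp h1
  have e : WW L z y = y / (1 - y) + ∑ i ∈ Finset.range (L + 1), wt L z y i := by
    unfold WW
    rw [add_comm]
    congr 1
    rw [← Finset.sum_range_reflect]
    apply Finset.sum_congr rfl
    intro j hj
    rw [Finset.mem_range] at hj
    unfold wt
    rw [show j - L = 0 by omega, pow_zero, mul_one]
    congr 1
  rw [e]
  exact h3

theorem WW_pos (L : ℕ) {z y : ℝ} (hz0 : 0 < z) (hy0 : 0 < y) (hy1 : y < 1) : 0 < WW L z y := by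
  unfold WW
  have h1 : 0 < ∑ j ∈ Finset.range (L + 1), z ^ j :=
    Finset.sum_pos (fun j _ => by positivity) ⟨0, by simp⟩
  have h2 : 0 < y / (1 - y) := div_pos hy0 (by linarith)
  linarith

theorem count_le {ι : Type} [Fintype ι] [DecidableEq ι] (L : ℕ) {z y : ℝ} (hz0 : 0 < z)
    (hz1 : z ≤ 1) (hy0 : 0 < y) (hy1 : y < 1) (H : Finset (ι → ℕ)) (α β : ℝ)
    (hH : ∀ η ∈ H, ((∑ x, (L - η x) : ℕ) : ℝ) ≤ α ∧ ((∑ x, (η x - L) : ℕ) : ℝ) ≤ β) :
    (H.card : ℝ≥0∞) ≤ ENNReal.ofReal (WW L z y) ^ Fintype.card ι *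
      ENNReal.ofReal (z ^ (-α) * y ^ (-β)) := by
  have hpos : 0 < z ^ α * y ^ β := by positivity
  have key : (H.card : ℝ≥0∞) * ENNReal.ofReal (z ^ α * y ^ β) ≤
      ENNReal.ofReal (WW L z y) ^ Fintype.card ι := by
    calc (H.card : ℝ≥0∞) * ENNReal.ofReal (z ^ α * y ^ β)
        = ∑ η ∈ H, ENNReal.ofReal (z ^ α * y ^ β) := by rw [Finset.sum_const, nsmul_eq_mul]
      _ ≤ ∑ η ∈ H, ∏ x, ENNReal.ofReal (wt L z y (η x)) := by
          apply Finset.sum_le_sum
          intro η hη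
          obtain ⟨h1, h2⟩ := hH η hη
          rw [← ENNReal.ofReal_prod_of_nonneg (fun x _ => by unfold wt; positivity)]
          apply ENNReal.ofReal_le_ofReal
          unfold wt
          rw [Finset.prod_mul_distrib, Finset.prod_pow_eq_pow_sum, Finset.prod_pow_eq_pow_sum,
            ← Real.rpow_natCast z, ← Real.rpow_natCast y]
          apply mul_le_mul
          · exact Real.rpow_le_rpow_of_exponent_ge hz0 hz1 h1
          · exact Real.rpow_le_rpow_of_exponent_ge hy0 hy1.le h2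
          · positivity
          · positivity
      _ ≤ ∑' η : ι → ℕ, ∏ x, ENNReal.ofReal (wt L z y (η x)) := ENNReal.sum_le_tsum H
      _ = ∏ x : ι, ∑' k, ENNReal.ofReal (wt L z y k) :=
          tsum_pi_prod (Fintype.card ι) ι rfl (fun _ k => ENNReal.ofReal (wt L z y k))
      _ = ENNReal.ofReal (WW L z y) ^ Fintype.card ι := by
          rw [Finset.prod_const, Finset.card_univ,
            ← ENNReal.ofReal_tsum_of_nonneg (fun k => by unfold wt; positivity)
              (hasSum_wt L z hy0 hy1).summable, (hasSum_wt L z hy0 hy1).tsum_eq]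
  have hinv : ENNReal.ofReal (z ^ α * y ^ β) * ENNReal.ofReal (z ^ (-α) * y ^ (-β)) = 1 := by
    rw [← ENNReal.ofReal_mul hpos.le, Real.rpow_neg hz0.le, Real.rpow_neg hy0.le,
      ← ENNReal.ofReal_one]
    congr 1
    have h1 : z ^ α ≠ 0 := by positivity
    have h2 : y ^ β ≠ 0 := by positivity
    field_simp
  calc (H.card : ℝ≥0∞) = H.card * (ENNReal.ofReal (z ^ α * y ^ β) *
        ENNReal.ofReal (z ^ (-α) * y ^ (-β))) := by rw [hinv, mul_one]
    _ = (H.card * ENNReal.ofReal (z ^ α * y ^ β)) * ENNReal.ofReal (z ^ (-α) * y ^ (-β)) := by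
        rw [mul_assoc]
    _ ≤ _ := by gcongr

/-- The number of vertices of `B_{n+1}` outside `B_{n-1}`. -/
noncomputable def bd (d n : ℕ) : ℕ := (Bx d (n + 1) \ Bx d (n - 1)).card

theorem bd_le (d n : ℕ) : bd d n ≤ (Bx d (n + 1)).card :=
  Finset.card_le_card Finset.sdiff_subset

theorem bd_ratio (d : ℕ) : Tendsto (fun n : ℕ => (bd d n : ℝ) / ((Bx d (n + 1)).card : ℝ)) atTop
    (𝓝 0) := by
  have h1 : Tendsto (fun n : ℕ => 1 - (1 - 4 / (2 * (n : ℝ) + 3)) ^ d) atTop (𝓝 (1 - (1 - 0) ^ d)) := by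
    apply Tendsto.sub tendsto_const_nhds
    apply Tendsto.pow
    apply Tendsto.sub tendsto_const_nhds
    apply Tendsto.div_atTop tendsto_const_nhds
    apply tendsto_atTop_add_const_right
    exact Tendsto.const_mul_atTop (by norm_num) tendsto_natCast_atTop_atTop
  simp only [sub_zero, one_pow, sub_self] at h1
  refine h1.congr' ?_
  filter_upwards [eventually_ge_atTop 1] with n hn
  have hsub : Bx d (n - 1) ⊆ Bx d (n + 1) := Bx_mono (by omega)
  have hc : (bd d n : ℝ) = ((Bx d (n + 1)).card : ℝ) - (Bx d (n - 1)).card := by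
    unfold bd
    rw [Finset.card_sdiff_of_subset hsub, Nat.cast_sub (Finset.card_le_card hsub)]
  rw [hc, card_Bx, card_Bx]
  push_cast [Nat.cast_sub hn]
  have h3 : (2 * ((n : ℝ) + 1) + 1) = 2 * n + 3 := by ring
  have h4 : (2 * ((n : ℝ) - 1) + 1) = 2 * n - 1 := by ring
  rw [h3, h4]
  have h5 : (0 : ℝ) < 2 * n + 3 := by positivity
  have h6 : 1 - 4 / (2 * (n : ℝ) + 3) = (2 * n - 1) / (2 * n + 3) := by
    field_simp; ring
  rw [h6, div_pow, sub_div, div_self (by positivity)]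

theorem bd_eventually (d : ℕ) {K : ℝ} : ∀ᶠ n : ℕ in atTop,
    K * (bd d n : ℝ) ≤ ((Bx d (n + 1)).card : ℝ) := by
  rcases le_or_gt K 0 with hK | hK
  · refine Eventually.of_forall fun n => ?_
    have : K * (bd d n : ℝ) ≤ 0 := mul_nonpos_of_nonpos_of_nonneg hK (Nat.cast_nonneg _)
    exact this.trans (Nat.cast_nonneg _)
  · have h := (bd_ratio d).eventually (gt_mem_nhds (show (0 : ℝ) < 1 / K by positivity))
    filter_upwards [h] with n hn
    have hN : (0 : ℝ) < ((Bx d (n + 1)).card : ℝ) := by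
      rw [card_Bx]; positivity
    rw [div_lt_div_iff₀ hN hK] at hn
    linarith

theorem decay (d : ℕ) (hd : 1 ≤ d) {M q : ℝ} (hM : 1 ≤ M) (hq0 : 0 < q) (hq1 : q < 1) :
    Tendsto (fun n : ℕ => M ^ (bd d n) * q ^ (Bx d (n + 1)).card) atTop (𝓝 0) := by
  obtain ⟨k, hk⟩ : ∃ k : ℕ, M * q ^ k ≤ 1 := by
    obtain ⟨k, hk⟩ := exists_pow_lt_of_lt_one (show (0 : ℝ) < 1 / M by positivity) hq1
    refine ⟨k, ?_⟩
    rw [lt_div_iff₀ (by positivity)] at hk
    linarith
  have hlim : Tendsto (fun n : ℕ => q ^ (n / 2)) atTop (𝓝 0) :=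
    (tendsto_pow_atTop_nhds_zero_of_lt_one hq0.le hq1).comp
      (Nat.tendsto_div_const_atTop (by norm_num))
  refine squeeze_zero' (Eventually.of_forall fun n => by positivity) ?_ hlim
  filter_upwards [bd_eventually d (K := 2 * k)] with n hn
  set b := bd d n
  set N := (Bx d (n + 1)).card with hN
  have h1 : 2 * k * b ≤ N := by exact_mod_cast hn
  have hNn : n ≤ N := by
    rw [hN, card_Bx]
    calc n ≤ 2 * (n + 1) + 1 := by omega
      _ = (2 * (n + 1) + 1) ^ 1 := (pow_one _).symm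
      _ ≤ (2 * (n + 1) + 1) ^ d := Nat.pow_le_pow_right (by omega) hd
  have h2 : N = k * b + (N - k * b) := by
    have : k * b ≤ N := by nlinarith
    omega
  have h3 : n / 2 ≤ N - k * b := by
    have h4 : 2 * (k * b) ≤ N := by rw [← mul_assoc]; exact h1
    omega
  calc M ^ b * q ^ N = (M * q ^ k) ^ b * q ^ (N - k * b) := by
        conv_lhs => rw [h2, pow_add, pow_mul]
        rw [mul_pow]; ring
    _ ≤ 1 * q ^ (N - k * b) := by
        gcongr
        exact pow_le_one₀ (by positivity) hk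
    _ = q ^ (N - k * b) := one_mul _
    _ ≤ q ^ (n / 2) := pow_le_pow_of_le_one hq0.le hq1.le h3

end Pool.Agent.MP_f7f40d_pr
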