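import Pool.Agent.MP_f7f40d_pr.Dyn

set_option autoImplicit false

namespace Pool.Agent.MP_f7f40d_pr

open MeasureTheory ProbabilityTheory

/-- The probability that the i.i.d. Poisson configuration of mean `lam` percolates on `ℤ^d`. -/
noncomputable def percProb (d : ℕ) (lam : ℝ) : ENNReal :=
  Measure.infinitePi (fun _ : Fin d → ℤ => poissonMeasure lam.toNNReal)
    {A : (Fin d → ℤ) → ℕ | Percolates d fun v => (A v : ℤ)}

/-- The critical density: the infimum of the `lam > 0` with almost sure percolation. -/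
noncomputable def critDensity (d : ℕ) : ℝ :=
  sInf {lam : ℝ | 0 < lam ∧ percProb d lam = 1}

theorem critDensity_le {d : ℕ} {lam : ℝ} (h0 : 0 < lam) (h : percProb d lam = 1) :
    critDensity d ≤ lam :=
  csInf_le ⟨0, fun _ hx => hx.1.le⟩ ⟨h0, h⟩

end Pool.Agent.MP_f7f40d_pr
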