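import Pool.Agent.MP_f7f40d_pr.Pois

set_option autoImplicit false

namespace Pool.Agent.MP_f7f40d_pr

open MeasureTheory Complex Filter Topology
open scoped Real Nat

theorem fc_gauss {κ : ℝ} (hκ : 0 < κ) (k : ℤ) :
    fc (fun θ => Real.exp (-κ * θ ^ 2)) k =
      ((Real.sqrt (π / κ) * Real.exp (-(π ^ 2 / κ) * (k : ℝ) ^ 2) : ℝ) : ℂ) := by
  have hb : 0 < ((κ : ℝ) : ℂ).re := by simpa using hκ
  have h := fourierIntegral_gaussian hb (2 * π * k)
  unfold fc
  have e : ∀ θ : ℝ, ((Real.exp (-κ * θ ^ 2) : ℝ) : ℂ) * cexp (2 * π * k * θ * I) =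
      cexp (I * (2 * π * k) * θ) * cexp (-(κ : ℂ) * θ ^ 2) := by
    intro θ
    rw [Complex.ofReal_exp, mul_comm]
    push_cast
    congr 2
    ring
  simp_rw [e]
  rw [h]
  have hκc : (κ : ℂ) ≠ 0 := by exact_mod_cast hκ.ne'
  have e1 : ((π : ℂ) / κ) ^ (1 / 2 : ℂ) = ((Real.sqrt (π / κ) : ℝ) : ℂ) := by
    rw [Real.sqrt_eq_rpow, Complex.ofReal_cpow (by positivity)]
    push_cast
    rfl
  rw [e1]
  push_cast
  congr 2
  field_simp
  ring

theorem fc_const (c : ℝ) (k : ℤ) :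
    fc ((Set.Icc (-(1 / 2) : ℝ) (1 / 2)).indicator fun _ => c) k =
      ((if k = 0 then c else 0 : ℝ) : ℂ) := by
  unfold fc
  have h2 : ∀ θ : ℝ, (((Set.Icc (-(1 / 2) : ℝ) (1 / 2)).indicator (fun _ => c) θ : ℝ) : ℂ) *
      cexp (2 * π * k * θ * I) =
      (Set.Icc (-(1 / 2) : ℝ) (1 / 2)).indicator (fun θ : ℝ =>
        (c : ℂ) * cexp (2 * π * k * θ * I)) θ := by
    intro θ
    by_cases hθ : θ ∈ Set.Icc (-(1 / 2) : ℝ) (1 / 2)
    · rw [Set.indicator_of_mem hθ, Set.indicator_of_mem hθ]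
    · rw [Set.indicator_of_notMem hθ, Set.indicator_of_notMem hθ]
      simp
  simp_rw [h2]
  rw [integral_indicator measurableSet_Icc, integral_const_mul, integral_exp_int]
  split_ifs <;> simp

/-- The dominating density. -/
noncomputable def GD (κ c : ℝ) : ℝ → ℝ := fun θ =>
  Real.exp (-κ * θ ^ 2) + (Set.Icc (-(1 / 2) : ℝ) (1 / 2)).indicator (fun _ => c) θ

theorem GD_integrable {κ : ℝ} (hκ : 0 < κ) (c : ℝ) : Integrable (GD κ c) := by
  unfold GD
  apply (integrable_exp_neg_mul_sq hκ).add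
  rw [integrable_indicator_iff measurableSet_Icc]
  exact continuous_const.integrableOn_Icc

/-- The dominating coefficients. -/
noncomputable def gd (κ c : ℝ) (k : ℤ) : ℝ :=
  Real.sqrt (π / κ) * Real.exp (-(π ^ 2 / κ) * (k : ℝ) ^ 2) + if k = 0 then c else 0

theorem gd_eq_fc {κ : ℝ} (hκ : 0 < κ) (c : ℝ) (k : ℤ) : (gd κ c k : ℂ) = fc (GD κ c) k := by
  unfold gd
  rw [Complex.ofReal_add, ← fc_gauss hκ, ← fc_const]
  unfold fc
  rw [← integral_add]
  · congr 1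
    ext θ
    unfold GD
    push_cast
    ring
  · have h1 : Integrable (fun θ : ℝ => Real.exp (-κ * θ ^ 2)) := integrable_exp_neg_mul_sq hκ
    refine h1.ofReal.mul_bdd (c := 1) ?_ ?_
    · apply Continuous.aestronglyMeasurable; fun_prop
    · refine Eventually.of_forall fun θ => ?_
      have e : (2 * π * k * θ * I : ℂ) = ((2 * π * k * θ : ℝ) : ℂ) * I := by push_cast; ring
      rw [e, Complex.norm_exp_ofReal_mul_I]
  · have h1 : Integrable ((Set.Icc (-(1 / 2) : ℝ) (1 / 2)).indicator fun _ => c) := by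
      rw [integrable_indicator_iff measurableSet_Icc]
      exact continuous_const.integrableOn_Icc
    refine h1.ofReal.mul_bdd (c := 1) ?_ ?_
    · apply Continuous.aestronglyMeasurable; fun_prop
    · refine Eventually.of_forall fun θ => ?_
      have e : (2 * π * k * θ * I : ℂ) = ((2 * π * k * θ : ℝ) : ℂ) * I := by push_cast; ring
      rw [e, Complex.norm_exp_ofReal_mul_I]

theorem gd_nonneg (κ : ℝ) {c : ℝ} (hc : 0 ≤ c) (k : ℤ) : 0 ≤ gd κ c k := by
  unfold gd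
  have : (0 : ℝ) ≤ if k = 0 then c else 0 := by split_ifs <;> simp [hc]
  positivity

theorem gd_le (κ : ℝ) {c : ℝ} (hc : 0 ≤ c) (k : ℤ) :
    gd κ c k ≤ (Real.sqrt (π / κ) + c) * Real.exp (-(π ^ 2 / κ) * (k : ℝ) ^ 2) := by
  unfold gd
  rw [add_mul]
  gcongr
  split_ifs with h
  · subst h; simp
  · positivity

/-- The domination hypothesis. -/
def DomHyp (lam κ c : ℝ) : Prop :=
  ∀ θ : ℝ, |θ| ≤ 1 / 2 → Real.exp (-4 * lam * Real.sin (π * θ) ^ 2) ≤ Real.exp (-κ * θ ^ 2) + c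

theorem FP_le_GD {lam κ c : ℝ} (h : DomHyp lam κ c) (t : ℝ) : FP lam t ≤ GD κ c t := by
  unfold FP GD
  by_cases ht : t ∈ Set.Icc (-(1 / 2) : ℝ) (1 / 2)
  · rw [Set.indicator_of_mem ht, Set.indicator_of_mem ht]
    exact h t (abs_le.mpr ht)
  · rw [Set.indicator_of_notMem ht, Set.indicator_of_notMem ht]
    positivity

/-- The simple choice `κ = 16 λ`, `c = 0`. -/
theorem domHyp_simple {lam : ℝ} (h : 0 ≤ lam) : DomHyp lam (16 * lam) 0 := by
  intro θ hθ
  rw [add_zero]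
  apply Real.exp_le_exp.mpr
  have key : 4 * θ ^ 2 ≤ Real.sin (π * θ) ^ 2 := by
    have h1 : 2 * |θ| ≤ |Real.sin (π * θ)| := by
      have hpi := Real.pi_pos
      have h2 := Real.mul_abs_le_abs_sin (x := π * θ) (by
        rw [abs_mul, abs_of_pos hpi]; nlinarith)
      rw [abs_mul, abs_of_pos hpi] at h2
      have h3 : 2 / π * (π * |θ|) = 2 * |θ| := by field_simp
      linarith
    have h2 := pow_le_pow_left₀ (by positivity) h1 2
    rw [mul_pow, sq_abs, sq_abs] at h2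
    linarith
  nlinarith

theorem dom_tsum {ι κ' : Type} [Fintype ι] [Fintype κ'] [DecidableEq κ'] {lam κ c : ℝ}
    (hlam : 0 ≤ lam) (hκ : 0 < κ) (hc : 0 ≤ c) (h : DomHyp lam κ c) (D : (κ' → ℤ) → ι → ℤ)
    (hD : ∀ a b x, D (a - b) x = D a x - D b x) :
    ∑' u, ENNReal.ofReal (∏ x, pf lam (D u x)) ≤
      ENNReal.ofReal (Real.sqrt (π / κ) + c) ^ (Fintype.card ι) *
        ∑' u, ENNReal.ofReal (Real.exp (-(π ^ 2 / κ) * ∑ x, (D u x : ℝ) ^ 2)) := by
  have h1 : ∑' u, ENNReal.ofReal (∏ x, pf lam (D u x)) ≤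
      ∑' u, ENNReal.ofReal (∏ x, gd κ c (D u x)) := by
    apply tsum_le_of_box
    · exact fun u => Finset.prod_nonneg fun x _ => pf_nonneg hlam _
    · exact fun u => Finset.prod_nonneg fun x _ => gd_nonneg κ hc _
    · intro B
      exact fejer_le (FP_integrable lam) (GD_integrable hκ c) (FP_nonneg lam) (FP_le_GD h)
        (pf_eq_fc hlam) (gd_eq_fc hκ c) D hD B
  refine h1.trans ?_
  rw [← ENNReal.tsum_mul_left]
  apply ENNReal.tsum_le_tsum
  intro u
  rw [← ENNReal.ofReal_pow (by positivity), ← ENNReal.ofReal_mul (by positivity)]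
  apply ENNReal.ofReal_le_ofReal
  calc ∏ x, gd κ c (D u x) ≤ ∏ x : ι, ((Real.sqrt (π / κ) + c) *
        Real.exp (-(π ^ 2 / κ) * (D u x : ℝ) ^ 2)) :=
        Finset.prod_le_prod (fun x _ => gd_nonneg κ hc _) (fun x _ => gd_le κ hc _)
    _ = (Real.sqrt (π / κ) + c) ^ (Fintype.card ι) *
        Real.exp (-(π ^ 2 / κ) * ∑ x, (D u x : ℝ) ^ 2) := by
        rw [Finset.prod_mul_distrib, Finset.prod_const, Finset.card_univ, ← Real.exp_sum,
          Finset.mul_sum]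

end Pool.Agent.MP_f7f40d_pr
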