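import Pool.Agent.MP_f7f40d_pr.Prob

set_option autoImplicit false

/-!
Events depending on finitely many coordinates, independence, and the zero-one law for
shift-invariant events.
-/

namespace Pool.Agent.MP_f7f40d_pr

open MeasureTheory ProbabilityTheory Filter Topology
open scoped ENNReal NNReal

variable {d : ℕ}

/-- The event `E` depends only on the coordinates in `s`. -/
def DepOn (s : Finset (Fin d → ℤ)) (E : Set (Om d)) : Prop :=
  ∀ A A' : Om d, (∀ v ∈ s, A v = A' v) → (A ∈ E ↔ A' ∈ E)

theorem DepOn.eq_preimage {s : Finset (Fin d → ℤ)} {E : Set (Om d)} (h : DepOn s E) :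
    E = (fun (A : Om d) (x : s) => A x) ⁻¹' {a | ∃ A ∈ E, ∀ x : s, A x = a x} := by
  ext A
  constructor
  · intro hA
    exact ⟨A, hA, fun _ => rfl⟩
  · rintro ⟨A', hA', he⟩
    exact (h A' A fun v hv => he ⟨v, hv⟩).1 hA'

theorem meas_restr (s : Finset (Fin d → ℤ)) : Measurable fun (A : Om d) (x : s) => A x :=
  measurable_pi_lambda _ fun _ => measurable_pi_apply _

theorem DepOn.measurableSet {s : Finset (Fin d → ℤ)} {E : Set (Om d)} (h : DepOn s E) :
    MeasurableSet E := by
  rw [h.eq_preimage]
  exact meas_restr s (Set.to_countable _).measurableSet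

theorem DepOn.compl {s : Finset (Fin d → ℤ)} {E : Set (Om d)} (h : DepOn s E) : DepOn s Eᶜ :=
  fun A A' hA => not_congr (h A A' hA)

theorem DepOn.inter {s t : Finset (Fin d → ℤ)} {E F : Set (Om d)} (hE : DepOn s E)
    (hF : DepOn t F) : DepOn (s ∪ t) (E ∩ F) := fun A A' hA =>
  and_congr (hE A A' fun v hv => hA v (Finset.mem_union_left _ hv))
    (hF A A' fun v hv => hA v (Finset.mem_union_right _ hv))

theorem DepOn.mono {s t : Finset (Fin d → ℤ)} {E : Set (Om d)} (hE : DepOn s E) (hst : s ⊆ t) :
    DepOn t E := fun A A' hA => hE A A' fun v hv => hA v (hst hv)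

theorem iIndep_coord (lam : ℝ≥0) :
    iIndepFun (fun (v : Fin d → ℤ) (A : Om d) => A v) (muP d lam) := by
  unfold muP
  exact iIndepFun_infinitePi (X := fun (_ : Fin d → ℤ) (x : ℕ) => x) fun _ => measurable_id

theorem DepOn.indep (lam : ℝ≥0) {s t : Finset (Fin d → ℤ)} {E F : Set (Om d)}
    (hE : DepOn s E) (hF : DepOn t F) (hst : Disjoint s t) :
    muP d lam (E ∩ F) = muP d lam E * muP d lam F := by
  have h := (iIndep_coord (d := d) lam).indepFun_finset s t hst fun v => measurable_pi_apply v
  rw [hE.eq_preimage, hF.eq_preimage]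
  exact h.measure_inter_preimage_eq_mul _ _ (Set.to_countable _).measurableSet
    (Set.to_countable _).measurableSet

/-- Independence of finitely many events with disjoint supports. -/
theorem indep_list (lam : ℝ≥0) (s : ℕ → Finset (Fin d → ℤ)) (E : ℕ → Set (Om d))
    (hE : ∀ n, DepOn (s n) (E n)) (hd : ∀ m n, m < n → Disjoint (s m) (s n)) (q : ℕ) :
    muP d lam (⋂ n ∈ Finset.range q, E n) = ∏ n ∈ Finset.range q, muP d lam (E n) ∧
      DepOn ((Finset.range q).biUnion s) (⋂ n ∈ Finset.range q, E n) := by
  induction q with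
  | zero =>
    constructor
    · simp
    · intro A A' _
      simp
  | succ q ih =>
    have e : (⋂ n ∈ Finset.range (q + 1), E n) = (⋂ n ∈ Finset.range q, E n) ∩ E q := by
      ext A
      simp only [Finset.mem_range, Set.mem_iInter, Set.mem_inter_iff]
      constructor
      · intro h
        exact ⟨fun n hn => h n (by omega), h q (by omega)⟩
      · rintro ⟨h1, h2⟩ n hn
        by_cases hq : n = q
        · rw [hq]; exact h2
        · exact h1 n (by omega)
    rw [e]
    constructor
    · rw [ih.2.indep lam (hE q), ih.1, Finset.prod_range_succ]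
      rw [Finset.disjoint_biUnion_left]
      intro n hn
      exact hd n q (Finset.mem_range.1 hn)
    · rw [Finset.range_add_one, Finset.biUnion_insert, Finset.union_comm]
      exact ih.2.inter (hE q)

theorem dep_shift {s : Finset (Fin d → ℤ)} {E : Set (Om d)} (h : DepOn s E) (a : Fin d → ℤ) :
    DepOn (s.image (· + a)) (shf a ⁻¹' E) := by
  intro A A' hA
  refine h _ _ fun v hv => ?_
  exact hA (v + a) (Finset.mem_image_of_mem _ hv)

theorem exists_far (hd : 1 ≤ d) (s : Finset (Fin d → ℤ)) :
    ∃ a : Fin d → ℤ, Disjoint s (s.image (· + a)) := by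
  -- a bound for the first coordinates
  set i0 : Fin d := ⟨0, hd⟩
  obtain ⟨M, hM⟩ : ∃ M : ℤ, ∀ v ∈ s, |v i0| ≤ M := by
    refine ⟨∑ v ∈ s, |v i0|, fun v hv => ?_⟩
    exact Finset.single_le_sum (f := fun v : Fin d → ℤ => |v i0|) (fun _ _ => abs_nonneg _) hv
  refine ⟨Pi.single i0 (2 * M + 1), ?_⟩
  rw [Finset.disjoint_left]
  intro v hv hv2
  obtain ⟨w, hw, he⟩ := Finset.mem_image.1 hv2
  have h1 : w i0 + (2 * M + 1) = v i0 := by
    rw [← he, Pi.add_apply, Pi.single_eq_same]
  have h2 := abs_le.1 (hM v hv)
  have h3 := abs_le.1 (hM w hw)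
  omega

open scoped symmDiff in
/-- Shift invariant events have probability zero or one. -/
theorem zero_one (lam : ℝ≥0) (hd : 1 ≤ d) {E : Set (Om d)} (hE : MeasurableSet E)
    (hinv : ∀ (a : Fin d → ℤ) (A : Om d), shf a A ∈ E ↔ A ∈ E) :
    muP d lam E = 0 ∨ muP d lam E = 1 := by
  set μ := muP d lam with hμ
  have key : ∀ ε : ℝ, 0 < ε → |μ.real E - μ.real E * μ.real E| ≤ 4 * ε := by
    intro ε hε
    obtain ⟨C, hC, hCE⟩ := exists_measure_symmDiff_lt_of_generateFrom_isSetRing (μ := μ)
      (C := measurableCylinders fun _ : Fin d → ℤ => ℕ) isSetRing_measurableCylinders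
      ⟨{Set.univ}, Set.countable_singleton _, by
        simpa using univ_mem_measurableCylinders (fun _ : Fin d → ℤ => ℕ), by simp⟩
      generateFrom_measurableCylinders.symm hE (ENNReal.ofReal_pos.2 hε)
    obtain ⟨s, T, hT, rfl⟩ := (mem_measurableCylinders _).1 hC
    set C : Set (Om d) := cylinder s T with hCdef
    have hdep : DepOn s C := by
      intro A A' hA
      rw [hCdef, mem_cylinder, mem_cylinder]
      have : s.restrict A = s.restrict A' := by
        funext x
        exact hA x x.2
      rw [this]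
    have hCm : MeasurableSet C := hdep.measurableSet
    obtain ⟨a, ha⟩ := exists_far hd s
    set Ca : Set (Om d) := shf a ⁻¹' C with hCa
    have hCam : MeasurableSet Ca := (mp_shf lam a).measurable hCm
    have h1 : μ.real (C ∩ Ca) = μ.real C * μ.real C := by
      have h2 := hdep.indep lam (dep_shift hdep a) ha
      have h3 : μ Ca = μ C := (mp_shf lam a).measure_preimage hCm.nullMeasurableSet
      rw [measureReal_def, measureReal_def, h2, h3, ENNReal.toReal_mul]
    have hEa : shf a ⁻¹' E = E := by
      ext A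
      exact hinv a A
    have h4 : μ.real (C ∆ E) ≤ ε := by
      rw [measureReal_def]
      exact ENNReal.toReal_le_of_le_ofReal hε.le hCE.le
    have h5 : μ.real (Ca ∆ E) ≤ ε := by
      have e : Ca ∆ E = shf a ⁻¹' (C ∆ E) := by
        rw [hCa]
        conv_lhs => rw [← hEa]
        rfl
      rw [e, measureReal_def, (mp_shf lam a).measure_preimage
        (hCm.symmDiff hE).nullMeasurableSet, ← measureReal_def]
      exact h4
    have h6 : |μ.real (C ∩ Ca) - μ.real E| ≤ ε + ε := by
      refine (abs_measureReal_sub_le_measureReal_symmDiff (hCm.inter hCam).nullMeasurableSet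
        hE.nullMeasurableSet).trans ?_
      have hsub : (C ∩ Ca) ∆ E ⊆ (C ∆ E) ∪ (Ca ∆ E) := by
        intro x hx
        rw [Set.mem_union, Set.mem_symmDiff, Set.mem_symmDiff]
        rw [Set.mem_symmDiff, Set.mem_inter_iff] at hx
        tauto
      refine (measureReal_mono hsub).trans ?_
      refine (measureReal_union_le _ _).trans ?_
      linarith
    have h7 : |μ.real C - μ.real E| ≤ ε :=
      (abs_measureReal_sub_le_measureReal_symmDiff hCm.nullMeasurableSet
        hE.nullMeasurableSet).trans h4
    have hC1 : μ.real C ≤ 1 := measureReal_le_one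
    have hE1 : μ.real E ≤ 1 := measureReal_le_one
    have hC0 : 0 ≤ μ.real C := measureReal_nonneg
    have hE0 : 0 ≤ μ.real E := measureReal_nonneg
    rw [h1] at h6
    have h8 := abs_le.1 h6
    have h9 := abs_le.1 h7
    rw [abs_le]
    constructor <;> nlinarith
  have h0 : |μ.real E - μ.real E * μ.real E| = 0 := by
    by_contra hne
    have hpos : 0 < |μ.real E - μ.real E * μ.real E| := lt_of_le_of_ne (abs_nonneg _) (Ne.symm hne)
    have := key (|μ.real E - μ.real E * μ.real E| / 8) (by positivity)
    linarith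
  rw [abs_eq_zero] at h0
  have h1 : μ.real E * (1 - μ.real E) = 0 := by linarith
  rcases mul_eq_zero.1 h1 with h2 | h2
  · left
    rwa [measureReal_def, ENNReal.toReal_eq_zero_iff, or_iff_left (measure_ne_top _ _)] at h2
  · right
    have h3 : μ.real E = 1 := by linarith
    rwa [measureReal_def, ENNReal.toReal_eq_one_iff] at h3

end Pool.Agent.MP_f7f40d_pr
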