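import Pool.Agent.MP_f7f40d_pr.Dyn

set_option autoImplicit false

/-!
Least action principle for the parallel sandpile, and the deterministic part of the duality.
-/

namespace Pool.Agent.MP_f7f40d_pr

open Function

variable {d : ℕ}

/-- Some non-negative toppling function brings `A` below `2d`. -/
def Stab (d : ℕ) (A : (Fin d → ℤ) → ℤ) : Prop :=
  ∃ w : (Fin d → ℤ) → ℤ, (∀ v, 0 ≤ w v) ∧ ∀ v, A v - lapZ w v ≤ 2 * (d : ℤ) - 1

theorem odo_succ (A : (Fin d → ℤ) → ℤ) (t : ℕ) (v : Fin d → ℤ) :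
    odo A (t + 1) v = odo A t v + topp A t v := by
  unfold odo; rw [Finset.sum_range_succ]

theorem odo_mono (A : (Fin d → ℤ) → ℤ) {m n : ℕ} (hmn : m ≤ n) (v : Fin d → ℤ) :
    odo A m v ≤ odo A n v := by
  unfold odo
  exact Finset.sum_le_sum_of_subset_of_nonneg (Finset.range_mono hmn)
    (fun _ _ _ => topp_nonneg _ _ _)

theorem lapZ_le_of_le {u w : (Fin d → ℤ) → ℤ} {v : Fin d → ℤ} (hv : u v = w v)
    (h : ∀ x, u x ≤ w x) : lapZ w v ≤ lapZ u v := by
  unfold lapZ
  refine Finset.sum_le_sum fun i _ => ?_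
  have h1 := h (v + Pi.single i 1)
  have h2 := h (v - Pi.single i 1)
  omega

theorem odo_le_of_stab {A w : (Fin d → ℤ) → ℤ} (h0 : ∀ v, 0 ≤ w v)
    (h : ∀ v, A v - lapZ w v ≤ 2 * (d : ℤ) - 1) (t : ℕ) : ∀ v, odo A t v ≤ w v := by
  induction t with
  | zero => intro v; simpa [odo] using h0 v
  | succ t ih =>
    intro v
    rw [odo_succ]
    by_cases hv : odo A t v = w v
    · have h1 : topp A t v = 0 := by
        unfold topp
        rw [if_neg]
        rw [eta_eq]
        have h2 := lapZ_le_of_le hv ih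
        have h3 := h v
        omega
      rw [h1, hv, add_zero]
    · have h1 := ih v
      have h2 := topp_le_one A t v
      omega

theorem odo_unbounded {A : (Fin d → ℤ) → ℤ} (h : Percolates d A) (v : Fin d → ℤ) (k : ℕ) :
    ∃ t, (k : ℤ) ≤ odo A t v := by
  induction k with
  | zero => exact ⟨0, by simp [odo]⟩
  | succ k ih =>
    obtain ⟨t, ht⟩ := ih
    obtain ⟨s, hs, hs2⟩ := h v t
    refine ⟨s + 1, ?_⟩
    rw [odo_succ]
    have h1 : topp A s v = 1 := by unfold topp; rw [if_pos hs2]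
    have h2 := odo_mono A hs v
    rw [h1]
    push_cast
    omega

theorem not_percolates_of_stab {A : (Fin d → ℤ) → ℤ} (h : Stab d A) : ¬ Percolates d A := by
  intro hp
  obtain ⟨w, h0, h1⟩ := h
  obtain ⟨t, ht⟩ := odo_unbounded hp 0 ((w 0).toNat + 1)
  have h2 := odo_le_of_stab h0 h1 t 0
  have h3 := Int.self_le_toNat (w 0)
  push_cast at ht
  omega

theorem odo_eq_of_stable {A : (Fin d → ℤ) → ℤ} {v : Fin d → ℤ} {T : ℕ}
    (hT : ∀ t, T ≤ t → (step d)^[t] A v < 2 * (d : ℤ)) {t : ℕ} (ht : T ≤ t) :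
    odo A t v = odo A T v := by
  induction t, ht using Nat.le_induction with
  | base => rfl
  | succ t ht ih =>
    rw [odo_succ, ih]
    have h1 : topp A t v = 0 := by unfold topp; rw [if_neg (not_le.mpr (hT t ht))]
    rw [h1, add_zero]

theorem stab_of_not_percolates {A : (Fin d → ℤ) → ℤ} (h : ¬ Percolates d A) : Stab d A := by
  choose T hT using fun v => eventually_stable h v
  refine ⟨fun v => odo A (T v) v, fun v => odo_nonneg _ _ _, fun v => ?_⟩
  -- a common late time for `v` and its neighbours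
  set M : ℕ := T v + ∑ i : Fin d, (T (v + Pi.single i 1) + T (v - Pi.single i 1)) with hM
  have h1 : ∀ i : Fin d, T (v + Pi.single i 1) + T (v - Pi.single i 1) ≤ M := by
    intro i
    have := Finset.single_le_sum (f := fun i : Fin d => T (v + Pi.single i 1) +
      T (v - Pi.single i 1)) (fun _ _ => Nat.zero_le _) (Finset.mem_univ i)
    omega
  have h2 := hT v M (by omega)
  rw [eta_eq] at h2
  have h3 : lapZ (odo A M) v = lapZ (fun v => odo A (T v) v) v := by
    unfold lapZ
    refine Finset.sum_congr rfl fun i _ => ?_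
    have hi := h1 i
    rw [odo_eq_of_stable (hT v) (by omega : T v ≤ M),
      odo_eq_of_stable (hT (v + Pi.single i 1)) (by omega),
      odo_eq_of_stable (hT (v - Pi.single i 1)) (by omega)]
  rw [h3] at h2
  omega

theorem not_percolates_iff {A : (Fin d → ℤ) → ℤ} : ¬ Percolates d A ↔ Stab d A :=
  ⟨stab_of_not_percolates, not_percolates_of_stab⟩

theorem Stab.mono {A B : (Fin d → ℤ) → ℤ} (h : Stab d B) (hAB : ∀ v, A v ≤ B v) : Stab d A := by
  obtain ⟨w, h0, h1⟩ := h
  exact ⟨w, h0, fun v => by have := h1 v; have := hAB v; omega⟩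

/-- The duality: if `3d-1-A` and `A + B` are stabilisable, then so is `d + B`. -/
theorem Stab.dual {A B : (Fin d → ℤ) → ℤ} (h1 : Stab d fun v => 3 * (d : ℤ) - 1 - A v)
    (h2 : Stab d fun v => A v + B v) : Stab d fun v => (d : ℤ) + B v := by
  obtain ⟨g, hg0, hg⟩ := h1
  obtain ⟨w, hw0, hw⟩ := h2
  refine ⟨fun v => g v + w v, fun v => add_nonneg (hg0 v) (hw0 v), fun v => ?_⟩
  rw [lapZ_add]
  have h1 : 3 * (d : ℤ) - 1 - A v - lapZ g v ≤ 2 * (d : ℤ) - 1 := hg v
  have h2 : A v + B v - lapZ w v ≤ 2 * (d : ℤ) - 1 := hw v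
  change (d : ℤ) + B v - (lapZ g v + lapZ w v) ≤ 2 * (d : ℤ) - 1
  omega

/-- `J` contains every vertex which has, in every coordinate direction, a neighbour in `J`. -/
def MClosed (J : Set (Fin d → ℤ)) : Prop :=
  ∀ v : Fin d → ℤ, (∀ i : Fin d, v + Pi.single i 1 ∈ J ∨ v - Pi.single i 1 ∈ J) → v ∈ J

/-- Only the whole lattice is closed and contains `S`. -/
def Spans (S : Set (Fin d → ℤ)) : Prop :=
  ∀ J : Set (Fin d → ℤ), S ⊆ J → MClosed J → J = Set.univ

theorem percolates_of_spans {X : (Fin d → ℤ) → ℤ} (hX : ∀ v, 0 ≤ X v)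
    (hS : Spans {v | (d : ℤ) ≤ X v}) : Percolates d fun v => (d : ℤ) + X v := by
  by_contra hcon
  obtain ⟨f, hf0, hf⟩ := stab_of_not_percolates hcon
  -- a minimum of `f`
  obtain ⟨v0, hv0⟩ : ∃ v0, ∀ v, f v0 ≤ f v := by
    obtain ⟨v0, -, hv0⟩ := (WellFounded.has_min (InvImage.wf (fun v => (f v).toNat)
      (Nat.lt_wfRel.wf)) Set.univ ⟨0, trivial⟩ :)
    refine ⟨v0, fun v => ?_⟩
    have h1 := hv0 v trivial
    change ¬ ((f v).toNat < (f v0).toNat) at h1
    have h2 := hf0 v
    have h3 := hf0 v0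
    omega
  have hJ := hS {v | f v ≠ f v0} ?_ ?_
  · have : v0 ∈ {v | f v ≠ f v0} := by rw [hJ]; trivial
    exact this rfl
  · intro v hv
    change f v ≠ f v0
    intro he
    have h1 : (d : ℤ) + X v - lapZ f v ≤ 2 * (d : ℤ) - 1 := hf v
    have h2 : lapZ f v ≤ 0 := by
      unfold lapZ
      refine Finset.sum_nonpos fun i _ => ?_
      have h3 := hv0 (v + Pi.single i 1)
      have h4 := hv0 (v - Pi.single i 1)
      omega
    have h5 : (d : ℤ) ≤ X v := hv
    omega
  · intro v hv
    change f v ≠ f v0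
    intro he
    have h1 : (d : ℤ) + X v - lapZ f v ≤ 2 * (d : ℤ) - 1 := hf v
    have h2 : lapZ f v ≤ -(d : ℤ) := by
      unfold lapZ
      calc ∑ i : Fin d, (2 * f v - f (v + Pi.single i 1) - f (v - Pi.single i 1))
          ≤ ∑ i : Fin d, (-1 : ℤ) := by
            refine Finset.sum_le_sum fun i _ => ?_
            have h3 := hv0 (v + Pi.single i 1)
            have h4 := hv0 (v - Pi.single i 1)
            rcases hv i with h5 | h5
            · change f (v + Pi.single i 1) ≠ f v0 at h5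
              omega
            · change f (v - Pi.single i 1) ≠ f v0 at h5
              omega
        _ = -(d : ℤ) := by simp
    have h5 := hX v
    omega

end Pool.Agent.MP_f7f40d_pr
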