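import Pool.Agent.MP_f7f40d_pr.DuRec
import Pool.Agent.MP_f7f40d_pr.Crit

set_option autoImplicit false

/-!
The duality `A` versus `3d - 1 - A` and the bound `3d/2` for the critical density.
-/

namespace Pool.Agent.MP_f7f40d_pr

open MeasureTheory ProbabilityTheory Filter Topology Function
open scoped ENNReal NNReal Nat

variable {d : ℕ}

theorem meas_eta_gen {Ω : Type*} [MeasurableSpace Ω] {F : Ω → (Fin d → ℤ) → ℤ}
    (hF : ∀ v, Measurable fun ω => F ω v) (t : ℕ) :
    ∀ v : Fin d → ℤ, Measurable fun ω => (step d)^[t] (F ω) v := by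
  induction t with
  | zero => intro v; simpa using hF v
  | succ t ih =>
    intro v
    have hind : ∀ w : Fin d → ℤ, ∀ c : ℤ, Measurable fun ω =>
        (if 2 * (d : ℤ) ≤ (step d)^[t] (F ω) w then c else 0) := by
      intro w c
      exact (measurable_from_top (f := fun z : ℤ => if 2 * (d : ℤ) ≤ z then c else 0)).comp (ih w)
    have : (fun ω => (step d)^[t + 1] (F ω) v) = fun ω =>
        (step d)^[t] (F ω) v - (if 2 * (d : ℤ) ≤ (step d)^[t] (F ω) v then 2 * (d : ℤ) else 0) +
        ∑ i : Fin d, ((if 2 * (d : ℤ) ≤ (step d)^[t] (F ω) (v + Pi.single i 1) then 1 else 0) +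
          (if 2 * (d : ℤ) ≤ (step d)^[t] (F ω) (v - Pi.single i 1) then 1 else 0)) := by
      funext ω
      rw [iterate_succ_apply', step_apply]
    rw [this]
    refine ((ih v).sub (hind v _)).add ?_
    refine Finset.measurable_fun_sum _ fun i _ => ?_
    exact (hind _ _).add (hind _ _)

theorem meas_perc_gen {Ω : Type*} [MeasurableSpace Ω] {F : Ω → (Fin d → ℤ) → ℤ}
    (hF : ∀ v, Measurable fun ω => F ω v) : MeasurableSet {ω | Percolates d (F ω)} := by
  have : {ω | Percolates d (F ω)} = ⋂ v : Fin d → ℤ, ⋂ T : ℕ, ⋃ t : ℕ, ⋃ _ : T ≤ t,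
      {ω | 2 * (d : ℤ) ≤ (step d)^[t] (F ω) v} := by
    ext A
    simp [Percolates]
  rw [this]
  refine MeasurableSet.iInter fun v => MeasurableSet.iInter fun T => MeasurableSet.iUnion fun t =>
    MeasurableSet.iUnion fun _ => ?_
  exact measurableSet_le measurable_const (meas_eta_gen hF t v)

/-- Pairs of configurations. -/
abbrev Om2 (d : ℕ) := (Fin d → ℤ) → ℕ × ℕ

/-- First component. -/
def fstF (w : Om2 d) : Om d := fun v => (w v).1

/-- Second component. -/
def sndF (w : Om2 d) : Om d := fun v => (w v).2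

/-- Sum of the components. -/
def sumF (w : Om2 d) : Om d := fun v => (w v).1 + (w v).2

theorem meas_fstF : Measurable (fstF (d := d)) :=
  measurable_pi_lambda _ fun v => measurable_fst.comp (measurable_pi_apply v)

theorem meas_sndF : Measurable (sndF (d := d)) :=
  measurable_pi_lambda _ fun v => measurable_snd.comp (measurable_pi_apply v)

theorem meas_sumF : Measurable (sumF (d := d)) :=
  measurable_pi_lambda _ fun v =>
    (measurable_fst.comp (measurable_pi_apply v)).add (measurable_snd.comp (measurable_pi_apply v))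

/-- Independent pairs of Poisson configurations. -/
noncomputable def nuP (d : ℕ) (a b : ℝ≥0) : Measure (Om2 d) :=
  Measure.infinitePi fun _ : Fin d → ℤ => (poissonMeasure a).prod (poissonMeasure b)

instance (d : ℕ) (a b : ℝ≥0) : IsProbabilityMeasure (nuP d a b) := by
  unfold nuP; infer_instance

theorem map_fst_nuP (a b : ℝ≥0) : (nuP d a b).map fstF = muP d a := by
  unfold nuP muP
  have h := Measure.infinitePi_map_pi (μ := fun _ : Fin d → ℤ =>
    (poissonMeasure a).prod (poissonMeasure b)) (f := fun _ (q : ℕ × ℕ) => q.1)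
    (fun _ => measurable_fst)
  unfold fstF
  rw [h]
  congr 1
  funext _
  have h2 : ((poissonMeasure a).prod (poissonMeasure b)).map Prod.fst = poissonMeasure a := by
    rw [Measure.map_fst_prod, measure_univ, one_smul]
  exact h2

theorem map_snd_nuP (a b : ℝ≥0) : (nuP d a b).map sndF = muP d b := by
  unfold nuP muP
  have h := Measure.infinitePi_map_pi (μ := fun _ : Fin d → ℤ =>
    (poissonMeasure a).prod (poissonMeasure b)) (f := fun _ (q : ℕ × ℕ) => q.2)
    (fun _ => measurable_snd)
  unfold sndF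
  rw [h]
  congr 1
  funext _
  have h2 : ((poissonMeasure a).prod (poissonMeasure b)).map Prod.snd = poissonMeasure b := by
    rw [Measure.map_snd_prod, measure_univ, one_smul]
  exact h2

theorem map_sum_nuP (a b : ℝ≥0) : (nuP d a b).map sumF = muP d (a + b) := by
  unfold nuP muP
  have h := Measure.infinitePi_map_pi (μ := fun _ : Fin d → ℤ =>
    (poissonMeasure a).prod (poissonMeasure b)) (f := fun _ (q : ℕ × ℕ) => q.1 + q.2)
    (fun _ => measurable_fst.add measurable_snd)
  unfold sumF
  rw [h]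
  congr 1
  funext _
  have h2 := poissonMeasure_conv_poissonMeasure a b
  unfold Measure.conv at h2
  exact h2

/-! ### The reflection coupling -/

/-- Point masses of the Poisson law. -/
noncomputable def pm (lam : ℝ≥0) (n : ℕ) : ℝ≥0∞ := poissonMeasure lam {n}

theorem pm_eq (lam : ℝ≥0) (n : ℕ) :
    pm lam n = ENNReal.ofReal (Real.exp (-lam) * lam ^ n / n !) := by
  unfold pm
  rw [poissonMeasure_singleton]

theorem fact_le (t : ℕ) : ∀ (i : ℕ) (lam : ℝ), 2 * lam = 2 * i + t + 1 →
    ((i + t)! : ℝ) ≤ i ! * lam ^ t := by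
  induction t using Nat.twoStepInduction with
  | zero => intro i lam _; simp
  | one =>
    intro i lam h
    have : lam = i + 1 := by push_cast at h; linarith
    rw [this, Nat.factorial_succ]
    push_cast
    apply le_of_eq
    ring
  | more t ih _ =>
    intro i lam h
    push_cast at h
    have h1 := ih (i + 1) lam (by push_cast; linarith)
    have e1 : i + 1 + t = i + t + 1 := by ring
    rw [e1, Nat.factorial_succ i] at h1
    have e2 : i + (t + 2) = (i + t + 1) + 1 := by ring
    rw [e2, Nat.factorial_succ (i + t + 1)]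
    push_cast at h1 ⊢
    have hpos : (0 : ℝ) ≤ (i ! : ℝ) := by positivity
    have hl : 0 ≤ lam := by
      have : (0 : ℝ) ≤ i := by positivity
      have : (0 : ℝ) ≤ t := by positivity
      linarith
    have hlt : 0 ≤ lam ^ t := by positivity
    have hsq : ((i : ℝ) + t + 1 + 1) * (i + 1) ≤ lam ^ 2 := by
      have e3 : lam = (2 * i + t + 3) / 2 := by linarith
      rw [e3]
      nlinarith [sq_nonneg ((t : ℝ) + 1)]
    calc ((i : ℝ) + t + 1 + 1) * ((i + t + 1)! : ℝ)
        ≤ ((i : ℝ) + t + 1 + 1) * ((i + 1) * i ! * lam ^ t) := by gcongr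
      _ = (((i : ℝ) + t + 1 + 1) * (i + 1)) * (i ! * lam ^ t) := by ring
      _ ≤ lam ^ 2 * (i ! * lam ^ t) := by gcongr
      _ = i ! * lam ^ (t + 2) := by ring

/-- For mean `(N+1)/2` the mass at `i` is at most the mass at `N-i`. -/
theorem pm_le_pm {N i : ℕ} {lam : ℝ≥0} (hlam : 2 * (lam : ℝ) = N + 1) (hi : 2 * i ≤ N) :
    pm lam i ≤ pm lam (N - i) := by
  rw [pm_eq, pm_eq]
  apply ENNReal.ofReal_le_ofReal
  obtain ⟨t, ht⟩ : ∃ t, N = 2 * i + t := ⟨N - 2 * i, by omega⟩
  have e : N - i = i + t := by omega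
  rw [e]
  have h := fact_le t i lam (by rw [hlam, ht]; push_cast; ring)
  have h1 : (0 : ℝ) < i ! := by positivity
  have h2 : (0 : ℝ) < (i + t)! := by positivity
  have hl : (0 : ℝ) ≤ lam := lam.2
  rw [div_le_div_iff₀ h1 h2, pow_add]
  have h3 : 0 ≤ Real.exp (-lam) * (lam : ℝ) ^ i := by positivity
  calc Real.exp (-lam) * (lam : ℝ) ^ i * ((i + t)! : ℝ)
      ≤ Real.exp (-lam) * (lam : ℝ) ^ i * (i ! * (lam : ℝ) ^ t) := by gcongr
    _ = Real.exp (-lam) * ((lam : ℝ) ^ i * (lam : ℝ) ^ t) * i ! := by ring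

/-- The mass moved by the coupling. -/
noncomputable def mv (N : ℕ) (lam : ℝ≥0) (i : ℕ) : ℝ≥0∞ :=
  if i ≤ N then min (pm lam i) (pm lam (N - i)) else 0

theorem mv_le (N : ℕ) (lam : ℝ≥0) (i : ℕ) : mv N lam i ≤ pm lam i := by
  unfold mv
  split_ifs
  · exact min_le_left _ _
  · exact zero_le

/-- The coupling. -/
noncomputable def Jc (N : ℕ) (lam : ℝ≥0) : Measure (ℕ × ℕ) :=
  Measure.sum fun i : ℕ => mv N lam i • Measure.dirac (i, N - i) +
    (pm lam i - mv N lam i) • Measure.dirac (i, i)

theorem Jc_apply (N : ℕ) (lam : ℝ≥0) (S : Set (ℕ × ℕ)) :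
    Jc N lam S = ∑' i : ℕ, (mv N lam i * S.indicator 1 (i, N - i) +
      (pm lam i - mv N lam i) * S.indicator 1 (i, i)) := by
  unfold Jc
  rw [Measure.sum_apply _ (Set.to_countable S).measurableSet]
  refine tsum_congr fun i => ?_
  rw [Measure.add_apply, Measure.smul_apply, Measure.smul_apply,
    Measure.dirac_apply' _ (Set.to_countable S).measurableSet,
    Measure.dirac_apply' _ (Set.to_countable S).measurableSet]
  rfl

theorem Jc_fst (N : ℕ) (lam : ℝ≥0) : (Jc N lam).map Prod.fst = poissonMeasure lam := by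
  rw [Measure.ext_iff_singleton]
  intro n
  rw [Measure.map_apply measurable_fst (MeasurableSet.singleton n), Jc_apply,
    tsum_eq_single n]
  · simp only [Set.indicator, Set.mem_preimage, Set.mem_singleton_iff, if_true, Pi.one_apply,
      mul_one]
    rw [add_tsub_cancel_of_le (mv_le N lam n)]
    rfl
  · intro i hi
    simp [Set.indicator, hi]

theorem Jc_snd (N : ℕ) (lam : ℝ≥0) : (Jc N lam).map Prod.snd = poissonMeasure lam := by
  rw [Measure.ext_iff_singleton]
  intro n
  rw [Measure.map_apply measurable_snd (MeasurableSet.singleton n), Jc_apply,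
    ENNReal.tsum_add]
  have h2 : ∑' i : ℕ, (pm lam i - mv N lam i) *
      (Prod.snd ⁻¹' {n} : Set (ℕ × ℕ)).indicator 1 (i, i) = pm lam n - mv N lam n := by
    rw [tsum_eq_single n]
    · simp [Set.indicator]
    · intro i hi
      simp [Set.indicator, hi]
  have h1 : ∑' i : ℕ, mv N lam i *
      (Prod.snd ⁻¹' {n} : Set (ℕ × ℕ)).indicator 1 (i, N - i) = mv N lam n := by
    by_cases hn : n ≤ N
    · rw [tsum_eq_single (N - n)]
      · have e : N - (N - n) = n := by omega
        simp only [Set.indicator, Set.mem_preimage, Set.mem_singleton_iff, e, if_true,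
          Pi.one_apply, mul_one]
        unfold mv
        rw [if_pos (by omega), if_pos hn, e, min_comm]
      · intro i hi
        by_cases hiN : i ≤ N
        · have : N - i ≠ n := by omega
          simp [Set.indicator, this]
        · unfold mv
          rw [if_neg hiN, zero_mul]
    · have h0 : mv N lam n = 0 := by unfold mv; rw [if_neg hn]
      rw [h0, ENNReal.tsum_eq_zero]
      intro i
      have : N - i ≠ n := by omega
      simp [Set.indicator, this]
  rw [h1, h2, add_tsub_cancel_of_le (mv_le N lam n)]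
  rfl

theorem Jc_supp {N : ℕ} {lam : ℝ≥0} (hlam : 2 * (lam : ℝ) = N + 1) :
    Jc N lam {q | q.1 + q.2 < N} = 0 := by
  rw [Jc_apply, ENNReal.tsum_eq_zero]
  intro i
  by_cases hi : i ≤ N
  · have h1 : ((i, N - i) : ℕ × ℕ) ∉ {q : ℕ × ℕ | q.1 + q.2 < N} := by
      simp only [Set.mem_ofPred_eq, not_lt]
      omega
    rw [Set.indicator_of_notMem h1, mul_zero, zero_add]
    by_cases h2 : 2 * i < N
    · have h3 : mv N lam i = pm lam i := by
        unfold mv
        rw [if_pos hi, min_eq_left (pm_le_pm hlam h2.le)]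
      rw [h3, tsub_self, zero_mul]
    · have h3 : ((i, i) : ℕ × ℕ) ∉ {q : ℕ × ℕ | q.1 + q.2 < N} := by
        simp only [Set.mem_ofPred_eq, not_lt]
        omega
      rw [Set.indicator_of_notMem h3, mul_zero]
  · have h1 : mv N lam i = 0 := by unfold mv; rw [if_neg hi]
    have h3 : ((i, i) : ℕ × ℕ) ∉ {q : ℕ × ℕ | q.1 + q.2 < N} := by
      simp only [Set.mem_ofPred_eq, not_lt]
      omega
    rw [h1, zero_mul, Set.indicator_of_notMem h3, mul_zero, add_zero]

instance (N : ℕ) (lam : ℝ≥0) : IsProbabilityMeasure (Jc N lam) := by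
  constructor
  have h := Jc_fst N lam
  have h2 : (Jc N lam).map Prod.fst Set.univ = 1 := by rw [h]; exact measure_univ
  rwa [Measure.map_apply measurable_fst MeasurableSet.univ, Set.preimage_univ] at h2

/-- The coupled pair of configurations. -/
noncomputable def kaP (d : ℕ) (N : ℕ) (lam : ℝ≥0) : Measure (Om2 d) :=
  Measure.infinitePi fun _ : Fin d → ℤ => Jc N lam

instance (d : ℕ) (N : ℕ) (lam : ℝ≥0) : IsProbabilityMeasure (kaP d N lam) := by
  unfold kaP; infer_instance

theorem map_fst_kaP (N : ℕ) (lam : ℝ≥0) : (kaP d N lam).map fstF = muP d lam := by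
  unfold kaP muP
  have h := Measure.infinitePi_map_pi (μ := fun _ : Fin d → ℤ => Jc N lam)
    (f := fun _ (q : ℕ × ℕ) => q.1) (fun _ => measurable_fst)
  unfold fstF
  rw [h]
  congr 1
  funext _
  exact Jc_fst N lam

theorem map_snd_kaP (N : ℕ) (lam : ℝ≥0) : (kaP d N lam).map sndF = muP d lam := by
  unfold kaP muP
  have h := Measure.infinitePi_map_pi (μ := fun _ : Fin d → ℤ => Jc N lam)
    (f := fun _ (q : ℕ × ℕ) => q.2) (fun _ => measurable_snd)
  unfold sndF
  rw [h]
  congr 1
  funext _
  exact Jc_snd N lam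

theorem kaP_ae {N : ℕ} {lam : ℝ≥0} (hlam : 2 * (lam : ℝ) = N + 1) :
    ∀ᵐ w ∂(kaP d N lam), ∀ v : Fin d → ℤ, N ≤ (w v).1 + (w v).2 := by
  rw [ae_all_iff]
  intro v
  have h := (measurePreserving_eval_infinitePi (fun _ : Fin d → ℤ => Jc N lam) v).measure_preimage
    (s := {q : ℕ × ℕ | q.1 + q.2 < N}) (Set.to_countable _).measurableSet.nullMeasurableSet
  rw [Jc_supp hlam] at h
  rw [ae_iff]
  refine le_antisymm ?_ zero_le
  rw [← h]
  refine measure_mono fun w hw => ?_
  simp only [Set.mem_ofPred_eq, not_le] at hw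
  exact hw

/-! ### The main theorem -/

theorem Percolates.mono {A B : (Fin d → ℤ) → ℤ} (h : Percolates d A) (hAB : ∀ v, A v ≤ B v) :
    Percolates d B := by
  by_contra hcon
  exact not_percolates_of_stab ((stab_of_not_percolates hcon).mono hAB) h

theorem perc_gt (hd : 1 ≤ d) {L δ : ℝ≥0} (hL : 2 * (L : ℝ) = 3 * d) (hδ : 0 < δ) :
    muP d (L + δ) (perc d) = 1 := by
  rcases zero_one (L + δ) hd meas_perc (fun a A => perc_shf a A) with h0 | h1
  swap
  · exact h1
  exfalso
  -- (i) the sum does not percolate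
  have hsum : nuP d L δ (sumF ⁻¹' perc d) = 0 := by
    rw [← Measure.map_apply meas_sumF meas_perc, map_sum_nuP, h0]
  -- (ii) the smaller configuration does not percolate
  have hfst : muP d L (perc d) = 0 := by
    rw [← map_fst_nuP L δ, Measure.map_apply meas_fstF meas_perc]
    refine measure_mono_null ?_ hsum
    intro w hw
    refine Percolates.mono (A := Ac (fstF w)) hw fun v => ?_
    unfold Ac fstF sumF
    push_cast
    omega
  -- (iii) the dual configuration does not percolate
  have hmeasD : MeasurableSet {A : Om d | Percolates d fun v => 3 * (d : ℤ) - 1 - Ac A v} := by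
    refine meas_perc_gen fun v => ?_
    unfold Ac
    exact (measurable_from_top (f := fun n : ℕ => 3 * (d : ℤ) - 1 - (n : ℤ))).comp
      (measurable_pi_apply v)
  have hN : 2 * (L : ℝ) = ((3 * d - 1 : ℕ) : ℝ) + 1 := by
    rw [hL, Nat.cast_sub (by omega)]
    push_cast
    ring
  have hdual : muP d L {A : Om d | Percolates d fun v => 3 * (d : ℤ) - 1 - Ac A v} = 0 := by
    rw [← map_fst_kaP (3 * d - 1) L, Measure.map_apply meas_fstF hmeasD]
    have hs0 : kaP d (3 * d - 1) L (sndF ⁻¹' perc d) = 0 := by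
      rw [← Measure.map_apply meas_sndF meas_perc, map_snd_kaP, hfst]
    have hae := kaP_ae (d := d) hN
    rw [ae_iff] at hae
    refine measure_mono_null ?_ (measure_union_null hae hs0)
    intro w hw
    by_cases hall : ∀ v : Fin d → ℤ, 3 * d - 1 ≤ (w v).1 + (w v).2
    · right
      refine Percolates.mono (A := fun v => 3 * (d : ℤ) - 1 - Ac (fstF w) v) hw fun v => ?_
      have := hall v
      unfold Ac fstF sndF
      omega
    · left
      exact hall
  -- (iv) contradiction with spanning
  obtain ⟨E, hEm, hE0, hE⟩ := prob_spans hd hδ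
  have hE1 : 0 < nuP d L δ (sndF ⁻¹' E) := by
    rw [← Measure.map_apply meas_sndF hEm, map_snd_nuP]
    exact hE0
  have hfd : nuP d L δ (fstF ⁻¹' {A : Om d | Percolates d fun v => 3 * (d : ℤ) - 1 - Ac A v}) =
      0 := by
    rw [← Measure.map_apply meas_fstF hmeasD, map_fst_nuP, hdual]
  refine hE1.ne' (measure_mono_null ?_ (measure_union_null hsum hfd))
  intro w hw
  by_contra hcon
  rw [Set.mem_union, not_or] at hcon
  obtain ⟨hc1, hc2⟩ := hcon
  have hst1 : Stab d fun v => 3 * (d : ℤ) - 1 - Ac (fstF w) v := stab_of_not_percolates hc2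
  have hst2 : Stab d fun v => Ac (fstF w) v + Ac (sndF w) v := by
    have h1 : Stab d (Ac (sumF w)) := stab_of_not_percolates hc1
    refine h1.mono fun v => ?_
    unfold Ac fstF sndF sumF
    push_cast
    omega
  have hst3 := Stab.dual hst1 hst2
  refine not_percolates_of_stab hst3 (percolates_of_spans (fun v => Int.natCast_nonneg _) ?_)
  have hsp := hE _ hw
  have e : {v | (d : ℤ) ≤ Ac (sndF w) v} = seeds (sndF w) := by
    ext v
    unfold seeds Ac
    simp only [Set.mem_ofPred_eq]
    exact Int.ofNat_le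
  rw [e]
  exact hsp

theorem percProb_gt (d : ℕ) (hd : 1 ≤ d) {lam : ℝ} (h : 3 * (d : ℝ) / 2 < lam) :
    percProb d lam = 1 := by
  have hd0 : (0 : ℝ) ≤ 3 * (d : ℝ) / 2 := by positivity
  have hd1 : 0 < lam - 3 * (d : ℝ) / 2 := by linarith
  have h1 := perc_gt hd (L := (3 * (d : ℝ) / 2).toNNReal) (δ := (lam - 3 * (d : ℝ) / 2).toNNReal)
    (by rw [Real.coe_toNNReal _ hd0]; ring) (Real.toNNReal_pos.2 hd1)
  rw [← Real.toNNReal_add hd0 hd1.le, add_sub_cancel] at h1
  exact h1

theorem crit_le (d : ℕ) (hd : 1 ≤ d) : critDensity d ≤ 3 * (d : ℝ) / 2 := by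
  refine le_of_forall_gt_imp_ge_of_dense fun lam hlam => ?_
  have hd0 : (0 : ℝ) ≤ 3 * (d : ℝ) / 2 := by positivity
  exact critDensity_le (lt_of_le_of_lt hd0 hlam) (percProb_gt d hd hlam)

end Pool.Agent.MP_f7f40d_pr
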