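import Pool.Agent.MP_f7f40d_pr.DuProb

set_option autoImplicit false

/-!
The nucleation estimate.
-/

namespace Pool.Agent.MP_f7f40d_pr

open MeasureTheory ProbabilityTheory Filter Topology
open scoped ENNReal NNReal

variable {d : ℕ}

/-- The probability that a vertex is a seed. -/
noncomputable def pseed (d : ℕ) (lam : ℝ≥0) : ℝ := (poissonMeasure lam).real {n | d ≤ n}

theorem pseed_pos {lam : ℝ≥0} (hlam : 0 < lam) : 0 < pseed d lam := by
  unfold pseed
  have h1 : 0 < (poissonMeasure lam).real {d} := poissonMeasure_real_singleton_pos d hlam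
  refine lt_of_lt_of_le h1 (measureReal_mono ?_)
  intro n hn
  rw [Set.mem_singleton_iff] at hn
  rw [hn]
  exact le_refl d

theorem pseed_le_one (lam : ℝ≥0) : pseed d lam ≤ 1 := measureReal_le_one

/-- All vertices of `s` are seeds. -/
def Nu (s : Finset (Fin d → ℤ)) : Set (Om d) := {A | ∀ v ∈ s, d ≤ A v}

theorem depOn_Nu (s : Finset (Fin d → ℤ)) : DepOn s (Nu s) := by
  intro A A' h
  unfold Nu
  simp only [Set.mem_ofPred_eq]
  exact forall₂_congr fun v hv => by rw [h v hv]

theorem prob_Nu (lam : ℝ≥0) (s : Finset (Fin d → ℤ)) :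
    (muP d lam).real (Nu s) = pseed d lam ^ s.card := by
  have e : Nu s = Set.pi (s : Set (Fin d → ℤ)) fun _ => {n : ℕ | d ≤ n} := by
    ext A
    simp [Nu, Set.mem_pi]
  rw [measureReal_def, e]
  unfold muP
  rw [Measure.infinitePi_pi _ fun _ _ => MeasurableSet.of_discrete, ENNReal.toReal_prod,
    Finset.prod_const]
  rfl

/-- Force seeds on `s`. -/
def force (s : Finset (Fin d → ℤ)) (A : Om d) : Om d := fun v => if v ∈ s then d else A v

theorem seeds_force (s : Finset (Fin d → ℤ)) (A : Om d) : seeds A ⊆ seeds (force s A) := by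
  intro v hv
  unfold seeds force at *
  simp only [Set.mem_ofPred_eq] at *
  split_ifs
  · exact le_refl d
  · exact hv

theorem seeds_force_eq {s : Finset (Fin d → ℤ)} {A : Om d} (h : A ∈ Nu s) :
    seeds (force s A) = seeds A := by
  refine Set.Subset.antisymm ?_ (seeds_force s A)
  intro v hv
  unfold seeds force at *
  simp only [Set.mem_ofPred_eq] at *
  split_ifs at hv with hs
  · exact h v hs
  · exact hv

theorem depOn_BadB (K : Finset (Fin d)) (P Q : Fin d → ℤ) (m : ℕ) :
    DepOn (Finset.Icc P Q) (BadB K P Q m) := by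
  intro A A' h
  rw [← not_iff_not, notMem_badB, notMem_badB]
  refine forall₂_congr fun i _ => forall_congr' fun a => forall_congr' fun b =>
    forall₂_congr fun hPa hbQ => ?_
  refine forall₃_congr fun hab _ _ => ?_
  refine spanIn_congr fun v hv => ?_
  have := h v (by
    rw [Finset.mem_Icc]
    exact ⟨hPa.trans hv.1, hv.2.trans hbQ⟩)
  unfold seeds
  simp only [Set.mem_ofPred_eq]
  rw [this]

/-- The growth from radius `m` to radius `l` works. -/
def Gd (K : Finset (Fin d)) (x : Fin d → ℤ) (m l : ℕ) : Set (Om d) :=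
  {A | ∀ r, m ≤ r → r < l → A ∉ BadB K (loC K x (r + 1)) (hiC K x (r + 1)) (2 * r)}

theorem prob_Gd_compl {lam : ℝ≥0} {k : ℕ} (hk : HH d lam k) :
    ∃ m₀ : ℕ, 1 ≤ m₀ ∧ ∀ K : Finset (Fin d), K.card = k + 1 → ∀ (x : Fin d → ℤ) (l : ℕ),
      (muP d lam).real (Gd K x m₀ l)ᶜ ≤ 1 / 2 := by
  obtain ⟨n₀, hn₀⟩ := hk (2 * d + 2) 2
  set D : ℝ := d * 25 ^ d with hD
  have hD0 : 0 ≤ D := by positivity
  obtain ⟨M, hM⟩ := exists_nat_ge (2 * D)
  refine ⟨max n₀ (M + 2), by omega, ?_⟩
  set m₀ := max n₀ (M + 2) with hm₀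
  intro K hK x l
  have hslab : ∀ r, m₀ ≤ r → (muP d lam).real
      (BadB K (loC K x (r + 1)) (hiC K x (r + 1)) (2 * r)) ≤ D * ((r : ℝ) ^ 2)⁻¹ := by
    intro r hr
    have hr1 : 1 ≤ r := by omega
    have hrr : (1 : ℝ) ≤ r := by exact_mod_cast hr1
    have h1 : ∀ i ∈ K, ∀ a b : Fin d → ℤ, loC K x (r + 1) ≤ a → b ≤ hiC K x (r + 1) → a ≤ b →
        a i = b i → (∀ j ∈ K.erase i, ((2 * r : ℕ) : ℤ) ≤ b j - a j) →
        (muP d lam).real (Ev (K.erase i) (Set.Icc a b))ᶜ ≤ 1 / ((2 * r : ℕ) : ℝ) ^ (2 * d + 2) := by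
      intro i hi a b hPa hbQ hab hii hj
      refine hn₀ (2 * r) (by omega) (K.erase i) ?_ a b hab ?_ ?_
      · rw [Finset.card_erase_of_mem hi, hK]; rfl
      · intro j hj2
        by_cases hji : j = i
        · rw [hji]; exact hii
        · have hjK : j ∉ K := fun h => hj2 (Finset.mem_erase.2 ⟨hji, h⟩)
          have h2 := pl hPa j
          have h3 := pl hbQ j
          have h4 := pl hab j
          have h5 := off_C K x (r + 1) j hjK
          omega
      · intro j hj2
        refine ⟨hj j hj2, ?_⟩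
        have hjK := Finset.mem_of_mem_erase hj2
        have h2 := pl hPa j
        have h3 := pl hbQ j
        have h5 := side_C K x (r + 1) j
        rw [if_pos hjK] at h5
        have h6 : b j - a j ≤ 2 * ((r : ℤ) + 1) := by push_cast at h5; omega
        refine h6.trans ?_
        push_cast
        have : (1 : ℤ) ≤ r := by exact_mod_cast hr1
        nlinarith
    have h2 := badB_le lam (L := 2 * r + 2) (by positivity) (fun i => by
      rw [side_C]
      split_ifs
      · push_cast; omega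
      · positivity) h1
    refine h2.trans ?_
    have e1 : (((2 * r + 2 : ℕ) : ℝ) + 1) ≤ 5 * r := by push_cast; linarith
    have e2 : (((2 * r + 2 : ℕ) : ℝ) + 1) ^ d ≤ (5 * r) ^ d := by gcongr
    have e3 : (0 : ℝ) < ((2 * r : ℕ) : ℝ) ^ (2 * d + 2) := by
      have : (0 : ℝ) < ((2 * r : ℕ) : ℝ) := by push_cast; linarith
      positivity
    have e4 : ((r : ℝ)) ^ (2 * d + 2) ≤ ((2 * r : ℕ) : ℝ) ^ (2 * d + 2) := by
      gcongr
      push_cast
      linarith
    have e5 : (1 : ℝ) / ((2 * r : ℕ) : ℝ) ^ (2 * d + 2) ≤ 1 / (r : ℝ) ^ (2 * d + 2) := by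
      gcongr
    calc (d : ℝ) * ((((2 * r + 2 : ℕ) : ℝ) + 1) ^ d * (((2 * r + 2 : ℕ) : ℝ) + 1) ^ d) *
          (1 / ((2 * r : ℕ) : ℝ) ^ (2 * d + 2))
        ≤ d * ((5 * r) ^ d * (5 * r) ^ d) * (1 / (r : ℝ) ^ (2 * d + 2)) := by gcongr
      _ = D * ((r : ℝ) ^ 2)⁻¹ := by
          rw [hD]
          have hr0 : (r : ℝ) ≠ 0 := by positivity
          have : (25 : ℝ) = 5 * 5 := by norm_num
          rw [this, mul_pow, mul_pow, pow_add, pow_mul]
          field_simp
          ring
  have hsub : (Gd K x m₀ l)ᶜ ⊆ ⋃ r ∈ Finset.Ioc (m₀ - 1) l,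
      BadB K (loC K x (r + 1)) (hiC K x (r + 1)) (2 * r) := by
    intro A hA
    unfold Gd at hA
    simp only [Set.mem_compl_iff, Set.mem_ofPred_eq, not_forall, not_not] at hA
    obtain ⟨r, h1, h2, h3⟩ := hA
    simp only [Set.mem_iUnion, Finset.mem_Ioc]
    exact ⟨r, ⟨by omega, by omega⟩, h3⟩
  have hm1 : m₀ - 1 ≠ 0 := by omega
  by_cases hl : l < m₀ - 1
  · have : Finset.Ioc (m₀ - 1) l = ∅ := Finset.Ioc_eq_empty (by omega)
    rw [this] at hsub
    have h0 : (Gd K x m₀ l)ᶜ = ∅ := by simpa using hsub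
    rw [h0]; simp
  · push Not at hl
    calc (muP d lam).real (Gd K x m₀ l)ᶜ
        ≤ ∑ r ∈ Finset.Ioc (m₀ - 1) l, D * ((r : ℝ) ^ 2)⁻¹ := by
          refine (measureReal_mono hsub (measure_ne_top _ _)).trans ?_
          refine (measureReal_biUnion_finset_le _ _).trans (Finset.sum_le_sum fun r hr => ?_)
          rw [Finset.mem_Ioc] at hr
          exact hslab r (by omega)
      _ = D * ∑ r ∈ Finset.Ioc (m₀ - 1) l, ((r : ℝ) ^ 2)⁻¹ := by rw [Finset.mul_sum]
      _ ≤ D * (((m₀ - 1 : ℕ) : ℝ)⁻¹ - (l : ℝ)⁻¹) := by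
          gcongr
          exact sum_Ioc_inv_sq_le_sub hm1 hl
      _ ≤ D * ((m₀ - 1 : ℕ) : ℝ)⁻¹ := by
          gcongr
          have : (0 : ℝ) ≤ (l : ℝ)⁻¹ := by positivity
          linarith
      _ ≤ 1 / 2 := by
          have h1 : (M : ℝ) + 1 ≤ ((m₀ - 1 : ℕ) : ℝ) := by
            have : M + 1 ≤ m₀ - 1 := by omega
            exact_mod_cast this
          have h2 : (0 : ℝ) < ((m₀ - 1 : ℕ) : ℝ) := by
            have : (0 : ℝ) ≤ M := by positivity
            linarith
          rw [← div_eq_mul_inv, div_le_iff₀ h2]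
          linarith

theorem nucleus {lam : ℝ≥0} (hlam : 0 < lam) {k : ℕ} (hk : HH d lam k) :
    ∃ c : ℝ, 0 < c ∧ ∀ K : Finset (Fin d), K.card = k + 1 → ∀ (x : Fin d → ℤ) (l : ℕ),
      c ≤ (muP d lam).real (Ev K (Set.Icc (loC K x l) (hiC K x l))) := by
  obtain ⟨m₀, hm1, hm⟩ := prob_Gd_compl hk
  have hp0 := pseed_pos (d := d) hlam
  have hp1 := pseed_le_one (d := d) lam
  set M : ℕ := (2 * m₀ + 1) ^ d with hM
  refine ⟨pseed d lam ^ M / 2, by positivity, fun K hK x l => ?_⟩
  set s : Finset (Fin d → ℤ) := Finset.Icc (loC K x m₀) (hiC K x m₀) with hs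
  have hcard : s.card ≤ M := by
    have h1 := card_Icc_le (P := loC K x m₀) (Q := hiC K x m₀) (L := 2 * m₀) (fun i => by
      rw [side_C]
      split_ifs
      · push_cast; exact le_refl _
      · positivity)
    rw [hM, hs]
    have h2 : (((Finset.Icc (loC K x m₀) (hiC K x m₀)).card : ℕ) : ℝ) ≤
        (((2 * m₀ + 1) ^ d : ℕ) : ℝ) := by
      push_cast
      push_cast at h1
      exact h1
    exact_mod_cast h2
  have hNu : pseed d lam ^ M ≤ (muP d lam).real (Nu s) := by
    rw [prob_Nu]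
    exact pow_le_pow_of_le_one hp0.le hp1 hcard
  rcases le_total l m₀ with hl | hl
  · -- small cubes
    have hsub : Nu s ⊆ Ev K (Set.Icc (loC K x l) (hiC K x l)) := by
      intro A hA
      refine ev_of_seeds fun v hv => ?_
      have : v ∈ s := by
        rw [hs, Finset.mem_Icc]
        exact ⟨(lo_anti K x hl).trans hv.1, hv.2.trans (hi_mono K x hl)⟩
      exact hA v this
    have h1 := measureReal_mono (μ := muP d lam) hsub
    have h2 : 0 < pseed d lam ^ M := by positivity
    linarith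
  · -- large cubes
    set G : Set (Om d) := force s ⁻¹' (Gd K x m₀ l) with hG
    set B : Finset (Fin d → ℤ) := Finset.Icc (loC K x l) (hiC K x l) with hB
    have hdG : DepOn (B \ s) G := by
      intro A A' h
      have hf : ∀ v ∈ B, force s A v = force s A' v := by
        intro v hv
        unfold force
        split_ifs with hvs
        · rfl
        · exact h v (Finset.mem_sdiff.2 ⟨hv, hvs⟩)
      rw [hG, Set.mem_preimage, Set.mem_preimage]
      unfold Gd
      simp only [Set.mem_ofPred_eq]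
      refine forall₃_congr fun r _ hr => not_congr ?_
      refine depOn_BadB K _ _ _ _ _ fun v hv => hf v ?_
      rw [Finset.mem_Icc] at hv
      rw [hB, Finset.mem_Icc]
      exact ⟨(lo_anti K x (by omega)).trans hv.1, hv.2.trans (hi_mono K x (by omega))⟩
    have hind := (depOn_Nu s).indep lam hdG Finset.disjoint_sdiff
    have hGd : 1 / 2 ≤ (muP d lam).real G := by
      have hsub : Gd K x m₀ l ⊆ G := by
        intro A hA r h1 h2
        exact badB_anti (seeds_force s A) (hA r h1 h2)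
      refine le_trans ?_ (measureReal_mono hsub)
      have hmeas : MeasurableSet (Gd K x m₀ l) := by
        have hdep : DepOn B (Gd K x m₀ l) := by
          intro A A' h
          unfold Gd
          simp only [Set.mem_ofPred_eq]
          refine forall₃_congr fun r _ hr => not_congr ?_
          refine depOn_BadB K _ _ _ _ _ fun v hv => h v ?_
          rw [Finset.mem_Icc] at hv
          rw [hB, Finset.mem_Icc]
          exact ⟨(lo_anti K x (by omega)).trans hv.1, hv.2.trans (hi_mono K x (by omega))⟩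
        exact hdep.measurableSet
      have h1 := hm K hK x l
      rw [probReal_compl_eq_one_sub hmeas] at h1
      linarith
    have hsub : Nu s ∩ G ⊆ Ev K (Set.Icc (loC K x l) (hiC K x l)) := by
      rintro A ⟨hA1, hA2⟩
      refine grow_rad hl ?_ ?_
      · intro r h1 h2
        exact badB_anti (seeds_force_eq hA1).le (hA2 r h1 h2)
      · refine ev_of_seeds fun v hv => ?_
        exact hA1 v (by rw [hs, Finset.mem_Icc]; exact hv)
    refine le_trans ?_ (measureReal_mono hsub)
    rw [measureReal_def, hind, ENNReal.toReal_mul, ← measureReal_def, ← measureReal_def]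
    have h2 : 0 < pseed d lam ^ M := by positivity
    nlinarith

end Pool.Agent.MP_f7f40d_pr
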