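import Mathlib

set_option autoImplicit false

/-!
Internal spanning of boxes and the deterministic growth lemma.
-/

namespace Pool.Agent.MP_f7f40d_pr

open Function

variable {d : ℕ}

/-- The box `B` is internally spanned by `S` in the directions of `K`: every set containing
`S ∩ B` which is closed in `B` under the rule (one neighbour in each direction of `K`)
contains `B`. -/
def SpanIn (K : Finset (Fin d)) (B S : Set (Fin d → ℤ)) : Prop :=
  ∀ J : Set (Fin d → ℤ), S ∩ B ⊆ J →
    (∀ v ∈ B, (∀ i ∈ K, v + Pi.single i 1 ∈ J ∩ B ∨ v - Pi.single i 1 ∈ J ∩ B) → v ∈ J) →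
    B ⊆ J

theorem SpanIn.mono {K : Finset (Fin d)} {B S S' : Set (Fin d → ℤ)} (h : SpanIn K B S)
    (hS : S ∩ B ⊆ S') : SpanIn K B S' := fun J hJ hc =>
  h J (fun _ hv => hJ ⟨hS hv, hv.2⟩) hc

theorem spanIn_congr {K : Finset (Fin d)} {B S S' : Set (Fin d → ℤ)}
    (h : ∀ v ∈ B, v ∈ S ↔ v ∈ S') : SpanIn K B S ↔ SpanIn K B S' :=
  ⟨fun h1 => h1.mono fun v hv => (h v hv.2).1 hv.1,
    fun h1 => h1.mono fun v hv => (h v hv.2).2 hv.1⟩

theorem spanIn_empty (B S : Set (Fin d → ℤ)) : SpanIn ∅ B S := fun _ _ hc v hv =>
  hc v hv (by simp)

theorem spanIn_of_subset {K : Finset (Fin d)} {B S : Set (Fin d → ℤ)} (h : B ⊆ S) :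
    SpanIn K B S := fun _ hJ _ _ hv => hJ ⟨h hv, hv⟩

theorem pl {a b : Fin d → ℤ} (h : a ≤ b) (i : Fin d) : a i ≤ b i := h i

theorem le_pl {a b : Fin d → ℤ} (h : ∀ i, a i ≤ b i) : a ≤ b := h

theorem single_apply_ne {i j : Fin d} (h : j ≠ i) : (Pi.single i (1 : ℤ) : Fin d → ℤ) j = 0 := by
  rw [Pi.single_apply, if_neg h]

/-- Growth of a box inside the box `[P, Q]`. -/
theorem grow_box (K : Finset (Fin d)) (S J : Set (Fin d → ℤ)) (P Q : Fin d → ℤ) (m : ℤ)
    (hoff : ∀ i ∉ K, P i = Q i) (hSJ : S ∩ Set.Icc P Q ⊆ J)
    (hcl : ∀ v ∈ Set.Icc P Q, (∀ i ∈ K, v + Pi.single i 1 ∈ J ∩ Set.Icc P Q ∨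
      v - Pi.single i 1 ∈ J ∩ Set.Icc P Q) → v ∈ J)
    (good : ∀ i ∈ K, ∀ a b : Fin d → ℤ, P ≤ a → b ≤ Q → a ≤ b → a i = b i →
      (∀ j ∈ K.erase i, m ≤ b j - a j) → SpanIn (K.erase i) (Set.Icc a b) S) :
    ∀ (N : ℕ) (a b : Fin d → ℤ), P ≤ a → b ≤ Q → a ≤ b → (∀ j ∈ K, m ≤ b j - a j) →
      Set.Icc a b ⊆ J → (∑ i, ((a i - P i).toNat + (Q i - b i).toNat)) = N → Set.Icc P Q ⊆ J := by
  intro N
  induction N with
  | zero =>
    intro a b hPa hbQ _ _ hJ hN
    have h1 : ∀ i, (a i - P i).toNat + (Q i - b i).toNat = 0 := by
      intro i
      exact (Finset.sum_eq_zero_iff.1 hN) i (Finset.mem_univ i)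
    have ha : a = P := by
      funext i; have := h1 i; have := (pl hPa i); omega
    have hb : b = Q := by
      funext i; have := h1 i; have := (pl hbQ i); omega
    rw [← ha, ← hb]; exact hJ
  | succ N ih =>
    intro a b hPa hbQ hab hm hJ hN
    have hex : ∃ i, 0 < (a i - P i).toNat + (Q i - b i).toNat := by
      by_contra hcon
      push Not at hcon
      have : ∑ i, ((a i - P i).toNat + (Q i - b i).toNat) = 0 :=
        Finset.sum_eq_zero fun i _ => Nat.le_zero.1 (hcon i)
      omega
    obtain ⟨i, hi⟩ := hex
    have hiK : i ∈ K := by
      by_contra hiK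
      have h1 := hoff i hiK
      have h2 := (pl hPa i)
      have h3 := (pl hbQ i)
      have h4 := (pl hab i)
      omega
    by_cases hc : P i < a i
    · -- grow downwards in direction `i`
      set a' : Fin d → ℤ := update a i (a i - 1) with ha'
      set b' : Fin d → ℤ := update b i (a i - 1) with hb'
      have a'i : a' i = a i - 1 := by rw [ha', update_self]
      have b'i : b' i = a i - 1 := by rw [hb', update_self]
      have a'j : ∀ j, j ≠ i → a' j = a j := fun j hj => by rw [ha', update_of_ne hj]
      have b'j : ∀ j, j ≠ i → b' j = b j := fun j hj => by rw [hb', update_of_ne hj]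
      have hPa' : P ≤ a' := by
        refine le_pl fun j => ?_
        by_cases hj : j = i
        · rw [hj, a'i]; omega
        · rw [a'j j hj]; exact (pl hPa j)
      have hb'Q : b' ≤ Q := by
        refine le_pl fun j => ?_
        by_cases hj : j = i
        · have h2 := (pl hbQ i); have h3 := (pl hab i)
          rw [hj, b'i]; omega
        · rw [b'j j hj]; exact (pl hbQ j)
      have ha'b' : a' ≤ b' := by
        refine le_pl fun j => ?_
        by_cases hj : j = i
        · rw [hj, a'i, b'i]
        · rw [a'j j hj, b'j j hj]; exact (pl hab j)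
      have hsp := good i hiK a' b' hPa' hb'Q ha'b' (by rw [a'i, b'i]) (by
        intro j hj
        have hji := Finset.ne_of_mem_erase hj
        rw [a'j j hji, b'j j hji]
        exact hm j (Finset.mem_of_mem_erase hj))
      have hsub : Set.Icc a' b' ⊆ Set.Icc P Q := Set.Icc_subset_Icc hPa' hb'Q
      have hF : Set.Icc a' b' ⊆ J := by
        refine hsp J (fun v hv => hSJ ⟨hv.1, hsub hv.2⟩) ?_
        intro v hv hnb
        refine hcl v (hsub hv) ?_
        intro j hj
        by_cases hji : j = i
        · left
          rw [hji]
          have hmem : v + Pi.single i 1 ∈ Set.Icc a b := by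
            constructor
            · refine le_pl fun l => ?_
              by_cases hl : l = i
              · have h1 := (pl hv.1 i)
                rw [a'i] at h1
                rw [hl, Pi.add_apply, Pi.single_eq_same]; omega
              · have h1 := (pl hv.1 l)
                rw [a'j l hl] at h1
                rw [Pi.add_apply, single_apply_ne hl]; omega
            · refine le_pl fun l => ?_
              by_cases hl : l = i
              · have h1 := (pl hv.2 i)
                rw [b'i] at h1
                have h2 := (pl hab i)
                rw [hl, Pi.add_apply, Pi.single_eq_same]; omega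
              · have h1 := (pl hv.2 l)
                rw [b'j l hl] at h1
                rw [Pi.add_apply, single_apply_ne hl]; omega
          exact ⟨hJ hmem, Set.Icc_subset_Icc hPa hbQ hmem⟩
        · rcases hnb j (Finset.mem_erase.2 ⟨hji, hj⟩) with h1 | h1
          · exact Or.inl ⟨h1.1, hsub h1.2⟩
          · exact Or.inr ⟨h1.1, hsub h1.2⟩
      refine ih a' b hPa' hbQ ?_ ?_ ?_ ?_
      · refine le_pl fun j => ?_
        by_cases hj : j = i
        · have := (pl hab i); rw [hj, a'i]; omega
        · rw [a'j j hj]; exact (pl hab j)
      · intro j hj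
        by_cases hji : j = i
        · have := hm i hiK; rw [hji, a'i]; omega
        · rw [a'j j hji]; exact hm j hj
      · intro v hv
        by_cases hvi : v i = a i - 1
        · apply hF
          constructor
          · exact hv.1
          · refine le_pl fun l => ?_
            by_cases hl : l = i
            · rw [hl, b'i, hvi]
            · rw [b'j l hl]; exact (pl hv.2 l)
        · apply hJ
          constructor
          · refine le_pl fun l => ?_
            have h1 := (pl hv.1 l)
            by_cases hl : l = i
            · rw [hl] at h1 ⊢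
              rw [a'i] at h1
              omega
            · rw [a'j l hl] at h1; exact h1
          · exact hv.2
      · have h5 : ∑ j, ((a' j - P j).toNat + (Q j - b j).toNat) + 1 =
            ∑ j, ((a j - P j).toNat + (Q j - b j).toNat) := by
          rw [← Finset.add_sum_erase _ _ (Finset.mem_univ i),
            ← Finset.add_sum_erase _ (fun j => (a j - P j).toNat + (Q j - b j).toNat)
              (Finset.mem_univ i)]
          have h6 : ∑ j ∈ Finset.univ.erase i, ((a' j - P j).toNat + (Q j - b j).toNat) =
              ∑ j ∈ Finset.univ.erase i, ((a j - P j).toNat + (Q j - b j).toNat) := by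
            refine Finset.sum_congr rfl fun j hj => ?_
            rw [a'j j (Finset.ne_of_mem_erase hj)]
          rw [h6, a'i]
          omega
        omega
    · -- grow upwards in direction `i`
      have hPai : P i = a i := by have := (pl hPa i); omega
      have hbi : b i < Q i := by have := (pl hbQ i); omega
      set a' : Fin d → ℤ := update a i (b i + 1) with ha'
      set b' : Fin d → ℤ := update b i (b i + 1) with hb'
      have a'i : a' i = b i + 1 := by rw [ha', update_self]
      have b'i : b' i = b i + 1 := by rw [hb', update_self]
      have a'j : ∀ j, j ≠ i → a' j = a j := fun j hj => by rw [ha', update_of_ne hj]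
      have b'j : ∀ j, j ≠ i → b' j = b j := fun j hj => by rw [hb', update_of_ne hj]
      have hPa' : P ≤ a' := by
        refine le_pl fun j => ?_
        by_cases hj : j = i
        · have h2 := (pl hPa i); have h3 := (pl hab i)
          rw [hj, a'i]; omega
        · rw [a'j j hj]; exact (pl hPa j)
      have hb'Q : b' ≤ Q := by
        refine le_pl fun j => ?_
        by_cases hj : j = i
        · rw [hj, b'i]; omega
        · rw [b'j j hj]; exact (pl hbQ j)
      have ha'b' : a' ≤ b' := by
        refine le_pl fun j => ?_
        by_cases hj : j = i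
        · rw [hj, a'i, b'i]
        · rw [a'j j hj, b'j j hj]; exact (pl hab j)
      have hsp := good i hiK a' b' hPa' hb'Q ha'b' (by rw [a'i, b'i]) (by
        intro j hj
        have hji := Finset.ne_of_mem_erase hj
        rw [a'j j hji, b'j j hji]
        exact hm j (Finset.mem_of_mem_erase hj))
      have hsub : Set.Icc a' b' ⊆ Set.Icc P Q := Set.Icc_subset_Icc hPa' hb'Q
      have hF : Set.Icc a' b' ⊆ J := by
        refine hsp J (fun v hv => hSJ ⟨hv.1, hsub hv.2⟩) ?_
        intro v hv hnb
        refine hcl v (hsub hv) ?_
        intro j hj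
        by_cases hji : j = i
        · right
          rw [hji]
          have hmem : v - Pi.single i 1 ∈ Set.Icc a b := by
            constructor
            · refine le_pl fun l => ?_
              by_cases hl : l = i
              · have h1 := (pl hv.1 i)
                rw [a'i] at h1
                have h2 := (pl hab i)
                rw [hl, Pi.sub_apply, Pi.single_eq_same]; omega
              · have h1 := (pl hv.1 l)
                rw [a'j l hl] at h1
                rw [Pi.sub_apply, single_apply_ne hl]; omega
            · refine le_pl fun l => ?_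
              by_cases hl : l = i
              · have h1 := (pl hv.2 i)
                rw [b'i] at h1
                rw [hl, Pi.sub_apply, Pi.single_eq_same]; omega
              · have h1 := (pl hv.2 l)
                rw [b'j l hl] at h1
                rw [Pi.sub_apply, single_apply_ne hl]; omega
          exact ⟨hJ hmem, Set.Icc_subset_Icc hPa hbQ hmem⟩
        · rcases hnb j (Finset.mem_erase.2 ⟨hji, hj⟩) with h1 | h1
          · exact Or.inl ⟨h1.1, hsub h1.2⟩
          · exact Or.inr ⟨h1.1, hsub h1.2⟩
      refine ih a b' hPa hb'Q ?_ ?_ ?_ ?_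
      · refine le_pl fun j => ?_
        by_cases hj : j = i
        · have := (pl hab i); rw [hj, b'i]; omega
        · rw [b'j j hj]; exact (pl hab j)
      · intro j hj
        by_cases hji : j = i
        · have := hm i hiK; rw [hji, b'i]; omega
        · rw [b'j j hji]; exact hm j hj
      · intro v hv
        by_cases hvi : v i = b i + 1
        · apply hF
          constructor
          · refine le_pl fun l => ?_
            by_cases hl : l = i
            · rw [hl, a'i, hvi]
            · rw [a'j l hl]; exact (pl hv.1 l)
          · exact hv.2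
        · apply hJ
          constructor
          · exact hv.1
          · refine le_pl fun l => ?_
            have h1 := (pl hv.2 l)
            by_cases hl : l = i
            · rw [hl] at h1 ⊢
              rw [b'i] at h1
              omega
            · rw [b'j l hl] at h1; exact h1
      · have h5 : ∑ j, ((a j - P j).toNat + (Q j - b' j).toNat) + 1 =
            ∑ j, ((a j - P j).toNat + (Q j - b j).toNat) := by
          rw [← Finset.add_sum_erase _ _ (Finset.mem_univ i),
            ← Finset.add_sum_erase _ (fun j => (a j - P j).toNat + (Q j - b j).toNat)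
              (Finset.mem_univ i)]
          have h6 : ∑ j ∈ Finset.univ.erase i, ((a j - P j).toNat + (Q j - b' j).toNat) =
              ∑ j ∈ Finset.univ.erase i, ((a j - P j).toNat + (Q j - b j).toNat) := by
            refine Finset.sum_congr rfl fun j hj => ?_
            rw [b'j j (Finset.ne_of_mem_erase hj)]
          rw [h6, b'i]
          omega
        omega

end Pool.Agent.MP_f7f40d_pr
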