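import Pool.Agent.MP_f7f40d_pr.DuDep
import Pool.Agent.MP_f7f40d_pr.DuSpan

set_option autoImplicit false

/-!
Schonmann's theorem (bootstrap percolation with threshold `d` from sparse seeds): the
probability estimates for internal spanning.
-/

namespace Pool.Agent.MP_f7f40d_pr

open MeasureTheory ProbabilityTheory Filter Topology
open scoped ENNReal NNReal

variable {d : ℕ}

/-- The seeds: vertices with at least `d` extra grains. -/
def seeds (A : Om d) : Set (Fin d → ℤ) := {v | d ≤ A v}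

/-- The event that the box is internally spanned. -/
def Ev (K : Finset (Fin d)) (B : Set (Fin d → ℤ)) : Set (Om d) := {A | SpanIn K B (seeds A)}

theorem depOn_Ev (K : Finset (Fin d)) (a b : Fin d → ℤ) :
    DepOn (Finset.Icc a b) (Ev K (Set.Icc a b)) := by
  intro A A' h
  refine spanIn_congr fun v hv => ?_
  have := h v (by rw [Finset.mem_Icc]; exact hv)
  unfold seeds
  simp only [Set.mem_ofPred_eq]
  rw [this]

/-- Some slab in the box `[P, Q]` with sides at least `m` is not spanned. -/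
def BadB (K : Finset (Fin d)) (P Q : Fin d → ℤ) (m : ℕ) : Set (Om d) :=
  ⋃ i ∈ K, ⋃ a ∈ Finset.Icc P Q, ⋃ b ∈ Finset.Icc P Q,
    {A | a ≤ b ∧ a i = b i ∧ (∀ j ∈ K.erase i, (m : ℤ) ≤ b j - a j) ∧
      A ∉ Ev (K.erase i) (Set.Icc a b)}

theorem notMem_badB {K : Finset (Fin d)} {P Q : Fin d → ℤ} {m : ℕ} {A : Om d} :
    A ∉ BadB K P Q m ↔ ∀ i ∈ K, ∀ a b : Fin d → ℤ, P ≤ a → b ≤ Q → a ≤ b → a i = b i →
      (∀ j ∈ K.erase i, (m : ℤ) ≤ b j - a j) → SpanIn (K.erase i) (Set.Icc a b) (seeds A) := by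
  unfold BadB Ev
  simp only [Set.mem_iUnion, Finset.mem_Icc, Set.mem_ofPred_eq, exists_prop, not_exists, not_and,
    not_not]
  constructor
  · intro h i hi a b hPa hbQ hab hii hj
    exact h i hi a ⟨hPa, hab.trans hbQ⟩ b ⟨hPa.trans hab, hbQ⟩ hab hii hj
  · intro h i hi a ha b hb hab hii hj
    exact h i hi a b ha.1 hb.2 hab hii hj

theorem card_Icc_le {P Q : Fin d → ℤ} {L : ℕ} (hL : ∀ i, Q i - P i ≤ L) :
    ((Finset.Icc P Q).card : ℝ) ≤ ((L : ℝ) + 1) ^ d := by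
  rw [Pi.card_Icc]
  push_cast
  calc ∏ i, ((Finset.Icc (P i) (Q i)).card : ℝ) ≤ ∏ _i : Fin d, ((L : ℝ) + 1) := by
        refine Finset.prod_le_prod (fun _ _ => by positivity) fun i _ => ?_
        rw [Int.card_Icc]
        have h1 : (Q i + 1 - P i).toNat ≤ L + 1 := by
          have := hL i
          omega
        exact_mod_cast h1
    _ = ((L : ℝ) + 1) ^ d := by simp

theorem badB_le (lam : ℝ≥0) {K : Finset (Fin d)} {P Q : Fin d → ℤ} {m L : ℕ} {ε : ℝ}
    (hε0 : 0 ≤ ε) (hL : ∀ i, Q i - P i ≤ L)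
    (hε : ∀ i ∈ K, ∀ a b : Fin d → ℤ, P ≤ a → b ≤ Q → a ≤ b → a i = b i →
      (∀ j ∈ K.erase i, (m : ℤ) ≤ b j - a j) →
      (muP d lam).real (Ev (K.erase i) (Set.Icc a b))ᶜ ≤ ε) :
    (muP d lam).real (BadB K P Q m) ≤ d * (((L : ℝ) + 1) ^ d * ((L : ℝ) + 1) ^ d) * ε := by
  have hc := card_Icc_le hL
  have hone : ∀ i ∈ K, ∀ a ∈ Finset.Icc P Q, ∀ b ∈ Finset.Icc P Q,
      (muP d lam).real {A | a ≤ b ∧ a i = b i ∧ (∀ j ∈ K.erase i, (m : ℤ) ≤ b j - a j) ∧
        A ∉ Ev (K.erase i) (Set.Icc a b)} ≤ ε := by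
    intro i hi a ha b hb
    rw [Finset.mem_Icc] at ha hb
    by_cases hcond : a ≤ b ∧ a i = b i ∧ (∀ j ∈ K.erase i, (m : ℤ) ≤ b j - a j)
    · refine le_trans (measureReal_mono ?_) (hε i hi a b ha.1 hb.2 hcond.1 hcond.2.1 hcond.2.2)
      intro A hA
      exact hA.2.2.2
    · have : {A : Om d | a ≤ b ∧ a i = b i ∧ (∀ j ∈ K.erase i, (m : ℤ) ≤ b j - a j) ∧
        A ∉ Ev (K.erase i) (Set.Icc a b)} = ∅ := by
        ext A
        simp only [Set.mem_ofPred_eq, Set.mem_empty_iff_false, iff_false]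
        rintro ⟨h1, h2, h3, -⟩
        exact hcond ⟨h1, h2, h3⟩
      rw [this]
      simpa using hε0
  unfold BadB
  calc (muP d lam).real (⋃ i ∈ K, ⋃ a ∈ Finset.Icc P Q, ⋃ b ∈ Finset.Icc P Q,
        {A | a ≤ b ∧ a i = b i ∧ (∀ j ∈ K.erase i, (m : ℤ) ≤ b j - a j) ∧
        A ∉ Ev (K.erase i) (Set.Icc a b)})
      ≤ ∑ i ∈ K, ∑ a ∈ Finset.Icc P Q, ∑ b ∈ Finset.Icc P Q, ε := by
        refine (measureReal_biUnion_finset_le _ _).trans (Finset.sum_le_sum fun i hi => ?_)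
        refine (measureReal_biUnion_finset_le _ _).trans (Finset.sum_le_sum fun a ha => ?_)
        refine (measureReal_biUnion_finset_le _ _).trans (Finset.sum_le_sum fun b hb => ?_)
        exact hone i hi a ha b hb
    _ = (K.card : ℝ) * (((Finset.Icc P Q).card : ℝ) * ((Finset.Icc P Q).card : ℝ)) * ε := by
        simp only [Finset.sum_const, nsmul_eq_mul]
        ring
    _ ≤ d * (((L : ℝ) + 1) ^ d * ((L : ℝ) + 1) ^ d) * ε := by
        have h1 : (K.card : ℝ) ≤ d := by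
          have := Finset.card_le_univ K
          rw [Fintype.card_fin] at this
          exact_mod_cast this
        have h2 : (0 : ℝ) ≤ ((Finset.Icc P Q).card : ℝ) := by positivity
        gcongr

/-- Growth on the event that all slabs are spanned. -/
theorem grow_ev {K : Finset (Fin d)} {P Q a b : Fin d → ℤ} {m : ℕ} {A : Om d}
    (hoff : ∀ i ∉ K, P i = Q i) (hPa : P ≤ a) (hbQ : b ≤ Q) (hab : a ≤ b)
    (hm : ∀ j ∈ K, (m : ℤ) ≤ b j - a j) (hA : A ∉ BadB K P Q m)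
    (hAB : A ∈ Ev K (Set.Icc a b)) : A ∈ Ev K (Set.Icc P Q) := by
  rw [notMem_badB] at hA
  intro J hSJ hcl
  have hsub : Set.Icc a b ⊆ Set.Icc P Q := Set.Icc_subset_Icc hPa hbQ
  refine grow_box K (seeds A) J P Q m hoff hSJ hcl hA _ a b hPa hbQ hab hm ?_ rfl
  refine hAB J (fun v hv => hSJ ⟨hv.1, hsub hv.2⟩) fun v hv hnb => ?_
  refine hcl v (hsub hv) fun i hi => ?_
  rcases hnb i hi with h | h
  · exact Or.inl ⟨h.1, hsub h.2⟩
  · exact Or.inr ⟨h.1, hsub h.2⟩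

theorem badB_anti {K : Finset (Fin d)} {P Q : Fin d → ℤ} {m : ℕ} {A A' : Om d}
    (h : seeds A ⊆ seeds A') (hA : A ∉ BadB K P Q m) : A' ∉ BadB K P Q m := by
  rw [notMem_badB] at hA ⊢
  intro i hi a b h1 h2 h3 h4 h5
  exact (hA i hi a b h1 h2 h3 h4 h5).mono fun v hv => h hv.1

/-- Superpolynomially small probability for large boxes of dimension `k` not to be spanned. -/
def HH (d : ℕ) (lam : ℝ≥0) (k : ℕ) : Prop :=
  ∀ s j : ℕ, ∃ n₀ : ℕ, ∀ n : ℕ, n₀ ≤ n → ∀ K : Finset (Fin d), K.card = k →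
    ∀ a b : Fin d → ℤ, a ≤ b → (∀ i ∉ K, a i = b i) →
      (∀ i ∈ K, (n : ℤ) ≤ b i - a i ∧ b i - a i ≤ (n : ℤ) ^ j) →
      (muP d lam).real (Ev K (Set.Icc a b))ᶜ ≤ 1 / (n : ℝ) ^ s

theorem hh_zero (lam : ℝ≥0) : HH d lam 0 := by
  intro s j
  refine ⟨0, fun n _ K hK a b _ _ _ => ?_⟩
  rw [Finset.card_eq_zero] at hK
  have : (Ev K (Set.Icc a b))ᶜ = ∅ := by
    rw [hK]
    ext A
    simp only [Set.mem_compl_iff, Set.mem_empty_iff_false, iff_false, not_not]
    exact spanIn_empty _ _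
  rw [this]
  simp

/-- Corners of the cube of radius `r` around `x` in the directions of `K`. -/
def loC (K : Finset (Fin d)) (x : Fin d → ℤ) (r : ℕ) : Fin d → ℤ := fun i =>
  if i ∈ K then x i - r else x i

/-- Corners of the cube of radius `r` around `x` in the directions of `K`. -/
def hiC (K : Finset (Fin d)) (x : Fin d → ℤ) (r : ℕ) : Fin d → ℤ := fun i =>
  if i ∈ K then x i + r else x i

theorem lo_le_hi (K : Finset (Fin d)) (x : Fin d → ℤ) (r : ℕ) : loC K x r ≤ hiC K x r := by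
  refine le_pl fun i => ?_
  unfold loC hiC
  split_ifs <;> omega

theorem lo_anti (K : Finset (Fin d)) (x : Fin d → ℤ) {r s : ℕ} (h : r ≤ s) :
    loC K x s ≤ loC K x r := by
  refine le_pl fun i => ?_
  unfold loC
  split_ifs <;> omega

theorem hi_mono (K : Finset (Fin d)) (x : Fin d → ℤ) {r s : ℕ} (h : r ≤ s) :
    hiC K x r ≤ hiC K x s := by
  refine le_pl fun i => ?_
  unfold hiC
  split_ifs <;> omega

theorem side_C (K : Finset (Fin d)) (x : Fin d → ℤ) (r : ℕ) (i : Fin d) :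
    hiC K x r i - loC K x r i = if i ∈ K then 2 * (r : ℤ) else 0 := by
  unfold loC hiC
  split_ifs <;> omega

theorem off_C (K : Finset (Fin d)) (x : Fin d → ℤ) (r : ℕ) (i : Fin d) (hi : i ∉ K) :
    loC K x r i = hiC K x r i := by
  unfold loC hiC
  rw [if_neg hi, if_neg hi]

theorem ev_of_seeds {K : Finset (Fin d)} {B : Set (Fin d → ℤ)} {A : Om d}
    (h : B ⊆ seeds A) : A ∈ Ev K B := spanIn_of_subset h

/-- growth from radius `m` to radius `l` -/
theorem grow_rad {K : Finset (Fin d)} {x : Fin d → ℤ} {m l : ℕ} (hml : m ≤ l) {A : Om d}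
    (hA : ∀ r, m ≤ r → r < l → A ∉ BadB K (loC K x (r + 1)) (hiC K x (r + 1)) (2 * r))
    (h0 : A ∈ Ev K (Set.Icc (loC K x m) (hiC K x m))) :
    A ∈ Ev K (Set.Icc (loC K x l) (hiC K x l)) := by
  induction l, hml using Nat.le_induction with
  | base => exact h0
  | succ l hml ih =>
    have h1 := ih fun r hr hr2 => hA r hr (by omega)
    refine grow_ev (m := 2 * l) (off_C K x (l + 1)) (lo_anti K x (Nat.le_succ l))
      (hi_mono K x (Nat.le_succ l)) (lo_le_hi K x l) ?_ (hA l hml (by omega)) h1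
    intro j hj
    rw [side_C, if_pos hj]
    push_cast
    exact le_refl _

end Pool.Agent.MP_f7f40d_pr
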