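import Pool.Agent.MP_f7f40d_pr.DuNuc
import Pool.Agent.MP_f7f40d_pr.DuLeast

set_option autoImplicit false

/-!
The induction on the dimension, and the positive probability of spanning the whole lattice.
-/

namespace Pool.Agent.MP_f7f40d_pr

open MeasureTheory ProbabilityTheory Filter Topology
open scoped ENNReal NNReal

variable {d : ℕ}

/-- The numerical part of the recursion. -/
theorem rec_num (d s j : ℕ) {c : ℝ} (hc0 : 0 < c) (hc1 : c ≤ 1) (N : ℕ) :
    ∃ n₀ : ℕ, ∀ n : ℕ, n₀ ≤ n → 2 ≤ Nat.sqrt n ∧ N ≤ 2 * Nat.sqrt n ∧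
      (n : ℤ) ^ j ≤ ((2 * Nat.sqrt n : ℕ) : ℤ) ^ (2 * j) ∧
      d * ((((2 * Nat.sqrt n) ^ (2 * j) : ℕ) + 1 : ℝ) ^ d * ((((2 * Nat.sqrt n) ^ (2 * j) : ℕ) + 1 : ℝ)) ^ d) *
        (1 / ((2 * Nat.sqrt n : ℕ) : ℝ) ^ (4 * j * d + 2 * s + 1)) + (1 - c) ^ (Nat.sqrt n / 3) ≤
        1 / (n : ℝ) ^ s := by
  have habs : |1 - c| < 1 := by rw [abs_lt]; constructor <;> linarith
  have ht := tendsto_pow_const_mul_const_pow_of_abs_lt_one (2 * s) habs
  have ht2 : Tendsto (fun n : ℕ => (10 : ℝ) ^ (2 * s) * ((n : ℝ) ^ (2 * s) * (1 - c) ^ n)) atTop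
      (𝓝 (10 ^ (2 * s) * 0)) := ht.const_mul _
  rw [mul_zero] at ht2
  have ht3 := (ht2.comp (Nat.tendsto_div_const_atTop (n := 3) (by norm_num))).eventually
    (ge_mem_nhds (show (0 : ℝ) < 1 / 2 by norm_num))
  obtain ⟨l₁, hl₁⟩ := eventually_atTop.1 ht3
  obtain ⟨l₂, hl₂⟩ := exists_nat_ge ((d : ℝ) * 4 ^ d)
  set l₀ := l₁ + l₂ + N + 3 with hl₀
  refine ⟨l₀ * l₀, fun n hn => ?_⟩
  set l := Nat.sqrt n with hl
  have hl0 : l₀ ≤ l := Nat.le_sqrt.2 hn
  have hn2 : n < (l + 1) * (l + 1) := Nat.lt_succ_sqrt n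
  have hn3 : n ≤ (2 * l) ^ 2 := by nlinarith
  have hnpos : 0 < n := by nlinarith
  refine ⟨by omega, by omega, ?_, ?_⟩
  · rw [pow_mul]
    have : (n : ℤ) ≤ ((2 * l : ℕ) : ℤ) ^ 2 := by exact_mod_cast hn3
    gcongr
  · set y : ℝ := ((2 * l : ℕ) : ℝ) with hy
    have hy6 : (6 : ℝ) ≤ y := by
      have : 6 ≤ 2 * l := by omega
      rw [hy]; exact_mod_cast this
    have hy0 : 0 < y := by linarith
    have hy1 : 1 ≤ y := by linarith
    have hny : (n : ℝ) ≤ y ^ 2 := by rw [hy]; exact_mod_cast hn3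
    have hnp : (0 : ℝ) < n := by exact_mod_cast hnpos
    have e0 : (((2 * l) ^ (2 * j) : ℕ) : ℝ) = y ^ (2 * j) := by rw [hy]; push_cast; ring
    rw [e0]
    have h1 : y ^ (2 * j) + 1 ≤ 2 * y ^ (2 * j) := by
      have : 1 ≤ y ^ (2 * j) := one_le_pow₀ hy1
      linarith
    have hA : (d : ℝ) * ((y ^ (2 * j) + 1) ^ d * (y ^ (2 * j) + 1) ^ d) *
        (1 / y ^ (4 * j * d + 2 * s + 1)) ≤ (1 / 2) * (1 / y ^ (2 * s)) := by
      calc (d : ℝ) * ((y ^ (2 * j) + 1) ^ d * (y ^ (2 * j) + 1) ^ d) *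
            (1 / y ^ (4 * j * d + 2 * s + 1))
          ≤ (d : ℝ) * ((2 * y ^ (2 * j)) ^ d * (2 * y ^ (2 * j)) ^ d) *
            (1 / y ^ (4 * j * d + 2 * s + 1)) := by gcongr
        _ = (d * 4 ^ d / y) * (1 / y ^ (2 * s)) := by
            have e1 : (2 * y ^ (2 * j)) ^ d * (2 * y ^ (2 * j)) ^ d = 4 ^ d * y ^ (4 * j * d) := by
              rw [← mul_pow, show (2 * y ^ (2 * j)) * (2 * y ^ (2 * j)) = 4 * y ^ (4 * j) by
                rw [show 4 * j = 2 * j + 2 * j by ring, pow_add]; ring, mul_pow, ← pow_mul]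
            rw [e1, pow_succ, pow_add]
            field_simp
        _ ≤ (1 / 2) * (1 / y ^ (2 * s)) := by
            have h2 : d * 4 ^ d / y ≤ 1 / 2 := by
              rw [div_le_iff₀ hy0]
              have h3 : ((2 * l₂ : ℕ) : ℝ) ≤ y := by
                rw [hy]
                exact_mod_cast (by omega : 2 * l₂ ≤ 2 * l)
              push_cast at h3
              linarith
            gcongr
    have hB : (1 - c) ^ (l / 3) ≤ (1 / 2) * (1 / y ^ (2 * s)) := by
      have h2 := hl₁ l (by omega)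
      simp only [Function.comp_apply] at h2
      have h3 : y ≤ 10 * ((l / 3 : ℕ) : ℝ) := by
        have : 2 * l ≤ 10 * (l / 3) := by omega
        rw [hy]; exact_mod_cast this
      have h4 : y ^ (2 * s) ≤ (10 : ℝ) ^ (2 * s) * ((l / 3 : ℕ) : ℝ) ^ (2 * s) := by
        rw [← mul_pow]; gcongr
      have h5 : 0 ≤ (1 - c) ^ (l / 3) := pow_nonneg (by linarith) _
      have h6 : y ^ (2 * s) * (1 - c) ^ (l / 3) ≤ 1 / 2 := by
        calc y ^ (2 * s) * (1 - c) ^ (l / 3)
            ≤ ((10 : ℝ) ^ (2 * s) * ((l / 3 : ℕ) : ℝ) ^ (2 * s)) * (1 - c) ^ (l / 3) := by gcongr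
          _ = (10 : ℝ) ^ (2 * s) * (((l / 3 : ℕ) : ℝ) ^ (2 * s) * (1 - c) ^ (l / 3)) := by ring
          _ ≤ 1 / 2 := h2
      have hyp : 0 < y ^ (2 * s) := by positivity
      rw [show (1 / 2 : ℝ) * (1 / y ^ (2 * s)) = (1 / 2) / y ^ (2 * s) by ring,
        le_div_iff₀ hyp]
      linarith
    have hC : 1 / y ^ (2 * s) ≤ 1 / (n : ℝ) ^ s := by
      rw [pow_mul]
      gcongr
    linarith

/-- The induction step. -/
theorem hh_succ {lam : ℝ≥0} (hlam : 0 < lam) {k : ℕ} (hk : HH d lam k) : HH d lam (k + 1) := by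
  intro s j
  obtain ⟨c, hc0, hc⟩ := nucleus hlam hk
  by_cases hex : ∃ K₀ : Finset (Fin d), K₀.card = k + 1
  swap
  · exact ⟨0, fun n _ K hK => absurd ⟨K, hK⟩ hex⟩
  have hc1 : c ≤ 1 := by
    obtain ⟨K₀, hK₀⟩ := hex
    exact (hc K₀ hK₀ 0 0).trans measureReal_le_one
  obtain ⟨N, hN⟩ := hk (4 * j * d + 2 * s + 1) (2 * j)
  obtain ⟨n₀, hn₀⟩ := rec_num d s j hc0 hc1 N
  refine ⟨n₀, fun n hn K hK P Q hPQ hoff hside => ?_⟩
  obtain ⟨hl2, hlN, hpow, hnum⟩ := hn₀ n hn
  set l := Nat.sqrt n with hl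
  have hln : l * l ≤ n := Nat.sqrt_le n
  -- slabs
  have hbad : (muP d lam).real (BadB K P Q (2 * l)) ≤
      d * ((((2 * l) ^ (2 * j) : ℕ) + 1 : ℝ) ^ d * ((((2 * l) ^ (2 * j) : ℕ) + 1 : ℝ)) ^ d) *
        (1 / ((2 * l : ℕ) : ℝ) ^ (4 * j * d + 2 * s + 1)) := by
    refine badB_le lam (by positivity) ?_ ?_
    · intro i
      by_cases hi : i ∈ K
      · have h1 := (hside i hi).2
        push_cast
        push_cast at hpow
        exact h1.trans hpow
      · rw [hoff i hi, sub_self]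
        positivity
    · intro i hi a b hPa hbQ hab hii hj
      refine hN (2 * l) hlN (K.erase i) ?_ a b hab ?_ ?_
      · rw [Finset.card_erase_of_mem hi, hK]; rfl
      · intro j' hj2
        by_cases hji : j' = i
        · rw [hji]; exact hii
        · have hjK : j' ∉ K := fun h => hj2 (Finset.mem_erase.2 ⟨hji, h⟩)
          have h2 := pl hPa j'
          have h3 := pl hbQ j'
          have h4 := pl hab j'
          have h5 := hoff j' hjK
          omega
      · intro j' hj2
        refine ⟨hj j' hj2, ?_⟩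
        have hjK := Finset.mem_of_mem_erase hj2
        have h2 := pl hPa j'
        have h3 := pl hbQ j'
        have h5 := (hside j' hjK).2
        have h6 : b j' - a j' ≤ Q j' - P j' := by omega
        exact h6.trans (h5.trans hpow)
  -- nuclei
  obtain ⟨i₀, hi₀⟩ : K.Nonempty := by
    rw [← Finset.card_pos, hK]; omega
  set X : ℕ → (Fin d → ℤ) := fun t i =>
    if i ∈ K then (if i = i₀ then P i + l + 3 * l * t else P i + l) else P i with hX
  have hlo : ∀ t i, i ∈ K → loC K (X t) l i = if i = i₀ then P i + 3 * l * t else P i := by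
    intro t i hi
    unfold loC
    rw [if_pos hi, hX]
    simp only [if_pos hi]
    split_ifs <;> ring
  have hhi : ∀ t i, i ∈ K → hiC K (X t) l i =
      if i = i₀ then P i + 2 * l + 3 * l * t else P i + 2 * l := by
    intro t i hi
    unfold hiC
    rw [if_pos hi, hX]
    simp only [if_pos hi]
    split_ifs <;> ring
  have hdep : ∀ t, DepOn (Finset.Icc (loC K (X t) l) (hiC K (X t) l))
      (Ev K (Set.Icc (loC K (X t) l) (hiC K (X t) l)))ᶜ := fun t => (depOn_Ev K _ _).compl
  have hl2' : (2 : ℤ) ≤ l := by exact_mod_cast hl2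
  have hdisj : ∀ t t', t < t' → Disjoint (Finset.Icc (loC K (X t) l) (hiC K (X t) l))
      (Finset.Icc (loC K (X t') l) (hiC K (X t') l)) := by
    intro t t' htt
    rw [Finset.disjoint_left]
    intro v hv hv'
    rw [Finset.mem_Icc] at hv hv'
    have h1 := pl hv.2 i₀
    have h2 := pl hv'.1 i₀
    rw [hhi t i₀ hi₀, if_pos rfl] at h1
    rw [hlo t' i₀ hi₀, if_pos rfl] at h2
    have h3 : (t : ℤ) + 1 ≤ t' := by exact_mod_cast htt
    nlinarith
  have hnuc := (indep_list lam (fun t => Finset.Icc (loC K (X t) l) (hiC K (X t) l))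
    (fun t => (Ev K (Set.Icc (loC K (X t) l) (hiC K (X t) l)))ᶜ) hdep hdisj (l / 3)).1
  have hnuc2 : (muP d lam).real (⋂ t ∈ Finset.range (l / 3),
      (Ev K (Set.Icc (loC K (X t) l) (hiC K (X t) l)))ᶜ) ≤ (1 - c) ^ (l / 3) := by
    rw [measureReal_def, hnuc, ENNReal.toReal_prod]
    calc ∏ t ∈ Finset.range (l / 3), (muP d lam
          (Ev K (Set.Icc (loC K (X t) l) (hiC K (X t) l)))ᶜ).toReal
        ≤ ∏ _t ∈ Finset.range (l / 3), (1 - c) := by
          refine Finset.prod_le_prod (fun _ _ => ENNReal.toReal_nonneg) fun t _ => ?_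
          have h1 := hc K hK (X t) l
          rw [← measureReal_def, probReal_compl_eq_one_sub (depOn_Ev K _ _).measurableSet]
          linarith
      _ = (1 - c) ^ (l / 3) := by simp
  -- the deterministic inclusion
  have hsub : (Ev K (Set.Icc P Q))ᶜ ⊆ BadB K P Q (2 * l) ∪ ⋂ t ∈ Finset.range (l / 3),
      (Ev K (Set.Icc (loC K (X t) l) (hiC K (X t) l)))ᶜ := by
    intro A hA
    by_contra hcon
    rw [Set.mem_union, not_or] at hcon
    obtain ⟨hA1, hA2⟩ := hcon
    simp only [Set.mem_iInter, Finset.mem_range, Set.mem_compl_iff, not_forall, not_not] at hA2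
    obtain ⟨t, ht, hAt⟩ := hA2
    apply hA
    have ht3 : 3 * ((t : ℤ) + 1) ≤ l := by
      have : 3 * (t + 1) ≤ l := by omega
      exact_mod_cast this
    have hlnZ : (l : ℤ) * l ≤ n := by exact_mod_cast hln
    refine grow_ev (m := 2 * l) hoff ?_ ?_ (lo_le_hi K _ _) ?_ hA1 hAt
    · refine le_pl fun i => ?_
      by_cases hi : i ∈ K
      · rw [hlo t i hi]
        split_ifs
        · have : (0 : ℤ) ≤ 3 * l * t := by positivity
          omega
        · exact le_refl _
      · unfold loC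
        rw [if_neg hi, hX]
        simp only [if_neg hi]
        exact le_refl _
    · refine le_pl fun i => ?_
      by_cases hi : i ∈ K
      · rw [hhi t i hi]
        have h1 := (hside i hi).1
        split_ifs
        · nlinarith
        · nlinarith
      · unfold hiC
        rw [if_neg hi, hX]
        simp only [if_neg hi]
        exact (hoff i hi).le
    · intro j' hj'
      rw [side_C, if_pos hj']
      push_cast
      exact le_refl _
  refine (measureReal_mono hsub (measure_ne_top _ _)).trans ?_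
  refine (measureReal_union_le _ _).trans ?_
  linarith

theorem hh_all {lam : ℝ≥0} (hlam : 0 < lam) (k : ℕ) : HH d lam k := by
  induction k with
  | zero => exact hh_zero lam
  | succ k ih => exact hh_succ hlam ih

/-- With positive probability the seeds span the whole lattice. -/
theorem prob_spans (hd : 1 ≤ d) {lam : ℝ≥0} (hlam : 0 < lam) :
    ∃ E : Set (Om d), MeasurableSet E ∧ 0 < muP d lam E ∧ ∀ A ∈ E, Spans (seeds A) := by
  obtain ⟨c, hc0, hc⟩ := nucleus hlam (hh_all (d := d) hlam (d - 1))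
  set F : ℕ → Set (Om d) := fun l =>
    Ev Finset.univ (Set.Icc (loC Finset.univ 0 l) (hiC Finset.univ 0 l)) with hF
  have hFm : ∀ l, MeasurableSet (F l) := fun l => (depOn_Ev _ _ _).measurableSet
  have hFc : ∀ l, ENNReal.ofReal c ≤ muP d lam (F l) := by
    intro l
    have h := hc Finset.univ (by rw [Finset.card_univ, Fintype.card_fin]; omega) 0 l
    rw [measureReal_def] at h
    exact (ENNReal.ofReal_le_iff_le_toReal (measure_ne_top _ _)).2 h
  refine ⟨⋂ L, ⋃ l ≥ L, F l, ?_, ?_, ?_⟩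
  · exact MeasurableSet.iInter fun L => MeasurableSet.iUnion fun l =>
      MeasurableSet.iUnion fun _ => hFm l
  · have ht : Tendsto (fun L : ℕ => muP d lam (⋃ l ≥ L, F l)) atTop
        (𝓝 (muP d lam (⋂ L, ⋃ l ≥ L, F l))) := by
      refine tendsto_measure_iInter_atTop (fun L => ?_) ?_ ⟨0, measure_ne_top _ _⟩
      · exact (MeasurableSet.iUnion fun l => MeasurableSet.iUnion fun _ => hFm l).nullMeasurableSet
      · intro L L' hLL
        exact Set.biUnion_subset_biUnion_left fun l hl => le_trans hLL hl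
    have hge : ENNReal.ofReal c ≤ muP d lam (⋂ L, ⋃ l ≥ L, F l) := by
      refine ge_of_tendsto' ht fun L => ?_
      refine (hFc L).trans (measure_mono ?_)
      exact Set.subset_biUnion_of_mem (u := F) (show L ≥ L from le_refl L)
    exact lt_of_lt_of_le (ENNReal.ofReal_pos.2 hc0) hge
  · intro A hA J hSJ hJ
    rw [Set.eq_univ_iff_forall]
    intro v
    rw [Set.mem_iInter] at hA
    obtain ⟨L, hL⟩ : ∃ L : ℕ, ∀ i, |v i| ≤ L := by
      refine ⟨∑ i, (v i).natAbs, fun i => ?_⟩
      have h1 := Finset.single_le_sum (f := fun i => (v i).natAbs) (fun _ _ => Nat.zero_le _)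
        (Finset.mem_univ i)
      rw [Int.abs_eq_natAbs]
      exact_mod_cast h1
    have h1 := hA L
    simp only [Set.mem_iUnion] at h1
    obtain ⟨l, hl, hAl⟩ := h1
    refine hAl J (fun x hx => hSJ hx.1) (fun x _ hx => ?_) ?_
    · refine hJ x fun i => ?_
      rcases hx i (Finset.mem_univ i) with h | h
      · exact Or.inl h.1
      · exact Or.inr h.1
    · have hl' : (L : ℤ) ≤ l := by exact_mod_cast hl
      constructor
      · refine le_pl fun i => ?_
        unfold loC
        rw [if_pos (Finset.mem_univ i), Pi.zero_apply]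
        have := abs_le.1 (hL i)
        omega
      · refine le_pl fun i => ?_
        unfold hiC
        rw [if_pos (Finset.mem_univ i), Pi.zero_apply]
        have := abs_le.1 (hL i)
        omega

end Pool.Agent.MP_f7f40d_pr
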