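import Mathlib

set_option autoImplicit false

namespace Pool.Agent.MP_f7f40d_pr

open Function

/-- One parallel update of the abelian sandpile on `ℤ^d`: every vertex with at least `2d` grains
loses `2d` grains, and every vertex gains one grain for each nearest neighbour with at least
`2d` grains. -/
def step (d : ℕ) (η : (Fin d → ℤ) → ℤ) : (Fin d → ℤ) → ℤ := fun v =>
  η v - (if 2 * (d : ℤ) ≤ η v then 2 * (d : ℤ) else 0) +
    ∑ i : Fin d, ((if 2 * (d : ℤ) ≤ η (v + Pi.single i 1) then 1 else 0) +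
      (if 2 * (d : ℤ) ≤ η (v - Pi.single i 1) then 1 else 0))

/-- `A` percolates: every vertex topples infinitely many times, that is, it holds at least `2d`
grains at arbitrarily late times. -/
def Percolates (d : ℕ) (A : (Fin d → ℤ) → ℤ) : Prop :=
  ∀ v : Fin d → ℤ, ∀ T : ℕ, ∃ t : ℕ, T ≤ t ∧ 2 * (d : ℤ) ≤ (step d)^[t] A v

variable {d : ℕ}

/-- Toppling indicator at time `t`. -/
def topp (A : (Fin d → ℤ) → ℤ) (t : ℕ) (v : Fin d → ℤ) : ℤ :=
  if 2 * (d : ℤ) ≤ (step d)^[t] A v then 1 else 0

/-- The number of topplings of `v` before time `t`. -/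
def odo (A : (Fin d → ℤ) → ℤ) (t : ℕ) (v : Fin d → ℤ) : ℤ :=
  ∑ s ∈ Finset.range t, topp A s v

/-- The integer Laplacian. -/
def lapZ (w : (Fin d → ℤ) → ℤ) (v : Fin d → ℤ) : ℤ :=
  ∑ i : Fin d, (2 * w v - w (v + Pi.single i 1) - w (v - Pi.single i 1))

theorem topp_nonneg (A : (Fin d → ℤ) → ℤ) (t : ℕ) (v : Fin d → ℤ) : 0 ≤ topp A t v := by
  unfold topp; split_ifs <;> norm_num

theorem topp_le_one (A : (Fin d → ℤ) → ℤ) (t : ℕ) (v : Fin d → ℤ) : topp A t v ≤ 1 := by
  unfold topp; split_ifs <;> norm_num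

theorem odo_nonneg (A : (Fin d → ℤ) → ℤ) (t : ℕ) (v : Fin d → ℤ) : 0 ≤ odo A t v :=
  Finset.sum_nonneg fun _ _ => topp_nonneg _ _ _

theorem odo_le (A : (Fin d → ℤ) → ℤ) (t : ℕ) (v : Fin d → ℤ) : odo A t v ≤ t := by
  unfold odo
  refine (Finset.sum_le_sum fun s _ => topp_le_one A s v).trans ?_
  simp

theorem lapZ_add (u w : (Fin d → ℤ) → ℤ) (v : Fin d → ℤ) :
    lapZ (fun x => u x + w x) v = lapZ u v + lapZ w v := by
  unfold lapZ
  rw [← Finset.sum_add_distrib]
  exact Finset.sum_congr rfl fun i _ => by ring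

theorem step_apply (η : (Fin d → ℤ) → ℤ) (v : Fin d → ℤ) :
    step d η v = η v - (if 2 * (d : ℤ) ≤ η v then 2 * (d : ℤ) else 0) +
    ∑ i : Fin d, ((if 2 * (d : ℤ) ≤ η (v + Pi.single i 1) then 1 else 0) +
      (if 2 * (d : ℤ) ≤ η (v - Pi.single i 1) then 1 else 0)) := rfl

theorem step_eq (A : (Fin d → ℤ) → ℤ) (t : ℕ) (v : Fin d → ℤ) :
    (step d)^[t + 1] A v = (step d)^[t] A v - lapZ (topp A t) v := by
  rw [iterate_succ_apply', step_apply]
  unfold lapZ topp
  rw [Finset.sum_sub_distrib, Finset.sum_sub_distrib, Finset.sum_add_distrib]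
  simp only [Finset.sum_const, Finset.card_univ, Fintype.card_fin, nsmul_eq_mul]
  split_ifs <;> ring

theorem eta_eq (A : (Fin d → ℤ) → ℤ) (t : ℕ) (v : Fin d → ℤ) :
    (step d)^[t] A v = A v - lapZ (odo A t) v := by
  induction t with
  | zero => simp [odo, lapZ]
  | succ t ih =>
    rw [step_eq, ih]
    have : odo A (t + 1) = fun x => odo A t x + topp A t x := by
      funext x
      unfold odo
      rw [Finset.sum_range_succ]
    rw [this, lapZ_add]
    ring

theorem sum_topp_bounds (A : (Fin d → ℤ) → ℤ) (t : ℕ) (v : Fin d → ℤ) :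
    0 ≤ ∑ i : Fin d, (topp A t (v + Pi.single i 1) + topp A t (v - Pi.single i 1)) ∧
    ∑ i : Fin d, (topp A t (v + Pi.single i 1) + topp A t (v - Pi.single i 1)) ≤ 2 * (d : ℤ) := by
  constructor
  · exact Finset.sum_nonneg fun i _ => add_nonneg (topp_nonneg _ _ _) (topp_nonneg _ _ _)
  · calc ∑ i : Fin d, (topp A t (v + Pi.single i 1) + topp A t (v - Pi.single i 1))
        ≤ ∑ i : Fin d, (1 + 1) :=
          Finset.sum_le_sum fun i _ => add_le_add (topp_le_one _ _ _) (topp_le_one _ _ _)
      _ = 2 * (d : ℤ) := by simp; ring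

theorem step_eq' (A : (Fin d → ℤ) → ℤ) (t : ℕ) (v : Fin d → ℤ) :
    (step d)^[t + 1] A v = (step d)^[t] A v - 2 * d * topp A t v +
      ∑ i : Fin d, (topp A t (v + Pi.single i 1) + topp A t (v - Pi.single i 1)) := by
  rw [step_eq]
  unfold lapZ
  rw [Finset.sum_sub_distrib, Finset.sum_sub_distrib, Finset.sum_add_distrib]
  simp only [Finset.sum_const, Finset.card_univ, Fintype.card_fin, nsmul_eq_mul]
  ring

theorem eta_nonneg {A : (Fin d → ℤ) → ℤ} (hA : ∀ v, 0 ≤ A v) (t : ℕ) (v : Fin d → ℤ) :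
    0 ≤ (step d)^[t] A v := by
  induction t with
  | zero => exact hA v
  | succ t ih =>
    rw [step_eq']
    have := (sum_topp_bounds A t v).1
    unfold topp at this ⊢
    split_ifs at * <;> omega

theorem eta_le (A : (Fin d → ℤ) → ℤ) (t : ℕ) (v : Fin d → ℤ) :
    (step d)^[t] A v ≤ max (A v) (4 * d - 1) := by
  induction t with
  | zero => exact le_max_left _ _
  | succ t ih =>
    rw [step_eq']
    have h := (sum_topp_bounds A t v).2
    by_cases hc : 2 * (d : ℤ) ≤ (step d)^[t] A v
    · have h1 : topp A t v = 1 := by unfold topp; rw [if_pos hc]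
      rw [h1]
      refine le_trans ?_ ih
      omega
    · have h1 : topp A t v = 0 := by unfold topp; rw [if_neg hc]
      rw [h1]
      refine le_trans ?_ (le_max_right _ _)
      omega

/-- The set of vertices that topple finitely often is closed under neighbours. -/
theorem finite_nbr {A : (Fin d → ℤ) → ℤ} {v w : Fin d → ℤ}
    (hw : ∃ i : Fin d, w = v + Pi.single i 1 ∨ w = v - Pi.single i 1)
    (hv : ∃ T, ∀ t, T ≤ t → (step d)^[t] A v < 2 * (d : ℤ)) :
    ∃ T, ∀ t, T ≤ t → (step d)^[t] A w < 2 * (d : ℤ) := by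
  obtain ⟨T, hT⟩ := hv
  by_contra hcon
  push Not at hcon
  -- the content of `v` after time `T` is at least the initial content plus the topplings of `w`
  have hgrow : ∀ n, (step d)^[T] A v + (odo A (T + n) w - odo A T w) ≤ (step d)^[T + n] A v := by
    intro n
    induction n with
    | zero => simp
    | succ n ih =>
      rw [← add_assoc, step_eq']
      have h1 : topp A (T + n) v = 0 := by
        unfold topp; rw [if_neg (not_le.mpr (hT _ (by omega)))]
      have h2 : topp A (T + n) w ≤
          ∑ i : Fin d, (topp A (T + n) (v + Pi.single i 1) + topp A (T + n) (v - Pi.single i 1)) := by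
        obtain ⟨i, hi⟩ := hw
        refine le_trans ?_ (Finset.single_le_sum (f := fun i : Fin d =>
          (topp A (T + n) (v + Pi.single i 1) + topp A (T + n) (v - Pi.single i 1)))
          (fun i _ => add_nonneg (topp_nonneg _ _ _) (topp_nonneg _ _ _)) (Finset.mem_univ i))
        rcases hi with hi | hi
        · rw [hi]; have := topp_nonneg A (T + n) (v - Pi.single i 1); omega
        · rw [hi]; have := topp_nonneg A (T + n) (v + Pi.single i 1); omega
      have h3 : odo A (T + n + 1) w = odo A (T + n) w + topp A (T + n) w := by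
        unfold odo; rw [Finset.sum_range_succ]
      rw [h1, h3]
      linarith
  have hmono : ∀ m n, m ≤ n → odo A m w ≤ odo A n w := by
    intro m n hmn
    unfold odo
    exact Finset.sum_le_sum_of_subset_of_nonneg (Finset.range_mono hmn)
      (fun _ _ _ => topp_nonneg _ _ _)
  have hunb : ∀ k : ℕ, ∃ n, odo A T w + k ≤ odo A (T + n) w := by
    intro k
    induction k with
    | zero => exact ⟨0, by simp⟩
    | succ k ih =>
      obtain ⟨n, hn⟩ := ih
      obtain ⟨t, ht, ht2⟩ := hcon (T + n)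
      refine ⟨t + 1 - T, ?_⟩
      have e : T + (t + 1 - T) = t + 1 := by omega
      rw [e]
      have h3 : odo A (t + 1) w = odo A t w + topp A t w := by
        unfold odo; rw [Finset.sum_range_succ]
      have h4 : topp A t w = 1 := by unfold topp; rw [if_pos ht2]
      have h5 := hmono (T + n) t ht
      rw [h3, h4]
      push_cast
      linarith
  obtain ⟨n, hn⟩ := hunb (2 * (d : ℤ) - (step d)^[T] A v).toNat
  have h1 := hgrow n
  have h2 := hT (T + n) (by omega)
  have h3 := Int.self_le_toNat (2 * (d : ℤ) - (step d)^[T] A v)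
  linarith

theorem eventually_stable {A : (Fin d → ℤ) → ℤ} (h : ¬ Percolates d A) (v : Fin d → ℤ) :
    ∃ T, ∀ t, T ≤ t → (step d)^[t] A v < 2 * (d : ℤ) := by
  unfold Percolates at h
  push Not at h
  obtain ⟨v0, T0, h0⟩ := h
  -- the set of good shifts is a subgroup
  have hcl : ∀ w ∈ AddSubgroup.closure (Set.range fun i : Fin d => (Pi.single i 1 : Fin d → ℤ)),
      ∀ x : Fin d → ℤ, (∃ T, ∀ t, T ≤ t → (step d)^[t] A x < 2 * (d : ℤ)) ↔
        ∃ T, ∀ t, T ≤ t → (step d)^[t] A (x + w) < 2 * (d : ℤ) := by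
    intro w hw
    induction hw using AddSubgroup.closure_induction with
    | mem w hw =>
      obtain ⟨i, rfl⟩ := hw
      intro x
      constructor
      · exact finite_nbr ⟨i, Or.inl rfl⟩
      · exact finite_nbr ⟨i, Or.inr (by simp)⟩
    | zero => intro x; simp
    | add a b _ _ ha hb =>
      intro x
      rw [ha x, hb (x + a), add_assoc]
    | neg a _ ha =>
      intro x
      have := ha (x + -a)
      simp only [neg_add_cancel_right] at this
      exact this.symm
  have htop : v - v0 ∈ AddSubgroup.closure (Set.range fun i : Fin d => (Pi.single i 1 : Fin d → ℤ)) := by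
    have : v - v0 = ∑ i : Fin d, ((v - v0) i) • (Pi.single i 1 : Fin d → ℤ) := by
      funext j
      simp [Finset.sum_apply, Pi.single_apply]
    rw [this]
    apply AddSubgroup.sum_mem
    intro i _
    apply AddSubgroup.zsmul_mem
    exact AddSubgroup.subset_closure ⟨i, rfl⟩
  have := (hcl _ htop v0).mp ⟨T0, h0⟩
  simpa using this

end Pool.Agent.MP_f7f40d_pr
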