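import Mathlib

set_option autoImplicit false

namespace Pool.Agent.MP_f7f40d_pr

open MeasureTheory Complex Filter Topology
open scoped Real

/-- Fourier coefficient of the density `F` on the line. -/
noncomputable def fc (F : ℝ → ℝ) (k : ℤ) : ℂ :=
  ∫ θ : ℝ, (F θ : ℂ) * cexp (2 * π * k * θ * I)

section Fejer

variable {ι κ : Type} [Fintype ι] [Fintype κ]

theorem prod_fc (F : ℝ → ℝ) (k : ι → ℤ) :
    ∏ x, fc F (k x) = ∫ θ : ι → ℝ, ((∏ x, F (θ x) : ℝ) : ℂ) *
      cexp (2 * π * (∑ x, (k x : ℂ) * θ x) * I) := by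
  unfold fc
  rw [← integral_fintype_prod_volume_eq_prod
    (f := fun (x : ι) (θ : ℝ) => (F θ : ℂ) * cexp (2 * π * k x * θ * I))]
  congr 1
  ext θ
  rw [Finset.prod_mul_distrib, ← Complex.exp_sum]
  push_cast
  congr 2
  rw [Finset.mul_sum, Finset.sum_mul]
  apply Finset.sum_congr rfl
  intro x _
  ring

/-- The exponential sum over a finite set of lattice points. -/
noncomputable def expSum (D : (κ → ℤ) → ι → ℤ) (B : Finset (κ → ℤ)) (θ : ι → ℝ) : ℂ :=
  ∑ a ∈ B, cexp (2 * π * (∑ x, (D a x : ℂ) * θ x) * I)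

theorem expSum_continuous (D : (κ → ℤ) → ι → ℤ) (B : Finset (κ → ℤ)) :
    Continuous (expSum D B) := by
  unfold expSum
  fun_prop

theorem norm_expSum_le (D : (κ → ℤ) → ι → ℤ) (B : Finset (κ → ℤ)) (θ : ι → ℝ) :
    ‖expSum D B θ‖ ≤ B.card := by
  unfold expSum
  refine (norm_sum_le _ _).trans ?_
  have : ∀ a ∈ B, ‖cexp (2 * π * (∑ x, (D a x : ℂ) * θ x) * I)‖ ≤ 1 := by
    intro a _
    have e : (2 * π * (∑ x, (D a x : ℂ) * θ x) * I) =
      ((2 * π * (∑ x, (D a x : ℝ) * θ x) : ℝ) : ℂ) * I := by push_cast; ring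
    rw [e, Complex.norm_exp_ofReal_mul_I]
  refine (Finset.sum_le_sum this).trans ?_
  simp

theorem integrable_aux {F : ℝ → ℝ} (hF : Integrable F) (D : (κ → ℤ) → ι → ℤ)
    (B : Finset (κ → ℤ)) :
    Integrable (fun θ : ι → ℝ => (∏ x, F (θ x)) * ‖expSum D B θ‖ ^ 2) := by
  have h1 : Integrable (fun θ : ι → ℝ => ∏ x, F (θ x)) :=
    Integrable.fintype_prod (f := fun (_ : ι) (t : ℝ) => F t) (μ := fun _ => volume) (fun _ => hF)
  refine h1.mul_bdd (c := (B.card : ℝ) ^ 2) ?_ ?_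
  · exact ((expSum_continuous D B).norm.pow 2).aestronglyMeasurable
  · refine Eventually.of_forall fun θ => ?_
    rw [Real.norm_eq_abs, abs_of_nonneg (by positivity)]
    exact pow_le_pow_left₀ (norm_nonneg _) (norm_expSum_le D B θ) 2

theorem integrable_aux2 {F : ℝ → ℝ} (hF : Integrable F) (k : ι → ℤ) :
    Integrable (fun θ : ι → ℝ => ((∏ x, F (θ x) : ℝ) : ℂ) *
      cexp (2 * π * (∑ x, (k x : ℂ) * θ x) * I)) := by
  have h1 : Integrable (fun θ : ι → ℝ => ∏ x, F (θ x)) :=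
    Integrable.fintype_prod (f := fun (_ : ι) (t : ℝ) => F t) (μ := fun _ => volume) (fun _ => hF)
  refine h1.ofReal.mul_bdd (c := 1) ?_ ?_
  · apply Continuous.aestronglyMeasurable
    fun_prop
  · refine Eventually.of_forall fun θ => ?_
    have e : (2 * π * (∑ x, (k x : ℂ) * θ x) * I) =
      ((2 * π * (∑ x, (k x : ℝ) * θ x) : ℝ) : ℂ) * I := by push_cast; ring
    rw [e, Complex.norm_exp_ofReal_mul_I]

theorem sum_prod_fc {F : ℝ → ℝ} (hF : Integrable F) (D : (κ → ℤ) → ι → ℤ)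
    (hD : ∀ a b x, D (a - b) x = D a x - D b x) (B : Finset (κ → ℤ)) :
    ∑ a ∈ B, ∑ b ∈ B, ∏ x, fc F (D (a - b) x) =
      ((∫ θ : ι → ℝ, (∏ x, F (θ x)) * ‖expSum D B θ‖ ^ 2 : ℝ) : ℂ) := by
  have h1 : ∀ a b, ∏ x, fc F (D (a - b) x) = ∫ θ : ι → ℝ, ((∏ x, F (θ x) : ℝ) : ℂ) *
      cexp (2 * π * (∑ x, (D (a - b) x : ℂ) * θ x) * I) := fun a b => prod_fc F _
  simp_rw [h1]
  have h2 : ∑ a ∈ B, ∑ b ∈ B, (∫ θ : ι → ℝ, ((∏ x, F (θ x) : ℝ) : ℂ) *
      cexp (2 * π * (∑ x, (D (a - b) x : ℂ) * θ x) * I)) =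
      ∫ θ : ι → ℝ, ∑ a ∈ B, ∑ b ∈ B, ((∏ x, F (θ x) : ℝ) : ℂ) *
      cexp (2 * π * (∑ x, (D (a - b) x : ℂ) * θ x) * I) := by
    rw [integral_finset_sum]
    · apply Finset.sum_congr rfl
      intro a _
      rw [integral_finset_sum]
      intro b _
      exact integrable_aux2 hF _
    · intro a _
      exact integrable_finset_sum _ fun b _ => integrable_aux2 hF _
  rw [h2, ← integral_complex_ofReal]
  congr 1
  ext θ
  rw [Complex.ofReal_mul]
  simp_rw [← Finset.mul_sum]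
  congr 1
  have hsq : ((‖expSum D B θ‖ ^ 2 : ℝ) : ℂ) = expSum D B θ * (starRingEnd ℂ) (expSum D B θ) := by
    rw [Complex.mul_conj, Complex.normSq_eq_norm_sq]
  rw [hsq]
  unfold expSum
  rw [map_sum, Finset.sum_mul_sum]
  apply Finset.sum_congr rfl
  intro a _
  apply Finset.sum_congr rfl
  intro b _
  rw [← Complex.exp_conj, ← Complex.exp_add]
  congr 1
  have : (starRingEnd ℂ) (2 * π * (∑ x, (D b x : ℂ) * θ x) * I) =
      -(2 * π * (∑ x, (D b x : ℂ) * θ x) * I) := by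
    simp only [map_mul, map_sum, Complex.conj_I, Complex.conj_ofReal]
    rw [show (starRingEnd ℂ) 2 = 2 from Complex.conj_ofNat 2]
    simp
  rw [this]
  have h3 : ∑ x, (D (a - b) x : ℂ) * θ x = ∑ x, (D a x : ℂ) * θ x - ∑ x, (D b x : ℂ) * θ x := by
    rw [← Finset.sum_sub_distrib]
    apply Finset.sum_congr rfl
    intro x _
    rw [hD]
    push_cast
    ring
  rw [h3]
  ring

theorem fejer_le {F G : ℝ → ℝ} (hF : Integrable F) (hG : Integrable G) (hF0 : ∀ t, 0 ≤ F t)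
    (hFG : ∀ t, F t ≤ G t) {f g : ℤ → ℝ} (hf : ∀ k, (f k : ℂ) = fc F k)
    (hg : ∀ k, (g k : ℂ) = fc G k) (D : (κ → ℤ) → ι → ℤ)
    (hD : ∀ a b x, D (a - b) x = D a x - D b x) (B : Finset (κ → ℤ)) :
    ∑ a ∈ B, ∑ b ∈ B, ∏ x, f (D (a - b) x) ≤ ∑ a ∈ B, ∑ b ∈ B, ∏ x, g (D (a - b) x) := by
  have h1 : ∑ a ∈ B, ∑ b ∈ B, ∏ x, f (D (a - b) x) =
      ∫ θ : ι → ℝ, (∏ x, F (θ x)) * ‖expSum D B θ‖ ^ 2 := by
    have := sum_prod_fc hF D hD B
    simp_rw [← hf] at this
    exact_mod_cast this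
  have h2 : ∑ a ∈ B, ∑ b ∈ B, ∏ x, g (D (a - b) x) =
      ∫ θ : ι → ℝ, (∏ x, G (θ x)) * ‖expSum D B θ‖ ^ 2 := by
    have := sum_prod_fc hG D hD B
    simp_rw [← hg] at this
    exact_mod_cast this
  rw [h1, h2]
  apply integral_mono (integrable_aux hF D B) (integrable_aux hG D B)
  intro θ
  apply mul_le_mul_of_nonneg_right _ (by positivity)
  exact Finset.prod_le_prod (fun x _ => hF0 _) (fun x _ => hFG _)

end Fejer

section Limit

variable {κ : Type} [Fintype κ] [DecidableEq κ]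

/-- From the box averages to the full sums. -/
theorem tsum_le_of_box {φ ψ : (κ → ℤ) → ℝ} (hφ : ∀ u, 0 ≤ φ u) (hψ : ∀ u, 0 ≤ ψ u)
    (h : ∀ B : Finset (κ → ℤ), ∑ a ∈ B, ∑ b ∈ B, φ (a - b) ≤ ∑ a ∈ B, ∑ b ∈ B, ψ (a - b)) :
    ∑' u, ENNReal.ofReal (φ u) ≤ ∑' u, ENNReal.ofReal (ψ u) := by
  by_cases htop : ∑' u, ENNReal.ofReal (ψ u) = ⊤
  · rw [htop]; exact le_top
  have hsum : Summable ψ := by
    have := ENNReal.summable_toReal htop
    refine this.congr fun u => ENNReal.toReal_ofReal (hψ u)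
  rw [← ENNReal.ofReal_tsum_of_nonneg hψ hsum]
  rw [ENNReal.tsum_eq_iSup_sum]
  apply iSup_le
  intro U
  rw [← ENNReal.ofReal_sum_of_nonneg (fun u _ => hφ u)]
  apply ENNReal.ofReal_le_ofReal
  set S := ∑' u, ψ u with hS
  set n := Fintype.card κ with hn
  -- a bound for the coordinates of points of U
  obtain ⟨M, hM⟩ : ∃ M : ℕ, ∀ u ∈ U, ∀ i, |u i| ≤ M := by
    refine ⟨∑ u ∈ U, ∑ i, (u i).natAbs, ?_⟩
    intro u hu i
    rw [Int.abs_eq_natAbs]
    have h1 : (u i).natAbs ≤ ∑ i, (u i).natAbs :=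
      Finset.single_le_sum (f := fun i => (u i).natAbs) (fun _ _ => Nat.zero_le _) (Finset.mem_univ i)
    have h2 : ∑ i, (u i).natAbs ≤ ∑ u ∈ U, ∑ i, (u i).natAbs :=
      Finset.single_le_sum (f := fun u : κ → ℤ => ∑ i, (u i).natAbs) (fun _ _ => Nat.zero_le _) hu
    exact_mod_cast h1.trans h2
  have key : ∀ R : ℕ, 2 * M < R → ((R : ℝ) - 2 * M) ^ n * ∑ u ∈ U, φ u ≤ (R : ℝ) ^ n * S := by
    intro R hR
    set B : Finset (κ → ℤ) := Fintype.piFinset (fun _ => Finset.Ico (0 : ℤ) R) with hB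
    set B' : Finset (κ → ℤ) := Fintype.piFinset (fun _ => Finset.Ico (M : ℤ) (R - M)) with hB'
    have hcB : (B.card : ℝ) = (R : ℝ) ^ n := by
      rw [hB, Fintype.card_piFinset]; simp [hn]
    have hcB' : (B'.card : ℝ) = ((R : ℝ) - 2 * M) ^ n := by
      rw [hB', Fintype.card_piFinset]
      simp only [Int.card_Ico, Finset.prod_const, Finset.card_univ, ← hn]
      push_cast
      congr 1
      have : (((R : ℤ) - M - M).toNat : ℤ) = (R : ℤ) - M - M := Int.toNat_of_nonneg (by omega)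
      have h2 : (((R : ℤ) - M - M).toNat : ℝ) = (R : ℝ) - M - M := by exact_mod_cast this
      rw [h2]; ring
    have hsub : B' ⊆ B := by
      intro b hb
      rw [hB', Fintype.mem_piFinset] at hb
      rw [hB, Fintype.mem_piFinset]
      intro i
      have := hb i
      rw [Finset.mem_Ico] at this ⊢
      omega
    have lower : (B'.card : ℝ) * ∑ u ∈ U, φ u ≤ ∑ a ∈ B, ∑ b ∈ B, φ (a - b) := by
      rw [Finset.sum_comm]
      calc (B'.card : ℝ) * ∑ u ∈ U, φ u = ∑ b ∈ B', ∑ u ∈ U, φ u := by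
            rw [Finset.sum_const, nsmul_eq_mul]
        _ ≤ ∑ b ∈ B', ∑ a ∈ B, φ (a - b) := by
            apply Finset.sum_le_sum
            intro b hb
            have himg : U.image (fun u => u + b) ⊆ B := by
              intro a ha
              rw [Finset.mem_image] at ha
              obtain ⟨u, hu, rfl⟩ := ha
              rw [hB, Fintype.mem_piFinset]
              intro i
              rw [hB', Fintype.mem_piFinset] at hb
              have h1 := hb i
              have h2 := hM u hu i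
              rw [Finset.mem_Ico] at h1 ⊢
              rw [abs_le] at h2
              simp only [Pi.add_apply]
              omega
            calc ∑ u ∈ U, φ u = ∑ a ∈ U.image (fun u => u + b), φ (a - b) := by
                  rw [Finset.sum_image (fun x _ y _ h => by simpa using h)]
                  simp
              _ ≤ ∑ a ∈ B, φ (a - b) :=
                  Finset.sum_le_sum_of_subset_of_nonneg himg (fun _ _ _ => hφ _)
        _ ≤ ∑ b ∈ B, ∑ a ∈ B, φ (a - b) :=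
            Finset.sum_le_sum_of_subset_of_nonneg hsub
              (fun b _ _ => Finset.sum_nonneg fun a _ => hφ _)
    have upper : ∑ a ∈ B, ∑ b ∈ B, ψ (a - b) ≤ (B.card : ℝ) * S := by
      rw [Finset.sum_comm]
      calc ∑ b ∈ B, ∑ a ∈ B, ψ (a - b) ≤ ∑ b ∈ B, S := by
            apply Finset.sum_le_sum
            intro b _
            have : ∑ a ∈ B, ψ (a - b) = ∑ u ∈ B.image (fun a => a - b), ψ u := by
              rw [Finset.sum_image (fun x _ y _ h => by simpa using h)]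
            rw [this]
            exact hsum.sum_le_tsum _ (fun _ _ => hψ _)
        _ = (B.card : ℝ) * S := by rw [Finset.sum_const, nsmul_eq_mul]
    rw [← hcB, ← hcB']
    exact lower.trans ((h B).trans upper)
  have hlim : Tendsto (fun R : ℕ => (((R : ℝ) - 2 * M) / R) ^ n * ∑ u ∈ U, φ u) atTop
      (𝓝 (1 ^ n * ∑ u ∈ U, φ u)) := by
    apply Tendsto.mul_const
    apply Tendsto.pow
    have h1 : Tendsto (fun R : ℕ => 1 - (2 * M : ℝ) / R) atTop (𝓝 (1 - 0)) :=
      tendsto_const_nhds.sub (tendsto_const_div_atTop_nhds_zero_nat _)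
    rw [sub_zero] at h1
    refine h1.congr' ?_
    filter_upwards [eventually_gt_atTop 0] with R hR
    have : (R : ℝ) ≠ 0 := by exact_mod_cast hR.ne'
    field_simp
  rw [one_pow, one_mul] at hlim
  refine le_of_tendsto hlim ?_
  filter_upwards [eventually_gt_atTop (2 * M)] with R hR
  have hR0 : (0 : ℝ) < R := by exact_mod_cast (by omega : 0 < R)
  have := key R hR
  rw [div_pow, div_mul_eq_mul_div, div_le_iff₀ (by positivity)]
  linarith

end Limit

end Pool.Agent.MP_f7f40d_pr
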