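import Pool.Agent.MP_f7f40d_pr.LowProb

set_option autoImplicit false

open Finset MeasureTheory ProbabilityTheory Filter Topology
open scoped ENNReal NNReal Nat

namespace Pool.MP_f7f40d_pr

variable {d : ℕ}

/-- the configuration as an integer valued function -/
def cfg (A : Site d → ℕ) : Site d → ℤ := fun v => (A v : ℤ)

/-- the window around `x` -/
noncomputable def win (x : Site d) : Finset (Site d) := Fintype.piFinset (fun i => Finset.Icc (x i - 1) (x i + 1))

theorem mem_win (x z : Site d) : z ∈ win x ↔ Near x z := by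
  unfold win Near
  rw [Fintype.mem_piFinset]
  constructor
  · intro h i
    have := Finset.mem_Icc.1 (h i)
    rw [abs_le]
    constructor <;> linarith [this.1, this.2]
  · intro h i
    have := abs_le.1 (h i)
    rw [Finset.mem_Icc]
    constructor <;> linarith [this.1, this.2]

theorem card_win (x : Site d) : (win x).card = 3 ^ d := by
  unfold win
  rw [Fintype.card_piFinset]
  have : ∀ i : Fin d, (Finset.Icc (x i - 1) (x i + 1)).card = 3 := by
    intro i
    rw [Int.card_Icc]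
    have : x i + 1 + 1 - (x i - 1) = 3 := by ring
    rw [this]; rfl
  simp [this]

/-- cubes -/
noncomputable def cube (d : ℕ) (a b : ℤ) : Finset (Site d) := Fintype.piFinset (fun _ => Finset.Ico a b)

theorem mem_cube (a b : ℤ) (v : Site d) : v ∈ cube d a b ↔ ∀ i, a ≤ v i ∧ v i < b := by
  unfold cube
  rw [Fintype.mem_piFinset]
  simp only [Finset.mem_Ico]

theorem card_cube (a b : ℤ) : (cube d a b).card = (b - a).toNat ^ d := by
  unfold cube
  rw [Fintype.card_piFinset]
  simp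

/-- the even centres -/
noncomputable def centres (d : ℕ) (a b : ℤ) : Finset (Site d) :=
  (cube d a b).image (fun w => fun i => 2 * w i)

theorem card_centres (a b : ℤ) : (centres d a b).card = (b - a).toNat ^ d := by
  unfold centres
  rw [Finset.card_image_of_injective, card_cube]
  intro v w h
  funext i
  have := congrFun h i
  simp only at this
  omega

theorem centres_sep (a b : ℤ) (x z : Site d) (hx : x ∈ centres d a b) (hz : z ∈ centres d a b)
    (h : Near x z) : z = x := by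
  unfold centres at hx hz
  rw [Finset.mem_image] at hx hz
  obtain ⟨w, _, rfl⟩ := hx
  obtain ⟨w', _, rfl⟩ := hz
  funext i
  have := abs_le.1 (h i)
  simp only at this ⊢
  omega

/-- the event that `v` does not topple in `B` -/
def Zero (B : Finset (Site d)) (v : Site d) : Set (Site d → ℕ) := {A | odo B (cfg A) v = 0}

/-- the event that all sites of the window around `x` topple and are full in the end -/
def Good (B : Finset (Site d)) (x : Site d) : Set (Site d → ℕ) :=
  {A | ∀ z ∈ win x, 0 < odo B (cfg A) z ∧ fin B (cfg A) z = 2 * (d : ℤ) - 1}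

theorem odo_ext (B : Finset (Site d)) (A : Site d → ℕ) :
    odo B (ext B (B.restrict A)) = odo B (cfg A) :=
  odo_congr B _ _ (fun v hv => ext_restrict B A v hv)

theorem fin_ext (B : Finset (Site d)) (A : Site d → ℕ) {v : Site d} (hv : v ∈ B) :
    fin B (ext B (B.restrict A)) v = fin B (cfg A) v :=
  fin_congr B _ _ (fun v hv => ext_restrict B A v hv) hv

theorem measurableSet_zero (B : Finset (Site d)) (v : Site d) : MeasurableSet (Zero B v) := by
  have : Zero B v = {A : Site d → ℕ | B.restrict A ∈ {b : B → ℕ | odo B (ext B b) v = 0}} := by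
    ext A
    simp only [Zero, Set.mem_ofPred_eq, odo_ext]
  rw [this]
  exact measurableSet_restrict B _

theorem measurableSet_good (B : Finset (Site d)) (x : Site d) (hx : win x ⊆ B) :
    MeasurableSet (Good B x) := by
  have : Good B x = {A : Site d → ℕ | B.restrict A ∈ {b : B → ℕ | ∀ z ∈ win x,
      0 < odo B (ext B b) z ∧ fin B (ext B b) z = 2 * (d : ℤ) - 1}} := by
    ext A
    simp only [Good, Set.mem_ofPred_eq, odo_ext]
    constructor
    · intro h z hz
      rw [fin_ext B A (hx hz)]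
      exact h z hz
    · intro h z hz
      rw [← fin_ext B A (hx hz)]
      exact h z hz
  rw [this]
  exact measurableSet_restrict B _

theorem full_subset (B : Finset (Site d)) (x : Site d) :
    Full B (win x) ⊆ Good B x ∪ ⋃ z ∈ win x, Zero B z := by
  intro A hA
  by_cases h : ∃ z ∈ win x, odo B (cfg A) z = 0
  · right
    obtain ⟨z, hz, h0⟩ := h
    simp only [Set.mem_iUnion]
    exact ⟨z, hz, h0⟩
  · left
    push Not at h
    intro z hz
    exact ⟨Nat.pos_of_ne_zero (h z hz), hA z hz⟩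

theorem zero_subset (hd : 0 < d) (B : Finset (Site d)) (t : ℕ) (v : Site d)
    (hB : ∀ z : Site d, (∀ i, |z i - v i| ≤ t) → z ∈ B) : Zero B v ⊆ Quiet t v := by
  intro A hA
  have h1 := cnt_le_odo hd B (cfg A) t v hB
  have h2 : odo B (cfg A) v = 0 := hA
  rw [h2] at h1
  exact lt_of_cnt_eq_zero (cfg A) t v (Nat.le_zero.1 h1)

theorem lintegral_site (l : ℝ≥0) (v : Site d) :
    ∫⁻ A, (A v : ℝ≥0∞) ∂(poissonLaw d l) ≤ l := by
  have h := (measurePreserving_eval_infinitePi (fun _ : Site d => poissonMeasure l) v)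
  have h2 : ∫⁻ A, (A v : ℝ≥0∞) ∂(poissonLaw d l) = ∫⁻ n, (n : ℝ≥0∞) ∂(poissonMeasure l) := by
    rw [← h.lintegral_comp measurable_from_top]
    rfl
  rw [h2]
  exact lintegral_poisson_le l

/-- the expected inequality in a finite set -/
theorem expect (hd : 2 ≤ d) (l : ℝ≥0) (B C : Finset (Site d))
    (hC : ∀ x ∈ C, ∀ z ∈ C, Near x z → z = x) (hCB : ∀ x ∈ C, win x ⊆ B) (bd : ℕ)
    (hbd : ∑ v ∈ B, ∑ e : Fin d × Bool, (if nb v e ∈ B then (0 : ℤ) else 1) ≤ bd) :
    2 * (d : ℝ≥0∞) * B.card + 2 * ∑ x ∈ C, poissonLaw d l (Good B x) ≤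
      2 * (l : ℝ≥0∞) * B.card + 4 * (d : ℝ≥0∞) * ∑ v ∈ B, poissonLaw d l (Zero B v) + bd := by
  classical
  set P := poissonLaw d l with hP
  have : IsProbabilityMeasure P := by
    rw [hP]; unfold poissonLaw; infer_instance
  have hpt : ∀ A : Site d → ℕ, 2 * (d : ℝ≥0∞) * B.card +
      2 * ∑ x ∈ C, (Good B x).indicator (fun _ => (1 : ℝ≥0∞)) A ≤
      2 * ∑ v ∈ B, (A v : ℝ≥0∞) + 4 * (d : ℝ≥0∞) *
        ∑ v ∈ B, (Zero B v).indicator (fun _ => (1 : ℝ≥0∞)) A + bd := by
    intro A
    have hK := main_ineq hd B C (cfg A) (fun v => by unfold cfg; positivity) hC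
      (C.filter (fun x => A ∈ Good B x)) (Finset.filter_subset _ _) (by
        intro x hx z hz
        rw [Finset.mem_filter] at hx
        have hzw : z ∈ win x := (mem_win x z).2 hz
        exact ⟨hCB x hx.1 hzw, hx.2 z hzw⟩)
    have h1 : ∑ x ∈ C, (Good B x).indicator (fun _ => (1 : ℝ≥0∞)) A =
        ((C.filter (fun x => A ∈ Good B x)).card : ℝ≥0∞) := by
      rw [Finset.card_filter]
      push_cast
      apply Finset.sum_congr rfl
      intro x _
      rw [Set.indicator_apply]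
    have h2 : ∑ v ∈ B, (Zero B v).indicator (fun _ => (1 : ℝ≥0∞)) A =
        ((B.filter (fun v => odo B (cfg A) v = 0)).card : ℝ≥0∞) := by
      rw [Finset.card_filter]
      push_cast
      apply Finset.sum_congr rfl
      intro x _
      by_cases h : A ∈ Zero B x
      · have h' : odo B (cfg A) x = 0 := h
        rw [Set.indicator_of_mem h, if_pos h']
      · have h' : ¬ odo B (cfg A) x = 0 := h
        rw [Set.indicator_of_notMem h, if_neg h']
    rw [h1, h2]
    have h3 : (2 * d * B.card + 2 * (C.filter (fun x => A ∈ Good B x)).card : ℕ) ≤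
        2 * ∑ v ∈ B, A v + 4 * d * (B.filter (fun v => odo B (cfg A) v = 0)).card + bd := by
      have h4 : ∑ v ∈ B, cfg A v = ((∑ v ∈ B, A v : ℕ) : ℤ) := by
        push_cast; rfl
      rw [h4] at hK
      have h6 : ((2 * d * B.card + 2 * (C.filter (fun x => A ∈ Good B x)).card : ℕ) : ℤ) ≤
          ((2 * ∑ v ∈ B, A v + 4 * d * (B.filter (fun v => odo B (cfg A) v = 0)).card + bd : ℕ)
            : ℤ) := by
        push_cast at hK ⊢
        linarith
      exact_mod_cast h6
    have h5 : (((2 * d * B.card + 2 * (C.filter (fun x => A ∈ Good B x)).card : ℕ)) : ℝ≥0∞) ≤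
        ((2 * ∑ v ∈ B, A v + 4 * d * (B.filter (fun v => odo B (cfg A) v = 0)).card + bd : ℕ)
          : ℝ≥0∞) := by exact_mod_cast h3
    push_cast at h5
    exact h5
  have hint := lintegral_mono (μ := P) hpt
  have hmg : ∀ x ∈ C, Measurable ((Good B x).indicator (fun _ => (1 : ℝ≥0∞))) := fun x hx =>
    measurable_const.indicator (measurableSet_good B x (hCB x hx))
  have hmz : ∀ v ∈ B, Measurable ((Zero B v).indicator (fun _ => (1 : ℝ≥0∞))) := fun v _ =>
    measurable_const.indicator (measurableSet_zero B v)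
  have hms : ∀ v : Site d, Measurable (fun A : Site d → ℕ => (A v : ℝ≥0∞)) := fun v =>
    measurable_from_top.comp (measurable_pi_apply v)
  have hL : ∫⁻ A, (2 * (d : ℝ≥0∞) * B.card +
      2 * ∑ x ∈ C, (Good B x).indicator (fun _ => (1 : ℝ≥0∞)) A) ∂P =
      2 * (d : ℝ≥0∞) * B.card + 2 * ∑ x ∈ C, P (Good B x) := by
    rw [lintegral_add_left measurable_const, lintegral_const, measure_univ, mul_one]
    rw [lintegral_const_mul _ (Finset.measurable_sum _ hmg), lintegral_finsetSum _ hmg]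
    congr 2
    apply Finset.sum_congr rfl
    intro x hx
    rw [lintegral_indicator_const (measurableSet_good B x (hCB x hx)), one_mul]
  have hR : ∫⁻ A, (2 * ∑ v ∈ B, (A v : ℝ≥0∞) + 4 * (d : ℝ≥0∞) *
        ∑ v ∈ B, (Zero B v).indicator (fun _ => (1 : ℝ≥0∞)) A + bd) ∂P ≤
      2 * (l : ℝ≥0∞) * B.card + 4 * (d : ℝ≥0∞) * ∑ v ∈ B, P (Zero B v) + bd := by
    rw [lintegral_add_right _ measurable_const, lintegral_const, measure_univ, mul_one]
    rw [lintegral_add_right _ (Measurable.const_mul (Finset.measurable_sum _ hmz) _)]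
    rw [lintegral_const_mul _ (Finset.measurable_sum _ (fun v _ => hms v)),
      lintegral_const_mul _ (Finset.measurable_sum _ hmz),
      lintegral_finsetSum _ (fun v _ => hms v), lintegral_finsetSum _ hmz]
    have h1 : ∑ v ∈ B, ∫⁻ A, (A v : ℝ≥0∞) ∂P ≤ (l : ℝ≥0∞) * B.card := by
      refine (Finset.sum_le_sum (fun v _ => lintegral_site l v)).trans (le_of_eq ?_)
      rw [Finset.sum_const, nsmul_eq_mul, mul_comm]
    have h2 : ∑ v ∈ B, ∫⁻ A, (Zero B v).indicator (fun _ => (1 : ℝ≥0∞)) A ∂P =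
        ∑ v ∈ B, P (Zero B v) := by
      apply Finset.sum_congr rfl
      intro v _
      rw [lintegral_indicator_const (measurableSet_zero B v), one_mul]
    rw [h2]
    refine add_le_add (add_le_add ?_ le_rfl) le_rfl
    rw [mul_assoc]
    exact mul_le_mul_of_nonneg_left h1 (by positivity)
  rw [hL] at hint
  exact hint.trans hR

theorem tendsto_quiet (l : ℝ≥0)
    (hP : poissonLaw d l {A | Percolates (fun v => (A v : ℤ))} = 1) :
    Tendsto (fun t : ℕ => poissonLaw d l (Quiet t (0 : Site d))) atTop (𝓝 0) := by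
  have : IsProbabilityMeasure (poissonLaw d l) := by unfold poissonLaw; infer_instance
  have h1 : Tendsto (fun t : ℕ => poissonLaw d l (Quiet t (0 : Site d))) atTop
      (𝓝 (poissonLaw d l (⋂ t : ℕ, Quiet t (0 : Site d)))) := by
    apply tendsto_measure_iInter_atTop
    · intro t
      exact (measurableSet_quiet t 0).nullMeasurableSet
    · intro s t hst A hA r hr
      exact hA r (lt_of_lt_of_le hr hst)
    · exact ⟨0, measure_ne_top _ _⟩
  have h2 : poissonLaw d l (⋂ t : ℕ, Quiet t (0 : Site d)) = 0 := by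
    have h3 : (⋂ t : ℕ, Quiet t (0 : Site d)) ⊆
        {A : Site d → ℕ | Percolates (fun v => (A v : ℤ))}ᶜ := by
      intro A hA hperc
      obtain ⟨t, _, ht⟩ := hperc 0 0
      have h4 := Set.mem_iInter.1 hA (t + 1) t (Nat.lt_succ_self t)
      exact absurd ht (not_le.2 h4)
    have h5 : poissonLaw d l {A : Site d → ℕ | Percolates (fun v => (A v : ℤ))}ᶜ = 0 := by
      rw [prob_compl_eq_zero_iff measurableSet_percolates]
      exact hP
    exact measure_mono_null h3 h5
  rw [h2] at h1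
  exact h1

theorem conv {α : Type*} (d b k : ℕ) (l : ℝ≥0) (q : ℝ) (hq : 0 ≤ q) (C : Finset α)
    (f : α → ℝ≥0∞) (hf : ∀ x, f x ≠ ⊤)
    (h : 2 * (d : ℝ≥0∞) * b + 2 * ∑ x ∈ C, f x ≤ 2 * (l : ℝ≥0∞) * b +
      4 * (d : ℝ≥0∞) * ((k : ℝ≥0∞) + ENNReal.ofReal q * b) + ((2 * d * k : ℕ) : ℝ≥0∞)) :
    2 * (d : ℝ) * b + 2 * ∑ x ∈ C, (f x).toReal ≤
      2 * (l : ℝ) * b + 4 * (d : ℝ) * (k + q * b) + 2 * d * k := by
  have e1 : ∑ x ∈ C, f x = ENNReal.ofReal (∑ x ∈ C, (f x).toReal) := by
    rw [ENNReal.ofReal_sum_of_nonneg (fun _ _ => ENNReal.toReal_nonneg)]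
    apply Finset.sum_congr rfl
    intro x _
    rw [ENNReal.ofReal_toReal (hf x)]
  have hS : 0 ≤ ∑ x ∈ C, (f x).toReal := Finset.sum_nonneg (fun _ _ => ENNReal.toReal_nonneg)
  rw [e1] at h
  set S := ∑ x ∈ C, (f x).toReal with hSdef
  have e2 : ∀ n : ℕ, (n : ℝ≥0∞) = ENNReal.ofReal (n : ℝ) := fun n => by
    rw [ENNReal.ofReal_natCast]
  have e3 : (l : ℝ≥0∞) = ENNReal.ofReal (l : ℝ) := by rw [ENNReal.ofReal_coe_nnreal]
  have e4 : (2 : ℝ≥0∞) = ENNReal.ofReal 2 := by rw [ENNReal.ofReal_ofNat]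
  have e5 : (4 : ℝ≥0∞) = ENNReal.ofReal 4 := by rw [ENNReal.ofReal_ofNat]
  have hb : (0 : ℝ) ≤ b := Nat.cast_nonneg b
  have hk : (0 : ℝ) ≤ k := Nat.cast_nonneg k
  have hdd : (0 : ℝ) ≤ d := Nat.cast_nonneg d
  have hl : (0 : ℝ) ≤ l := l.2
  have hL : 2 * (d : ℝ≥0∞) * b + 2 * ENNReal.ofReal S = ENNReal.ofReal (2 * (d : ℝ) * b + 2 * S) := by
    rw [ENNReal.ofReal_add (by positivity) (by positivity), ENNReal.ofReal_mul (by positivity),
      ENNReal.ofReal_mul (by positivity), ENNReal.ofReal_mul (by positivity), e4, e2 d, e2 b]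
  have hR : 2 * (l : ℝ≥0∞) * b +
      4 * (d : ℝ≥0∞) * ((k : ℝ≥0∞) + ENNReal.ofReal q * b) + ((2 * d * k : ℕ) : ℝ≥0∞) =
      ENNReal.ofReal (2 * (l : ℝ) * b + 4 * (d : ℝ) * (k + q * b) + 2 * d * k) := by
    have e6 : ((2 * d * k : ℕ) : ℝ≥0∞) = ENNReal.ofReal (2 * (d : ℝ) * k) := by
      rw [e2]; push_cast; rfl
    rw [e6, e3, e4, e5, e2 d, e2 b, e2 k]
    rw [← ENNReal.ofReal_mul hq, ← ENNReal.ofReal_add hk (by positivity),
      ← ENNReal.ofReal_mul (by norm_num), ← ENNReal.ofReal_mul (by positivity),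
      ← ENNReal.ofReal_mul (by norm_num), ← ENNReal.ofReal_mul (by positivity),
      ← ENNReal.ofReal_add (by positivity) (by positivity),
      ← ENNReal.ofReal_add (by positivity) (by positivity)]
  rw [hL, hR] at h
  exact (ENNReal.ofReal_le_ofReal_iff (by positivity)).1 h

theorem law_le_one (l : ℝ≥0) (S : Set (Site d → ℕ)) : poissonLaw d l S ≤ 1 := by
  have : IsProbabilityMeasure (poissonLaw d l) := by unfold poissonLaw; infer_instance
  exact prob_le_one

/-- the inequality in the cube of side `2m`, in real numbers -/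
theorem cube_ineq (hd : 2 ≤ d) (l : ℝ≥0) (c0 : ℝ) (hc0 : 0 ≤ c0)
    (hfull : ∀ (B : Finset (Site d)) (x : Site d), win x ⊆ B →
      ENNReal.ofReal c0 ≤ poissonLaw d l (Full B (win x)))
    (t m : ℕ) (ht : 1 ≤ t) (hm : 2 * t + 2 ≤ m) :
    2 * (d : ℝ) * (2 * m) ^ d +
      2 * (c0 - 3 ^ d * (poissonLaw d l (Quiet t (0 : Site d))).toReal) *
        ((m : ℝ) - (2 * t + 2)) ^ d ≤
      2 * (l : ℝ) * (2 * m) ^ d + 6 * d * ((2 * m) ^ d - (2 * m - 2 * t) ^ d) +
        4 * d * (poissonLaw d l (Quiet t (0 : Site d))).toReal * (2 * m) ^ d := by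
  classical
  set P := poissonLaw d l with hPdef
  have hprob : IsProbabilityMeasure P := by
    rw [hPdef]; unfold poissonLaw; infer_instance
  set q := (P (Quiet t (0 : Site d))).toReal with hq
  have hqe : P (Quiet t (0 : Site d)) = ENNReal.ofReal q := by
    rw [hq, ENNReal.ofReal_toReal (measure_ne_top _ _)]
  have hq0 : 0 ≤ q := ENNReal.toReal_nonneg
  set B := cube d 0 (2 * m) with hB
  set I := cube d t (2 * m - t) with hI
  set C := centres d (t + 1) (m - t - 1) with hCdef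
  have hd0 : 0 < d := by omega
  have hIB : I ⊆ B := by
    intro v hv
    rw [hI, mem_cube] at hv
    rw [hB, mem_cube]
    intro i
    have := hv i
    constructor <;> omega
  have hball : ∀ v ∈ I, ∀ z : Site d, (∀ i, |z i - v i| ≤ t) → z ∈ B := by
    intro v hv z hz
    rw [hI, mem_cube] at hv
    rw [hB, mem_cube]
    intro i
    have h1 := hv i
    have h2 := abs_le.1 (hz i)
    constructor <;> omega
  have hCI : ∀ x ∈ C, win x ⊆ I := by
    intro x hx z hz
    rw [hCdef] at hx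
    unfold centres at hx
    rw [Finset.mem_image] at hx
    obtain ⟨w, hw, rfl⟩ := hx
    rw [mem_win] at hz
    rw [mem_cube] at hw
    rw [hI, mem_cube]
    intro i
    have h1 := hw i
    have h2 := abs_le.1 (hz i)
    simp only at h2
    constructor <;> omega
  have hcardB : (B.card : ℝ) = (2 * m) ^ d := by
    rw [hB, card_cube]
    have : ((2 * (m : ℤ) - 0).toNat) = 2 * m := by omega
    rw [this]; push_cast; ring
  have hcardI : (I.card : ℝ) = (2 * m - 2 * t) ^ d := by
    rw [hI, card_cube]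
    have : ((2 * (m : ℤ) - t - t).toNat) = 2 * m - 2 * t := by omega
    rw [this, Nat.cast_pow, Nat.cast_sub (by omega)]
    push_cast; ring
  have hcardC : (C.card : ℝ) = ((m : ℝ) - (2 * t + 2)) ^ d := by
    rw [hCdef, card_centres]
    have : (((m : ℤ) - t - 1 - (t + 1)).toNat) = m - (2 * t + 2) := by omega
    rw [this, Nat.cast_pow, Nat.cast_sub hm]
    push_cast; ring
  -- boundary term
  have hbd : ∑ v ∈ B, ∑ e : Fin d × Bool, (if nb v e ∈ B then (0 : ℤ) else 1) ≤
      ((2 * d * (B \ I).card : ℕ) : ℤ) := by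
    have h1 : ∀ v ∈ B, ∑ e : Fin d × Bool, (if nb v e ∈ B then (0 : ℤ) else 1) ≤
        (if v ∈ B \ I then 2 * (d : ℤ) else 0) := by
      intro v hv
      by_cases hvI : v ∈ I
      · have h2 : v ∉ B \ I := fun h => (Finset.mem_sdiff.1 h).2 hvI
        rw [if_neg h2]
        apply le_of_eq
        apply Finset.sum_eq_zero
        intro e _
        rw [if_pos]
        apply hball v hvI
        intro i
        have h3 := near_nb v e i
        have h4 : (1 : ℤ) ≤ t := by exact_mod_cast ht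
        linarith
      · have h2 : v ∈ B \ I := Finset.mem_sdiff.2 ⟨hv, hvI⟩
        rw [if_pos h2]
        calc ∑ e : Fin d × Bool, (if nb v e ∈ B then (0 : ℤ) else 1) ≤
              ∑ e : Fin d × Bool, (1 : ℤ) :=
              Finset.sum_le_sum (fun _ _ => by split_ifs <;> norm_num)
          _ = 2 * (d : ℤ) := by simp [mul_comm]
    refine (Finset.sum_le_sum h1).trans (le_of_eq ?_)
    rw [Finset.sum_ite_mem, Finset.inter_eq_right.2 Finset.sdiff_subset]
    simp
    ring
  have hexp := expect hd l B C (fun x hx z hz h => centres_sep _ _ x z hx hz h)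
    (fun x hx => (hCI x hx).trans hIB) (2 * d * (B \ I).card) hbd
  -- bounds on the probabilities
  have hz1 : ∀ v ∈ I, P (Zero B v) ≤ ENNReal.ofReal q := by
    intro v hv
    rw [← hqe, hPdef, ← law_quiet l t v]
    exact measure_mono (zero_subset hd0 B t v (hball v hv))
  have hsumZ : ∑ v ∈ B, P (Zero B v) ≤ ((B \ I).card : ℝ≥0∞) + ENNReal.ofReal q * B.card := by
    rw [← Finset.sum_sdiff hIB]
    refine add_le_add ?_ ?_
    · refine (Finset.sum_le_sum (fun v _ => law_le_one l (Zero B v))).trans (le_of_eq ?_)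
      simp
    · refine (Finset.sum_le_sum hz1).trans ?_
      rw [Finset.sum_const, nsmul_eq_mul, mul_comm]
      apply mul_le_mul_of_nonneg_left _ (by positivity)
      exact_mod_cast Finset.card_le_card hIB
  have hgood : ∀ x ∈ C, ENNReal.ofReal c0 ≤ P (Good B x) + (3 ^ d : ℕ) * ENNReal.ofReal q := by
    intro x hx
    have h1 := hfull B x ((hCI x hx).trans hIB)
    refine h1.trans ((measure_mono (full_subset B x)).trans ((measure_union_le _ _).trans ?_))
    refine add_le_add le_rfl ((measure_biUnion_finset_le _ _).trans ?_)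
    refine (Finset.sum_le_sum (fun z hz => hz1 z (hCI x hx hz))).trans (le_of_eq ?_)
    rw [Finset.sum_const, card_win, nsmul_eq_mul]
  -- real versions
  have hgoodR : ∀ x ∈ C, c0 - 3 ^ d * q ≤ (P (Good B x)).toReal := by
    intro x hx
    have h1 := hgood x hx
    have h2 : P (Good B x) + (3 ^ d : ℕ) * ENNReal.ofReal q ≠ ⊤ :=
      ENNReal.add_ne_top.2 ⟨measure_ne_top _ _,
        ENNReal.mul_ne_top (ENNReal.natCast_ne_top _) ENNReal.ofReal_ne_top⟩
    have h3 := ENNReal.toReal_mono h2 h1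
    rw [ENNReal.toReal_ofReal hc0, ENNReal.toReal_add (measure_ne_top _ _)
      (ENNReal.mul_ne_top (ENNReal.natCast_ne_top _) ENNReal.ofReal_ne_top),
      ENNReal.toReal_mul, ENNReal.toReal_natCast, ENNReal.toReal_ofReal hq0] at h3
    push_cast at h3
    linarith
  have hmain : 2 * (d : ℝ) * B.card + 2 * ∑ x ∈ C, (P (Good B x)).toReal ≤
      2 * (l : ℝ) * B.card + 4 * (d : ℝ) * ((B \ I).card + q * B.card) +
        2 * d * (B \ I).card := by
    have h1 : 2 * (d : ℝ≥0∞) * B.card + 2 * ∑ x ∈ C, P (Good B x) ≤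
        2 * (l : ℝ≥0∞) * B.card + 4 * (d : ℝ≥0∞) * (((B \ I).card : ℝ≥0∞) +
          ENNReal.ofReal q * B.card) + ((2 * d * (B \ I).card : ℕ) : ℝ≥0∞) := by
      refine hexp.trans (add_le_add (add_le_add le_rfl ?_) le_rfl)
      exact mul_le_mul_of_nonneg_left hsumZ (by positivity)
    exact conv d B.card (B \ I).card l q hq0 C (fun x => P (Good B x))
      (fun x => measure_ne_top _ _) h1
  have hsumG : (c0 - 3 ^ d * q) * C.card ≤ ∑ x ∈ C, (P (Good B x)).toReal := by
    have := Finset.sum_le_sum hgoodR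
    rw [Finset.sum_const, nsmul_eq_mul] at this
    linarith
  have hsd : ((B \ I).card : ℝ) = (B.card : ℝ) - I.card := by
    rw [Finset.card_sdiff_of_subset hIB, Nat.cast_sub (Finset.card_le_card hIB)]
  rw [hsd, hcardB, hcardI] at hmain
  rw [hcardC] at hsumG
  linarith

/-- the limit inequality -/
theorem limit_ineq (hd : 2 ≤ d) (l : ℝ≥0)
    (hP : poissonLaw d l {A | Percolates (fun v => (A v : ℤ))} = 1) (c0 : ℝ) (hc0 : 0 ≤ c0)
    (hfull : ∀ (B : Finset (Site d)) (x : Site d), win x ⊆ B →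
      ENNReal.ofReal c0 ≤ poissonLaw d l (Full B (win x))) :
    (d : ℝ) + c0 / 2 ^ d ≤ l := by
  set q : ℕ → ℝ := fun t => (poissonLaw d l (Quiet t (0 : Site d))).toReal with hq
  have hqlim : Tendsto q atTop (𝓝 0) := by
    have h := (ENNReal.tendsto_toReal (ENNReal.zero_ne_top)).comp (tendsto_quiet (d := d) l hP)
    rw [ENNReal.toReal_zero] at h
    exact h
  have hstep : ∀ t : ℕ, 1 ≤ t → 2 * (d : ℝ) + 2 * (c0 - 3 ^ d * q t) * (1 / 2) ^ d ≤
      2 * (l : ℝ) + 6 * d * (1 - 1 ^ d) + 4 * d * q t := by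
    intro t ht
    have hinv : Tendsto (fun m : ℕ => ((m : ℝ))⁻¹) atTop (𝓝 0) := tendsto_inv_atTop_nhds_zero_nat
    have h1 : Tendsto (fun m : ℕ => 2 * (d : ℝ) + 2 * (c0 - 3 ^ d * q t) *
        (1 / 2 - (t + 1) * ((m : ℝ))⁻¹) ^ d) atTop
        (𝓝 (2 * (d : ℝ) + 2 * (c0 - 3 ^ d * q t) * (1 / 2) ^ d)) := by
      have h2 : Tendsto (fun m : ℕ => (1 / 2 - ((t : ℝ) + 1) * ((m : ℝ))⁻¹)) atTop
          (𝓝 (1 / 2 - ((t : ℝ) + 1) * 0)) := tendsto_const_nhds.sub (hinv.const_mul _)
      rw [mul_zero, sub_zero] at h2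
      exact tendsto_const_nhds.add ((h2.pow d).const_mul _)
    have h3 : Tendsto (fun m : ℕ => 2 * (l : ℝ) + 6 * d * (1 - (1 - t * ((m : ℝ))⁻¹) ^ d) +
        4 * d * q t) atTop (𝓝 (2 * (l : ℝ) + 6 * d * (1 - 1 ^ d) + 4 * d * q t)) := by
      have h2 : Tendsto (fun m : ℕ => (1 - (t : ℝ) * ((m : ℝ))⁻¹)) atTop
          (𝓝 (1 - (t : ℝ) * 0)) := tendsto_const_nhds.sub (hinv.const_mul _)
      rw [mul_zero, sub_zero] at h2
      exact (tendsto_const_nhds.add ((tendsto_const_nhds.sub (h2.pow d)).const_mul _)).add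
        tendsto_const_nhds
    refine le_of_tendsto_of_tendsto h1 h3 ?_
    filter_upwards [eventually_ge_atTop (2 * t + 2)] with m hm
    have h4 := cube_ineq hd l c0 hc0 hfull t m ht hm
    have hm0 : (0 : ℝ) < m := by
      have : 0 < m := by omega
      exact_mod_cast this
    have hpos : (0 : ℝ) < (2 * m) ^ d := by positivity
    have e1 : ((m : ℝ) - (2 * t + 2)) ^ d = (1 / 2 - (t + 1) * ((m : ℝ))⁻¹) ^ d * (2 * m) ^ d := by
      rw [← mul_pow]
      congr 1
      field_simp
    have e2 : (2 * (m : ℝ) - 2 * t) ^ d = (1 - t * ((m : ℝ))⁻¹) ^ d * (2 * m) ^ d := by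
      rw [← mul_pow]
      congr 1
      field_simp
    rw [e1, e2] at h4
    have h5 : (2 * (d : ℝ) + 2 * (c0 - 3 ^ d * q t) * (1 / 2 - (t + 1) * ((m : ℝ))⁻¹) ^ d) *
        (2 * m) ^ d ≤ (2 * (l : ℝ) + 6 * d * (1 - (1 - t * ((m : ℝ))⁻¹) ^ d) +
        4 * d * q t) * (2 * m) ^ d := by
      simp only [hq]
      linarith
    exact le_of_mul_le_mul_right h5 hpos
  have hA : Tendsto (fun t : ℕ => 2 * (d : ℝ) + 2 * (c0 - 3 ^ d * q t) * (1 / 2) ^ d) atTop
      (𝓝 (2 * (d : ℝ) + 2 * (c0 - 3 ^ d * 0) * (1 / 2) ^ d)) :=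
    tendsto_const_nhds.add
      (((tendsto_const_nhds.sub (hqlim.const_mul _)).const_mul _).mul_const _)
  have hB : Tendsto (fun t : ℕ => 2 * (l : ℝ) + 6 * d * (1 - 1 ^ d) + 4 * d * q t) atTop
      (𝓝 (2 * (l : ℝ) + 6 * d * (1 - 1 ^ d) + 4 * d * 0)) :=
    tendsto_const_nhds.add (hqlim.const_mul _)
  have hfin := le_of_tendsto_of_tendsto hA hB (by
    filter_upwards [eventually_ge_atTop 1] with t ht
    exact hstep t ht)
  simp only [mul_zero, sub_zero, one_pow, sub_self, add_zero] at hfin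
  have h6 : c0 * (1 / 2 : ℝ) ^ d = c0 / 2 ^ d := by
    rw [one_div, inv_pow, div_eq_mul_inv]
  linarith

/-- the explicit gain -/
noncomputable def gain (d : ℕ) : ℝ :=
  1 / (2 ^ (d + 1) * (2 * d) ^ (3 ^ d) *
    (2 * 3 ^ d * (d + 1) + 2 * d) ^ (2 * d * 3 ^ d))

theorem gain_pos (hd : 2 ≤ d) : 0 < gain d := by
  unfold gain
  have : (0 : ℝ) < d := by
    have : 0 < d := by omega
    exact_mod_cast this
  positivity

theorem lower_bound (hd : 2 ≤ d) (l : ℝ≥0)
    (hP : poissonLaw d l {A | Percolates (fun v => (A v : ℤ))} = 1) :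
    (d : ℝ) + gain d ≤ l := by
  have hd0 : 0 < d := by omega
  have hdR : (2 : ℝ) ≤ d := by exact_mod_cast hd
  have h1 : (d : ℝ) ≤ l := by
    have := limit_ineq hd l hP 0 le_rfl (fun B x _ => by simp)
    simpa using this
  set N : ℕ := (2 * d) ^ (3 ^ d) * ((2 * 3 ^ d * (d + 1) + 2 * d) ^ (2 * d)) ^ (3 ^ d) with hN
  have hN1 : 1 ≤ N := Nat.succ_le_of_lt (by positivity)
  have hN1' : (1 : ℝ) ≤ N := by exact_mod_cast hN1
  have hgain : gain d = (1 / (2 * N)) / 2 ^ d := by
    unfold gain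
    rw [hN]
    push_cast
    rw [← pow_mul, pow_succ]
    field_simp
  rcases le_or_gt (l : ℝ) (d + 1) with h2 | h2
  · have hl1 : 1 ≤ l := by
      have : (1 : ℝ) ≤ l := by linarith
      exact_mod_cast this
    have hkey := limit_ineq hd l hP (1 / (2 * N)) (by positivity) (by
      intro B x hx
      have h3 := prob_full hd0 l hl1 B (win x) hx (2 * 3 ^ d * (d + 1)) (by
        rw [card_win]
        have h4 : (l : ℝ≥0∞) ≤ ((d + 1 : ℕ) : ℝ≥0∞) := by
          have : l ≤ ((d + 1 : ℕ) : ℝ≥0) := by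
            have : (l : ℝ) ≤ ((d + 1 : ℕ) : ℝ) := by push_cast; exact h2
            exact_mod_cast this
          exact_mod_cast this
        calc 2 * ((3 ^ d : ℕ) : ℝ≥0∞) * l ≤ 2 * ((3 ^ d : ℕ) : ℝ≥0∞) * ((d + 1 : ℕ) : ℝ≥0∞) :=
              mul_le_mul_of_nonneg_left h4 (by positivity)
          _ = ((2 * 3 ^ d * (d + 1) : ℕ) : ℝ≥0∞) := by push_cast; ring
          _ ≤ ((2 * 3 ^ d * (d + 1) + 1 : ℕ) : ℝ≥0∞) := by
              exact_mod_cast Nat.le_succ _)
      rw [card_win] at h3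
      have h5 : ENNReal.ofReal (1 / (2 * (N : ℝ))) = (2 * (N : ℝ≥0∞))⁻¹ := by
        rw [one_div, ENNReal.ofReal_inv_of_pos (by positivity), ENNReal.ofReal_mul (by norm_num),
          ENNReal.ofReal_natCast, ENNReal.ofReal_ofNat]
      rw [h5]
      have h6 : (2 * (N : ℝ≥0∞)) ≠ 0 := by
        apply mul_ne_zero (by norm_num)
        exact_mod_cast (by omega : N ≠ 0)
      have h7 : (2 * (N : ℝ≥0∞)) ≠ ⊤ := ENNReal.mul_ne_top (by norm_num)
        (ENNReal.natCast_ne_top _)
      rw [ENNReal.inv_le_iff_le_mul (fun _ => h6) (fun h => absurd h h7)]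
      rw [hN]
      exact h3)
    rw [hgain]
    exact hkey
  · have h3 : gain d ≤ 1 := by
      rw [hgain]
      have h4 : (1 : ℝ) ≤ 2 ^ d := one_le_pow₀ (by norm_num)
      rw [div_div, div_le_one (by positivity)]
      nlinarith
    linarith

end Pool.MP_f7f40d_pr
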