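import Pool.Agent.MP_f7f40d_pr.LowFinite

set_option autoImplicit false

open Finset MeasureTheory ProbabilityTheory
open scoped ENNReal NNReal

namespace Pool.MP_f7f40d_pr

variable {d : ℕ}

/-- number of topplings at `v` during the first `t` parallel updates -/
def cnt (A : Site d → ℤ) : ℕ → Site d → ℕ
  | 0, _ => 0
  | t + 1, v => cnt A t v + (if 2 * (d : ℤ) ≤ (step^[t] A) v then 1 else 0)

theorem iterate_step (A : Site d → ℤ) (t : ℕ) (v : Site d) :
    (step^[t] A) v = A v - lap (fun x => (cnt A t x : ℤ)) v := by
  induction t generalizing v with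
  | zero => simp [cnt, lap]
  | succ t ih =>
    rw [Function.iterate_succ_apply']
    have h0 : step (step^[t] A) v = (step^[t] A) v -
        (if 2 * (d : ℤ) ≤ (step^[t] A) v then 2 * (d : ℤ) else 0) +
        ∑ e : Fin d × Bool, (if 2 * (d : ℤ) ≤ (step^[t] A) (nb v e) then 1 else 0) := rfl
    have h1 := ih v
    have h2 : lap (fun x => (cnt A (t + 1) x : ℤ)) v = lap (fun x => (cnt A t x : ℤ)) v +
        (2 * (d : ℤ) * (if 2 * (d : ℤ) ≤ (step^[t] A) v then 1 else 0) -
        ∑ e : Fin d × Bool, (if 2 * (d : ℤ) ≤ (step^[t] A) (nb v e) then 1 else 0)) := by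
      unfold lap
      dsimp only [cnt]
      push_cast
      rw [Finset.sum_add_distrib]
      ring
    rw [h0, h2]
    by_cases h : 2 * (d : ℤ) ≤ (step^[t] A) v
    · simp only [if_pos h]
      rw [h1]
      ring
    · simp only [if_neg h]
      rw [h1]
      ring

theorem cnt_le_odo (hd : 0 < d) (B : Finset (Site d)) (A : Site d → ℤ) (t : ℕ) (v : Site d)
    (hB : ∀ z : Site d, (∀ i, |z i - v i| ≤ t) → z ∈ B) : cnt A t v ≤ odo B A v := by
  induction t generalizing v with
  | zero => exact Nat.zero_le _
  | succ t ih =>
    have hv : v ∈ B := hB v (by intro i; simp; positivity)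
    have h0 : cnt A t v ≤ odo B A v := by
      apply ih
      intro z hz
      apply hB
      intro i
      have := hz i
      push_cast
      linarith
    have h1 : ∀ e, cnt A t (nb v e) ≤ odo B A (nb v e) := by
      intro e
      apply ih
      intro z hz
      apply hB
      intro i
      have h2 := hz i
      have h3 := near_nb v e i
      have h4 := abs_sub_le (z i) (nb v e i) (v i)
      push_cast
      linarith
    dsimp only [cnt]
    by_cases h : 2 * (d : ℤ) ≤ (step^[t] A) v
    · rw [if_pos h]
      rw [iterate_step] at h
      by_contra hcon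
      have heq : cnt A t v = odo B A v := by omega
      have h5 := fin_le hd (A := A) hv
      unfold fin at h5
      unfold lap at h h5
      dsimp only at h h5
      rw [heq] at h
      have h6 : ∑ e : Fin d × Bool, ((cnt A t (nb v e) : ℕ) : ℤ) ≤
          ∑ e : Fin d × Bool, ((odo B A (nb v e) : ℕ) : ℤ) :=
        Finset.sum_le_sum (fun e _ => by exact_mod_cast h1 e)
      linarith
    · rw [if_neg h]
      exact h0

theorem lt_of_cnt_eq_zero (A : Site d → ℤ) (t : ℕ) (v : Site d) (h : cnt A t v = 0) :
    ∀ s < t, (step^[s] A) v < 2 * (d : ℤ) := by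
  induction t with
  | zero => intro s hs; omega
  | succ t ih =>
    intro s hs
    dsimp only [cnt] at h
    have h1 : cnt A t v = 0 := by omega
    rcases Nat.lt_succ_iff_lt_or_eq.1 hs with h2 | h2
    · exact ih h1 s h2
    · subst h2
      by_contra hc
      push Not at hc
      rw [if_pos hc] at h
      omega

/-! ### translations -/

theorem nb_add (y v : Site d) (e : Fin d × Bool) : nb (y + v) e = nb y e + v := by
  funext i
  unfold nb
  by_cases h : i = e.1
  · subst h
    simp only [Function.update_self, Pi.add_apply]
    ring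
  · simp only [Function.update_of_ne h, Pi.add_apply]

theorem step_shift (A : Site d → ℤ) (v : Site d) :
    step (fun x => A (x + v)) = fun x => step A (x + v) := by
  funext x
  unfold step
  simp only [nb_add]

theorem iterate_step_shift (A : Site d → ℤ) (v : Site d) (t : ℕ) :
    step^[t] (fun x => A (x + v)) = fun x => (step^[t] A) (x + v) := by
  induction t with
  | zero => rfl
  | succ t ih =>
    rw [Function.iterate_succ_apply', Function.iterate_succ_apply', ih, step_shift]

/-! ### measurability -/

theorem measurable_step : Measurable (step : (Site d → ℤ) → (Site d → ℤ)) := by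
  rw [measurable_pi_iff]
  intro v
  unfold step
  apply Measurable.add
  · apply Measurable.sub (measurable_pi_apply v)
    apply Measurable.ite _ measurable_const measurable_const
    exact measurableSet_le measurable_const (measurable_pi_apply v)
  · apply Finset.measurable_sum
    intro e _
    apply Measurable.ite _ measurable_const measurable_const
    exact measurableSet_le measurable_const (measurable_pi_apply _)

theorem measurable_iterate (t : ℕ) (v : Site d) :
    Measurable (fun A : Site d → ℕ => (step^[t] (fun x => (A x : ℤ))) v) := by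
  have h0 : Measurable (fun A : Site d → ℕ => (fun x => (A x : ℤ))) := by
    rw [measurable_pi_iff]
    intro x
    exact measurable_from_top.comp (measurable_pi_apply x)
  have h1 : Measurable (step^[t] : (Site d → ℤ) → (Site d → ℤ)) := measurable_step.iterate t
  exact (measurable_pi_apply v).comp (h1.comp h0)

theorem measurableSet_percolates :
    MeasurableSet {A : Site d → ℕ | Percolates (fun v => (A v : ℤ))} := by
  have : {A : Site d → ℕ | Percolates (fun v => (A v : ℤ))} =
      ⋂ v : Site d, ⋂ n : ℕ, ⋃ t : ℕ, {A : Site d → ℕ | n ≤ t ∧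
        2 * (d : ℤ) ≤ (step^[t] (fun x => (A x : ℤ))) v} := by
    ext A
    simp [Percolates]
  rw [this]
  refine MeasurableSet.iInter (fun v => MeasurableSet.iInter (fun n => MeasurableSet.iUnion
    (fun t => ?_)))
  by_cases h : n ≤ t
  · simp only [h, true_and]
    exact measurableSet_le measurable_const (measurable_iterate t v)
  · simp [h]

/-- the event that `v` does not topple during the first `t` updates -/
def Quiet (t : ℕ) (v : Site d) : Set (Site d → ℕ) :=
  {A | ∀ s < t, (step^[s] (fun x => (A x : ℤ))) v < 2 * (d : ℤ)}

theorem measurableSet_quiet (t : ℕ) (v : Site d) : MeasurableSet (Quiet t v) := by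
  have : Quiet t v = ⋂ s : ℕ, {A : Site d → ℕ | s < t →
      (step^[s] (fun x => (A x : ℤ))) v < 2 * (d : ℤ)} := by
    ext A
    simp [Quiet]
  rw [this]
  refine MeasurableSet.iInter (fun s => ?_)
  by_cases h : s < t
  · simp only [h, forall_true_left]
    exact measurableSet_lt (measurable_iterate s v) measurable_const
  · simp [h]

theorem law_quiet (l : ℝ≥0) (t : ℕ) (v : Site d) :
    poissonLaw d l (Quiet t v) = poissonLaw d l (Quiet t 0) := by
  have hmap : (poissonLaw d l).map
      (MeasurableEquiv.piCongrLeft (fun _ : Site d => ℕ) (Equiv.subRight v)) = poissonLaw d l :=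
    Measure.infinitePi_map_piCongrLeft (fun _ : Site d => poissonMeasure l) (Equiv.subRight v)
  have h1 : poissonLaw d l (Quiet t 0) = poissonLaw d l
      ((MeasurableEquiv.piCongrLeft (fun _ : Site d => ℕ) (Equiv.subRight v)) ⁻¹' Quiet t 0) := by
    conv_lhs => rw [← hmap]
    rw [Measure.map_apply (MeasurableEquiv.measurable _) (measurableSet_quiet t 0)]
  rw [h1]
  congr 1
  ext A
  simp only [Quiet, Set.mem_ofPred_eq, Set.mem_preimage]
  have h2 : (fun x => ((MeasurableEquiv.piCongrLeft (fun _ : Site d => ℕ) (Equiv.subRight v)) A x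
      : ℤ)) = fun x => ((A (x + v) : ℕ) : ℤ) := by
    funext x
    congr 1
    have h3 := Equiv.piCongrLeft_apply_apply (fun _ : Site d => ℕ) (Equiv.subRight v) A (x + v)
    have h4 : (Equiv.subRight v) (x + v) = x := by simp
    rw [h4] at h3
    exact h3
  rw [h2]
  have h5 := iterate_step_shift (fun x => ((A x : ℕ) : ℤ)) v
  simp only [h5, zero_add]

end Pool.MP_f7f40d_pr
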