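import Pool.Agent.MP_f7f40d_pr.SandDefs

set_option autoImplicit false

open Finset

namespace Pool.MP_f7f40d_pr

variable {d : ℕ}

/-- the opposite direction -/
def opp (e : Fin d × Bool) : Fin d × Bool := (e.1, !e.2)

theorem opp_opp (e : Fin d × Bool) : opp (opp e) = e := by
  simp [opp]

theorem nb_opp (v : Site d) (e : Fin d × Bool) : nb (nb v e) (opp e) = v := by
  unfold nb opp
  rcases e with ⟨i, b⟩
  cases b <;> simp

theorem nb_opp' (v : Site d) (e : Fin d × Bool) : nb (nb v (opp e)) e = v := by
  have := nb_opp v (opp e)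
  rwa [opp_opp] at this

theorem nb_ne (v : Site d) (e : Fin d × Bool) : nb v e ≠ v := by
  intro h
  have := congrFun h e.1
  unfold nb at this
  rw [Function.update_self] at this
  split_ifs at this <;> omega

theorem nb_inj (e : Fin d × Bool) : Function.Injective (fun v : Site d => nb v e) := by
  intro v w h
  have := congrArg (fun z => nb z (opp e)) h
  simpa [nb_opp] using this

theorem nb_comm (v : Site d) (e e' : Fin d × Bool) (h : e.1 ≠ e'.1) :
    nb (nb v e) e' = nb (nb v e') e := by
  unfold nb
  rw [Function.update_of_ne h.symm, Function.update_of_ne h, Function.update_comm h]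

/-- the Laplacian of the lattice -/
def lap (u : Site d → ℤ) (v : Site d) : ℤ :=
  2 * (d : ℤ) * u v - ∑ e : Fin d × Bool, u (nb v e)

/-- number of neighbours in a finite set -/
def dg (F : Finset (Site d)) (v : Site d) : ℤ :=
  ∑ e : Fin d × Bool, (if nb v e ∈ F then 1 else 0)

theorem dg_nonneg (F : Finset (Site d)) (v : Site d) : 0 ≤ dg F v :=
  Finset.sum_nonneg (fun _ _ => by split_ifs <;> norm_num)

theorem dg_le (F : Finset (Site d)) (v : Site d) : dg F v ≤ 2 * (d : ℤ) := by
  unfold dg
  calc ∑ e : Fin d × Bool, (if nb v e ∈ F then (1 : ℤ) else 0) ≤ ∑ e : Fin d × Bool, (1 : ℤ) :=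
        Finset.sum_le_sum (fun _ _ => by split_ifs <;> norm_num)
    _ = 2 * (d : ℤ) := by simp [mul_comm]

/-- `u` stabilises the configuration `A` in the finite set `B` -/
def IsStab (B : Finset (Site d)) (A : Site d → ℤ) (u : Site d → ℕ) : Prop :=
  (∀ v, v ∉ B → u v = 0) ∧ ∀ v ∈ B, A v - lap (fun x => (u x : ℤ)) v ≤ 2 * (d : ℤ) - 1

theorem exists_isStab (hd : 0 < d) (B : Finset (Site d)) (A : Site d → ℤ) :
    ∃ u, IsStab B A u := by
  classical
  let i0 : Fin d := ⟨0, hd⟩
  -- a bound for the first coordinates of B and its neighbours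
  obtain ⟨R, hR⟩ : ∃ R : ℕ, ∀ v ∈ B, |v i0| + 1 ≤ (R : ℤ) := by
    refine ⟨∑ v ∈ B, (|v i0| + 1).toNat, fun v hv => ?_⟩
    have h1 : (|v i0| + 1).toNat ≤ ∑ v ∈ B, (|v i0| + 1).toNat :=
      Finset.single_le_sum (f := fun v : Site d => (|v i0| + 1).toNat) (fun _ _ => Nat.zero_le _) hv
    have h2 : |v i0| + 1 = (((|v i0| + 1).toNat : ℕ) : ℤ) := by
      rw [Int.toNat_of_nonneg (by positivity)]
    rw [h2]
    exact_mod_cast h1
  obtain ⟨M, hM⟩ : ∃ M : ℕ, ∀ v ∈ B, A v ≤ (M : ℤ) := by
    refine ⟨∑ v ∈ B, (A v).toNat, fun v hv => ?_⟩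
    have h1 : (A v).toNat ≤ ∑ v ∈ B, (A v).toNat :=
      Finset.single_le_sum (f := fun v : Site d => (A v).toNat) (fun _ _ => Nat.zero_le _) hv
    exact (Int.self_le_toNat _).trans (by exact_mod_cast h1)
  let φ : Site d → ℤ := fun v => (M : ℤ) * ((R : ℤ) ^ 2 - (v i0) ^ 2)
  refine ⟨fun v => if v ∈ B then (φ v).toNat else 0, fun v hv => by simp [hv], fun v hv => ?_⟩
  have hφ0 : ∀ w ∈ B, 0 ≤ φ w := by
    intro w hw
    have h := hR w hw
    have h1 : (w i0) ^ 2 ≤ (R : ℤ) ^ 2 := by
      rw [sq_le_sq]
      have : |(R : ℤ)| = R := abs_of_nonneg (by positivity)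
      rw [this]; linarith
    exact mul_nonneg (by positivity) (by linarith)
  have hφn : ∀ e : Fin d × Bool, 0 ≤ φ (nb v e) := by
    intro e
    have h := hR v hv
    have h0 : |(nb v e) i0| ≤ |v i0| + 1 := by
      unfold nb
      by_cases hi : i0 = e.1
      · rw [← hi, Function.update_self]
        refine (abs_add_le _ _).trans ?_
        split_ifs <;> simp
      · rw [Function.update_of_ne hi]
        linarith
    have h1 : ((nb v e) i0) ^ 2 ≤ (R : ℤ) ^ 2 := by
      rw [sq_le_sq]
      have : |(R : ℤ)| = R := abs_of_nonneg (by positivity)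
      rw [this]; linarith
    exact mul_nonneg (by positivity) (by linarith)
  have hlapφ : ∀ v : Site d, ∑ e : Fin d × Bool, φ (nb v e) = 2 * (d : ℤ) * φ v - 2 * M := by
    intro v
    rw [Fintype.sum_prod_type]
    have hterm : ∀ i : Fin d, ∑ b : Bool, φ (nb v (i, b)) =
        2 * φ v - (if i = i0 then 2 * (M : ℤ) else 0) := by
      intro i
      rw [Fintype.sum_bool]
      by_cases hi : i = i0
      · subst hi
        simp only [φ, nb, Function.update_self, if_true, Bool.false_eq_true, if_false]
        ring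
      · have hi' : i0 ≠ i := fun h => hi h.symm
        simp only [φ, nb]
        rw [Function.update_of_ne hi', Function.update_of_ne hi', if_neg hi]
        ring
    simp_rw [hterm]
    rw [Finset.sum_sub_distrib]
    simp
    ring
  unfold lap
  simp only [hv, if_true]
  have h1 : ((φ v).toNat : ℤ) = φ v := Int.toNat_of_nonneg (hφ0 v hv)
  have h2 : ∑ e : Fin d × Bool, (((if nb v e ∈ B then (φ (nb v e)).toNat else 0 : ℕ)) : ℤ) ≤
      ∑ e : Fin d × Bool, φ (nb v e) := by
    apply Finset.sum_le_sum
    intro e _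
    split_ifs with h
    · rw [Int.toNat_of_nonneg (hφn e)]
    · simpa using hφn e
  rw [hlapφ] at h2
  rw [h1]
  have h3 := hM v hv
  have h4 : (1 : ℤ) ≤ d := by exact_mod_cast hd
  have h5 : (0 : ℤ) ≤ M := by positivity
  linarith

/-- the odometer: the least stabilising function -/
noncomputable def odo (B : Finset (Site d)) (A : Site d → ℤ) (v : Site d) : ℕ :=
  sInf {n | ∃ u, IsStab B A u ∧ u v = n}

theorem odo_le {B : Finset (Site d)} {A : Site d → ℤ} {u : Site d → ℕ} (h : IsStab B A u)
    (v : Site d) : odo B A v ≤ u v := Nat.sInf_le ⟨u, h, rfl⟩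

theorem odo_mem (hd : 0 < d) (B : Finset (Site d)) (A : Site d → ℤ) (v : Site d) :
    ∃ u, IsStab B A u ∧ u v = odo B A v := by
  have : {n | ∃ u, IsStab B A u ∧ u v = n}.Nonempty := by
    obtain ⟨u, hu⟩ := exists_isStab hd B A
    exact ⟨u v, u, hu, rfl⟩
  exact Nat.sInf_mem this

theorem odo_isStab (hd : 0 < d) (B : Finset (Site d)) (A : Site d → ℤ) :
    IsStab B A (odo B A) := by
  constructor
  · intro v hv
    obtain ⟨u, hu⟩ := exists_isStab hd B A
    have := odo_le hu v
    rw [hu.1 v hv] at this
    exact Nat.le_zero.1 this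
  · intro v hv
    obtain ⟨u, hu, huv⟩ := odo_mem hd B A v
    have h1 := hu.2 v hv
    unfold lap at h1 ⊢
    dsimp only at h1 ⊢
    have h2 : ∑ e : Fin d × Bool, ((odo B A (nb v e) : ℕ) : ℤ) ≤
        ∑ e : Fin d × Bool, ((u (nb v e) : ℕ) : ℤ) :=
      Finset.sum_le_sum (fun e _ => by exact_mod_cast odo_le hu _)
    rw [← huv]
    linarith

/-- the stabilised configuration -/
noncomputable def fin (B : Finset (Site d)) (A : Site d → ℤ) (v : Site d) : ℤ :=
  A v - lap (fun x => (odo B A x : ℤ)) v

theorem fin_le (hd : 0 < d) {B : Finset (Site d)} {A : Site d → ℤ} {v : Site d} (hv : v ∈ B) :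
    fin B A v ≤ 2 * (d : ℤ) - 1 := (odo_isStab hd B A).2 v hv

/-- no forbidden subconfiguration among the toppled sites -/
theorem fin_nfsc (hd : 0 < d) (B : Finset (Site d)) (A : Site d → ℤ) (F : Finset (Site d))
    (hF : F.Nonempty) (hFB : F ⊆ B) (hFo : ∀ v ∈ F, 0 < odo B A v) :
    ∃ z ∈ F, dg F z ≤ fin B A z := by
  classical
  by_contra hcon
  push Not at hcon
  have hst := odo_isStab hd B A
  have hlap : ∀ v, lap (fun x => (((if x ∈ F then odo B A x - 1 else odo B A x : ℕ)) : ℤ)) v =
      lap (fun x => (odo B A x : ℤ)) v - ((if v ∈ F then 2 * (d : ℤ) else 0) - dg F v) := by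
    intro v
    have hpt : ∀ x, (((if x ∈ F then odo B A x - 1 else odo B A x : ℕ)) : ℤ) =
        (odo B A x : ℤ) - (if x ∈ F then 1 else 0) := by
      intro x
      by_cases hx : x ∈ F
      · have := hFo x hx
        simp only [hx, if_true]
        rw [Nat.cast_sub this]
        simp
      · simp [hx]
    unfold lap dg
    simp_rw [hpt]
    rw [Finset.sum_sub_distrib]
    split_ifs <;> ring
  have hnew : IsStab B A (fun x => if x ∈ F then odo B A x - 1 else odo B A x) := by
    constructor
    · intro v hv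
      have h1 : v ∉ F := fun h => hv (hFB h)
      simp only [h1, if_false]
      exact hst.1 v hv
    · intro v hv
      rw [hlap]
      by_cases hx : v ∈ F
      · have h1 := hcon v hx
        unfold fin at h1
        simp only [hx, if_true]
        linarith
      · have h1 := hst.2 v hv
        have h2 := dg_nonneg F v
        simp only [hx, if_false]
        linarith
  obtain ⟨z, hz⟩ := hF
  have h1 := odo_le hnew z
  simp only [hz, if_true] at h1
  have h2 := hFo z hz
  omega

theorem fin_nonneg (hd : 0 < d) (B : Finset (Site d)) (A : Site d → ℤ) (hA : ∀ v, 0 ≤ A v)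
    {v : Site d} (hv : v ∈ B) : 0 ≤ fin B A v := by
  by_cases h : 0 < odo B A v
  · obtain ⟨z, hz, hle⟩ := fin_nfsc hd B A {v} (Finset.singleton_nonempty v) (by simpa using hv)
      (by intro w hw; rw [Finset.mem_singleton] at hw; rw [hw]; exact h)
    rw [Finset.mem_singleton] at hz
    subst hz
    exact (dg_nonneg _ _).trans hle
  · have h0 : odo B A v = 0 := by omega
    unfold fin lap
    dsimp only
    rw [h0]
    have h1 : (0 : ℤ) ≤ ∑ e : Fin d × Bool, ((odo B A (nb v e) : ℕ) : ℤ) :=
      Finset.sum_nonneg (fun _ _ => by positivity)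
    have h2 := hA v
    push_cast
    linarith

/-- adding grains without creating an unstable site does not change the odometer -/
theorem odo_add (hd : 0 < d) (B : Finset (Site d)) (A a : Site d → ℤ) (ha : ∀ v, 0 ≤ a v)
    (hs : ∀ v ∈ B, fin B A v + a v ≤ 2 * (d : ℤ) - 1) :
    odo B (fun v => A v + a v) = odo B A := by
  have hst := odo_isStab hd B A
  have hst' := odo_isStab hd B (fun v => A v + a v)
  funext v
  apply le_antisymm
  · apply odo_le
    refine ⟨hst.1, fun w hw => ?_⟩
    have := hs w hw
    unfold fin at this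
    linarith
  · apply odo_le
    refine ⟨hst'.1, fun w hw => ?_⟩
    have h1 := hst'.2 w hw
    have h2 := ha w
    linarith

theorem fin_add (hd : 0 < d) (B : Finset (Site d)) (A a : Site d → ℤ) (ha : ∀ v, 0 ≤ a v)
    (hs : ∀ v ∈ B, fin B A v + a v ≤ 2 * (d : ℤ) - 1) (v : Site d) :
    fin B (fun v => A v + a v) v = fin B A v + a v := by
  unfold fin
  rw [odo_add hd B A a ha hs]
  ring

/-- dependence on the configuration in `B` only -/
theorem odo_congr (B : Finset (Site d)) (A A' : Site d → ℤ) (h : ∀ v ∈ B, A v = A' v) :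
    odo B A = odo B A' := by
  funext v
  unfold odo
  congr 1
  ext n
  constructor
  · rintro ⟨u, hu, hn⟩
    exact ⟨u, ⟨hu.1, fun w hw => by rw [← h w hw]; exact hu.2 w hw⟩, hn⟩
  · rintro ⟨u, hu, hn⟩
    exact ⟨u, ⟨hu.1, fun w hw => by rw [h w hw]; exact hu.2 w hw⟩, hn⟩

theorem fin_congr (B : Finset (Site d)) (A A' : Site d → ℤ) (h : ∀ v ∈ B, A v = A' v)
    {v : Site d} (hv : v ∈ B) : fin B A v = fin B A' v := by
  unfold fin
  rw [odo_congr B A A' h, h v hv]

/-- stabilisation in a finite set does not increase the mass -/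
theorem sum_fin_le (hd : 0 < d) (B : Finset (Site d)) (A : Site d → ℤ) :
    ∑ v ∈ B, fin B A v ≤ ∑ v ∈ B, A v := by
  classical
  have hst := odo_isStab hd B A
  have hlap : 0 ≤ ∑ v ∈ B, lap (fun x => (odo B A x : ℤ)) v := by
    unfold lap
    rw [Finset.sum_sub_distrib, Finset.sum_comm, ← Finset.mul_sum]
    have h1 : ∀ e : Fin d × Bool, ∑ v ∈ B, ((odo B A (nb v e) : ℕ) : ℤ) ≤
        ∑ v ∈ B, ((odo B A v : ℕ) : ℤ) := by
      intro e
      have h2 : ∑ v ∈ B, ((odo B A (nb v e) : ℕ) : ℤ) =
          ∑ w ∈ B.image (fun v => nb v e), ((odo B A w : ℕ) : ℤ) := by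
        rw [Finset.sum_image]
        intro x _ y _ hxy
        exact nb_inj e hxy
      rw [h2]
      have h3 : ∑ w ∈ B.image (fun v => nb v e), ((odo B A w : ℕ) : ℤ) =
          ∑ w ∈ (B.image (fun v => nb v e)).filter (fun w => w ∈ B), ((odo B A w : ℕ) : ℤ) := by
        rw [Finset.sum_filter]
        apply Finset.sum_congr rfl
        intro w _
        split_ifs with h
        · rfl
        · rw [hst.1 w h]; rfl
      rw [h3]
      apply Finset.sum_le_sum_of_subset_of_nonneg
      · intro w hw
        exact (Finset.mem_filter.1 hw).2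
      · intro _ _ _
        positivity
    have h4 : ∑ e : Fin d × Bool, ∑ v ∈ B, ((odo B A (nb v e) : ℕ) : ℤ) ≤
        ∑ e : Fin d × Bool, ∑ v ∈ B, ((odo B A v : ℕ) : ℤ) :=
      Finset.sum_le_sum (fun e _ => h1 e)
    rw [Finset.sum_const, Finset.card_univ] at h4
    simp only [Fintype.card_prod, Fintype.card_fin, Fintype.card_bool, nsmul_eq_mul] at h4
    push_cast at h4
    linarith
  unfold fin
  rw [Finset.sum_sub_distrib]
  linarith

/-- double counting of neighbouring pairs -/
theorem sum_dg_comm (F G : Finset (Site d)) : ∑ v ∈ F, dg G v = ∑ w ∈ G, dg F w := by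
  classical
  unfold dg
  rw [Finset.sum_comm, Finset.sum_comm (s := G)]
  have h : ∀ e : Fin d × Bool, ∑ v ∈ F, (if nb v e ∈ G then (1 : ℤ) else 0) =
      ∑ w ∈ G, (if nb w (opp e) ∈ F then (1 : ℤ) else 0) := by
    intro e
    rw [← Finset.sum_filter, ← Finset.sum_filter]
    rw [Finset.sum_const, Finset.sum_const]
    congr 1
    apply Finset.card_bij (fun v _ => nb v e)
    · intro v hv
      rw [Finset.mem_filter] at hv ⊢
      refine ⟨hv.2, ?_⟩
      rw [nb_opp]; exact hv.1
    · intro v _ w _ h
      exact nb_inj e h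
    · intro w hw
      rw [Finset.mem_filter] at hw
      refine ⟨nb w (opp e), ?_, nb_opp' w e⟩
      rw [Finset.mem_filter]
      refine ⟨hw.2, ?_⟩
      rw [nb_opp']; exact hw.1
  simp_rw [h]
  have hopp : Function.Bijective (opp : Fin d × Bool → Fin d × Bool) :=
    Function.bijective_iff_has_inverse.2 ⟨opp, opp_opp, opp_opp⟩
  exact Function.Bijective.sum_comp hopp
    (fun e => ∑ w ∈ G, (if nb w e ∈ F then (1 : ℤ) else 0))

/-- burning: without forbidden subconfigurations the mass is at least the number of edges -/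
theorem burn (g : Site d → ℤ) (T : Finset (Site d))
    (hT : ∀ F : Finset (Site d), F.Nonempty → F ⊆ T → ∃ z ∈ F, dg F z ≤ g z) :
    ∀ F : Finset (Site d), F ⊆ T → ∑ v ∈ F, dg F v ≤ 2 * ∑ v ∈ F, g v := by
  classical
  intro F
  induction F using Finset.strongInduction with
  | H F ih =>
    intro hFT
    rcases F.eq_empty_or_nonempty with h0 | hne
    · rw [h0]; simp
    · obtain ⟨z, hz, hle⟩ := hT F hne hFT
      have hsub : F.erase z ⊂ F := Finset.erase_ssubset hz
      have ih' := ih _ hsub ((Finset.erase_subset z F).trans hFT)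
      have hins : F = insert z (F.erase z) := (Finset.insert_erase hz).symm
      have hdg : ∀ v, dg F v = dg (F.erase z) v + dg {z} v := by
        intro v
        unfold dg
        rw [← Finset.sum_add_distrib]
        apply Finset.sum_congr rfl
        intro e _
        by_cases h1 : nb v e = z
        · have h2 : nb v e ∈ F := by rw [h1]; exact hz
          simp [h1, hz]
        · by_cases h2 : nb v e ∈ F
          · simp [h1, h2]
          · simp [h1, h2]
      have hzz : dg {z} z = 0 := by
        unfold dg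
        apply Finset.sum_eq_zero
        intro e _
        rw [if_neg]
        rw [Finset.mem_singleton]
        exact nb_ne z e
      have hcomm : ∑ v ∈ F.erase z, dg {z} v = dg (F.erase z) z := by
        rw [sum_dg_comm]; simp
      have hz1 : dg F z = dg (F.erase z) z := by rw [hdg z, hzz, add_zero]
      have e1 : ∑ v ∈ F, dg F v = dg F z + ∑ v ∈ F.erase z, dg F v :=
        (Finset.add_sum_erase F (fun v => dg F v) hz).symm
      have e2 : ∑ v ∈ F, g v = g z + ∑ v ∈ F.erase z, g v :=
        (Finset.add_sum_erase F g hz).symm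
      have e3 : ∑ v ∈ F.erase z, dg F v =
          ∑ v ∈ F.erase z, dg (F.erase z) v + dg (F.erase z) z := by
        rw [← hcomm, ← Finset.sum_add_distrib]
        exact Finset.sum_congr rfl (fun v _ => hdg v)
      rw [e1, e2, e3, hz1]
      rw [hz1] at hle
      linarith

/-- the sites at sup-distance at most one -/
def Near (x z : Site d) : Prop := ∀ i, |z i - x i| ≤ 1

theorem near_self (x : Site d) : Near x x := by intro i; simp

theorem near_nb (x : Site d) (e : Fin d × Bool) : Near x (nb x e) := by
  intro i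
  unfold nb
  by_cases h : i = e.1
  · subst h
    rw [Function.update_self]
    split_ifs <;> simp
  · rw [Function.update_of_ne h]; simp

theorem near_nb_nb (x : Site d) (e e' : Fin d × Bool) (h : e.1 ≠ e'.1) :
    Near x (nb (nb x e) e') := by
  intro i
  unfold nb
  by_cases h1 : i = e'.1
  · subst h1
    rw [Function.update_self, Function.update_of_ne h.symm]
    split_ifs <;> simp
  · rw [Function.update_of_ne h1]
    by_cases h2 : i = e.1
    · subst h2
      rw [Function.update_self]
      split_ifs <;> simp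
    · rw [Function.update_of_ne h2]; simp

/-- one grain can be removed from the centre of every full window, without creating a forbidden
subconfiguration -/
theorem removal (hd : 2 ≤ d) (g : Site d → ℤ) (T K : Finset (Site d))
    (hT : ∀ F : Finset (Site d), F.Nonempty → F ⊆ T → ∃ z ∈ F, dg F z ≤ g z)
    (hfull : ∀ x ∈ K, ∀ z, Near x z → g z = 2 * (d : ℤ) - 1)
    (hsep : ∀ x ∈ K, ∀ z ∈ K, Near x z → z = x) :
    ∀ F : Finset (Site d), F.Nonempty → F ⊆ T →
      ∃ z ∈ F, dg F z ≤ (if z ∈ K then g z - 1 else g z) := by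
  classical
  intro F hF hFT
  by_contra hcon
  push Not at hcon
  obtain ⟨z, hz, hle⟩ := hT F hF hFT
  have hz' := hcon z hz
  have hzK : z ∈ K := by
    by_contra h
    rw [if_neg h] at hz'
    linarith
  rw [if_pos hzK] at hz'
  have hgz := hfull z hzK z (near_self z)
  -- every neighbour but one lies in F
  have hdz : dg F z = 2 * (d : ℤ) - 1 := by linarith [hz', hle]
  have hex : ∃ e0 : Fin d × Bool, nb z e0 ∉ F := by
    by_contra h
    push Not at h
    have : dg F z = 2 * (d : ℤ) := by
      unfold dg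
      simp [h, mul_comm]
    linarith
  obtain ⟨e0, he0⟩ := hex
  have hother : ∀ e, e ≠ e0 → nb z e ∈ F := by
    intro e he
    by_contra h
    have h1 : dg F z ≤ 2 * (d : ℤ) - 2 := by
      unfold dg
      have hle1 : ∀ x : Fin d × Bool, (if nb z x ∈ F then (1 : ℤ) else 0) ≤
          1 - ((if x = e0 then 1 else 0) + (if x = e then 1 else 0)) := by
        intro x
        by_cases h2 : x = e0
        · subst h2
          have : x ≠ e := fun h => he h.symm
          simp [he0, this]
        · by_cases h3 : x = e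
          · subst h3
            simp [h, h2]
          · simp only [h2, h3, if_false]
            split_ifs <;> norm_num
      refine (Finset.sum_le_sum (fun x _ => hle1 x)).trans ?_
      rw [Finset.sum_sub_distrib, Finset.sum_add_distrib]
      simp [mul_comm]
    linarith
  -- a direction of another coordinate
  obtain ⟨j, hj⟩ : ∃ j : Fin d, j ≠ e0.1 := by
    have : Nontrivial (Fin d) := Fin.nontrivial_iff_two_le.2 hd
    exact exists_ne e0.1
  set e1 : Fin d × Bool := (j, true) with he1
  have hne1 : e1 ≠ e0 := by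
    intro h
    exact hj (by rw [← h])
  have hall : ∀ y ∈ F, y ∉ K → g y = 2 * (d : ℤ) - 1 → ∀ e, nb y e ∈ F := by
    intro y hy hyK hgy e
    by_contra h
    have h1 := hcon y hy
    rw [if_neg hyK, hgy] at h1
    have h2 : dg F y ≤ 2 * (d : ℤ) - 1 := by
      unfold dg
      have hle1 : ∀ x : Fin d × Bool, (if nb y x ∈ F then (1 : ℤ) else 0) ≤
          1 - (if x = e then 1 else 0) := by
        intro x
        by_cases h3 : x = e
        · subst h3
          simp [h]
        · simp only [h3, if_false]
          split_ifs <;> norm_num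
      refine (Finset.sum_le_sum (fun x _ => hle1 x)).trans ?_
      rw [Finset.sum_sub_distrib]
      simp [mul_comm]
    linarith
  have hy : nb z e1 ∈ F := hother e1 hne1
  have hyK : nb z e1 ∉ K := fun h => nb_ne z e1 (hsep z hzK _ h (near_nb z e1))
  have hgy := hfull z hzK (nb z e1) (near_nb z e1)
  have hy2 : nb (nb z e1) e0 ∈ F := hall _ hy hyK hgy e0
  have hnear2 : Near z (nb (nb z e1) e0) := near_nb_nb z e1 e0 hj
  have hy2K : nb (nb z e1) e0 ∉ K := by
    intro h
    have h1 := hsep z hzK _ h hnear2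
    have h2 := congrFun h1 j
    unfold nb at h2
    rw [Function.update_of_ne hj] at h2
    simp only [he1, Function.update_self, if_true] at h2
    omega
  have hgy2 := hfull z hzK _ hnear2
  have hy3 : nb (nb (nb z e1) e0) (opp e1) ∈ F := hall _ hy2 hy2K hgy2 (opp e1)
  rw [nb_comm (nb z e1) e0 (opp e1) (fun h => hj h.symm), nb_opp] at hy3
  exact he0 hy3

/-- the main deterministic inequality -/
theorem main_ineq (hd : 2 ≤ d) (B C : Finset (Site d)) (A : Site d → ℤ) (hA : ∀ v, 0 ≤ A v)
    (hC : ∀ x ∈ C, ∀ z ∈ C, Near x z → z = x) (K : Finset (Site d)) (hKC : K ⊆ C)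
    (hK : ∀ x ∈ K, ∀ z, Near x z → z ∈ B ∧ 0 < odo B A z ∧ fin B A z = 2 * (d : ℤ) - 1) :
    2 * (d : ℤ) * B.card + 2 * K.card ≤ 2 * ∑ v ∈ B, A v +
      4 * (d : ℤ) * (B.filter (fun v => odo B A v = 0)).card +
      ∑ v ∈ B, ∑ e : Fin d × Bool, (if nb v e ∈ B then 0 else 1) := by
  classical
  have hd0 : 0 < d := by omega
  set T := B.filter (fun v => 0 < odo B A v) with hTdef
  have hTB : T ⊆ B := Finset.filter_subset _ _
  have hnf : ∀ F : Finset (Site d), F.Nonempty → F ⊆ T → ∃ z ∈ F, dg F z ≤ fin B A z := by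
    intro F hF hFT
    exact fin_nfsc hd0 B A F hF (hFT.trans hTB) (fun v hv => (Finset.mem_filter.1 (hFT hv)).2)
  have hrem := removal hd (fin B A) T K hnf (fun x hx z hz => (hK x hx z hz).2.2)
    (fun x hx z hz h => hC x (hKC hx) z (hKC hz) h)
  have hburn := burn (fun z => if z ∈ K then fin B A z - 1 else fin B A z) T hrem T subset_rfl
  have hKT : K ⊆ T := by
    intro x hx
    have := hK x hx x (near_self x)
    exact Finset.mem_filter.2 ⟨this.1, this.2.1⟩
  have hsumg : ∑ v ∈ T, (if v ∈ K then fin B A v - 1 else fin B A v) =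
      ∑ v ∈ T, fin B A v - K.card := by
    have h1 : ∀ v ∈ T, (if v ∈ K then fin B A v - 1 else fin B A v) =
        fin B A v - (if v ∈ K then 1 else 0) := by
      intro v _
      split_ifs <;> ring
    rw [Finset.sum_congr rfl h1, Finset.sum_sub_distrib]
    congr 1
    rw [Finset.sum_ite_mem, Finset.inter_eq_right.2 hKT]
    simp
  rw [hsumg] at hburn
  have hmass : ∑ v ∈ T, fin B A v ≤ ∑ v ∈ B, A v := by
    refine le_trans ?_ (sum_fin_le hd0 B A)
    apply Finset.sum_le_sum_of_subset_of_nonneg hTB
    intro v hv _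
    exact fin_nonneg hd0 B A hA hv
  -- counting the pairs
  set Z := B.filter (fun v => odo B A v = 0) with hZdef
  have hcount : 2 * (d : ℤ) * B.card ≤ ∑ v ∈ T, dg T v + 4 * (d : ℤ) * Z.card +
      ∑ v ∈ B, ∑ e : Fin d × Bool, (if nb v e ∈ B then 0 else 1) := by
    have h1 : 2 * (d : ℤ) * B.card = ∑ v ∈ B, ∑ e : Fin d × Bool, (1 : ℤ) := by
      simp; ring
    have h2 : ∀ v ∈ B, ∑ e : Fin d × Bool, (1 : ℤ) ≤
        (if v ∈ T then dg T v else 0) + (if v ∈ Z then 2 * (d : ℤ) else 0) + dg Z v +
          ∑ e : Fin d × Bool, (if nb v e ∈ B then (0 : ℤ) else 1) := by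
      intro v hv
      have hcase : v ∈ T ∨ v ∈ Z := by
        rw [hTdef, hZdef, Finset.mem_filter, Finset.mem_filter]
        rcases Nat.eq_zero_or_pos (odo B A v) with h | h
        · exact Or.inr ⟨hv, h⟩
        · exact Or.inl ⟨hv, h⟩
      have hs0 : (0 : ℤ) ≤ ∑ e : Fin d × Bool, (if nb v e ∈ B then (0 : ℤ) else 1) :=
        Finset.sum_nonneg (fun _ _ => by split_ifs <;> norm_num)
      rcases hcase with h | h
      · rw [if_pos h]
        have h3 : ∑ e : Fin d × Bool, (1 : ℤ) ≤ dg T v + dg Z v +
            ∑ e : Fin d × Bool, (if nb v e ∈ B then (0 : ℤ) else 1) := by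
          unfold dg
          rw [← Finset.sum_add_distrib, ← Finset.sum_add_distrib]
          apply Finset.sum_le_sum
          intro e _
          by_cases hB : nb v e ∈ B
          · have hc : nb v e ∈ T ∨ nb v e ∈ Z := by
              rw [hTdef, hZdef, Finset.mem_filter, Finset.mem_filter]
              rcases Nat.eq_zero_or_pos (odo B A (nb v e)) with h | h
              · exact Or.inr ⟨hB, h⟩
              · exact Or.inl ⟨hB, h⟩
            rcases hc with h | h
            · simp only [h, if_true, hB]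
              split_ifs <;> norm_num
            · simp only [h, if_true, hB]
              split_ifs <;> norm_num
          · simp only [hB, if_false]
            split_ifs <;> norm_num
        have h4 : (0 : ℤ) ≤ (if v ∈ Z then 2 * (d : ℤ) else 0) := by
          split_ifs
          · positivity
          · exact le_rfl
        linarith
      · rw [if_pos h]
        have h3 : ∑ e : Fin d × Bool, (1 : ℤ) = 2 * (d : ℤ) := by simp [mul_comm]
        have h4 := dg_nonneg Z v
        have h5 : (0 : ℤ) ≤ (if v ∈ T then dg T v else 0) := by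
          split_ifs
          · exact dg_nonneg T v
          · exact le_rfl
        linarith
    rw [h1]
    refine (Finset.sum_le_sum h2).trans ?_
    rw [Finset.sum_add_distrib, Finset.sum_add_distrib, Finset.sum_add_distrib]
    have h6 : ∑ v ∈ B, (if v ∈ T then dg T v else 0) = ∑ v ∈ T, dg T v := by
      rw [Finset.sum_ite_mem, Finset.inter_eq_right.2 hTB]
    have hZB : Z ⊆ B := Finset.filter_subset _ _
    have h7 : ∑ v ∈ B, (if v ∈ Z then 2 * (d : ℤ) else 0) = 2 * (d : ℤ) * Z.card := by
      rw [Finset.sum_ite_mem, Finset.inter_eq_right.2 hZB]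
      simp; ring
    have h8 : ∑ v ∈ B, dg Z v ≤ 2 * (d : ℤ) * Z.card := by
      rw [sum_dg_comm]
      refine (Finset.sum_le_sum (fun w _ => dg_le B w)).trans ?_
      simp; ring_nf; exact le_rfl
    rw [h6, h7]
    linarith
  linarith

end Pool.MP_f7f40d_pr
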