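import Pool.Agent.MP_f7f40d_pr.LowCount

set_option autoImplicit false

open Finset MeasureTheory ProbabilityTheory
open scoped ENNReal NNReal Nat

namespace Pool.MP_f7f40d_pr

variable {d : ℕ}

/-- comparison of a countable measure along an injection -/
theorem measure_le_of_inj {α : Type*} [Countable α] [MeasurableSpace α]
    [MeasurableSingletonClass α] (μ : Measure α) (E S : Set α) (τ : α → α)
    (hinj : Function.Injective τ) (M : ℝ≥0∞) (h : ∀ b ∈ E, τ b ∈ S ∧ μ {b} ≤ M * μ {τ b}) :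
    μ E ≤ M * μ S := by
  classical
  have hE : MeasurableSet E := E.to_countable.measurableSet
  have hS : MeasurableSet S := S.to_countable.measurableSet
  rw [← Measure.tsum_indicator_apply_singleton μ E hE,
    ← Measure.tsum_indicator_apply_singleton μ S hS, ← ENNReal.tsum_mul_left]
  calc ∑' b, E.indicator (fun x => μ {x}) b
      ≤ ∑' b, M * S.indicator (fun x => μ {x}) (τ b) := by
        apply ENNReal.tsum_le_tsum
        intro b
        by_cases hb : b ∈ E
        · rw [Set.indicator_of_mem hb, Set.indicator_of_mem (h b hb).1]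
          exact (h b hb).2
        · rw [Set.indicator_of_notMem hb]
          exact zero_le
    _ ≤ ∑' b, M * S.indicator (fun x => μ {x}) b :=
        ENNReal.tsum_comp_le_tsum_of_injective hinj (fun b => M * S.indicator (fun x => μ {x}) b)

/-- mean of the Poisson law (upper bound) -/
theorem lintegral_poisson_le (l : ℝ≥0) : ∫⁻ n, (n : ℝ≥0∞) ∂(poissonMeasure l) ≤ l := by
  have h1 : ∫⁻ n, (n : ℝ≥0∞) ∂(poissonMeasure l) =
      ∑' n : ℕ, ENNReal.ofReal (Real.exp (-l) * l ^ n / (n)!) * (n : ℝ≥0∞) := by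
    unfold poissonMeasure
    rw [lintegral_sum_measure]
    congr 1
    ext n
    rw [lintegral_smul_measure, lintegral_dirac]
    rfl
  have h2 : ∑' n : ℕ, ENNReal.ofReal (Real.exp (-l) * l ^ n / (n)!) * (n : ℝ≥0∞) =
      ∑' n : ℕ, ENNReal.ofReal (Real.exp (-l) * l ^ (n + 1) / (n + 1)!) * ((n + 1 : ℕ) : ℝ≥0∞) := by
    rw [tsum_eq_zero_add' ENNReal.summable]
    simp
  have h3 : ∀ n : ℕ, ENNReal.ofReal (Real.exp (-l) * l ^ (n + 1) / (n + 1)!) *
      ((n + 1 : ℕ) : ℝ≥0∞) = (l : ℝ≥0∞) * ENNReal.ofReal (Real.exp (-l) * l ^ n / (n)!) := by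
    intro n
    have h4 : ((n + 1 : ℕ) : ℝ≥0∞) = ENNReal.ofReal ((n + 1 : ℕ) : ℝ) := by
      rw [ENNReal.ofReal_natCast]
    have h5 : (l : ℝ≥0∞) = ENNReal.ofReal (l : ℝ) := by
      rw [ENNReal.ofReal_coe_nnreal]
    rw [h4, h5, ← ENNReal.ofReal_mul (by positivity), ← ENNReal.ofReal_mul (by positivity)]
    congr 1
    rw [Nat.factorial_succ]
    push_cast
    have h6 : ((n)! : ℝ) ≠ 0 := by positivity
    have h7 : ((n : ℝ) + 1) ≠ 0 := by positivity
    field_simp
    ring
  rw [h1, h2]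
  simp_rw [h3]
  rw [ENNReal.tsum_mul_left]
  have h8 : ∑' n : ℕ, ENNReal.ofReal (Real.exp (-l) * l ^ n / (n)!) = 1 := by
    have hs := hasSum_one_poissonMeasure l
    rw [← ENNReal.ofReal_tsum_of_nonneg (fun n => by positivity) hs.summable, hs.tsum_eq]
    simp
  rw [h8, mul_one]

/-- tail bound of the Poisson law -/
theorem poisson_tail (l : ℝ≥0) (K : ℕ) :
    poissonMeasure l {n | K < n} ≤ (l : ℝ≥0∞) / (K + 1 : ℕ) := by
  have h := mul_meas_ge_le_lintegral (μ := poissonMeasure l)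
    (f := fun n : ℕ => (n : ℝ≥0∞)) measurable_from_top ((K + 1 : ℕ) : ℝ≥0∞)
  have h2 : {n : ℕ | ((K + 1 : ℕ) : ℝ≥0∞) ≤ (n : ℝ≥0∞)} = {n | K < n} := by
    ext n
    simp only [Set.mem_ofPred_eq, Nat.cast_le]
    omega
  rw [h2] at h
  rw [ENNReal.le_div_iff_mul_le (Or.inl (by simp)) (Or.inl (ENNReal.natCast_ne_top _)), mul_comm]
  exact h.trans (lintegral_poisson_le l)

/-- quasi-invariance of the Poisson weights -/
theorem poisson_shift (l : ℝ≥0) (hl : 1 ≤ l) (K D k a : ℕ) (hk : k ≤ K) (ha : a < D)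
    (hD : 1 ≤ D) :
    poissonMeasure l {k} ≤ (((K + D) ^ D : ℕ) : ℝ≥0∞) * poissonMeasure l {k + a} := by
  rw [poissonMeasure_singleton, poissonMeasure_singleton]
  have h4 : (((K + D) ^ D : ℕ) : ℝ≥0∞) = ENNReal.ofReal (((K + D) ^ D : ℕ) : ℝ) := by
    rw [ENNReal.ofReal_natCast]
  rw [h4, ← ENNReal.ofReal_mul (by positivity)]
  apply ENNReal.ofReal_le_ofReal
  have hl' : (1 : ℝ) ≤ l := by exact_mod_cast hl
  have h5 : (l : ℝ) ^ k ≤ (l : ℝ) ^ (k + a) := pow_le_pow_right₀ hl' (Nat.le_add_right _ _)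
  have h6 : ((k + a)! : ℕ) ≤ (K + D) ^ D * (k)! := by
    have h7 := Nat.factorial_mul_descFactorial (n := k + a) (k := a) (Nat.le_add_left _ _)
    rw [Nat.add_sub_cancel] at h7
    rw [← h7, mul_comm]
    apply Nat.mul_le_mul_right
    refine (Nat.descFactorial_le_pow _ _).trans ?_
    calc (k + a) ^ a ≤ (K + D) ^ a := Nat.pow_le_pow_left (by omega) _
      _ ≤ (K + D) ^ D := Nat.pow_le_pow_right (by omega) (by omega)
  have h6' : ((k + a)! : ℝ) ≤ (((K + D) ^ D : ℕ) : ℝ) * ((k)! : ℝ) := by exact_mod_cast h6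
  have h8 : (0 : ℝ) < (k)! := by positivity
  have h9 : (0 : ℝ) < (k + a)! := by positivity
  rw [mul_div_assoc']
  rw [div_le_div_iff₀ h8 h9]
  have h10 : (0 : ℝ) ≤ Real.exp (-l) := Real.exp_nonneg _
  have h11 : (0 : ℝ) ≤ (l : ℝ) ^ k := by positivity
  calc Real.exp (-l) * (l : ℝ) ^ k * ((k + a)! : ℝ)
      ≤ Real.exp (-l) * (l : ℝ) ^ k * ((((K + D) ^ D : ℕ) : ℝ) * ((k)! : ℝ)) :=
        mul_le_mul_of_nonneg_left h6' (mul_nonneg h10 h11)
    _ ≤ Real.exp (-l) * (l : ℝ) ^ (k + a) * ((((K + D) ^ D : ℕ) : ℝ) * ((k)! : ℝ)) := by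
        apply mul_le_mul_of_nonneg_right _ (by positivity)
        exact mul_le_mul_of_nonneg_left h5 h10
    _ = (((K + D) ^ D : ℕ) : ℝ) * (Real.exp (-l) * (l : ℝ) ^ (k + a)) * ((k)! : ℝ) := by ring

/-- extension by zero of a configuration on `B` -/
def ext (B : Finset (Site d)) (b : B → ℕ) : Site d → ℤ :=
  fun v => if h : v ∈ B then (b ⟨v, h⟩ : ℤ) else 0

theorem ext_apply (B : Finset (Site d)) (b : B → ℕ) (v : Site d) (h : v ∈ B) :
    ext B b v = (b ⟨v, h⟩ : ℤ) := by
  unfold ext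
  rw [dif_pos h]

theorem ext_restrict (B : Finset (Site d)) (A : Site d → ℕ) (v : Site d) (h : v ∈ B) :
    ext B (B.restrict A) v = (A v : ℤ) := by
  rw [ext_apply B _ v h]
  rfl

theorem law_restrict (l : ℝ≥0) (B : Finset (Site d)) (S : Set (B → ℕ)) :
    poissonLaw d l {A | B.restrict A ∈ S} =
      Measure.pi (fun _ : B => poissonMeasure l) S := by
  have h := Measure.infinitePi_map_restrict (fun _ : Site d => poissonMeasure l) (I := B)
  rw [← h, Measure.map_apply (measurable_restrict B) S.to_countable.measurableSet]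
  rfl

theorem measurableSet_restrict (B : Finset (Site d)) (S : Set (B → ℕ)) :
    MeasurableSet {A : Site d → ℕ | B.restrict A ∈ S} :=
  (measurable_restrict B) S.to_countable.measurableSet

theorem pi_shift (l : ℝ≥0) (hl : 1 ≤ l) (B W : Finset (Site d)) (hW : W ⊆ B) (K D : ℕ)
    (hD : 1 ≤ D) (a : B → ℕ) (ha : ∀ i : B, if i.1 ∈ W then a i < D else a i = 0)
    (b : B → ℕ) (hb : ∀ i : B, i.1 ∈ W → b i ≤ K) :
    Measure.pi (fun _ : B => poissonMeasure l) {b} ≤
      ((((K + D) ^ D) ^ W.card : ℕ) : ℝ≥0∞) *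
        Measure.pi (fun _ : B => poissonMeasure l) {b + a} := by
  classical
  rw [Measure.pi_singleton, Measure.pi_singleton]
  have h1 : ∀ i : B, poissonMeasure l {b i} ≤
      (if i.1 ∈ W then (((K + D) ^ D : ℕ) : ℝ≥0∞) else 1) * poissonMeasure l {(b + a) i} := by
    intro i
    have h2 := ha i
    by_cases h : i.1 ∈ W
    · rw [if_pos h] at h2 ⊢
      exact poisson_shift l hl K D (b i) (a i) (hb i h) h2 hD
    · rw [if_neg h] at h2 ⊢
      rw [Pi.add_apply, h2, add_zero, one_mul]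
  refine (Finset.prod_le_prod' (fun i _ => h1 i)).trans (le_of_eq ?_)
  rw [Finset.prod_mul_distrib]
  congr 1
  have h3 : ∏ i : B, (if i.1 ∈ W then (((K + D) ^ D : ℕ) : ℝ≥0∞) else 1) =
      ∏ v ∈ B, (if v ∈ W then (((K + D) ^ D : ℕ) : ℝ≥0∞) else 1) :=
    Finset.prod_coe_sort B (fun v => (if v ∈ W then (((K + D) ^ D : ℕ) : ℝ≥0∞) else 1))
  rw [h3, Finset.prod_ite_mem, Finset.inter_eq_right.2 hW, Finset.prod_const]
  push_cast
  rfl

/-- the event that the window `W` is full after stabilisation in `B` -/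
def Full (B W : Finset (Site d)) : Set (Site d → ℕ) :=
  {A | ∀ z ∈ W, fin B (fun v => (A v : ℤ)) z = 2 * (d : ℤ) - 1}

theorem full_eq (B W : Finset (Site d)) (hW : W ⊆ B) : Full B W =
    {A : Site d → ℕ | B.restrict A ∈
      {b : B → ℕ | ∀ z ∈ W, fin B (ext B b) z = 2 * (d : ℤ) - 1}} := by
  ext A
  simp only [Full, Set.mem_ofPred_eq]
  have : ∀ z ∈ W, fin B (ext B (B.restrict A)) z = fin B (fun v => (A v : ℤ)) z := by
    intro z hz
    exact fin_congr B _ _ (fun v hv => ext_restrict B A v hv) (hW hz)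
  constructor
  · intro h z hz
    rw [this z hz]; exact h z hz
  · intro h z hz
    rw [← this z hz]; exact h z hz

/-- uniform lower bound for the probability of a full window -/
theorem prob_full (hd : 0 < d) (l : ℝ≥0) (hl : 1 ≤ l) (B W : Finset (Site d)) (hW : W ⊆ B)
    (K : ℕ) (hK : 2 * (W.card : ℝ≥0∞) * l ≤ (K + 1 : ℕ)) :
    1 ≤ 2 * (((2 * d) ^ W.card * ((K + 2 * d) ^ (2 * d)) ^ W.card : ℕ) : ℝ≥0∞) *
      poissonLaw d l (Full B W) := by
  classical
  set μ := Measure.pi (fun _ : B => poissonMeasure l) with hμ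
  set E : Set (B → ℕ) := {b : B → ℕ | ∀ z ∈ W, fin B (ext B b) z = 2 * (d : ℤ) - 1} with hE
  set G : Set (B → ℕ) := {b : B → ℕ | ∀ i : B, i.1 ∈ W → b i ≤ K} with hG
  have hFull : poissonLaw d l (Full B W) = μ E := by
    rw [full_eq B W hW, law_restrict]
  -- the good event has probability at least one half
  have hGc : μ Gᶜ ≤ 2⁻¹ := by
    have hsub : Gᶜ ⊆ ⋃ i ∈ (Finset.univ.filter (fun i : B => i.1 ∈ W)),
        (Function.eval i) ⁻¹' {n : ℕ | K < n} := by
      intro b hb
      simp only [hG, Set.mem_compl_iff, Set.mem_ofPred_eq, not_forall] at hb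
      obtain ⟨i, hi, hbi⟩ := hb
      simp only [Set.mem_iUnion, Finset.mem_filter, Finset.mem_univ, true_and, Set.mem_preimage,
        Function.eval, Set.mem_ofPred_eq]
      exact ⟨i, hi, by omega⟩
    have h1 : μ Gᶜ ≤ ∑ i ∈ (Finset.univ.filter (fun i : B => i.1 ∈ W)),
        μ ((Function.eval i) ⁻¹' {n : ℕ | K < n}) :=
      (measure_mono hsub).trans (measure_biUnion_finset_le _ _)
    have h2 : ∀ i : B, μ ((Function.eval i) ⁻¹' {n : ℕ | K < n}) ≤
        (l : ℝ≥0∞) / (K + 1 : ℕ) := by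
      intro i
      have h3 := (measurePreserving_eval (fun _ : B => poissonMeasure l) i).measure_preimage
        (s := {n : ℕ | K < n}) (MeasurableSet.of_discrete.nullMeasurableSet)
      rw [hμ, h3]
      exact poisson_tail l K
    have hcard : (Finset.univ.filter (fun i : B => i.1 ∈ W)).card = W.card := by
      rw [← Finset.card_map (Function.Embedding.subtype _)]
      congr 1
      ext v
      simp only [Finset.mem_map, Finset.mem_filter, Finset.mem_univ, true_and,
        Function.Embedding.subtype_apply, Subtype.exists, exists_and_left, exists_prop]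
      constructor
      · rintro ⟨w, hw, _, rfl⟩
        exact hw
      · intro hv
        exact ⟨v, hv, hW hv, rfl⟩
    refine h1.trans ((Finset.sum_le_sum (fun i _ => h2 i)).trans ?_)
    rw [Finset.sum_const, hcard, nsmul_eq_mul]
    rw [← mul_div_assoc]
    rw [ENNReal.div_le_iff_le_mul (Or.inl (by simp)) (Or.inl (ENNReal.natCast_ne_top _))]
    have h4 : (W.card : ℝ≥0∞) * l = 2⁻¹ * (2 * (W.card : ℝ≥0∞) * l) := by
      rw [← mul_assoc, ← mul_assoc, ENNReal.inv_mul_cancel (by norm_num) (by norm_num), one_mul]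
    rw [h4]
    exact mul_le_mul_of_nonneg_left hK (by positivity)
  have hGmeas : MeasurableSet G := G.to_countable.measurableSet
  have hGhalf : 2⁻¹ ≤ μ G := by
    have h1 : μ G + μ Gᶜ = 1 := by
      rw [measure_add_measure_compl hGmeas, measure_univ]
    have h2 : (2⁻¹ : ℝ≥0∞) + 2⁻¹ = 1 := ENNReal.inv_two_add_inv_two
    have h3 : (2⁻¹ : ℝ≥0∞) + 2⁻¹ ≤ μ G + 2⁻¹ := by
      rw [h2, ← h1]
      exact add_le_add le_rfl hGc
    exact (ENNReal.add_le_add_iff_right (by norm_num)).1 h3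
  -- the finite set of additions
  set Fs : Finset (B → ℕ) := Fintype.piFinset
    (fun i : B => if i.1 ∈ W then Finset.range (2 * d) else {0}) with hFs
  have hFscard : Fs.card = (2 * d) ^ W.card := by
    rw [hFs, Fintype.card_piFinset]
    have h3 : ∏ i : B, (if i.1 ∈ W then Finset.range (2 * d) else {0}).card =
        ∏ i : B, (if i.1 ∈ W then 2 * d else 1) := by
      apply Finset.prod_congr rfl
      intro i _
      split_ifs <;> simp
    rw [h3]
    have h4 : ∏ i : B, (if i.1 ∈ W then 2 * d else 1) =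
      ∏ v ∈ B, (if v ∈ W then 2 * d else 1) :=
      Finset.prod_coe_sort B (fun v => (if v ∈ W then 2 * d else 1))
    rw [h4, Finset.prod_ite_mem, Finset.inter_eq_right.2 hW, Finset.prod_const]
  have hcover : G ⊆ ⋃ a ∈ Fs, {b | b ∈ G ∧ b + a ∈ E} := by
    intro b hb
    have hA0 : ∀ v, 0 ≤ ext B b v := by
      intro v
      unfold ext
      split_ifs
      · positivity
      · exact le_rfl
    let a : B → ℕ := fun i => if i.1 ∈ W then (2 * (d : ℤ) - 1 - fin B (ext B b) i.1).toNat else 0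
    have haF : a ∈ Fs := by
      rw [hFs, Fintype.mem_piFinset]
      intro i
      by_cases h : i.1 ∈ W
      · simp only [a, h, if_true, Finset.mem_range]
        have h1 := fin_nonneg hd B (ext B b) hA0 i.2
        have h2 : (0 : ℤ) < d := by exact_mod_cast hd
        omega
      · simp [a, h]
    simp only [Set.mem_iUnion, Set.mem_ofPred_eq]
    refine ⟨a, haF, hb, ?_⟩
    have hext : ∀ v ∈ B, ext B (b + a) v = ext B b v + ext B a v := by
      intro v hv
      rw [ext_apply B _ v hv, ext_apply B _ v hv, ext_apply B _ v hv]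
      simp
    have ha0 : ∀ v, 0 ≤ ext B a v := by
      intro v
      unfold ext
      split_ifs
      · positivity
      · exact le_rfl
    have hval : ∀ v ∈ B, ext B a v = if v ∈ W then 2 * (d : ℤ) - 1 - fin B (ext B b) v else 0 := by
      intro v hv
      rw [ext_apply B _ v hv]
      by_cases h : v ∈ W
      · simp only [a, h, if_true]
        rw [Int.toNat_of_nonneg]
        have := fin_le hd (A := ext B b) hv
        linarith
      · simp [a, h]
    have hstab : ∀ v ∈ B, fin B (ext B b) v + ext B a v ≤ 2 * (d : ℤ) - 1 := by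
      intro v hv
      rw [hval v hv]
      split_ifs
      · linarith
      · have := fin_le hd (A := ext B b) hv
        linarith
    rw [hE, Set.mem_ofPred_eq]
    intro z hz
    have hzB := hW hz
    rw [fin_congr B (ext B (b + a)) (fun v => ext B b v + ext B a v) hext hzB,
      fin_add hd B (ext B b) (ext B a) ha0 hstab, hval z hzB, if_pos hz]
    ring
  have hQI : ∀ a ∈ Fs, μ {b | b ∈ G ∧ b + a ∈ E} ≤
      ((((K + 2 * d) ^ (2 * d)) ^ W.card : ℕ) : ℝ≥0∞) * μ E := by
    intro a ha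
    rw [hFs, Fintype.mem_piFinset] at ha
    apply measure_le_of_inj μ _ _ (fun b => b + a) (add_left_injective a)
    intro b hb
    refine ⟨hb.2, ?_⟩
    apply pi_shift l hl B W hW K (2 * d) (by omega) a _ b hb.1
    intro i
    have := ha i
    by_cases h : i.1 ∈ W
    · rw [if_pos h] at this ⊢
      exact Finset.mem_range.1 this
    · rw [if_neg h] at this ⊢
      exact Finset.mem_singleton.1 this
  have hfinal : 2⁻¹ ≤ (((2 * d) ^ W.card * ((K + 2 * d) ^ (2 * d)) ^ W.card : ℕ) : ℝ≥0∞) * μ E := by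
    calc (2⁻¹ : ℝ≥0∞) ≤ μ G := hGhalf
      _ ≤ ∑ a ∈ Fs, μ {b | b ∈ G ∧ b + a ∈ E} :=
          (measure_mono hcover).trans (measure_biUnion_finset_le _ _)
      _ ≤ ∑ a ∈ Fs, ((((K + 2 * d) ^ (2 * d)) ^ W.card : ℕ) : ℝ≥0∞) * μ E :=
          Finset.sum_le_sum hQI
      _ = _ := by
          rw [Finset.sum_const, hFscard, nsmul_eq_mul]
          push_cast
          ring
  rw [hFull]
  calc (1 : ℝ≥0∞) = 2 * 2⁻¹ := (ENNReal.mul_inv_cancel (by norm_num) (by norm_num)).symm
    _ ≤ 2 * ((((2 * d) ^ W.card * ((K + 2 * d) ^ (2 * d)) ^ W.card : ℕ) : ℝ≥0∞) * μ E) :=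
        mul_le_mul_of_nonneg_left hfinal (by positivity)
    _ = _ := by ring

end Pool.MP_f7f40d_pr
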