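import Pool.Agent.MP_f7f40d_pr.Dyn
import Pool.Agent.MP_f7f40d_pr.Coll

set_option autoImplicit false

namespace Pool.Agent.MP_f7f40d_pr

open MeasureTheory Filter Topology Function ProbabilityTheory
open scoped Real Nat ENNReal NNReal

variable {d : ℕ}

/-- Initial configurations. -/
abbrev Om (d : ℕ) := (Fin d → ℤ) → ℕ

/-- The i.i.d. Poisson law on initial configurations. -/
noncomputable def muP (d : ℕ) (lam : ℝ≥0) : Measure (Om d) :=
  Measure.infinitePi fun _ : Fin d → ℤ => poissonMeasure lam

instance (d : ℕ) (lam : ℝ≥0) : IsProbabilityMeasure (muP d lam) := by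
  unfold muP; infer_instance

/-- Integer valued version of a configuration. -/
def Ac (A : Om d) : (Fin d → ℤ) → ℤ := fun v => (A v : ℤ)

/-- The event of percolation. -/
def perc (d : ℕ) : Set (Om d) := {A | Percolates d (Ac A)}

theorem meas_eta (t : ℕ) : ∀ v : Fin d → ℤ, Measurable fun A : Om d => (step d)^[t] (Ac A) v := by
  induction t with
  | zero =>
    intro v
    simp only [iterate_zero, id_eq]
    unfold Ac
    exact (measurable_from_top (f := fun n : ℕ => (n : ℤ))).comp (measurable_pi_apply v)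
  | succ t ih =>
    intro v
    have hind : ∀ w : Fin d → ℤ, ∀ c : ℤ, Measurable fun A : Om d =>
        (if 2 * (d : ℤ) ≤ (step d)^[t] (Ac A) w then c else 0) := by
      intro w c
      exact (measurable_from_top (f := fun z : ℤ => if 2 * (d : ℤ) ≤ z then c else 0)).comp (ih w)
    have : (fun A : Om d => (step d)^[t + 1] (Ac A) v) = fun A : Om d =>
        (step d)^[t] (Ac A) v - (if 2 * (d : ℤ) ≤ (step d)^[t] (Ac A) v then 2 * (d : ℤ) else 0) +
        ∑ i : Fin d, ((if 2 * (d : ℤ) ≤ (step d)^[t] (Ac A) (v + Pi.single i 1) then 1 else 0) +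
          (if 2 * (d : ℤ) ≤ (step d)^[t] (Ac A) (v - Pi.single i 1) then 1 else 0)) := by
      funext A
      rw [iterate_succ_apply', step_apply]
    rw [this]
    refine ((ih v).sub (hind v _)).add ?_
    refine Finset.measurable_fun_sum _ fun i _ => ?_
    exact (hind _ _).add (hind _ _)

theorem meas_perc : MeasurableSet (perc d) := by
  have : perc d = ⋂ v : Fin d → ℤ, ⋂ T : ℕ, ⋃ t : ℕ, ⋃ _ : T ≤ t,
      {A : Om d | 2 * (d : ℤ) ≤ (step d)^[t] (Ac A) v} := by
    ext A
    simp [perc, Percolates]
  rw [this]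
  refine MeasurableSet.iInter fun v => MeasurableSet.iInter fun T => MeasurableSet.iUnion fun t =>
    MeasurableSet.iUnion fun _ => ?_
  exact measurableSet_le measurable_const (meas_eta t v)

/-- Shift of configurations. -/
def shf (a : Fin d → ℤ) (A : Om d) : Om d := fun v => A (v + a)

theorem mp_shf (lam : ℝ≥0) (a : Fin d → ℤ) : MeasurePreserving (shf a) (muP d lam) (muP d lam) := by
  have h := Measure.infinitePi_map_piCongrLeft (X := fun _ : Fin d → ℤ => ℕ)
    (μ := fun _ : Fin d → ℤ => poissonMeasure lam) (Equiv.addRight (-a))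
  have e : (MeasurableEquiv.piCongrLeft (fun _ : Fin d → ℤ => ℕ) (Equiv.addRight (-a)) :
      Om d → Om d) = shf a := by
    funext A v
    have h1 : v = (Equiv.addRight (-a)) (v + a) := by simp
    conv_lhs => rw [h1]
    rw [MeasurableEquiv.coe_piCongrLeft, Equiv.piCongrLeft_apply_apply]
    rfl
  refine ⟨?_, ?_⟩
  · unfold shf
    exact measurable_pi_lambda _ fun v => measurable_pi_apply _
  · rw [← e]
    exact h

theorem step_shift (a : Fin d → ℤ) (B : (Fin d → ℤ) → ℤ) (t : ℕ) :
    (step d)^[t] (fun v => B (v + a)) = fun v => (step d)^[t] B (v + a) := by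
  have hs : Semiconj (fun (B : (Fin d → ℤ) → ℤ) v => B (v + a)) (step d) (step d) := by
    intro B
    funext v
    simp only [step_apply]
    have h1 : ∀ i : Fin d, v + Pi.single i 1 + a = v + a + Pi.single i 1 := by
      intro i; abel
    have h2 : ∀ i : Fin d, v - Pi.single i 1 + a = v + a - Pi.single i 1 := by
      intro i; abel
    simp only [h1, h2]
  exact ((hs.iterate_right t) B).symm

theorem Ac_shf (a : Fin d → ℤ) (A : Om d) : Ac (shf a A) = fun v => Ac A (v + a) := rfl

theorem perc_shf (a : Fin d → ℤ) (A : Om d) : shf a A ∈ perc d ↔ A ∈ perc d := by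
  unfold perc Percolates
  simp only [Set.mem_ofPred_eq, Ac_shf, step_shift]
  constructor
  · intro h v
    have := h (v - a)
    simpa using this
  · intro h v
    exact h (v + a)

/-- The excess over `2d-1` at time `t`. -/
noncomputable def exc (t : ℕ) (v : Fin d → ℤ) (A : Om d) : ℕ :=
  ((step d)^[t] (Ac A) v - (2 * d - 1)).toNat

theorem meas_exc (t : ℕ) (v : Fin d → ℤ) : Measurable fun A : Om d => (exc t v A : ℝ≥0∞) := by
  unfold exc
  exact (measurable_from_top (f := fun z : ℤ => (((z - (2 * d - 1)).toNat : ℕ) : ℝ≥0∞))).comp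
    (meas_eta t v)

theorem lintegral_exc (lam : ℝ≥0) (t : ℕ) (v : Fin d → ℤ) :
    ∫⁻ A in (perc d)ᶜ, (exc t v A : ℝ≥0∞) ∂(muP d lam) =
      ∫⁻ A in (perc d)ᶜ, (exc t 0 A : ℝ≥0∞) ∂(muP d lam) := by
  rw [← lintegral_indicator meas_perc.compl, ← lintegral_indicator meas_perc.compl]
  have hm : Measurable ((perc d)ᶜ.indicator fun A : Om d => (exc t 0 A : ℝ≥0∞)) :=
    (meas_exc t 0).indicator meas_perc.compl
  have h := (mp_shf lam v).lintegral_comp hm
  rw [← h]
  apply lintegral_congr
  intro A
  by_cases hA : A ∈ (perc d)ᶜ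
  · have hA' : shf v A ∈ (perc d)ᶜ := fun h => hA ((perc_shf v A).mp h)
    rw [Set.indicator_of_mem hA, Set.indicator_of_mem hA']
    unfold exc
    rw [Ac_shf, step_shift]
    simp
  · have hA' : shf v A ∉ (perc d)ᶜ := fun h => hA (fun h2 => h ((perc_shf v A).mpr h2))
    rw [Set.indicator_of_notMem hA, Set.indicator_of_notMem hA']

theorem exc_le (t : ℕ) (v : Fin d → ℤ) (A : Om d) : exc t v A ≤ A v + (4 * d + 1) := by
  unfold exc
  have h := eta_le (Ac A) t v
  have h2 : max (Ac A v) (4 * (d : ℤ) - 1) ≤ Ac A v + 4 * d := by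
    have : 0 ≤ Ac A v := Int.natCast_nonneg _
    apply max_le <;> omega
  have h4 : (step d)^[t] (Ac A) v ≤ (A v : ℤ) + 4 * d := h.trans h2
  omega

theorem lintegral_poisson_lt_top (lam : ℝ≥0) :
    ∫⁻ n : ℕ, (n : ℝ≥0∞) ∂(poissonMeasure lam) < ∞ := by
  have hint : Integrable (fun n : ℕ => (n : ℝ)) (poissonMeasure lam) := by
    rw [integrable_poissonMeasure_iff]
    rw [← summable_nat_add_iff 1]
    have hs : Summable fun n : ℕ => (Real.exp (-lam) * lam) * ((lam : ℝ) ^ n / n !) :=
      (Real.summable_pow_div_factorial lam).mul_left _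
    refine hs.congr fun n => ?_
    rw [Real.norm_eq_abs, abs_of_nonneg (by positivity), Nat.factorial_succ]
    have h1 : ((n + 1 : ℕ) : ℝ) ≠ 0 := by positivity
    have h2 : (n ! : ℝ) ≠ 0 := by positivity
    push_cast
    push_cast at h1
    field_simp
    ring
  have h := hint.2
  rw [hasFiniteIntegral_iff_ofReal (Eventually.of_forall fun n => Nat.cast_nonneg n)] at h
  refine lt_of_le_of_lt (le_of_eq ?_) h
  apply lintegral_congr
  intro n
  simp

theorem lintegral_A0 (lam : ℝ≥0) :
    ∫⁻ A : Om d, (A 0 : ℝ≥0∞) ∂(muP d lam) < ∞ := by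
  have h := (measurePreserving_eval_infinitePi (fun _ : Fin d → ℤ => poissonMeasure lam) 0).lintegral_comp
    (f := fun n : ℕ => (n : ℝ≥0∞)) measurable_from_top
  unfold muP
  rw [show (fun A : Om d => (A 0 : ℝ≥0∞)) = fun A : Om d => (fun n : ℕ => (n : ℝ≥0∞)) (Function.eval 0 A)
    from rfl, h]
  exact lintegral_poisson_lt_top lam

theorem tendsto_exc (lam : ℝ≥0) :
    Tendsto (fun t => ∫⁻ A in (perc d)ᶜ, (exc t 0 A : ℝ≥0∞) ∂(muP d lam)) atTop (𝓝 0) := by
  have h := tendsto_lintegral_of_dominated_convergence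
    (μ := (muP d lam).restrict (perc d)ᶜ)
    (F := fun t (A : Om d) => (exc t 0 A : ℝ≥0∞)) (f := fun _ => 0)
    (fun A => (A 0 : ℝ≥0∞) + (4 * d + 1 : ℕ)) (fun t => meas_exc t 0)
    (fun t => Eventually.of_forall fun A => by
      have := exc_le t 0 A
      calc ((exc t 0 A : ℕ) : ℝ≥0∞) ≤ ((A 0 + (4 * d + 1) : ℕ) : ℝ≥0∞) := by exact_mod_cast this
        _ = _ := by push_cast; ring)
    (by
      refine ne_of_lt (lt_of_le_of_lt (lintegral_mono' Measure.restrict_le_self le_rfl) ?_)
      rw [lintegral_add_right _ measurable_const]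
      refine ENNReal.add_lt_top.mpr ⟨lintegral_A0 lam, ?_⟩
      rw [lintegral_const, measure_univ, mul_one]
      exact ENNReal.natCast_lt_top _)
    (by
      rw [ae_restrict_iff' meas_perc.compl]
      refine Eventually.of_forall fun A hA => ?_
      obtain ⟨T, hT⟩ := eventually_stable (A := Ac A) hA 0
      refine tendsto_const_nhds.congr' ?_
      filter_upwards [eventually_ge_atTop T] with t ht
      have := hT t ht
      have h0 : exc t 0 A = 0 := by
        unfold exc
        rw [Int.toNat_eq_zero]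
        omega
      rw [h0]
      simp)
  simpa using h

/-- Chernoff bound for the lower tail of the mass in a finite product. -/
theorem mass_tail_PP {ι : Type} [Fintype ι] [DecidableEq ι] {lam : ℝ≥0} (hlam : 0 < lam) {ε : ℝ}
    (hε : 0 < ε) :
    PP ι lam {a | (∑ x, (a x : ℝ)) < (lam - ε) * Fintype.card ι} ≤
      ENNReal.ofReal (Real.exp (-(ε ^ 2 / (2 * lam)))) ^ Fintype.card ι := by
  have hl : (0 : ℝ) < lam := hlam
  set s : ℝ := ε / lam with hs
  have hs0 : 0 < s := by positivity
  rw [PP_apply]
  calc ∑' a : ι → ℕ, ({a : ι → ℕ | (∑ x, (a x : ℝ)) < (lam - ε) * Fintype.card ι}).indicator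
        (fun a => ∏ x, pwE lam (a x)) a
      ≤ ∑' a : ι → ℕ, ∏ x, (pwE lam (a x) *
          ENNReal.ofReal (Real.exp (s * (lam - ε) - s * (a x : ℝ)))) := by
        apply ENNReal.tsum_le_tsum
        intro a
        by_cases ha : a ∈ {a : ι → ℕ | (∑ x, (a x : ℝ)) < (lam - ε) * Fintype.card ι}
        · rw [Set.indicator_of_mem ha, Finset.prod_mul_distrib]
          rw [← ENNReal.ofReal_prod_of_nonneg (fun _ _ => (Real.exp_pos _).le), ← Real.exp_sum]
          have h1 : (1 : ℝ≥0∞) ≤
              ENNReal.ofReal (Real.exp (∑ x, (s * (lam - ε) - s * (a x : ℝ)))) := by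
            rw [← ENNReal.ofReal_one]
            apply ENNReal.ofReal_le_ofReal
            rw [← Real.exp_zero]
            apply Real.exp_le_exp.mpr
            have ha' : (∑ x, (a x : ℝ)) < (lam - ε) * Fintype.card ι := ha
            have e1 : ∑ x, (s * (lam - ε) - s * (a x : ℝ)) =
                s * ((lam - ε) * Fintype.card ι - ∑ x, (a x : ℝ)) := by
              rw [Finset.sum_sub_distrib, Finset.sum_const, Finset.card_univ, nsmul_eq_mul,
                ← Finset.mul_sum]
              ring
            rw [e1]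
            exact mul_nonneg hs0.le (by linarith)
          calc ∏ x, pwE lam (a x) = (∏ x, pwE lam (a x)) * 1 := (mul_one _).symm
            _ ≤ _ := by gcongr
        · rw [Set.indicator_of_notMem ha]; exact zero_le
    _ = ∏ x : ι, ∑' n : ℕ, (pwE lam n * ENNReal.ofReal (Real.exp (s * (lam - ε) - s * (n : ℝ)))) :=
        tsum_pi_prod (Fintype.card ι) ι rfl (fun _ n =>
          pwE lam n * ENNReal.ofReal (Real.exp (s * (lam - ε) - s * (n : ℝ))))
    _ = (∑' n : ℕ, (pwE lam n * ENNReal.ofReal (Real.exp (s * (lam - ε) - s * (n : ℝ)))))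
          ^ Fintype.card ι := by
        rw [Finset.prod_const, Finset.card_univ]
    _ ≤ _ := by
        gcongr
        have hz := hasSum_pw_mul lam (Real.exp (-s) : ℝ)
        have hzr : HasSum (fun n => pw lam n * Real.exp (-s) ^ n)
            (Real.exp (lam * (Real.exp (-s) - 1))) := by
          have h2 : HasSum (fun n => ((pw lam n * Real.exp (-s) ^ n : ℝ) : ℂ))
              ((Real.exp (lam * (Real.exp (-s) - 1)) : ℝ) : ℂ) := by
            push_cast
            push_cast at hz
            exact hz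
          exact Complex.hasSum_ofReal.mp h2
        have hterm : ∀ n : ℕ, pwE lam n * ENNReal.ofReal (Real.exp (s * (lam - ε) - s * (n : ℝ))) =
            ENNReal.ofReal (Real.exp (s * (lam - ε)) * (pw lam n * Real.exp (-s) ^ n)) := by
          intro n
          unfold pwE
          rw [← ENNReal.ofReal_mul (pw_nonneg hl.le n)]
          congr 1
          rw [← Real.exp_nat_mul, Real.exp_sub]
          have : Real.exp ((n : ℝ) * -s) = (Real.exp (s * n))⁻¹ := by
            rw [← Real.exp_neg]; congr 1; ring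
          rw [this]
          ring
        simp_rw [hterm]
        rw [← ENNReal.ofReal_tsum_of_nonneg (fun n => by
          have := pw_nonneg hl.le n; positivity) (hzr.summable.mul_left _),
          tsum_mul_left, hzr.tsum_eq, ← Real.exp_add]
        apply ENNReal.ofReal_le_ofReal
        apply Real.exp_le_exp.mpr
        have he : Real.exp (-s) ≤ 1 - s + s ^ 2 / 2 := by
          have h1 := Real.quadratic_le_exp_of_nonneg hs0.le
          have h2 : Real.exp (-s) = 1 / Real.exp s := by rw [Real.exp_neg, one_div]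
          rw [h2, div_le_iff₀ (Real.exp_pos s)]
          nlinarith [mul_nonneg (mul_nonneg hs0.le hs0.le) hs0.le, sq_nonneg (s - 1), sq_nonneg s,
            mul_pos hs0 hs0]
        have hsl : s * lam = ε := by rw [hs]; field_simp
        have e1 : s * (lam - ε) + lam * (Real.exp (-s) - 1) ≤ -(s * ε) + lam * s ^ 2 / 2 := by
          nlinarith
        have e2 : -(s * ε) + lam * s ^ 2 / 2 = -(ε ^ 2 / (2 * lam)) := by
          rw [hs]; field_simp; ring
        linarith

theorem muP_restrict (lam : ℝ≥0) (B : Finset (Fin d → ℤ)) (E : Set (B → ℕ)) :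
    muP d lam {A | (fun x : B => A x) ∈ E} = PP B lam E := by
  have h := Measure.infinitePi_map_restrict (μ := fun _ : Fin d → ℤ => poissonMeasure lam) (I := B)
  unfold PP muP
  rw [← h, Measure.map_apply (Finset.measurable_restrict _) (Set.to_countable E).measurableSet]
  rfl

end Pool.Agent.MP_f7f40d_pr
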