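import Pool.Agent.MP_f7f40d_pr.Count
import Pool.Agent.MP_f7f40d_pr.Prob

set_option autoImplicit false

namespace Pool.Agent.MP_f7f40d_pr

open MeasureTheory Filter Topology Function ProbabilityTheory
open scoped Real Nat ENNReal NNReal

variable {d : ℕ}

/-- The finite set of stable-like height configurations. -/
noncomputable def HH (d n : ℕ) (L : ℕ) (α β : ℝ) : Finset (Bx d (n + 1) → ℕ) := by
  classical
  exact (Fintype.piFinset fun _ => Finset.range (L + ⌈β⌉₊ + 1)).filter fun η =>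
    ((∑ x, (L - η x) : ℕ) : ℝ) ≤ α ∧ ((∑ x, (η x - L) : ℕ) : ℝ) ≤ β

theorem mem_HH {n L : ℕ} {α β : ℝ} {η : Bx d (n + 1) → ℕ}
    (h1 : ((∑ x, (L - η x) : ℕ) : ℝ) ≤ α) (h2 : ((∑ x, (η x - L) : ℕ) : ℝ) ≤ β) :
    η ∈ HH d n L α β := by
  unfold HH
  rw [Finset.mem_filter]
  refine ⟨?_, h1, h2⟩
  rw [Fintype.mem_piFinset]
  intro x
  rw [Finset.mem_range]
  have h3 : η x - L ≤ ∑ x, (η x - L) :=
    Finset.single_le_sum (f := fun x => η x - L) (fun _ _ => Nat.zero_le _) (Finset.mem_univ x)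
  have h4 : ((∑ x, (η x - L) : ℕ) : ℝ) ≤ (⌈β⌉₊ : ℝ) := h2.trans (Nat.le_ceil β)
  have h5 : (∑ x, (η x - L) : ℕ) ≤ ⌈β⌉₊ := by exact_mod_cast h4
  omega

theorem HH_prop {n L : ℕ} {α β : ℝ} {η : Bx d (n + 1) → ℕ} (h : η ∈ HH d n L α β) :
    ((∑ x, (L - η x) : ℕ) : ℝ) ≤ α ∧ ((∑ x, (η x - L) : ℕ) : ℝ) ≤ β := by
  unfold HH at h
  rw [Finset.mem_filter] at h
  exact h.2

/-- The finite set of boundary corrections. -/
noncomputable def BB (d n : ℕ) (K : ℕ) : Finset (Bx d (n + 1) → ℤ) := by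
  classical
  exact Fintype.piFinset fun x : Bx d (n + 1) =>
    if (x : Fin d → ℤ) ∈ Bx d (n - 1) then {0} else Finset.Icc (-(K : ℤ)) K

theorem card_BB (d n K : ℕ) : (BB d n K).card = (2 * K + 1) ^ bd d n := by
  classical
  unfold BB bd
  rw [Fintype.card_piFinset]
  have h1 : ∀ x : Bx d (n + 1), (if (x : Fin d → ℤ) ∈ Bx d (n - 1) then ({0} : Finset ℤ)
      else Finset.Icc (-(K : ℤ)) K).card = if (x : Fin d → ℤ) ∈ Bx d (n - 1) then 1 else 2 * K + 1 := by
    intro x
    split_ifs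
    · simp
    · rw [Int.card_Icc]; omega
  simp_rw [h1]
  rw [Finset.prod_coe_sort (Bx d (n + 1)) (fun x => if x ∈ Bx d (n - 1) then 1 else 2 * K + 1),
    Finset.prod_ite, Finset.prod_const_one, one_mul, Finset.prod_const]
  congr 2
  ext x
  simp

/-- The exceptional set. -/
noncomputable def SS (d n L K : ℕ) (α β : ℝ) : Finset (Bx d (n + 1) → ℤ) := by
  classical
  exact (HH d n L α β ×ˢ BB d n K).image fun p x => (p.1 x : ℤ) + p.2 x

theorem card_SS (d n L K : ℕ) (α β : ℝ) :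
    (SS d n L K α β).card ≤ (HH d n L α β).card * (2 * K + 1) ^ bd d n := by
  classical
  unfold SS
  refine Finset.card_image_le.trans ?_
  rw [Finset.card_product, card_BB]

/-- The event in finite volume. -/
def EE (d n : ℕ) (S : Finset (Bx d (n + 1) → ℤ)) : Set (Bx d (n + 1) → ℕ) :=
  {a | ∃ s ∈ S, ∃ u : Bx d n → ℤ, ∀ x, (a x : ℤ) = s x + DD d n u x}

/-- The key deterministic inclusion. -/
theorem incl (hd : 1 ≤ d) {lam ε : ℝ} {t n : ℕ} (hn : 1 ≤ n)
    (hb : 2 * d * t * (bd d n : ℝ) ≤ ε * (Bx d (n + 1)).card) (A : Om d)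
    (h1 : ((∑ x ∈ Bx d (n + 1), exc t x A : ℕ) : ℝ) ≤ ε * (Bx d (n + 1)).card)
    (h2 : (lam - ε) * (Bx d (n + 1)).card ≤ ∑ x ∈ Bx d (n + 1), (A x : ℝ)) :
    (fun x : Bx d (n + 1) => A x) ∈ EE d n (SS d n (2 * d - 1) (2 * d * t)
      ((2 * d - 1 - lam + 3 * ε) * (Bx d (n + 1)).card) (ε * (Bx d (n + 1)).card)) := by
  classical
  obtain ⟨b, hb1, hb2, hb3⟩ := decomposition (Ac A) t n
  have hnn : ∀ v, 0 ≤ (step d)^[t] (Ac A) v := eta_nonneg (fun v => Int.natCast_nonneg _) t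
  set η : Bx d (n + 1) → ℕ := fun x => ((step d)^[t] (Ac A) x).toNat with hη
  have hηc : ∀ x : Bx d (n + 1), (η x : ℤ) = (step d)^[t] (Ac A) x := fun x =>
    Int.toNat_of_nonneg (hnn x)
  refine ⟨fun x => (η x : ℤ) + b x, ?_, fun v => odo (Ac A) t v, ?_⟩
  · unfold SS
    rw [Finset.mem_image]
    refine ⟨(η, fun x => b x), ?_, rfl⟩
    rw [Finset.mem_product]
    have hexc : ∑ x : Bx d (n + 1), (η x - (2 * d - 1)) = ∑ x ∈ Bx d (n + 1), exc t x A := by
      rw [← Finset.sum_coe_sort (Bx d (n + 1))]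
      apply Finset.sum_congr rfl
      intro x _
      unfold exc
      have := hηc x
      omega
    have hexcr : ((∑ x : Bx d (n + 1), (η x - (2 * d - 1)) : ℕ) : ℝ) ≤
        ε * (Bx d (n + 1)).card := by rw [hexc]; exact h1
    refine ⟨mem_HH ?_ hexcr, ?_⟩
    · -- deficit
      have e1 : ((∑ x : Bx d (n + 1), ((2 * d - 1) - η x) : ℕ) : ℤ) =
          ∑ x : Bx d (n + 1), ((2 * d - 1 : ℤ) - η x) +
          ((∑ x : Bx d (n + 1), (η x - (2 * d - 1)) : ℕ) : ℤ) := by
        push_cast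
        rw [← Finset.sum_add_distrib]
        apply Finset.sum_congr rfl
        intro x _
        omega
      have e2 : ∑ x : Bx d (n + 1), ((2 * d - 1 : ℤ) - η x) =
          (2 * d - 1) * (Bx d (n + 1)).card - ∑ x ∈ Bx d (n + 1), (A x : ℤ) +
          ∑ x ∈ Bx d (n + 1), lapZ (odo (Ac A) t) x := by
        rw [Finset.sum_sub_distrib, Finset.sum_const, Finset.card_univ, Fintype.card_coe,
          nsmul_eq_mul]
        have e3 : ∑ x : Bx d (n + 1), (η x : ℤ) = ∑ x ∈ Bx d (n + 1), (A x : ℤ) -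
            ∑ x ∈ Bx d (n + 1), lapZ (odo (Ac A) t) x := by
          rw [← Finset.sum_coe_sort (Bx d (n + 1)), ← Finset.sum_coe_sort (Bx d (n + 1)),
            ← Finset.sum_sub_distrib]
          apply Finset.sum_congr rfl
          intro x _
          rw [hηc, eta_eq]
          rfl
        rw [e3]
        ring
      have e4 := sum_lap_le (n := n) (t := t) (o := odo (Ac A) t)
        (fun x => odo_nonneg _ _ _) (fun x => odo_le _ _ _)
      have e5 : ((Bx d (n + 1) \ Bx d n).card : ℤ) ≤ (bd d n : ℤ) := by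
        unfold bd
        exact_mod_cast Finset.card_le_card
          (Finset.sdiff_subset_sdiff le_rfl (Bx_mono (by omega)))
      have e6 : ∑ x ∈ Bx d (n + 1), lapZ (odo (Ac A) t) x ≤ 2 * d * t * (bd d n : ℤ) :=
        e4.trans (mul_le_mul_of_nonneg_left e5 (by positivity))
      have e6r : ((∑ x ∈ Bx d (n + 1), lapZ (odo (Ac A) t) x : ℤ) : ℝ) ≤
          2 * d * t * (bd d n : ℝ) := by exact_mod_cast e6
      have e7 : ((∑ x : Bx d (n + 1), ((2 * d - 1) - η x) : ℕ) : ℝ) =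
          (2 * d - 1) * (Bx d (n + 1)).card - ∑ x ∈ Bx d (n + 1), (A x : ℝ) +
          ((∑ x ∈ Bx d (n + 1), lapZ (odo (Ac A) t) x : ℤ) : ℝ) +
          ((∑ x : Bx d (n + 1), (η x - (2 * d - 1)) : ℕ) : ℝ) := by
        rw [e2] at e1
        exact_mod_cast e1
      rw [e7]
      nlinarith
    · unfold BB
      rw [Fintype.mem_piFinset]
      intro x
      split_ifs with hx
      · rw [Finset.mem_singleton]; exact hb2 x hx hn
      · rw [Finset.mem_Icc]
        have := abs_le.mp (hb1 x)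
        push_cast
        exact this
  · intro x
    have := hb3 x
    simp only [hηc]
    exact this

/-- The collision estimate combined with the lattice sum and the count. -/
theorem PP_EE_le {lam : ℝ≥0} {κ c m z y : ℝ}
    (hκ : 0 < κ) (hc : 0 ≤ c) (hdom : DomHyp lam κ c) (hm : 0 < m) (hp : PivotHyp d m)
    (hz0 : 0 < z) (hz1 : z ≤ 1) (hy0 : 0 < y) (hy1 : y < 1) (n L K : ℕ) (α β : ℝ) :
    (PP (Bx d (n + 1)) lam (EE d n (SS d n L K α β))) ^ 2 ≤
      ENNReal.ofReal (((2 * K + 1 : ℝ) ^ bd d n * (WW L z y ^ (Bx d (n + 1)).card *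
        (z ^ (-α) * y ^ (-β)))) * ((Real.sqrt (π / κ) + c) ^ (Bx d (n + 1)).card *
          theta (π ^ 2 / κ * m) ^ (Bx d (n + 1)).card)) := by
  classical
  have h1 := collision lam (DD d n) (DD_sub n) (SS d n L K α β) (EE d n (SS d n L K α β))
    (fun a ha => ha)
  have h2 := dom_tsum (NNReal.coe_nonneg lam) hκ hc hdom (DD d n) (DD_sub n)
  have hα : 0 < π ^ 2 / κ := by positivity
  have h3 := box_lattice_sum hm hα hp n
  have hθ : 1 ≤ theta (π ^ 2 / κ * m) := one_le_theta (by positivity)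
  have hW := WW_pos L hz0 hy0 hy1
  have h4 : ((SS d n L K α β).card : ℝ≥0∞) ≤
      ENNReal.ofReal ((2 * K + 1 : ℝ) ^ bd d n * (WW L z y ^ (Bx d (n + 1)).card *
        (z ^ (-α) * y ^ (-β)))) := by
    have h5 := count_le L hz0 hz1 hy0 hy1 (HH d n L α β) α β (fun η hη => HH_prop hη)
    rw [Fintype.card_coe] at h5
    calc ((SS d n L K α β).card : ℝ≥0∞) ≤ (((HH d n L α β).card * (2 * K + 1) ^ bd d n : ℕ) : ℝ≥0∞) := by
          exact_mod_cast card_SS d n L K α β
      _ = (2 * K + 1 : ℝ≥0∞) ^ bd d n * ((HH d n L α β).card : ℝ≥0∞) := by push_cast; ring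
      _ ≤ (2 * K + 1 : ℝ≥0∞) ^ bd d n * (ENNReal.ofReal (WW L z y) ^ (Bx d (n + 1)).card *
            ENNReal.ofReal (z ^ (-α) * y ^ (-β))) := by gcongr
      _ = _ := by
          rw [ENNReal.ofReal_mul (p := (2 * K + 1 : ℝ) ^ bd d n) (by positivity),
            ENNReal.ofReal_mul (p := WW L z y ^ (Bx d (n + 1)).card) (by positivity),
            ENNReal.ofReal_pow hW.le, ENNReal.ofReal_pow (by positivity)]
          congr 2
          have : (2 * K + 1 : ℝ) = ((2 * K + 1 : ℕ) : ℝ) := by push_cast; ring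
          rw [this, ENNReal.ofReal_natCast]
          push_cast
          ring
  rw [Fintype.card_coe] at h2
  calc (PP (Bx d (n + 1)) lam (EE d n (SS d n L K α β))) ^ 2
      ≤ _ := h1
    _ ≤ ENNReal.ofReal ((2 * K + 1 : ℝ) ^ bd d n * (WW L z y ^ (Bx d (n + 1)).card *
        (z ^ (-α) * y ^ (-β)))) * (ENNReal.ofReal (Real.sqrt (π / κ) + c) ^ (Bx d (n + 1)).card *
          ENNReal.ofReal (theta (π ^ 2 / κ * m)) ^ (Bx d n).card) := by
        gcongr
        exact h2.trans (by gcongr)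
    _ ≤ _ := by
        rw [ENNReal.ofReal_mul (p := (2 * K + 1 : ℝ) ^ bd d n * (WW L z y ^ (Bx d (n + 1)).card *
          (z ^ (-α) * y ^ (-β)))) (by positivity)]
        gcongr
        rw [← ENNReal.ofReal_pow (by positivity), ← ENNReal.ofReal_pow (by positivity),
          ← ENNReal.ofReal_mul (by positivity)]
        apply ENNReal.ofReal_le_ofReal
        have h6 : theta (π ^ 2 / κ * m) ^ (Bx d n).card ≤
            theta (π ^ 2 / κ * m) ^ (Bx d (n + 1)).card :=
          pow_le_pow_right₀ hθ (Finset.card_le_card (Bx_mono (by omega)))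
        gcongr

/-- Choice of `y`. -/
theorem exists_y {S a : ℝ} (ha : 0 < a) (h : S * a < 1) :
    ∃ y, 0 < y ∧ y < 1 ∧ (S + y / (1 - y)) * a < 1 := by
  set g := 1 - S * a with hg
  have hg0 : 0 < g := by linarith
  refine ⟨g / (2 * a + g), by positivity, ?_, ?_⟩
  · rw [div_lt_one (by positivity)]; linarith
  · have h1 : 1 - g / (2 * a + g) = 2 * a / (2 * a + g) := by
      field_simp; ring
    have h2 : g / (2 * a + g) / (2 * a / (2 * a + g)) = g / (2 * a) := by
      field_simp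
    rw [h1, h2, add_mul]
    have h3 : g / (2 * a) * a = g / 2 := by field_simp
    rw [h3]
    linarith

theorem exists_eps {B r : ℝ} (hB0 : 0 < B) (hB1 : B < 1) (hr0 : 0 < r) (hr1 : r < 1) :
    ∃ ε : ℝ, 0 < ε ∧ B * r ^ (-ε) < 1 := by
  have hlB := Real.log_neg hB0 hB1
  have hlr := Real.log_neg hr0 hr1
  refine ⟨Real.log B / (2 * Real.log r), div_pos_of_neg_of_neg hlB (by linarith), ?_⟩
  rw [Real.rpow_def_of_pos hr0]
  have hlr' := hlr.ne
  have h1 : Real.log r * -(Real.log B / (2 * Real.log r)) = -(Real.log B / 2) := by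
    field_simp
  rw [h1]
  conv_lhs => rw [← Real.exp_log hB0]
  rw [← Real.exp_add]
  rw [Real.exp_lt_one_iff, Real.log_exp]
  linarith

/-- The main criterion. -/
theorem perc_of (hd : 1 ≤ d) {lam : ℝ≥0} (hlam : 0 < lam) {κ c m z : ℝ}
    (hκ : 0 < κ) (hc : 0 ≤ c) (hdom : DomHyp lam κ c) (hm : 0 < m) (hp : PivotHyp d m)
    (hz0 : 0 < z) (hz1 : z ≤ 1)
    (hq : (∑ j ∈ Finset.range (2 * d), z ^ j) * (z ^ (-(2 * d - 1 - lam : ℝ)) *
      ((Real.sqrt (π / κ) + c) * theta (π ^ 2 / κ * m))) < 1) :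
    muP d lam (perc d) = 1 := by
  have hC0 : 0 < Real.sqrt (π / κ) + c := by positivity
  have hθ : 1 ≤ theta (π ^ 2 / κ * m) := one_le_theta (by positivity)
  set C := Real.sqrt (π / κ) + c with hC
  set θ := theta (π ^ 2 / κ * m) with hθd
  have hθ0 : 0 < θ := by linarith
  set μ : ℝ := 2 * d - 1 - lam with hμ
  have ha : 0 < z ^ (-μ) * (C * θ) := by positivity
  obtain ⟨y, hy0, hy1, hy⟩ := exists_y ha hq
  have hL : 2 * d - 1 + 1 = 2 * d := by omega
  have hWe : WW (2 * d - 1) z y = (∑ j ∈ Finset.range (2 * d), z ^ j) + y / (1 - y) := by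
    unfold WW; rw [hL]
  have hW := WW_pos (2 * d - 1) hz0 hy0 hy1
  rw [← hWe] at hy
  set W := WW (2 * d - 1) z y with hWd
  obtain ⟨ε, hε0, hε⟩ := exists_eps (B := W * (z ^ (-μ) * (C * θ))) (r := z ^ (3 : ℝ) * y)
    (by positivity) hy (by positivity) (by
      have : z ^ (3 : ℝ) ≤ 1 := Real.rpow_le_one hz0.le hz1 (by norm_num)
      nlinarith [Real.rpow_pos_of_pos hz0 3])
  set q := W * (z ^ (-μ) * (C * θ)) * (z ^ (3 : ℝ) * y) ^ (-ε) with hq'
  have hq0 : 0 < q := by positivity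
  -- contradiction hypothesis
  by_contra hcon
  have hcompl : muP d lam (perc d)ᶜ ≠ 0 := by
    intro h0
    apply hcon
    have := prob_compl_eq_zero_iff (μ := muP d lam) (s := perc d) meas_perc
    exact this.mp h0
  set δ := muP d lam (perc d)ᶜ with hδ
  have hδtop : δ ≠ ⊤ := measure_ne_top _ _
  have hδpos : 0 < δ := pos_iff_ne_zero.mpr hcompl
  set δr := δ.toReal with hδr
  have hδr0 : 0 < δr := ENNReal.toReal_pos hcompl hδtop
  have hδe : δ = ENNReal.ofReal δr := (ENNReal.ofReal_toReal hδtop).symm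
  -- choice of t
  obtain ⟨t, ht⟩ : ∃ t, ∫⁻ A in (perc d)ᶜ, (exc t 0 A : ℝ≥0∞) ∂(muP d lam) <
      ENNReal.ofReal (ε * δr / 4) := by
    have h := (tendsto_exc (d := d) lam).eventually
      (gt_mem_nhds (show (0 : ℝ≥0∞) < ENNReal.ofReal (ε * δr / 4) by
        rw [ENNReal.ofReal_pos]; positivity))
    exact h.exists
  -- the bad events
  set ρ := Real.exp (-(ε ^ 2 / (2 * lam))) with hρ
  have hl : (0 : ℝ) < lam := hlam
  have hρ0 : 0 < ρ := Real.exp_pos _
  have hρ1 : ρ < 1 := by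
    rw [hρ, Real.exp_lt_one_iff]
    have : 0 < ε ^ 2 / (2 * (lam : ℝ)) := by positivity
    linarith
  have hmain : ∀ᶠ n : ℕ in atTop, (δr / 2) ^ 2 ≤
      ((2 * ((2 * d * t : ℕ) : ℝ) + 1) ^ bd d n) * q ^ (Bx d (n + 1)).card := by
    have hev1 : ∀ᶠ n : ℕ in atTop, ρ ^ (Bx d (n + 1)).card ≤ δr / 4 := by
      have h := decay d hd (M := 1) le_rfl hρ0 hρ1
      simp only [one_pow, one_mul] at h
      exact (h.eventually (gt_mem_nhds (show 0 < δr / 4 by positivity))).mono fun n hn => hn.le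
    filter_upwards [hev1, bd_eventually d (K := 2 * d * t / ε), eventually_ge_atTop 1]
      with n hn1 hn2 hn3
    set N := (Bx d (n + 1)).card with hN
    have hN0 : (0 : ℝ) < N := by rw [hN, card_Bx]; positivity
    have hεN : 0 < ε * N := mul_pos hε0 hN0
    have hb : 2 * d * t * (bd d n : ℝ) ≤ ε * N := by
      have : 2 * d * t / ε * (bd d n : ℝ) * ε = 2 * d * t * (bd d n : ℝ) := by field_simp
      nlinarith
    -- events
    set Ex : Om d → ℕ := fun A => ∑ x ∈ Bx d (n + 1), exc t x A with hEx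
    have hExm : Measurable fun A : Om d => (Ex A : ℝ≥0∞) := by
      have : (fun A : Om d => (Ex A : ℝ≥0∞)) =
          fun A : Om d => ∑ x ∈ Bx d (n + 1), (exc t x A : ℝ≥0∞) := by
        funext A; exact Nat.cast_sum _ _
      rw [this]
      exact Finset.measurable_fun_sum _ fun x _ => meas_exc t x
    have hbad1 : muP d lam ((perc d)ᶜ ∩ {A | ENNReal.ofReal (ε * N) ≤ (Ex A : ℝ≥0∞)}) ≤
        ENNReal.ofReal (δr / 4) := by
      have h1 := mul_meas_ge_le_lintegral (μ := (muP d lam).restrict (perc d)ᶜ) hExm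
        (ENNReal.ofReal (ε * N))
      rw [Measure.restrict_apply (measurableSet_le measurable_const hExm), Set.inter_comm] at h1
      have h2 : ∫⁻ A in (perc d)ᶜ, (Ex A : ℝ≥0∞) ∂(muP d lam) =
          N * ∫⁻ A in (perc d)ᶜ, (exc t 0 A : ℝ≥0∞) ∂(muP d lam) := by
        have : ∀ A, (Ex A : ℝ≥0∞) = ∑ x ∈ Bx d (n + 1), (exc t x A : ℝ≥0∞) := by
          intro A; exact Nat.cast_sum _ _
        simp_rw [this]
        rw [lintegral_finsetSum _ (fun x _ => meas_exc t x)]
        rw [Finset.sum_congr rfl (fun x _ => lintegral_exc lam t x), Finset.sum_const,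
          nsmul_eq_mul]
      rw [h2] at h1
      have h3 : ENNReal.ofReal (ε * N) * muP d lam ((perc d)ᶜ ∩
          {A | ENNReal.ofReal (ε * N) ≤ (Ex A : ℝ≥0∞)}) ≤
          ENNReal.ofReal (ε * N) * ENNReal.ofReal (δr / 4) := by
        refine h1.trans ?_
        calc (N : ℝ≥0∞) * ∫⁻ A in (perc d)ᶜ, (exc t 0 A : ℝ≥0∞) ∂(muP d lam)
            ≤ N * ENNReal.ofReal (ε * δr / 4) := by gcongr
          _ = ENNReal.ofReal (ε * N) * ENNReal.ofReal (δr / 4) := by
              rw [← ENNReal.ofReal_natCast, ← ENNReal.ofReal_mul hN0.le,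
                ← ENNReal.ofReal_mul hεN.le]
              congr 1; ring
      have hne : ENNReal.ofReal (ε * N) ≠ 0 := by
        rw [Ne, ENNReal.ofReal_eq_zero, not_le]; exact hεN
      exact (ENNReal.mul_le_mul_iff_right hne ENNReal.ofReal_ne_top).mp h3
    have hbad2 : muP d lam {A | (∑ x ∈ Bx d (n + 1), (A x : ℝ)) < (lam - ε) * N} ≤
        ENNReal.ofReal (δr / 4) := by
      have h1 := muP_restrict lam (Bx d (n + 1))
        {a | (∑ x, (a x : ℝ)) < (lam - ε) * Fintype.card (Bx d (n + 1))}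
      have h2 := mass_tail_PP (ι := Bx d (n + 1)) hlam hε0
      rw [← h1] at h2
      have h3 : {A : Om d | (∑ x ∈ Bx d (n + 1), (A x : ℝ)) < (lam - ε) * N} =
          {A : Om d | (fun x : Bx d (n + 1) => A x) ∈
            {a : Bx d (n + 1) → ℕ | (∑ x, (a x : ℝ)) < (lam - ε) * Fintype.card (Bx d (n + 1))}} := by
        ext A
        simp only [Set.mem_ofPred_eq, Fintype.card_coe]
        rw [Finset.sum_coe_sort (Bx d (n + 1)) (fun x => (A x : ℝ))]
      rw [h3]
      refine h2.trans ?_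
      rw [Fintype.card_coe, ← ENNReal.ofReal_pow hρ0.le]
      exact ENNReal.ofReal_le_ofReal hn1
    -- the good event
    set S := SS d n (2 * d - 1) (2 * d * t) ((2 * d - 1 - lam + 3 * ε) * N) (ε * N) with hS
    have hcov : (perc d)ᶜ ⊆ ((perc d)ᶜ ∩ {A | ENNReal.ofReal (ε * N) ≤ (Ex A : ℝ≥0∞)}) ∪
        ({A | (∑ x ∈ Bx d (n + 1), (A x : ℝ)) < (lam - ε) * N} ∪
        {A | (fun x : Bx d (n + 1) => A x) ∈ EE d n S}) := by
      intro A hA
      by_cases h1 : ENNReal.ofReal (ε * N) ≤ (Ex A : ℝ≥0∞)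
      · exact Or.inl ⟨hA, h1⟩
      · by_cases h2 : (∑ x ∈ Bx d (n + 1), (A x : ℝ)) < (lam - ε) * N
        · exact Or.inr (Or.inl h2)
        · refine Or.inr (Or.inr ?_)
          refine incl hd hn3 hb A ?_ (not_lt.mp h2)
          rw [not_le] at h1
          have h3 : (Ex A : ℝ≥0∞) = ENNReal.ofReal (Ex A : ℝ) := (ENNReal.ofReal_natCast _).symm
          rw [h3] at h1
          exact ((ENNReal.ofReal_lt_ofReal_iff hεN).mp h1).le
    have hgood : ENNReal.ofReal (δr / 2) ≤ PP (Bx d (n + 1)) lam (EE d n S) := by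
      have h1 := (measure_mono (μ := muP d lam) hcov).trans ((measure_union_le _ _).trans
        (add_le_add_right (measure_union_le _ _) _))
      rw [muP_restrict] at h1
      have h2 : δ ≤ ENNReal.ofReal (δr / 4) + (ENNReal.ofReal (δr / 4) +
          PP (Bx d (n + 1)) lam (EE d n S)) := h1.trans (by gcongr)
      rw [hδe, ← add_assoc, ← ENNReal.ofReal_add (by positivity) (by positivity)] at h2
      have h3 : ENNReal.ofReal δr = ENNReal.ofReal (δr / 4 + δr / 4) + ENNReal.ofReal (δr / 2) := by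
        rw [← ENNReal.ofReal_add (by positivity) (by positivity)]; congr 1; ring
      rw [h3] at h2
      exact (ENNReal.add_le_add_iff_left ENNReal.ofReal_ne_top).mp h2
    have hfinal := PP_EE_le (d := d) (lam := lam) hκ hc hdom hm hp hz0 hz1 hy0 hy1 n
      (2 * d - 1) (2 * d * t) ((2 * d - 1 - lam + 3 * ε) * N) (ε * N)
    have h4 := (pow_le_pow_left₀ (zero_le) hgood 2).trans hfinal
    rw [← ENNReal.ofReal_pow (by positivity)] at h4
    rw [ENNReal.ofReal_le_ofReal_iff (by positivity)] at h4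
    refine h4.trans (le_of_eq ?_)
    rw [← hN, ← hWd, ← hθd]
    have hqN : q ^ N = W ^ N * (z ^ (-((2 * d - 1 - lam + 3 * ε) * N)) * y ^ (-(ε * N))) *
        (C ^ N * θ ^ N) := by
      have e1 : q = W * (z ^ (-(μ + 3 * ε)) * y ^ (-ε)) * (C * θ) := by
        rw [hq', Real.mul_rpow (by positivity) hy0.le, ← Real.rpow_mul hz0.le]
        rw [show -(μ + 3 * ε) = -μ + 3 * -ε by ring, Real.rpow_add hz0]
        ring
      rw [e1, mul_pow, mul_pow, mul_pow, mul_pow]
      congr 2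
      congr 1
      · rw [← Real.rpow_natCast (z ^ _), ← Real.rpow_mul hz0.le]
        congr 1
        rw [hμ]; ring
      · rw [← Real.rpow_natCast (y ^ _), ← Real.rpow_mul hy0.le]
        congr 1
        ring
    rw [hqN]
    ring
  have hlim := decay d hd (M := 2 * ((2 * d * t : ℕ) : ℝ) + 1) (by
    have : (0 : ℝ) ≤ ((2 * d * t : ℕ) : ℝ) := Nat.cast_nonneg _
    linarith) hq0 hε
  have := ge_of_tendsto hlim hmain
  have h5 : 0 < (δr / 2) ^ 2 := by positivity
  linarith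

end Pool.Agent.MP_f7f40d_pr
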