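import Pool.Agent.MP_f7f40d_pr.Main

set_option autoImplicit false

namespace Pool.Agent.MP_f7f40d_pr

open MeasureTheory Filter Topology
open scoped Real Nat ENNReal NNReal

theorem half_term {a : ℝ} (ha : 0 < a) (n : ℕ) : Real.exp (-a * (((n : ℤ) + 1 : ℤ) : ℝ) ^ 2) ≤
    Real.exp (-a) * (Real.exp (-a) ^ 3) ^ n := by
  rw [← pow_mul, ← Real.exp_nat_mul, ← Real.exp_add]
  apply Real.exp_le_exp.mpr
  have hn : (0 : ℝ) ≤ (n : ℝ) * ((n : ℝ) - 1) := by
    rcases Nat.eq_zero_or_pos n with h | h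
    · subst h; simp
    · have : (1 : ℝ) ≤ n := by exact_mod_cast h
      nlinarith
  push_cast
  nlinarith

theorem half_le {a : ℝ} (ha : 0 < a) :
    (∑' n : ℕ, Real.exp (-a * (((n : ℤ) + 1 : ℤ) : ℝ) ^ 2)) ≤
      Real.exp (-a) / (1 - Real.exp (-a) ^ 3) ∧
    Summable fun n : ℕ => Real.exp (-a * (((n : ℤ) + 1 : ℤ) : ℝ) ^ 2) := by
  have he0 : 0 < Real.exp (-a) := Real.exp_pos _
  have he1 : Real.exp (-a) < 1 := by rw [Real.exp_lt_one_iff]; linarith
  have he3 : Real.exp (-a) ^ 3 < 1 := pow_lt_one₀ he0.le he1 (by norm_num)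
  have hs := summable_gauss0 ha
  have hs1 : Summable fun n : ℕ => Real.exp (-a * (((n : ℤ) + 1 : ℤ) : ℝ) ^ 2) :=
    hs.comp_injective (f := fun n : ℤ => Real.exp (-a * (n : ℝ) ^ 2))
      (i := fun n : ℕ => (n : ℤ) + 1) (fun x y h => by simpa using h)
  refine ⟨?_, hs1⟩
  have hg : HasSum (fun n : ℕ => Real.exp (-a) * (Real.exp (-a) ^ 3) ^ n)
      (Real.exp (-a) * (1 - Real.exp (-a) ^ 3)⁻¹) :=
    (hasSum_geometric_of_lt_one (by positivity) he3).mul_left _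
  rw [div_eq_mul_inv, ← hg.tsum_eq]
  exact Summable.tsum_le_tsum (half_term ha) hs1 hg.summable

theorem theta_le {a : ℝ} (ha : 0 < a) :
    theta a ≤ 1 + 2 * (Real.exp (-a) / (1 - Real.exp (-a) ^ 3)) := by
  obtain ⟨b1, hs1⟩ := half_le ha
  have e2 : ∀ n : ℕ, Real.exp (-a * ((-((n : ℤ) + 1) : ℤ) : ℝ) ^ 2) =
      Real.exp (-a * (((n : ℤ) + 1 : ℤ) : ℝ) ^ 2) := by
    intro n
    congr 1
    push_cast
    ring
  have hs2 : Summable fun n : ℕ => Real.exp (-a * ((-((n : ℤ) + 1) : ℤ) : ℝ) ^ 2) := by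
    simp_rw [e2]; exact hs1
  have key := tsum_of_add_one_of_neg_add_one (f := fun n : ℤ => Real.exp (-a * (n : ℝ) ^ 2)) hs1 hs2
  have b2 : ∑' n : ℕ, Real.exp (-a * ((-((n : ℤ) + 1) : ℤ) : ℝ) ^ 2) =
      ∑' n : ℕ, Real.exp (-a * (((n : ℤ) + 1 : ℤ) : ℝ) ^ 2) := tsum_congr e2
  have b0 : Real.exp (-a * ((0 : ℤ) : ℝ) ^ 2) = 1 := by simp
  rw [b2, b0] at key
  unfold theta
  linarith

theorem bigR_ge {s : ℝ} (hs : 1 ≤ s) : s + 8 / 5 ≤ bigR (s + 2) := by
  unfold bigR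
  have : s + 6 / 5 ≤ Real.sqrt ((s + 2) ^ 2 - 4) := by
    apply Real.le_sqrt_of_sq_le
    nlinarith
  linarith

theorem piv_ge (k : ℕ) : ∀ s : ℝ, 1 ≤ s → s + 8 / 5 * k ≤ piv k s := by
  induction k with
  | zero => intro s _; simp [piv]
  | succ k ih =>
    intro s hs
    have h1 := bigR_ge hs
    have h2 := ih (bigR (s + 2)) (by linarith)
    show _ ≤ piv k (bigR (s + 2))
    push_cast
    linarith

theorem bigR_two : bigR 2 = 1 := by
  unfold bigR
  norm_num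

theorem piv_zero_ge (d : ℕ) (hd : 1 ≤ d) : 8 / 5 * (d : ℝ) - 3 / 5 ≤ piv d 0 := by
  obtain ⟨k, rfl⟩ : ∃ k, d = k + 1 := ⟨d - 1, by omega⟩
  have : piv (k + 1) 0 = piv k 1 := by
    show piv k (bigR (0 + 2)) = _
    rw [zero_add, bigR_two]
  rw [this]
  have := piv_ge k 1 le_rfl
  push_cast
  linarith

/-- `x log(1 + 1/x)` bound. -/
theorem rpow_bound {s : ℝ} (hs : 1 < s) :
    (1 - 1 / s) ^ (-(s - 1)) ≤ Real.exp (1 - 1 / (2 * s)) := by
  have hs0 : 0 < s := by linarith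
  have hs1 : 0 < s - 1 := by linarith
  have hv : 0 < 1 - 1 / s := by
    rw [sub_pos, div_lt_one hs0]; exact hs
  rw [Real.rpow_def_of_pos hv]
  apply Real.exp_le_exp.mpr
  set w : ℝ := s / (s - 1) with hw
  have hw0 : 0 < w := by positivity
  have hw1 : 1 ≤ w := by rw [hw, le_div_iff₀ hs1]; linarith
  have hinv : 1 - 1 / s = w⁻¹ := by
    rw [hw, inv_div]; field_simp
  rw [hinv, Real.log_inv]
  have hlog : Real.log w ≤ (w - w⁻¹) / 2 := by
    rw [← Real.sinh_log hw0]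
    exact Real.self_le_sinh_iff.mpr (Real.log_nonneg hw1)
  have h2 : (s - 1) * ((w - w⁻¹) / 2) = 1 - 1 / (2 * s) := by
    rw [hw, inv_div]
    field_simp
    ring
  nlinarith

theorem geom_le {z : ℝ} (hz0 : 0 ≤ z) (hz1 : z < 1) (n : ℕ) :
    ∑ j ∈ Finset.range n, z ^ j ≤ 1 / (1 - z) := by
  have h := (hasSum_geometric_of_lt_one hz0 hz1)
  rw [one_div, ← h.tsum_eq]
  exact h.summable.sum_le_tsum _ (fun j _ => by positivity)

theorem exp_neg_five_halves : Real.exp (-(5 / 2)) ≤ 821 / 10000 := by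
  have h1 : Real.exp (-(5 / 2)) ^ 2 = Real.exp (-1) ^ 5 := by
    rw [← Real.exp_nat_mul, ← Real.exp_nat_mul]; norm_num
  have h2 : Real.exp (-1) < 0.3678794412 := Real.exp_neg_one_lt_d9
  have h3 : Real.exp (-1) ^ 5 ≤ (0.3678794412 : ℝ) ^ 5 :=
    pow_le_pow_left₀ (Real.exp_pos _).le h2.le 5
  have h4 : Real.exp (-(5 / 2)) ^ 2 ≤ (821 / 10000 : ℝ) ^ 2 := by
    rw [h1]; refine h3.trans ?_; norm_num
  exact (pow_le_pow_iff_left₀ (Real.exp_pos _).le (by norm_num) (by norm_num)).mp h4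

/-- The numerical inequality for `d ≥ 3`. -/
theorem num_ge_three (d : ℕ) (hd : 3 ≤ d) :
    (∑ j ∈ Finset.range (2 * d), (1 - 1 / Real.sqrt d) ^ j) *
      ((1 - 1 / Real.sqrt d) ^ (-(2 * d - 1 - (2 * d - Real.sqrt d) : ℝ)) *
      ((Real.sqrt (π / (16 * (2 * d - Real.sqrt d))) + 0) *
        theta (π ^ 2 / (16 * (2 * d - Real.sqrt d)) * (piv d 0) ^ 2))) < 1 := by
  set s := Real.sqrt d with hs
  have hdr : (3 : ℝ) ≤ d := by exact_mod_cast hd
  have hs2 : s ^ 2 = d := Real.sq_sqrt (by positivity)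
  have hs173 : 173 / 100 ≤ s := by
    rw [hs]; apply Real.le_sqrt_of_sq_le; norm_num; linarith
  have hs0 : 0 < s := by linarith
  have hs1 : 1 < s := by linarith
  have hlam : 0 < 2 * (d : ℝ) - s := by rw [← hs2]; nlinarith
  have hz0 : 0 ≤ 1 - 1 / s := by
    rw [sub_nonneg, div_le_one hs0]; exact hs1.le
  have hz1 : 1 - 1 / s < 1 := by
    have : 0 < 1 / s := by positivity
    linarith
  have hS : ∑ j ∈ Finset.range (2 * d), (1 - 1 / s) ^ j ≤ s := by
    have := geom_le hz0 hz1 (2 * d)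
    have e : 1 / (1 - (1 - 1 / s)) = s := by field_simp; ring
    rwa [e] at this
  have hE : (1 - 1 / s) ^ (-(2 * d - 1 - (2 * d - s) : ℝ)) ≤ Real.exp (1 - 1 / (2 * s)) := by
    have e : -(2 * d - 1 - (2 * d - s) : ℝ) = -(s - 1) := by ring
    rw [e]; exact rpow_bound hs1
  -- theta
  have ha : 5 / 2 ≤ π ^ 2 / (16 * (2 * d - s)) * (piv d 0) ^ 2 := by
    have hp := piv_zero_ge d (by omega)
    have hpi : 9.869 ≤ π ^ 2 := by nlinarith [Real.pi_gt_d4]
    have h1 : (8 / 5 * (d : ℝ) - 3 / 5) ^ 2 ≤ (piv d 0) ^ 2 :=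
      pow_le_pow_left₀ (by linarith) hp 2
    have h2 : 5 / 2 * (16 * (2 * (d : ℝ) - s)) ≤ 9.869 * (8 / 5 * (d : ℝ) - 3 / 5) ^ 2 := by
      rcases Nat.lt_or_ge 3 d with h3 | h3
      · have h4 : (4 : ℝ) ≤ d := by exact_mod_cast h3
        nlinarith
      · have h4 : d = 3 := by omega
        subst h4
        norm_num
        linarith
    rw [div_mul_eq_mul_div, le_div_iff₀ (by positivity)]
    calc 5 / 2 * (16 * (2 * (d : ℝ) - s)) ≤ 9.869 * (8 / 5 * (d : ℝ) - 3 / 5) ^ 2 := h2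
      _ ≤ π ^ 2 * (piv d 0) ^ 2 := mul_le_mul hpi h1 (by positivity) (by positivity)
  have hθ : theta (π ^ 2 / (16 * (2 * d - s)) * (piv d 0) ^ 2) ≤ 1165 / 1000 := by
    refine (theta_anti (by norm_num) ha).trans ((theta_le (by norm_num)).trans ?_)
    have h1 := exp_neg_five_halves
    have h0 : 0 < Real.exp (-(5 / 2)) := Real.exp_pos _
    have h3 : Real.exp (-(5 / 2)) ^ 3 ≤ (821 / 10000 : ℝ) ^ 3 := pow_le_pow_left₀ h0.le h1 3
    have h4 : (0 : ℝ) < 1 - Real.exp (-(5 / 2)) ^ 3 := by norm_num at h3; linarith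
    have h5 : Real.exp (-(5 / 2)) / (1 - Real.exp (-(5 / 2)) ^ 3) ≤ 8245 / 100000 := by
      rw [div_le_iff₀ h4]
      norm_num at h3
      nlinarith
    linarith
  have hθ0 := theta_nonneg (π ^ 2 / (16 * (2 * d - s)) * (piv d 0) ^ 2)
  set θ := theta (π ^ 2 / (16 * (2 * d - s)) * (piv d 0) ^ 2) with hθd
  -- the final estimate, squared
  have hE0 : 0 ≤ (1 - 1 / s) ^ (-(2 * d - 1 - (2 * d - s) : ℝ)) := Real.rpow_nonneg hz0 _
  have hS0 : 0 ≤ ∑ j ∈ Finset.range (2 * d), (1 - 1 / s) ^ j :=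
    Finset.sum_nonneg fun j _ => by positivity
  have hsq0 : 0 ≤ Real.sqrt (π / (16 * (2 * d - s))) := Real.sqrt_nonneg _
  have hbound : (∑ j ∈ Finset.range (2 * d), (1 - 1 / s) ^ j) *
      ((1 - 1 / s) ^ (-(2 * d - 1 - (2 * d - s) : ℝ)) *
      ((Real.sqrt (π / (16 * (2 * d - s))) + 0) * θ)) ≤
      s * (Real.exp (1 - 1 / (2 * s)) * (Real.sqrt (π / (16 * (2 * d - s))) * (1165 / 1000))) := by
    rw [add_zero]
    gcongr
  refine lt_of_le_of_lt hbound ?_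
  have hpos : 0 ≤ s * (Real.exp (1 - 1 / (2 * s)) *
      (Real.sqrt (π / (16 * (2 * d - s))) * (1165 / 1000))) := by positivity
  have hsqr : (s * (Real.exp (1 - 1 / (2 * s)) *
      (Real.sqrt (π / (16 * (2 * d - s))) * (1165 / 1000)))) ^ 2 < 1 := by
    rw [mul_pow, mul_pow, mul_pow, Real.sq_sqrt (x := π / (16 * (2 * d - s))) (by positivity)]
    have he : Real.exp (1 - 1 / (2 * s)) ^ 2 ≤ Real.exp 1 ^ 2 / (1 + 1 / s) := by
      rw [le_div_iff₀ (by positivity)]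
      have h1 : Real.exp (1 - 1 / (2 * s)) ^ 2 = Real.exp 1 ^ 2 * Real.exp (-(1 / s)) := by
        rw [← Real.exp_nat_mul, ← Real.exp_nat_mul, ← Real.exp_add]
        congr 1
        push_cast
        field_simp
        ring
      have h2 : Real.exp (-(1 / s)) * (1 + 1 / s) ≤ 1 := by
        have h3 : 1 + 1 / s ≤ Real.exp (1 / s) := by
          have := Real.add_one_le_exp (1 / s); linarith
        calc Real.exp (-(1 / s)) * (1 + 1 / s) ≤ Real.exp (-(1 / s)) * Real.exp (1 / s) := by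
              gcongr
          _ = 1 := by rw [← Real.exp_add]; simp
      rw [h1, mul_assoc]
      calc Real.exp 1 ^ 2 * (Real.exp (-(1 / s)) * (1 + 1 / s)) ≤ Real.exp 1 ^ 2 * 1 := by
            gcongr
        _ = _ := mul_one _
    have hnum : Real.exp 1 ^ 2 * π * (1165 / 1000) ^ 2 < 31.6 := by
      have h1 : Real.exp 1 < 2.7182818286 := Real.exp_one_lt_d9
      have h2 : Real.exp 1 ^ 2 < 2.7182818286 ^ 2 :=
        pow_lt_pow_left₀ h1 (Real.exp_pos _).le (by norm_num)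
      have h3 := Real.pi_lt_d4
      have h4 := Real.pi_pos
      have h5 : Real.exp 1 ^ 2 * π < 2.7182818286 ^ 2 * 3.1416 :=
        mul_lt_mul'' h2 h3 (by positivity) h4.le
      nlinarith
    calc s ^ 2 * (Real.exp (1 - 1 / (2 * s)) ^ 2 * (π / (16 * (2 * d - s)) * (1165 / 1000) ^ 2))
        ≤ s ^ 2 * (Real.exp 1 ^ 2 / (1 + 1 / s) * (π / (16 * (2 * d - s)) * (1165 / 1000) ^ 2)) := by
          gcongr
      _ = (Real.exp 1 ^ 2 * π * (1165 / 1000) ^ 2) / (16 * ((1 + 1 / s) * (2 - 1 / s))) := by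
          rw [← hs2]
          have : (2 * s ^ 2 - s) ≠ 0 := by rw [hs2]; exact hlam.ne'
          have h6 : (2 - 1 / s) ≠ 0 := by
            have : 1 / s < 1 := by rw [div_lt_one hs0]; exact hs1
            linarith
          field_simp
      _ < 1 := by
          have h7 : 0 < 1 / s := by positivity
          have h8 : 1 / s < 1 := by rw [div_lt_one hs0]; exact hs1
          have h9 : 2 ≤ (1 + 1 / s) * (2 - 1 / s) := by nlinarith
          rw [div_lt_one (by nlinarith)]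
          nlinarith
  nlinarith [sq_nonneg (s * (Real.exp (1 - 1 / (2 * s)) *
      (Real.sqrt (π / (16 * (2 * d - s))) * (1165 / 1000))) - 1)]

end Pool.Agent.MP_f7f40d_pr
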