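import Pool.Agent.MP_f7f40d_pr.Num

set_option autoImplicit false

namespace Pool.Agent.MP_f7f40d_pr

open MeasureTheory Filter Topology
open scoped Real Nat ENNReal NNReal

theorem exp_neg_eight_fifths : Real.exp (-(8 / 5)) ≤ 202 / 1000 := by
  have h1 : Real.exp (-(8 / 5)) ^ 5 = Real.exp (-1) ^ 8 := by
    rw [← Real.exp_nat_mul, ← Real.exp_nat_mul]; norm_num
  have h2 : Real.exp (-1) < 0.3678794412 := Real.exp_neg_one_lt_d9
  have h3 : Real.exp (-1) ^ 8 ≤ (0.3678794412 : ℝ) ^ 8 :=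
    pow_le_pow_left₀ (Real.exp_pos _).le h2.le 8
  have h4 : Real.exp (-(8 / 5)) ^ 5 ≤ (202 / 1000 : ℝ) ^ 5 := by
    rw [h1]; refine h3.trans ?_; norm_num
  exact (pow_le_pow_iff_left₀ (Real.exp_pos _).le (by norm_num) (by norm_num)).mp h4

theorem piv_two : (6.854 : ℝ) ≤ (piv 2 0) ^ 2 := by
  have h : piv 2 0 = bigR 3 := by
    show bigR (bigR (0 + 2) + 2) = _
    rw [zero_add, bigR_two]
    norm_num
  rw [h]
  unfold bigR
  have h5 : (2.23606 : ℝ) ≤ Real.sqrt (3 ^ 2 - 4) := by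
    apply Real.le_sqrt_of_sq_le; norm_num
  have : (2.61803 : ℝ) ≤ (3 + Real.sqrt (3 ^ 2 - 4)) / 2 := by linarith
  calc (6.854 : ℝ) ≤ 2.61803 ^ 2 := by norm_num
    _ ≤ _ := pow_le_pow_left₀ (by norm_num) this 2

theorem four_rpow : (1 / 4 : ℝ) ^ (-(5 / 12) : ℝ) ≤ 1.7819 := by
  have h0 : (0 : ℝ) ≤ (1 / 4 : ℝ) ^ (-(5 / 12) : ℝ) := by positivity
  have h1 : ((1 / 4 : ℝ) ^ (-(5 / 12) : ℝ)) ^ 6 = 32 := by
    rw [← Real.rpow_natCast, ← Real.rpow_mul (by norm_num)]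
    rw [show (-(5 / 12) : ℝ) * ((6 : ℕ) : ℝ) = -(5 / 2) by norm_num]
    rw [show (1 / 4 : ℝ) = 2 ^ (-2 : ℝ) by
      rw [Real.rpow_neg (by norm_num)]; norm_num]
    rw [← Real.rpow_mul (by norm_num)]
    norm_num
  have h2 : ((1 / 4 : ℝ) ^ (-(5 / 12) : ℝ)) ^ 6 ≤ (1.7819 : ℝ) ^ 6 := by
    rw [h1]; norm_num
  exact (pow_le_pow_iff_left₀ h0 (by norm_num) (by norm_num)).mp h2

/-- The numerical inequality for `d = 2`. -/
theorem num_two :
    (∑ j ∈ Finset.range (2 * 2), (1 / 4 : ℝ) ^ j) *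
      ((1 / 4 : ℝ) ^ (-(2 * (2 : ℕ) - 1 - (2 * (2 : ℕ) - Real.sqrt (2 : ℕ)) : ℝ)) *
      ((Real.sqrt (π / (16 * (2 * (2 : ℕ) - Real.sqrt (2 : ℕ)))) + 0) *
        theta (π ^ 2 / (16 * (2 * (2 : ℕ) - Real.sqrt (2 : ℕ))) * (piv 2 0) ^ 2))) < 1 := by
  set s := Real.sqrt ((2 : ℕ) : ℝ) with hs
  have hs1 : s ≤ 1.4143 := by
    rw [hs, Real.sqrt_le_left (by norm_num)]; norm_num
  have hs2 : 1.4142 ≤ s := by
    rw [hs]; apply Real.le_sqrt_of_sq_le; norm_num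
  push_cast
  have e1 : -(2 * 2 - 1 - (2 * 2 - s) : ℝ) = -(s - 1) := by ring
  rw [e1, add_zero]
  have hS : ∑ j ∈ Finset.range (2 * 2), (1 / 4 : ℝ) ^ j = 85 / 64 := by
    simp [Finset.sum_range_succ]; norm_num
  rw [hS]
  have hE : (1 / 4 : ℝ) ^ (-(s - 1)) ≤ 1.7819 := by
    refine le_trans ?_ four_rpow
    exact Real.rpow_le_rpow_of_exponent_ge (by norm_num) (by norm_num) (by linarith)
  have hsq : Real.sqrt (π / (16 * (2 * 2 - s))) ≤ 0.2757 := by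
    rw [Real.sqrt_le_left (by norm_num), div_le_iff₀ (by linarith)]
    have := Real.pi_lt_d4
    nlinarith
  have ha : 8 / 5 ≤ π ^ 2 / (16 * (2 * 2 - s)) * (piv 2 0) ^ 2 := by
    have hp := piv_two
    have hpi : 9.869 ≤ π ^ 2 := by nlinarith [Real.pi_gt_d4]
    rw [div_mul_eq_mul_div, le_div_iff₀ (by linarith)]
    calc 8 / 5 * (16 * (2 * 2 - s)) ≤ 9.869 * 6.854 := by linarith
      _ ≤ π ^ 2 * (piv 2 0) ^ 2 := mul_le_mul hpi hp (by norm_num) (by positivity)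
  have hθ : theta (π ^ 2 / (16 * (2 * 2 - s)) * (piv 2 0) ^ 2) ≤ 1.4075 := by
    refine (theta_anti (by norm_num) ha).trans ((theta_le (by norm_num)).trans ?_)
    have h1 := exp_neg_eight_fifths
    have h0 : 0 < Real.exp (-(8 / 5)) := Real.exp_pos _
    have h3 : Real.exp (-(8 / 5)) ^ 3 ≤ (202 / 1000 : ℝ) ^ 3 := pow_le_pow_left₀ h0.le h1 3
    norm_num at h3
    have h4 : (0 : ℝ) < 1 - Real.exp (-(8 / 5)) ^ 3 := by linarith
    have h5 : Real.exp (-(8 / 5)) / (1 - Real.exp (-(8 / 5)) ^ 3) ≤ 0.2037 := by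
      rw [div_le_iff₀ h4]
      nlinarith
    linarith
  have hθ0 := theta_nonneg (π ^ 2 / (16 * (2 * 2 - s)) * (piv 2 0) ^ 2)
  have hE0 : 0 ≤ (1 / 4 : ℝ) ^ (-(s - 1)) := by positivity
  calc 85 / 64 * ((1 / 4 : ℝ) ^ (-(s - 1)) * (Real.sqrt (π / (16 * (2 * 2 - s))) *
        theta (π ^ 2 / (16 * (2 * 2 - s)) * (piv 2 0) ^ 2)))
      ≤ 85 / 64 * (1.7819 * (0.2757 * 1.4075)) := by gcongr
    _ < 1 := by norm_num

/-- Almost sure percolation at density `2d - √d`, for every `d ≥ 2`. -/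
theorem perc_all (d : ℕ) (hd : 2 ≤ d) :
    muP d (2 * (d : ℝ) - Real.sqrt d).toNNReal (perc d) = 1 := by
  have hdr : (2 : ℝ) ≤ d := by exact_mod_cast hd
  have hs1 : 1 < Real.sqrt d := by
    rw [Real.lt_sqrt (by norm_num)]; linarith
  have hs2 : Real.sqrt d ^ 2 = d := Real.sq_sqrt (by positivity)
  have hlam : 0 < 2 * (d : ℝ) - Real.sqrt d := by nlinarith
  have hcoe : (((2 * (d : ℝ) - Real.sqrt d).toNNReal : ℝ≥0) : ℝ) = 2 * (d : ℝ) - Real.sqrt d :=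
    Real.coe_toNNReal _ hlam.le
  have hpiv : 0 < piv d 0 := by
    have := piv_zero_ge d (by omega)
    linarith
  rcases Nat.lt_or_ge 2 d with h3 | h3
  · refine perc_of (z := 1 - 1 / Real.sqrt d) (c := 0) (m := (piv d 0) ^ 2)
      (κ := 16 * (2 * d - Real.sqrt d)) (by omega) (by simpa using hlam) (by positivity) le_rfl
      ?_ (by positivity) (pivotHyp_piv d) ?_ ?_ ?_
    · rw [hcoe]; exact domHyp_simple hlam.le
    · rw [sub_pos, div_lt_one (by positivity)]; exact hs1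
    · have : 0 < 1 / Real.sqrt d := by positivity
      linarith
    · rw [hcoe]
      exact num_ge_three d h3
  · have h2 : d = 2 := by omega
    subst h2
    refine perc_of (z := 1 / 4) (c := 0) (m := (piv 2 0) ^ 2)
      (κ := 16 * (2 * (2 : ℕ) - Real.sqrt (2 : ℕ))) (by omega) (by simpa using hlam) (by positivity)
      le_rfl ?_ (by positivity) (pivotHyp_piv 2) (by norm_num) (by norm_num) ?_
    · rw [hcoe]; exact domHyp_simple hlam.le
    · rw [hcoe]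
      exact num_two

end Pool.Agent.MP_f7f40d_pr
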