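import Pool.Agent.MP_f7f40d_pr.Four

set_option autoImplicit false

namespace Pool.Agent.MP_f7f40d_pr

open MeasureTheory Complex Filter Topology
open scoped Real Nat

/-- Poisson weights. -/
noncomputable def pw (lam : ℝ) (n : ℕ) : ℝ := Real.exp (-lam) * lam ^ n / (n)!

theorem pw_nonneg {lam : ℝ} (h : 0 ≤ lam) (n : ℕ) : 0 ≤ pw lam n := by
  unfold pw; positivity

theorem hasSum_pw_mul (lam : ℝ) (z : ℂ) :
    HasSum (fun n => (pw lam n : ℂ) * z ^ n) (cexp (lam * (z - 1))) := by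
  have h := (NormedSpace.expSeries_div_hasSum_exp ((lam : ℂ) * z)).mul_left (cexp (-lam))
  rw [← Complex.exp_eq_exp_ℂ, ← Complex.exp_add] at h
  have e : (-(lam : ℂ) + lam * z) = lam * (z - 1) := by ring
  rw [e] at h
  refine h.congr_fun ?_
  intro n
  unfold pw
  push_cast
  rw [mul_pow]
  ring

theorem hasSum_pw (lam : ℝ) : HasSum (pw lam) 1 := by
  have h := hasSum_pw_mul lam 1
  simp only [one_pow, mul_one, sub_self, mul_zero, Complex.exp_zero] at h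
  have h1 : HasSum (fun n => ((pw lam n : ℝ) : ℂ)) ((1 : ℝ) : ℂ) := by simpa using h
  exact Complex.hasSum_ofReal.mp h1

/-- The autocorrelation of the Poisson weights. -/
noncomputable def pf (lam : ℝ) (k : ℤ) : ℝ :=
  ∑' q : ℕ × ℕ, if (q.1 : ℤ) - q.2 = k then pw lam q.1 * pw lam q.2 else 0

theorem summable_pf {lam : ℝ} (h : 0 ≤ lam) (k : ℤ) :
    Summable fun q : ℕ × ℕ => if (q.1 : ℤ) - q.2 = k then pw lam q.1 * pw lam q.2 else 0 := by
  have hs : Summable fun q : ℕ × ℕ => pw lam q.1 * pw lam q.2 :=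
    (hasSum_pw lam).summable.mul_of_nonneg (hasSum_pw lam).summable (pw_nonneg h) (pw_nonneg h)
  refine Summable.of_nonneg_of_le ?_ ?_ hs
  · intro q
    split_ifs
    · exact mul_nonneg (pw_nonneg h _) (pw_nonneg h _)
    · exact le_rfl
  · intro q
    split_ifs
    · exact le_rfl
    · exact mul_nonneg (pw_nonneg h _) (pw_nonneg h _)

theorem pf_nonneg {lam : ℝ} (h : 0 ≤ lam) (k : ℤ) : 0 ≤ pf lam k := by
  apply tsum_nonneg
  intro q
  split_ifs
  · exact mul_nonneg (pw_nonneg h _) (pw_nonneg h _)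
  · exact le_rfl

/-- The density of the Poisson autocorrelation. -/
noncomputable def FP (lam : ℝ) : ℝ → ℝ :=
  (Set.Icc (-(1 / 2) : ℝ) (1 / 2)).indicator fun θ => Real.exp (-4 * lam * Real.sin (π * θ) ^ 2)

theorem FP_nonneg (lam : ℝ) (t : ℝ) : 0 ≤ FP lam t :=
  Set.indicator_nonneg (fun _ _ => (Real.exp_pos _).le) t

theorem FP_integrable (lam : ℝ) : Integrable (FP lam) := by
  unfold FP
  rw [integrable_indicator_iff measurableSet_Icc]
  apply Continuous.integrableOn_Icc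
  fun_prop

theorem integral_exp_int (n : ℤ) :
    ∫ θ in Set.Icc (-(1 / 2) : ℝ) (1 / 2), cexp (2 * π * n * θ * I) = if n = 0 then 1 else 0 := by
  rw [integral_Icc_eq_integral_Ioc, ← intervalIntegral.integral_of_le (by norm_num)]
  split_ifs with h
  · subst h
    simp
    norm_num
  · have hc : (2 * π * n * I : ℂ) ≠ 0 := by
      simp [Real.pi_ne_zero, h]
    have e : ∀ θ : ℝ, cexp (2 * π * n * θ * I) = cexp ((2 * π * n * I) * θ) := by
      intro θ; congr 1; ring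
    simp_rw [e]
    rw [integral_exp_mul_complex hc]
    have h1 : cexp (2 * π * n * I * ((1 / 2 : ℝ) : ℂ)) = cexp (2 * π * n * I * ((-(1 / 2) : ℝ) : ℂ)) := by
      rw [Complex.exp_eq_exp_iff_exists_int]
      refine ⟨n, ?_⟩
      push_cast
      ring
    rw [h1, sub_self, zero_div]

theorem tsum_mul_complex {f g : ℕ → ℂ} {s t : ℂ} (hf : HasSum f s) (hg : HasSum g t)
    (nf : Summable fun n => ‖f n‖) (ng : Summable fun n => ‖g n‖) :
    ∑' q : ℕ × ℕ, f q.1 * g q.2 = s * t := by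
  have hAB := hf.mul hg (summable_mul_of_summable_norm nf ng)
  exact hAB.tsum_eq

theorem summable_pw_norm {lam : ℝ} (h : 0 ≤ lam) {w : ℂ} (hw : ‖w‖ = 1) :
    Summable fun n : ℕ => ‖(pw lam n : ℂ) * w ^ n‖ := by
  have e : ∀ n : ℕ, ‖(pw lam n : ℂ) * w ^ n‖ = pw lam n := by
    intro n
    rw [norm_mul, norm_pow, hw, one_pow, mul_one, Complex.norm_real, Real.norm_eq_abs,
      abs_of_nonneg (pw_nonneg h n)]
  simp_rw [e]
  exact (hasSum_pw lam).summable

theorem norm_cexp_two_pi (θ : ℝ) : ‖cexp (2 * π * θ * I)‖ = 1 := by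
  rw [show (2 * π * θ * I : ℂ) = ((2 * π * θ : ℝ) : ℂ) * I by push_cast; ring,
    Complex.norm_exp_ofReal_mul_I]

theorem norm_cexp_two_pi' (θ : ℝ) : ‖cexp (-(2 * π * θ * I))‖ = 1 := by
  rw [show (-(2 * π * θ * I) : ℂ) = ((-(2 * π * θ) : ℝ) : ℂ) * I by push_cast; ring,
    Complex.norm_exp_ofReal_mul_I]

theorem pois_term (lam : ℝ) (k : ℤ) (θ : ℝ) (q : ℕ × ℕ) :
    ((pw lam q.1 * pw lam q.2 : ℝ) : ℂ) *
      cexp (2 * π * (((q.2 : ℤ) - q.1 + k : ℤ) : ℂ) * θ * I) =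
      (((pw lam q.1 : ℂ) * cexp (-(2 * π * θ * I)) ^ q.1) *
        ((pw lam q.2 : ℂ) * cexp (2 * π * θ * I) ^ q.2)) * cexp (2 * π * k * θ * I) := by
  rw [← Complex.exp_nat_mul, ← Complex.exp_nat_mul]
  have e : (2 * π * (((q.2 : ℤ) - q.1 + k : ℤ) : ℂ) * θ * I) =
    (q.1 : ℂ) * (-(2 * π * θ * I)) + (q.2 : ℂ) * (2 * π * θ * I) + 2 * π * k * θ * I := by
    push_cast; ring
  rw [e, Complex.exp_add, Complex.exp_add, Complex.ofReal_mul]
  ring

theorem pois_exponent (lam : ℝ) (θ : ℝ) :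
    (lam : ℂ) * (cexp (-(2 * π * θ * I)) - 1) + lam * (cexp (2 * π * θ * I) - 1) =
      ((-4 * lam * Real.sin (π * θ) ^ 2 : ℝ) : ℂ) := by
  have hcos : cexp (2 * π * θ * I) + cexp (-(2 * π * θ * I)) = 2 * Complex.cos (2 * π * θ) := by
    rw [Complex.two_cos, neg_mul]
  have hsin : Real.sin (π * θ) ^ 2 = 1 / 2 - Real.cos (2 * π * θ) / 2 := by
    rw [Real.sin_sq_eq_half_sub, mul_assoc]
  have h2 : (lam : ℂ) * (cexp (-(2 * π * θ * I)) - 1) + lam * (cexp (2 * π * θ * I) - 1)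
      = lam * ((cexp (2 * π * θ * I) + cexp (-(2 * π * θ * I))) - 2) := by ring
  rw [h2, hcos, hsin]
  push_cast
  ring

theorem pois_pointwise {lam : ℝ} (h : 0 ≤ lam) (k : ℤ) (θ : ℝ) :
    ∑' q : ℕ × ℕ, ((pw lam q.1 * pw lam q.2 : ℝ) : ℂ) *
      cexp (2 * π * (((q.2 : ℤ) - q.1 + k : ℤ) : ℂ) * θ * I) =
    ((Real.exp (-4 * lam * Real.sin (π * θ) ^ 2) : ℝ) : ℂ) * cexp (2 * π * k * θ * I) := by
  have hAB := tsum_mul_complex (hasSum_pw_mul lam (cexp (-(2 * π * θ * I))))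
    (hasSum_pw_mul lam (cexp (2 * π * θ * I)))
    (summable_pw_norm h (norm_cexp_two_pi' θ)) (summable_pw_norm h (norm_cexp_two_pi θ))
  rw [tsum_congr (pois_term lam k θ), tsum_mul_right, hAB, ← Complex.exp_add, pois_exponent,
    Complex.ofReal_exp]

theorem pf_eq_fc {lam : ℝ} (h : 0 ≤ lam) (k : ℤ) : (pf lam k : ℂ) = fc (FP lam) k := by
  set μ : Measure ℝ := volume.restrict (Set.Icc (-(1 / 2) : ℝ) (1 / 2)) with hμ
  set Φ : ℕ × ℕ → ℝ → ℂ := fun q θ =>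
    ((pw lam q.1 * pw lam q.2 : ℝ) : ℂ) * cexp (2 * π * (((q.2 : ℤ) - q.1 + k : ℤ) : ℂ) * θ * I)
    with hΦ
  have hint : ∀ q, Integrable (Φ q) μ := by
    intro q
    apply Continuous.integrableOn_Icc
    fun_prop
  have hnorm : ∀ q θ, ‖Φ q θ‖ = pw lam q.1 * pw lam q.2 := by
    intro q θ
    simp only [hΦ]
    have e : (2 * π * (((q.2 : ℤ) - q.1 + k : ℤ) : ℂ) * θ * I) =
        ((2 * π * (((q.2 : ℤ) - q.1 + k : ℤ) : ℝ) * θ : ℝ) : ℂ) * I := by push_cast; ring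
    rw [norm_mul, e, Complex.norm_exp_ofReal_mul_I, mul_one, Complex.norm_real, Real.norm_eq_abs,
      abs_of_nonneg (mul_nonneg (pw_nonneg h _) (pw_nonneg h _))]
  have hs : Summable fun q : ℕ × ℕ => pw lam q.1 * pw lam q.2 :=
    (hasSum_pw lam).summable.mul_of_nonneg (hasSum_pw lam).summable (pw_nonneg h) (pw_nonneg h)
  have hsum : Summable fun q => ∫ θ, ‖Φ q θ‖ ∂μ := by
    simp_rw [hnorm]
    simp only [integral_const, smul_eq_mul]
    exact hs.mul_left _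
  have key := hasSum_integral_of_summable_integral_norm hint hsum
  have hI : ∀ q, ∫ θ, Φ q θ ∂μ =
      (((if (q.1 : ℤ) - q.2 = k then pw lam q.1 * pw lam q.2 else 0 : ℝ)) : ℂ) := by
    intro q
    simp only [hΦ]
    rw [integral_const_mul, hμ, integral_exp_int]
    by_cases hq : (q.1 : ℤ) - q.2 = k
    · rw [if_pos hq, if_pos (by omega), mul_one]
    · rw [if_neg hq, if_neg (by omega), mul_zero, Complex.ofReal_zero]
  simp_rw [hI] at key
  have h1 : (pf lam k : ℂ) = ∫ θ, ∑' q, Φ q θ ∂μ := by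
    rw [← key.tsum_eq, pf, Complex.ofReal_tsum]
  rw [h1, fc]
  have h2 : ∀ θ : ℝ, (FP lam θ : ℂ) * cexp (2 * π * k * θ * I) =
      (Set.Icc (-(1 / 2) : ℝ) (1 / 2)).indicator (fun θ : ℝ =>
        ((Real.exp (-4 * lam * Real.sin (π * θ) ^ 2) : ℝ) : ℂ) * cexp (2 * π * k * θ * I)) θ := by
    intro θ
    unfold FP
    by_cases hθ : θ ∈ Set.Icc (-(1 / 2) : ℝ) (1 / 2)
    · rw [Set.indicator_of_mem hθ, Set.indicator_of_mem hθ]
    · rw [Set.indicator_of_notMem hθ, Set.indicator_of_notMem hθ]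
      simp
  simp_rw [h2]
  rw [integral_indicator measurableSet_Icc]
  congr 1
  ext θ
  exact pois_pointwise h k θ

end Pool.Agent.MP_f7f40d_pr
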