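import Mathlib

set_option autoImplicit false

open MeasureTheory ProbabilityTheory
open scoped ENNReal NNReal

namespace Pool.MP_f7f40d_pr

/-- The vertices of the lattice `ℤ^d`. -/
abbrev Site (d : ℕ) : Type := Fin d → ℤ

/-- The nearest neighbour of `v` in the direction `e`: `v + e_i` for `e = (i, true)` and
`v - e_i` for `e = (i, false)`. -/
def nb {d : ℕ} (v : Site d) (e : Fin d × Bool) : Site d :=
  Function.update v e.1 (v e.1 + (if e.2 then 1 else -1))

/-- One parallel update of the abelian sandpile: every vertex carrying at least `2d` grains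
topples, i.e. it loses `2d` grains and each of its `2d` nearest neighbours gains one grain. -/
def step {d : ℕ} (η : Site d → ℤ) : Site d → ℤ := fun v =>
  η v - (if 2 * (d : ℤ) ≤ η v then 2 * (d : ℤ) else 0) +
    ∑ e : Fin d × Bool, (if 2 * (d : ℤ) ≤ η (nb v e) then 1 else 0)

/-- `A` percolates: every vertex topples infinitely many times.  (The vertex `v` topples at time
`t + 1` exactly if it carries at least `2d` grains at time `t`.) -/
def Percolates {d : ℕ} (A : Site d → ℤ) : Prop :=
  ∀ v : Site d, ∀ n : ℕ, ∃ t, n ≤ t ∧ 2 * (d : ℤ) ≤ (step^[t] A) v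

/-- The law of a family of independent Poisson random variables of mean `l` indexed by `ℤ^d`. -/
noncomputable def poissonLaw (d : ℕ) (l : ℝ≥0) : Measure (Site d → ℕ) :=
  Measure.infinitePi (fun _ : Site d => poissonMeasure l)

/-- The critical Poisson density: the infimum of all `l > 0` such that the abelian sandpile started
from independent Poisson(`l`) heights percolates with probability one. -/
noncomputable def criticalDensity (d : ℕ) : ℝ≥0∞ :=
  ⨅ (l : ℝ≥0) (_ : 0 < l)
    (_ : poissonLaw d l {A | Percolates (fun v => (A v : ℤ))} = 1), (l : ℝ≥0∞)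

end Pool.MP_f7f40d_pr
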