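import Mathlib

set_option autoImplicit false

namespace Pool.Agent.MP_f7f40d_pr

open Function

section Seq

variable {E : Type*} [AddCommGroup E] [Module ℝ E]

/-- Finite support gives summability of bilinear correlations. -/
theorem summable_corr (Q : E →ₗ[ℝ] E →ₗ[ℝ] ℝ) {U W : ℤ → E} (hU : (support U).Finite) :
    Summable fun j => Q (U j) (W j) := by
  apply summable_of_finite_support
  refine hU.subset ?_
  intro j hj
  by_contra h
  apply hj
  have : U j = 0 := by simpa using h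
  simp [this]

theorem tsum_shift (f : ℤ → ℝ) (a : ℤ) : ∑' j, f (j + a) = ∑' j, f j :=
  (Equiv.addRight a).tsum_eq f

theorem finite_shift {U : ℤ → E} (hU : (support U).Finite) (a : ℤ) :
    (support fun j => U (j + a)).Finite := by
  have : (support fun j => U (j + a)) = (Equiv.addRight a) ⁻¹' support U := by
    ext j; simp
  rw [this]
  exact hU.preimage ((Equiv.addRight a).injective.injOn)

/-- The one dimensional factorisation `B = r C* C` in the form needed for a positive
semidefinite form. -/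
theorem seq_bound (Q : E →ₗ[ℝ] E →ₗ[ℝ] ℝ) (hs : ∀ x y, Q x y = Q y x) (hp : ∀ x, 0 ≤ Q x x)
    {W : ℤ → E} (hW : (support W).Finite) {J : ℤ} (htop : ∀ j, J < j → W j = 0)
    {r : ℝ} (hr : 0 < r) :
    r * Q (W J) (W J) ≤ ∑' j, Q ((r + 1 / r) • W j - W (j - 1) - W (j + 1)) (W j) ∧
    r ^ 2 * Q (W J) (W J) ≤ ∑' j, Q ((r + 1 / r) • W j - W (j - 1) - W (j + 1))
      ((r + 1 / r) • W j - W (j - 1) - W (j + 1)) := by
  set ρ0 : ℝ := ∑' j, Q (W j) (W j) with hρ0
  set ρ1 : ℝ := ∑' j, Q (W j) (W (j + 1)) with hρ1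
  set ρ2 : ℝ := ∑' j, Q (W j) (W (j + 2)) with hρ2
  have sW : ∀ a b : ℤ, Summable fun j => Q (W (j + a)) (W (j + b)) :=
    fun a b => summable_corr Q (finite_shift hW a)
  have corr : ∀ a b : ℤ, ∑' j, Q (W (j + a)) (W (j + b)) = ∑' j, Q (W j) (W (j + (b - a))) := by
    intro a b
    have := tsum_shift (fun j => Q (W j) (W (j + (b - a)))) a
    rw [← this]
    congr 1
    ext j
    rw [add_assoc, show a + (b - a) = b by ring]
  have corr' : ∀ a b : ℤ, ∑' j, Q (W (j + a)) (W (j + b)) = ∑' j, Q (W j) (W (j + (a - b))) := by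
    intro a b
    rw [← corr b a]
    congr 1
    ext j
    exact hs _ _
  have c00 : ∀ a : ℤ, ∑' j, Q (W (j + a)) (W (j + a)) = ρ0 := by
    intro a
    rw [corr a a]
    simp [hρ0]
  have c01 : ∀ a : ℤ, ∑' j, Q (W (j + a)) (W (j + (a + 1))) = ρ1 := by
    intro a
    rw [corr a (a + 1)]
    simp [hρ1]
  have c02 : ∀ a : ℤ, ∑' j, Q (W (j + a)) (W (j + (a + 2))) = ρ2 := by
    intro a
    rw [corr a (a + 2)]
    simp [hρ2]
  -- termwise nonnegativity
  have fC : ∀ x y z : ℝ, (support fun j => x • W j + y • W (j + 1) + z • W (j + 2)).Finite := by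
    intro x y z
    refine ((hW.union (finite_shift hW 1)).union (finite_shift hW 2)).subset ?_
    intro j hj
    by_contra h
    apply hj
    simp only [Set.mem_union, mem_support, ne_eq, not_or, not_not] at h
    simp [h.1.1, h.1.2, h.2]
  have key : ∀ x y z : ℝ, ∑' j, Q (x • W j + y • W (j + 1) + z • W (j + 2))
      (x • W j + y • W (j + 1) + z • W (j + 2)) =
      (x ^ 2 + y ^ 2 + z ^ 2) * ρ0 + 2 * (x * y + y * z) * ρ1 + 2 * (x * z) * ρ2 := by
    intro x y z
    have e : ∀ j, Q (x • W j + y • W (j + 1) + z • W (j + 2))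
      (x • W j + y • W (j + 1) + z • W (j + 2)) =
      x ^ 2 * Q (W (j + 0)) (W (j + 0)) + y ^ 2 * Q (W (j + 1)) (W (j + 1))
      + z ^ 2 * Q (W (j + 2)) (W (j + 2))
      + 2 * (x * y) * Q (W (j + 0)) (W (j + (0 + 1))) + 2 * (y * z) * Q (W (j + 1)) (W (j + (1 + 1)))
      + 2 * (x * z) * Q (W (j + 0)) (W (j + (0 + 2))) := by
      intro j
      simp only [map_add, map_smul, LinearMap.add_apply, LinearMap.smul_apply, smul_eq_mul,
        add_zero, zero_add]
      rw [show (1 : ℤ) + 1 = 2 by norm_num]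
      rw [hs (W (j + 1)) (W j), hs (W (j + 2)) (W j), hs (W (j + 2)) (W (j + 1))]
      ring
    simp_rw [e]
    have s1 := (sW 0 0).mul_left (x ^ 2)
    have s2 := (sW 1 1).mul_left (y ^ 2)
    have s3 := (sW 2 2).mul_left (z ^ 2)
    have s4 := (sW 0 (0 + 1)).mul_left (2 * (x * y))
    have s5 := (sW 1 (1 + 1)).mul_left (2 * (y * z))
    have s6 := (sW 0 (0 + 2)).mul_left (2 * (x * z))
    rw [Summable.tsum_add ((((s1.add s2).add s3).add s4).add s5) s6,
      Summable.tsum_add (((s1.add s2).add s3).add s4) s5,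
      Summable.tsum_add ((s1.add s2).add s3) s4,
      Summable.tsum_add (s1.add s2) s3, Summable.tsum_add s1 s2]
    simp only [tsum_mul_left]
    rw [c00, c00, c00, c01, c01, c02]
    ring
  have nonneg_le : ∀ x y z : ℝ, x ^ 2 * Q (W J) (W J) ≤
      ∑' j, Q (x • W j + y • W (j + 1) + z • W (j + 2))
      (x • W j + y • W (j + 1) + z • W (j + 2)) := by
    intro x y z
    have hs' : Summable fun j => Q (x • W j + y • W (j + 1) + z • W (j + 2))
      (x • W j + y • W (j + 1) + z • W (j + 2)) := summable_corr Q (fC x y z)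
    have := hs'.le_tsum J (fun j _ => hp _)
    refine le_trans (le_of_eq ?_) this
    rw [htop (J + 1) (by omega), htop (J + 2) (by omega)]
    simp only [smul_zero, add_zero, map_smul, LinearMap.smul_apply, smul_eq_mul]
    ring
  have hri : r ≠ 0 := hr.ne'
  constructor
  · have h1 := nonneg_le 1 (-(1 / r)) 0
    rw [key] at h1
    have e : ∀ j, Q ((r + 1 / r) • W j - W (j - 1) - W (j + 1)) (W j) =
        (r + 1 / r) * Q (W (j + 0)) (W (j + 0)) - Q (W (j + (-1))) (W (j + (-1 + 1)))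
        - Q (W (j + 0)) (W (j + (0 + 1))) := by
      intro j
      simp only [map_sub, map_smul, LinearMap.sub_apply, LinearMap.smul_apply, smul_eq_mul,
        add_zero, zero_add]
      rw [show (-1 : ℤ) + 1 = 0 by norm_num, add_zero, ← sub_eq_add_neg, hs (W (j + 1)) (W j)]
    simp_rw [e]
    have s1 := (sW 0 0).mul_left (r + 1 / r)
    rw [Summable.tsum_sub (s1.sub (sW (-1) (-1 + 1))) (sW 0 (0 + 1)),
      Summable.tsum_sub s1 (sW (-1) (-1 + 1)), tsum_mul_left, c00, c01, c01]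
    have : r * (Q (W J) (W J)) ≤ r * ((1 ^ 2 + (-(1 / r)) ^ 2 + 0 ^ 2) * ρ0 +
        2 * (1 * -(1 / r) + -(1 / r) * 0) * ρ1 + 2 * (1 * 0) * ρ2) := by
      apply mul_le_mul_of_nonneg_left _ hr.le
      simpa using h1
    refine this.trans (le_of_eq ?_)
    field_simp
    ring
  · have h1 := nonneg_le 1 (-(2 / r)) (1 / r ^ 2)
    rw [key] at h1
    have e1 : ∀ j, Q ((r + 1 / r) • W j - W (j - 1) - W (j + 1))
        ((r + 1 / r) • W j - W (j - 1) - W (j + 1)) =
        Q ((-1 : ℝ) • W (j - 1) + (r + 1 / r) • W (j - 1 + 1) + (-1 : ℝ) • W (j - 1 + 2))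
          ((-1 : ℝ) • W (j - 1) + (r + 1 / r) • W (j - 1 + 1) + (-1 : ℝ) • W (j - 1 + 2)) := by
      intro j
      have a1 : j - 1 + 1 = j := by ring
      have a2 : j - 1 + 2 = j + 1 := by ring
      rw [a1, a2]
      have : (r + 1 / r) • W j - W (j - 1) - W (j + 1) =
        (-1 : ℝ) • W (j - 1) + (r + 1 / r) • W j + (-1 : ℝ) • W (j + 1) := by
        simp only [neg_smul, one_smul]
        abel
      rw [this]
    simp_rw [e1]
    have e2 := tsum_shift (fun j => Q ((-1 : ℝ) • W j + (r + 1 / r) • W (j + 1)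
      + (-1 : ℝ) • W (j + 2)) ((-1 : ℝ) • W j + (r + 1 / r) • W (j + 1)
      + (-1 : ℝ) • W (j + 2))) (-1)
    simp only [← sub_eq_add_neg] at e2
    rw [e2, key]
    have : r ^ 2 * (Q (W J) (W J)) ≤ r ^ 2 * ((1 ^ 2 + (-(2 / r)) ^ 2 + (1 / r ^ 2) ^ 2) * ρ0 +
        2 * (1 * -(2 / r) + -(2 / r) * (1 / r ^ 2)) * ρ1 + 2 * (1 * (1 / r ^ 2)) * ρ2) := by
      apply mul_le_mul_of_nonneg_left _ (by positivity)
      simpa using h1
    refine this.trans (le_of_eq ?_)
    field_simp
    ring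

end Seq

end Pool.Agent.MP_f7f40d_pr
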