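import Mathlib

set_option autoImplicit false

namespace Pool.Agent.MP_f7f40d_pr

open MeasureTheory Polynomial Set
open scoped Real Interval

/-- Szegő-type lower bound: the weighted mean square of a polynomial on the circle is at least the
geometric mean of the weight times the square of the modulus of the leading coefficient. -/
theorem jensen_mahler (p : ℂ[X]) (hp : p ≠ 0) (g : ℝ → ℝ) (hg : Continuous g) :
    Real.exp ((2 * π)⁻¹ * ∫ θ in (0)..(2 * π), g θ) * ‖p.leadingCoeff‖ ^ 2 ≤
      (2 * π)⁻¹ * ∫ θ in (0)..(2 * π), Real.exp (g θ) * ‖p.eval (circleMap 0 1 θ)‖ ^ 2 := by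
  have hpi : (0 : ℝ) < 2 * π := by positivity
  have hae : ∀ᵐ (θ : ℝ) ∂volume.restrict (uIoc 0 (2 * π)), 0 < ‖p.eval (circleMap 0 1 θ)‖ := by
    rw [ae_restrict_iff' measurableSet_uIoc]
    refine Set.Finite.measure_zero ?_ _
    simp only [norm_pos_iff, ne_eq, compl_ofPred, Classical.not_imp, Decidable.not_not]
    refine Finite.of_finite_image (f := circleMap 0 1) (p.roots.finite_toSet.subset ?_) ?_
    · rintro z ⟨θ, ⟨_, heval⟩, rfl⟩
      exact (mem_roots hp).mpr heval
    · grw [ofPred_and, inter_subset_left]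
      exact injOn_circleMap_of_abs_sub_le one_ne_zero (by simp [abs_of_pos Real.pi_pos])
  have hlogI := p.intervalIntegrable_mahlerMeasure
  have hgI : IntervalIntegrable g volume 0 (2 * π) := hg.intervalIntegrable _ _
  have hcont : Continuous (fun θ : ℝ ↦ Real.exp (g θ) * ‖p.eval (circleMap 0 1 θ)‖ ^ 2) := by
    fun_prop
  have hRI : IntervalIntegrable (fun θ : ℝ ↦ Real.exp (g θ) * ‖p.eval (circleMap 0 1 θ)‖ ^ 2)
      volume 0 (2 * π) := hcont.intervalIntegrable _ _
  set a : ℝ := (2 * π)⁻¹ * ∫ θ in (0)..(2 * π), g θ with ha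
  set b : ℝ := (2 * π)⁻¹ * ∫ θ in (0)..(2 * π), Real.log ‖p.eval (circleMap 0 1 θ)‖ with hb
  have hM : ‖p.leadingCoeff‖ ≤ Real.exp b := by
    have h := p.leadingCoeff_le_mahlerMeasure
    rwa [mahlerMeasure_def_of_ne_zero hp] at h
  have hLI : IntervalIntegrable (fun θ : ℝ ↦ Real.exp (a + 2 * b) *
      ((1 - (a + 2 * b)) + (g θ + 2 * Real.log ‖p.eval (circleMap 0 1 θ)‖))) volume 0 (2 * π) := by
    apply IntervalIntegrable.const_mul
    apply IntervalIntegrable.add
    · exact continuous_const.intervalIntegrable _ _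
    · exact hgI.add (hlogI.const_mul 2)
  have key := intervalIntegral.integral_mono_ae_restrict (a := 0) (b := 2 * π) (μ := volume)
    hpi.le hLI hRI (by
      rw [uIoc_of_le hpi.le] at hae
      have : (volume.restrict (Icc 0 (2 * π))) = volume.restrict (Ioc 0 (2 * π)) :=
        Measure.restrict_congr_set Ioc_ae_eq_Icc.symm
      rw [this]
      filter_upwards [hae] with θ hθ
      have h1 : Real.exp (g θ) * ‖p.eval (circleMap 0 1 θ)‖ ^ 2 =
          Real.exp (a + 2 * b) * Real.exp (g θ + 2 * Real.log ‖p.eval (circleMap 0 1 θ)‖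
            - (a + 2 * b)) := by
        rw [← Real.exp_add, show a + 2 * b + (g θ + 2 * Real.log ‖p.eval (circleMap 0 1 θ)‖
            - (a + 2 * b)) = g θ + 2 * Real.log ‖p.eval (circleMap 0 1 θ)‖ by ring, Real.exp_add]
        congr 1
        rw [show 2 * Real.log ‖p.eval (circleMap 0 1 θ)‖ =
          ((2 : ℕ) : ℝ) * Real.log ‖p.eval (circleMap 0 1 θ)‖ by norm_num, Real.exp_nat_mul,
          Real.exp_log hθ]
      rw [h1]
      apply mul_le_mul_of_nonneg_left _ (Real.exp_pos _).le
      have := Real.add_one_le_exp (g θ + 2 * Real.log ‖p.eval (circleMap 0 1 θ)‖ - (a + 2 * b))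
      linarith)
  rw [intervalIntegral.integral_const_mul, intervalIntegral.integral_add
    (continuous_const.intervalIntegrable _ _) (hgI.add (hlogI.const_mul 2)),
    intervalIntegral.integral_add hgI (hlogI.const_mul 2), intervalIntegral.integral_const_mul,
    intervalIntegral.integral_const] at key
  have h2 : ∫ θ in (0)..(2 * π), g θ = 2 * π * a := by
    rw [ha]; field_simp
  have h3 : ∫ θ in (0)..(2 * π), Real.log ‖p.eval (circleMap 0 1 θ)‖ = 2 * π * b := by
    rw [hb]; field_simp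
  rw [h2, h3, smul_eq_mul] at key
  have h4 : Real.exp (a + 2 * b) * ((2 * π - 0) * (1 - (a + 2 * b)) +
      (2 * π * a + 2 * (2 * π * b))) = 2 * π * Real.exp (a + 2 * b) := by ring
  rw [h4] at key
  have h5 : Real.exp (a + 2 * b) ≤
      (2 * π)⁻¹ * ∫ θ in (0)..(2 * π), Real.exp (g θ) * ‖p.eval (circleMap 0 1 θ)‖ ^ 2 := by
    rw [inv_mul_eq_div, le_div_iff₀ hpi]
    linarith
  refine le_trans ?_ h5
  rw [Real.exp_add, show 2 * b = ((2 : ℕ) : ℝ) * b by norm_num, Real.exp_nat_mul]
  gcongr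

end Pool.Agent.MP_f7f40d_pr
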