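import Pool.Agent.MP_f7f40d_pr.Pivot

set_option autoImplicit false

namespace Pool.Agent.MP_f7f40d_pr

open Function
open scoped Real

variable {k : ℕ}

/-- The partial transform `(TT c w)(y) = ∑_j c(j) w(j, y)`. -/
noncomputable def TT (c : ℤ → ℝ) : FE (k + 1) →ₗ[ℝ] FE k :=
  Finsupp.lsum ℝ (fun x : Fin (k + 1) → ℤ => (c (x 0)) • (Finsupp.lsingle (Fin.tail x)))

theorem TT_single (c : ℤ → ℝ) (x : Fin (k + 1) → ℤ) (a : ℝ) :
    TT c (Finsupp.single x a) = Finsupp.single (Fin.tail x) (c (x 0) * a) := by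
  simp [TT]

theorem sh_single (a x : Fin k → ℤ) (b : ℝ) :
    sh a (Finsupp.single x b) = Finsupp.single (x + a) b := by
  ext y
  rw [sh_apply, Finsupp.single_apply, Finsupp.single_apply]
  congr 1
  rw [eq_iff_iff]
  constructor
  · rintro rfl; simp
  · rintro rfl; simp

theorem tail_add_zero (x : Fin (k + 1) → ℤ) (t : ℤ) :
    Fin.tail (x + Pi.single 0 t) = Fin.tail x := by
  funext i
  simp [Fin.tail]

theorem tail_add_succ (x : Fin (k + 1) → ℤ) (i : Fin k) (t : ℤ) :
    Fin.tail (x + Pi.single i.succ t) = Fin.tail x + Pi.single i t := by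
  funext l
  simp [Fin.tail, Pi.single_apply, Fin.succ_inj]

theorem neg_single (i : Fin k) :
    -(Pi.single i (1 : ℤ) : Fin k → ℤ) = (Pi.single i (-1 : ℤ) : Fin k → ℤ) := by
  rw [Pi.single_neg]

theorem lapF_single (x : Fin k → ℤ) (a : ℝ) :
    lapF k (Finsupp.single x a) = ∑ i : Fin k, ((2 : ℝ) • Finsupp.single x a
      - Finsupp.single (x + Pi.single i 1) a - Finsupp.single (x + Pi.single i (-1)) a) := by
  simp only [lapF, LinearMap.sum_apply, LinearMap.sub_apply, LinearMap.smul_apply,
    LinearMap.id_apply, sh_single, neg_single]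

/-- The transform intertwines the Laplacians. -/
theorem TT_lap (c : ℤ → ℝ) {μ : ℝ} (hc : ∀ j, c (j + 1) + c (j - 1) = (2 - μ) * c j)
    (w : FE (k + 1)) : TT c (lapF (k + 1) w) = μ • TT c w + lapF k (TT c w) := by
  have : (TT c).comp (lapF (k + 1)) = μ • (TT c : FE (k + 1) →ₗ[ℝ] FE k) + (lapF k).comp (TT c) := by
    apply Finsupp.lhom_ext
    intro x a
    simp only [LinearMap.comp_apply, LinearMap.add_apply, LinearMap.smul_apply]
    rw [lapF_single, Fin.sum_univ_succ, map_add, map_sum, TT_single, lapF_single]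
    simp only [map_sub, map_smul, TT_single, tail_add_zero, tail_add_succ]
    congr 1
    · have h := hc (x 0)
      rw [Finsupp.smul_single, Finsupp.smul_single, ← Finsupp.single_sub, ← Finsupp.single_sub]
      congr 1
      simp only [Pi.add_apply, Pi.single_eq_same, smul_eq_mul]
      rw [← sub_eq_add_neg]
      have : c (x 0 + 1) = (2 - μ) * c (x 0) - c (x 0 - 1) := by linarith
      rw [this]
      ring
    · apply Finset.sum_congr rfl
      intro i _
      simp
  exact LinearMap.congr_fun this w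

theorem ip_single (x y : Fin k → ℤ) (a b : ℝ) :
    ip k (Finsupp.single x a) (Finsupp.single y b) = if x = y then a * b else 0 := by
  rw [ip_eq_sum _ _ {x} Finsupp.support_single_subset, Finset.sum_singleton]
  simp only [Finsupp.single_eq_same, Finsupp.single_apply, eq_comm (a := y)]
  split_ifs <;> simp

theorem TT_eq_sum (c : ℤ → ℝ) (w : FE (k + 1)) :
    TT c w = ∑ x ∈ w.support, Finsupp.single (Fin.tail x) (c (x 0) * w x) := by
  conv_lhs => rw [← Finsupp.sum_single w]
  rw [Finsupp.sum, map_sum]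
  simp only [TT_single]

theorem ip_TT (c : ℤ → ℝ) (u : FE (k + 1)) :
    ip k (TT c u) (TT c u) = ∑ x ∈ u.support, ∑ y ∈ u.support,
      if Fin.tail x = Fin.tail y then u x * u y * (c (x 0) * c (y 0)) else 0 := by
  rw [TT_eq_sum]
  simp only [map_sum, LinearMap.sum_apply, ip_single]
  rw [Finset.sum_comm]
  apply Finset.sum_congr rfl
  intro x _
  apply Finset.sum_congr rfl
  intro y _
  split_ifs with h1
  · ring
  · rfl

theorem TT_apply (c : ℤ → ℝ) (w : FE (k + 1)) (y : Fin k → ℤ) (s : Finset ℤ)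
    (hs : ∀ j, j ∉ s → w (Fin.cons j y) = 0) :
    TT c w y = ∑ j ∈ s, c j * w (Fin.cons j y) := by
  classical
  rw [TT_eq_sum, Finsupp.finsetSum_apply]
  simp only [Finsupp.single_apply]
  rw [← Finset.sum_filter]
  rw [← Finset.sum_filter_of_ne (s := s) (p := fun j => w (Fin.cons j y) ≠ 0)]
  · refine Finset.sum_bij' (fun x _ => x 0) (fun j _ => Fin.cons j y) ?_ ?_ ?_ ?_ ?_
    · intro x hx
      rw [Finset.mem_filter, Finsupp.mem_support_iff] at hx
      have h1 : (Fin.cons (x 0) y : Fin (k + 1) → ℤ) = x := by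
        rw [← hx.2]; exact Fin.cons_self_tail x
      rw [Finset.mem_filter, h1]
      refine ⟨?_, hx.1⟩
      by_contra h
      exact hx.1 (by rw [← h1]; exact hs _ h)
    · intro j hj
      rw [Finset.mem_filter] at hj
      rw [Finset.mem_filter, Finsupp.mem_support_iff]
      exact ⟨hj.2, by simp⟩
    · intro x hx
      rw [Finset.mem_filter] at hx
      rw [← hx.2]; exact Fin.cons_self_tail x
    · intro j _
      simp
    · intro x hx
      rw [Finset.mem_filter] at hx
      have h1 : (Fin.cons (x 0) y : Fin (k + 1) → ℤ) = x := by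
        rw [← hx.2]; exact Fin.cons_self_tail x
      rw [h1]
  · intro j _ h
    exact fun h0 => h (by rw [h0, mul_zero])

/-- The cosine and sine transforms. -/
noncomputable def cs (θ : ℝ) (j : ℤ) : ℝ := Real.cos (j * θ)
noncomputable def sn (θ : ℝ) (j : ℤ) : ℝ := Real.sin (j * θ)

theorem cs_rec (θ : ℝ) (j : ℤ) : cs θ (j + 1) + cs θ (j - 1) = (2 - (2 - 2 * Real.cos θ)) * cs θ j := by
  unfold cs
  push_cast
  rw [add_mul, sub_mul, one_mul, Real.cos_add, Real.cos_sub]
  ring

theorem sn_rec (θ : ℝ) (j : ℤ) : sn θ (j + 1) + sn θ (j - 1) = (2 - (2 - 2 * Real.cos θ)) * sn θ j := by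
  unfold sn
  push_cast
  rw [add_mul, sub_mul, one_mul, Real.sin_add, Real.sin_sub]
  ring

/-- The integrand of Parseval's formula. -/
theorem ip_cs_sn (θ : ℝ) (u : FE (k + 1)) :
    ip k (TT (cs θ) u) (TT (cs θ) u) + ip k (TT (sn θ) u) (TT (sn θ) u) =
      ∑ x ∈ u.support, ∑ y ∈ u.support,
      if Fin.tail x = Fin.tail y then u x * u y * Real.cos ((x 0 - y 0 : ℤ) * θ) else 0 := by
  rw [ip_TT, ip_TT, ← Finset.sum_add_distrib]
  apply Finset.sum_congr rfl
  intro x _
  rw [← Finset.sum_add_distrib]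
  apply Finset.sum_congr rfl
  intro y _
  split_ifs with h
  · unfold cs sn
    push_cast
    rw [sub_mul, Real.cos_sub]
    ring
  · simp

theorem integral_cos_int (n : ℤ) : ∫ θ in (0)..(2 * π), Real.cos (n * θ) = if n = 0 then 2 * π else 0 := by
  split_ifs with h
  · subst h
    simp
  · have hn : (n : ℝ) ≠ 0 := by exact_mod_cast h
    rw [intervalIntegral.integral_comp_mul_left (fun x => Real.cos x) hn, integral_cos]
    have h1 : Real.sin ((n : ℝ) * (2 * π)) = 0 := by
      have := Real.sin_int_mul_pi (n * 2)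
      push_cast at this
      rw [← this]; ring_nf
    rw [h1]
    simp

theorem parseval_slices (u : FE (k + 1)) :
    ip (k + 1) u u = (2 * π)⁻¹ * ∫ θ in (0)..(2 * π),
      (ip k (TT (cs θ) u) (TT (cs θ) u) + ip k (TT (sn θ) u) (TT (sn θ) u)) := by
  simp_rw [ip_cs_sn]
  have hc : ∀ x y : Fin (k + 1) → ℤ, Continuous fun θ : ℝ =>
      (if Fin.tail x = Fin.tail y then u x * u y * Real.cos ((x 0 - y 0 : ℤ) * θ) else 0) := by
    intro x y
    split_ifs
    · fun_prop
    · exact continuous_const
  rw [intervalIntegral.integral_finsetSum (fun x _ => (continuous_finsetSum _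
    (fun y _ => hc x y)).intervalIntegrable _ _)]
  have h1 : ∀ x ∈ u.support, ∫ θ in (0)..(2 * π), (∑ y ∈ u.support,
      if Fin.tail x = Fin.tail y then u x * u y * Real.cos ((x 0 - y 0 : ℤ) * θ) else 0) =
      2 * π * (u x * u x) := by
    intro x hx
    rw [intervalIntegral.integral_finsetSum (fun y _ => (hc x y).intervalIntegrable _ _)]
    rw [Finset.sum_eq_single_of_mem x hx]
    · simp
      ring
    · intro y _ hyx
      by_cases h : Fin.tail x = Fin.tail y
      · simp only [h, if_true]
        rw [intervalIntegral.integral_const_mul, integral_cos_int, if_neg, mul_zero]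
        intro h0
        apply hyx
        rw [← Fin.cons_self_tail x, ← Fin.cons_self_tail y, h]
        congr 1
        omega
      · simp [h]
  rw [Finset.sum_congr rfl h1, ← Finset.mul_sum, ip_def]
  have hpi : (2 * π) ≠ 0 := by positivity
  field_simp

end Pool.Agent.MP_f7f40d_pr
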