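import Pool.Agent.MP_f7f40d_pr.Sm1
import Pool.Agent.MP_f7f40d_pr.Sm2

set_option autoImplicit false

namespace Pool.Agent.MP_f7f40d_pr

open Function Polynomial
open scoped Real

variable {k : ℕ}

/-- Pivot bounds with a pivot that does not depend on the mass `s`. -/
def PB (k : ℕ) (L : ℝ → ℝ) : Prop :=
  ∀ V : Finset (Fin k → ℤ), V.Nonempty → ∃ x ∈ V, ∀ s : ℝ, 0 ≤ s → ∀ w : FE k, w.support ⊆ V →
    Real.exp (L s) * (w x) ^ 2 ≤ ip k (s • w + lapF k w) (s • w + lapF k w)

theorem TT_support (c : ℤ → ℝ) (w : FE (k + 1)) (V : Finset (Fin (k + 1) → ℤ))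
    (hw : w.support ⊆ V) : (TT c w).support ⊆ V.image Fin.tail := by
  classical
  intro y hy
  rw [Finsupp.mem_support_iff, TT_eq_sum, Finsupp.finsetSum_apply] at hy
  obtain ⟨x, hx, hxy⟩ := Finset.exists_ne_zero_of_sum_ne_zero hy
  rw [Finsupp.single_apply] at hxy
  split_ifs at hxy with h
  · rw [← h]
    exact Finset.mem_image_of_mem _ (hw hx)
  · exact absurd rfl hxy

theorem pb_step {L : ℝ → ℝ} (hL : Continuous L) (h : PB k L) :
    PB (k + 1) (fun s => (2 * π)⁻¹ * ∫ θ in (0)..(2 * π), L (s + (2 - 2 * Real.cos θ))) := by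
  classical
  intro V hV
  obtain ⟨x', hx', hpiv⟩ := h (V.image Fin.tail) (hV.image _)
  have hne : (V.filter fun x => Fin.tail x = x').Nonempty := by
    obtain ⟨x, hx, hxx⟩ := Finset.mem_image.mp hx'
    exact ⟨x, Finset.mem_filter.mpr ⟨hx, hxx⟩⟩
  obtain ⟨x, hx, hmax⟩ := Finset.exists_max_image _ (fun x => x 0) hne
  rw [Finset.mem_filter] at hx
  refine ⟨x, hx.1, ?_⟩
  intro s hs w hw
  set J : ℤ := x 0 with hJ
  have hxJ : (Fin.cons J x' : Fin (k + 1) → ℤ) = x := by
    rw [← hx.2]; exact Fin.cons_self_tail x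
  by_cases hwx : w x = 0
  · rw [hwx]
    have := ip_nonneg (s • w + lapF (k + 1) w)
    simpa using this
  set D : ℕ := V.sup (fun z => (J - z 0).toNat) with hD
  have hDle : ∀ z ∈ V, J - z 0 ≤ D := by
    intro z hz
    have h1 : (J - z 0).toNat ≤ D := Finset.le_sup (f := fun z => (J - z 0).toNat) hz
    have h2 := Int.self_le_toNat (J - z 0)
    omega
  set c : ℕ → ℝ := fun n => w (Fin.cons (J - D + n) x') with hc
  have hcD : c D = w x := by
    rw [hc]
    simp only [sub_add_cancel, hxJ]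
  have hvan : ∀ j : ℤ, j ∉ (Finset.range (D + 1)).image (fun n : ℕ => J - D + (n : ℤ)) →
      w (Fin.cons j x') = 0 := by
    intro j hj
    by_contra hne0
    have hmem : (Fin.cons j x' : Fin (k + 1) → ℤ) ∈ V := hw (Finsupp.mem_support_iff.mpr hne0)
    have h1 := hDle _ hmem
    have h2 := hmax (Fin.cons j x') (Finset.mem_filter.mpr ⟨hmem, by simp⟩)
    simp only [Fin.cons_zero] at h1 h2
    apply hj
    rw [Finset.mem_image]
    refine ⟨(j - (J - D)).toNat, ?_, ?_⟩
    · rw [Finset.mem_range]; omega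
    · rw [Int.toNat_of_nonneg (by omega)]; ring
  have hTT : ∀ f : ℤ → ℝ, TT f w x' = ∑ n ∈ Finset.range (D + 1), f (J - D + n) * c n := by
    intro f
    rw [TT_apply f w x' _ hvan, Finset.sum_image]
    intro a _ b _ hab
    have : (a : ℤ) = b := by
      simp only at hab
      omega
    exact_mod_cast this
  -- the polynomial
  set p : ℂ[X] := ∑ n ∈ Finset.range (D + 1), C ((c n : ℝ) : ℂ) * X ^ n with hp
  have hcoeff : p.coeff D = ((w x : ℝ) : ℂ) := by
    rw [hp, Polynomial.finsetSum_coeff]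
    simp only [coeff_C_mul, coeff_X_pow]
    rw [Finset.sum_eq_single_of_mem D (Finset.self_mem_range_succ D)]
    · simp [hcD]
    · intro b _ hb
      simp [Ne.symm hb]
  have hnat : p.natDegree ≤ D := by
    rw [hp]
    apply Polynomial.natDegree_sum_le_of_forall_le
    intro n hn
    rw [Finset.mem_range] at hn
    exact (natDegree_C_mul_X_pow_le _ _).trans (by omega)
  have hcne : p.coeff D ≠ 0 := by
    rw [hcoeff]; exact_mod_cast hwx
  have hdeg : p.natDegree = D := natDegree_eq_of_le_of_coeff_ne_zero hnat hcne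
  have hlead : p.leadingCoeff = ((w x : ℝ) : ℂ) := by
    rw [leadingCoeff, hdeg, hcoeff]
  have hp0 : p ≠ 0 := by
    intro h0
    rw [h0] at hcne
    simp at hcne
  have hnorm : ∀ θ : ℝ, ‖p.eval (circleMap 0 1 θ)‖ ^ 2 =
      (TT (cs θ) w x') ^ 2 + (TT (sn θ) w x') ^ 2 := by
    intro θ
    have e1 : p.eval (circleMap 0 1 θ) = ∑ n ∈ Finset.range (D + 1),
        ((c n : ℝ) : ℂ) * Complex.exp ((n : ℝ) * θ * Complex.I) := by
      rw [hp, Polynomial.eval_finsetSum]
      apply Finset.sum_congr rfl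
      intro n _
      rw [eval_mul, eval_C, eval_pow, eval_X]
      simp only [circleMap, zero_add, Complex.ofReal_one, one_mul]
      rw [← Complex.exp_nat_mul]
      push_cast
      ring_nf
    have e2 : Complex.exp (((J - D : ℤ) : ℝ) * θ * Complex.I) * p.eval (circleMap 0 1 θ) =
        ((TT (cs θ) w x' : ℝ) : ℂ) + ((TT (sn θ) w x' : ℝ) : ℂ) * Complex.I := by
      rw [e1, hTT, hTT, Finset.mul_sum]
      push_cast
      rw [Finset.sum_mul, ← Finset.sum_add_distrib]
      apply Finset.sum_congr rfl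
      intro n _
      have e3 : Complex.exp (((J : ℂ) - D) * θ * Complex.I) * (((c n : ℝ) : ℂ) *
          Complex.exp ((n : ℂ) * θ * Complex.I)) = ((c n : ℝ) : ℂ) *
          Complex.exp (((J : ℂ) - D + n) * θ * Complex.I) := by
        rw [show ((J : ℂ) - D + n) * θ * Complex.I = ((J : ℂ) - D) * θ * Complex.I +
          (n : ℂ) * θ * Complex.I by ring, Complex.exp_add]
        ring
      rw [e3, Complex.exp_mul_I]
      unfold cs sn
      push_cast
      ring
    have e4 : ‖Complex.exp (((J - D : ℤ) : ℝ) * θ * Complex.I)‖ = 1 := by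
      have : (((J - D : ℤ) : ℝ) * θ * Complex.I : ℂ) = ((((J - D : ℤ) : ℝ) * θ : ℝ) : ℂ) * Complex.I := by
        push_cast; ring
      rw [this]
      exact Complex.norm_exp_ofReal_mul_I _
    have e5 : ‖p.eval (circleMap 0 1 θ)‖ = ‖((TT (cs θ) w x' : ℝ) : ℂ) +
        ((TT (sn θ) w x' : ℝ) : ℂ) * Complex.I‖ := by
      rw [← e2, norm_mul, e4, one_mul]
    rw [e5, ← Complex.normSq_eq_norm_sq, Complex.normSq_add_mul_I]
  have hJM := jensen_mahler p hp0 (fun θ => L (s + (2 - 2 * Real.cos θ))) (by fun_prop)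
  rw [hlead] at hJM
  have hlw : ‖((w x : ℝ) : ℂ)‖ ^ 2 = (w x) ^ 2 := by
    rw [Complex.norm_real, Real.norm_eq_abs, sq_abs]
  rw [hlw] at hJM
  refine hJM.trans ?_
  rw [parseval_slices]
  have hpi : (0 : ℝ) < 2 * π := by positivity
  apply mul_le_mul_of_nonneg_left _ (by positivity)
  apply intervalIntegral.integral_mono_on hpi.le
  · apply Continuous.intervalIntegrable
    fun_prop
  · apply Continuous.intervalIntegrable
    simp_rw [ip_cs_sn]
    apply continuous_finsetSum
    intro a _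
    apply continuous_finsetSum
    intro b _
    split_ifs
    · fun_prop
    · exact continuous_const
  · intro θ _
    simp only [hnorm]
    have hs' : 0 ≤ s + (2 - 2 * Real.cos θ) := by
      have := Real.cos_le_one θ
      linarith
    have hcsu : TT (cs θ) (s • w + lapF (k + 1) w) =
        (s + (2 - 2 * Real.cos θ)) • TT (cs θ) w + lapF k (TT (cs θ) w) := by
      rw [map_add, map_smul, TT_lap (cs θ) (μ := 2 - 2 * Real.cos θ) (cs_rec θ), add_smul]
      abel
    have hsnu : TT (sn θ) (s • w + lapF (k + 1) w) =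
        (s + (2 - 2 * Real.cos θ)) • TT (sn θ) w + lapF k (TT (sn θ) w) := by
      rw [map_add, map_smul, TT_lap (sn θ) (μ := 2 - 2 * Real.cos θ) (sn_rec θ), add_smul]
      abel
    rw [hcsu, hsnu, mul_add]
    exact add_le_add (hpiv _ hs' _ (TT_support _ _ _ hw)) (hpiv _ hs' _ (TT_support _ _ _ hw))

/-- The logarithm of the one-dimensional pivot. -/
noncomputable def FF (s : ℝ) : ℝ := 2 * Real.arsinh (Real.sqrt s / 2)

theorem FF_continuous : Continuous FF := by
  unfold FF
  exact continuous_const.mul (Real.continuous_arsinh.comp (by fun_prop))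

theorem exp_FF {s : ℝ} (hs : 0 ≤ s) : Real.exp (FF s) + 1 / Real.exp (FF s) = s + 2 := by
  unfold FF
  rw [one_div, ← Real.exp_neg]
  have h1 : Real.exp (2 * Real.arsinh (Real.sqrt s / 2)) + Real.exp (-(2 * Real.arsinh (Real.sqrt s / 2)))
      = 2 * Real.cosh (2 * Real.arsinh (Real.sqrt s / 2)) := by
    rw [Real.cosh_eq]; ring
  rw [h1, Real.cosh_two_mul, Real.cosh_sq, Real.sinh_arsinh, div_pow, Real.sq_sqrt hs]
  ring

theorem pb_one : PB 1 (fun s => 2 * FF s) := by
  intro V hV
  obtain ⟨x0, hx0, hmax⟩ := Finset.exists_max_image V (fun x => x 0) hV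
  refine ⟨x0, hx0, ?_⟩
  intro s hs w hw
  set J := x0 0 with hJ
  set r := Real.exp (FF s) with hr
  have hrpos : 0 < r := Real.exp_pos _
  have hreq : r + 1 / r = s + 2 := exp_FF hs
  set W : ℤ → FE 0 := fun j => sl j w with hW
  have hWfin : (support W).Finite := sl_finite w
  have htop : ∀ j, J < j → W j = 0 := by
    intro j hj
    refine Finsupp.ext fun y => ?_
    simp only [hW, sl_apply, Finsupp.coe_zero, Pi.zero_apply]
    by_contra h
    have h1 : (Fin.cons j y : Fin (0 + 1) → ℤ) ∈ V := hw (Finsupp.mem_support_iff.mpr h)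
    have := hmax _ h1
    have h2 : (Fin.cons j y : Fin (0 + 1) → ℤ) 0 = j := rfl
    rw [h2] at this
    omega
  have b1 := (seq_bound (ip 0) ip_comm ip_nonneg hWfin htop hrpos).2
  rw [ip_slices]
  have hl : ∀ f : FE 0, lapF 0 f = 0 := by
    intro f
    ext; rw [lapF_apply]; simp
  have hsl : ∀ j, sl j (s • w + lapF 1 w) = (r + 1 / r) • W j - W (j - 1) - W (j + 1) := by
    intro j
    rw [map_add, map_smul, sl_lap, hreq, add_smul, hl]
    simp only [hW]
    abel
  simp_rw [hsl]
  refine le_trans (le_of_eq ?_) b1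
  have e1 : ip 0 (W J) (W J) = (w x0) ^ 2 := by
    rw [ip_eq_sum _ _ Finset.univ (Finset.subset_univ _)]
    have hx2 : ∀ z : Fin 0 → ℤ, W J z = w x0 := by
      intro z
      have hx : (Fin.cons J z : Fin (0 + 1) → ℤ) = x0 := by
        rw [show z = Fin.tail x0 from Subsingleton.elim _ _]
        exact Fin.cons_self_tail x0
      exact congrArg w hx
    rw [Finset.univ_unique, Finset.sum_singleton, hx2]
    ring
  rw [e1, hr, ← Real.exp_nat_mul]
  norm_num

end Pool.Agent.MP_f7f40d_pr
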