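import Pool.Agent.MP_f7f40d_pr.Sm3

set_option autoImplicit false

namespace Pool.Agent.MP_f7f40d_pr

open Function Polynomial MeasureTheory
open scoped Real

theorem FF_zero : FF 0 = 0 := by simp [FF]

theorem FF_nonneg (s : ℝ) : 0 ≤ FF s := by
  unfold FF
  have : 0 ≤ Real.arsinh (Real.sqrt s / 2) := Real.arsinh_nonneg_iff.mpr (by positivity)
  linarith

theorem FF_pos {s : ℝ} (hs : 0 < s) : 0 < FF s := by
  unfold FF
  have : 0 < Real.arsinh (Real.sqrt s / 2) := Real.arsinh_pos_iff.mpr (by positivity)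
  linarith

theorem norm_sub_circle (R θ : ℝ) :
    ‖circleMap 0 1 θ - (R : ℂ)‖ ^ 2 = R ^ 2 - 2 * R * Real.cos θ + 1 := by
  have h1 : circleMap 0 1 θ - (R : ℂ) = ((Real.cos θ - R : ℝ) : ℂ) + ((Real.sin θ : ℝ) : ℂ) * Complex.I := by
    simp only [circleMap, zero_add, Complex.ofReal_one, one_mul, Complex.exp_mul_I]
    push_cast
    ring
  rw [h1, ← Complex.normSq_eq_norm_sq, Complex.normSq_add_mul_I]
  nlinarith [Real.sin_sq_add_cos_sq θ]

/-- `s + 2 - 2 cos θ = |e^{iθ} - R|² / R`. -/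
theorem log_shift {s : ℝ} (hs : 0 ≤ s) (θ : ℝ) : Real.log (s + 2 - 2 * Real.cos θ) =
    2 * Real.log ‖circleMap 0 1 θ - (Real.exp (FF s) : ℂ)‖ - FF s := by
  set R := Real.exp (FF s) with hR
  have hR0 : 0 < R := Real.exp_pos _
  have hRe : R + 1 / R = s + 2 := exp_FF hs
  have h1 : ‖circleMap 0 1 θ - ((R : ℝ) : ℂ)‖ ^ 2 = R * (s + 2 - 2 * Real.cos θ) := by
    rw [norm_sub_circle, ← hRe]
    field_simp
    ring
  have hcast : (Complex.exp ((FF s : ℝ) : ℂ)) = ((R : ℝ) : ℂ) := by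
    rw [hR, Complex.ofReal_exp]
  rcases eq_or_ne (‖circleMap 0 1 θ - ((R : ℝ) : ℂ)‖) 0 with h0 | h0
  · have h2 : s + 2 - 2 * Real.cos θ = 0 := by
      rw [h0] at h1
      have : R * (s + 2 - 2 * Real.cos θ) = 0 := by rw [← h1]; norm_num
      rcases mul_eq_zero.mp this with h | h
      · exact absurd h hR0.ne'
      · exact h
    have h3 : s = 0 := by
      have := Real.cos_le_one θ
      linarith
    have h4 : FF s = 0 := by rw [h3, FF_zero]
    rw [h2, h0, h4]
    simp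
  · have hpos : 0 < ‖circleMap 0 1 θ - ((R : ℝ) : ℂ)‖ := lt_of_le_of_ne (norm_nonneg _) h0.symm
    have h2 : s + 2 - 2 * Real.cos θ = ‖circleMap 0 1 θ - ((R : ℝ) : ℂ)‖ ^ 2 / R := by
      rw [h1]; field_simp
    rw [h2, Real.log_div (by positivity) hR0.ne', Real.log_pow, hR, Real.log_exp]
    norm_num

theorem log_integrable {s : ℝ} (hs : 0 ≤ s) :
    IntervalIntegrable (fun θ : ℝ => Real.log (s + 2 - 2 * Real.cos θ)) volume 0 (2 * π) := by
  simp_rw [log_shift hs]
  have h := (X - C ((Real.exp (FF s) : ℝ) : ℂ)).intervalIntegrable_mahlerMeasure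
  simp only [eval_sub, eval_X, eval_C] at h
  exact (h.const_mul 2).sub (continuous_const.intervalIntegrable _ _)

theorem avg_log {s : ℝ} (hs : 0 ≤ s) :
    (2 * π)⁻¹ * ∫ θ in (0)..(2 * π), Real.log (s + 2 - 2 * Real.cos θ) = FF s := by
  simp_rw [log_shift hs]
  have h := (X - C ((Real.exp (FF s) : ℝ) : ℂ)).intervalIntegrable_mahlerMeasure
  have h2 := logMahlerMeasure_X_sub_C ((Real.exp (FF s) : ℝ) : ℂ)
  rw [logMahlerMeasure_def, Real.circleAverage_def] at h2
  simp only [eval_sub, eval_X, eval_C, smul_eq_mul] at h h2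
  rw [intervalIntegral.integral_sub (h.const_mul 2) (continuous_const.intervalIntegrable _ _),
    intervalIntegral.integral_const_mul, intervalIntegral.integral_const, smul_eq_mul]
  have hpi : (2 * π) ≠ 0 := by positivity
  have h3 : Real.posLog ‖((Real.exp (FF s) : ℝ) : ℂ)‖ = FF s := by
    rw [Complex.norm_real, Real.norm_eq_abs, abs_of_pos (Real.exp_pos _), Real.posLog_eq_log,
      Real.log_exp]
    rw [abs_of_pos (Real.exp_pos _)]
    exact Real.one_le_exp (FF_nonneg s)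
  rw [h3] at h2
  have h4 : (2 * π)⁻¹ * (2 * (∫ θ in (0)..(2 * π), Real.log ‖circleMap 0 1 θ -
      ((Real.exp (FF s) : ℝ) : ℂ)‖) - (2 * π - 0) * FF s) =
      2 * ((2 * π)⁻¹ * ∫ θ in (0)..(2 * π), Real.log ‖circleMap 0 1 θ -
      ((Real.exp (FF s) : ℝ) : ℂ)‖) - FF s := by
    field_simp
    ring
  rw [h4, h2]
  ring

/-- The finite product over the roots of unity. -/
theorem prod_roots (N : ℕ) (hN : 0 < N) {R : ℝ} (hR : 0 < R) :
    ∏ j ∈ Finset.range N, (R * (R + 1 / R - 2 * Real.cos (2 * π * j / N))) = (R ^ N - 1) ^ 2 := by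
  have hN0 : (N : ℂ) ≠ 0 := by exact_mod_cast hN.ne'
  have hζ := Complex.isPrimitiveRoot_exp N hN.ne'
  have h1 := X_pow_sub_C_eq_prod hζ (α := 1) (a := 1) hN (one_pow N)
  have h2 := congrArg (fun q : ℂ[X] => q.eval ((R : ℝ) : ℂ)) h1
  simp only [eval_sub, eval_pow, eval_X, eval_C, eval_prod, mul_one] at h2
  have h3 : ((R ^ N - 1) ^ 2 : ℝ) = ‖((R : ℝ) : ℂ) ^ N - 1‖ ^ 2 := by
    have : ((R : ℝ) : ℂ) ^ N - 1 = ((R ^ N - 1 : ℝ) : ℂ) := by push_cast; ring
    rw [this, Complex.norm_real, Real.norm_eq_abs, sq_abs]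
  rw [h3, h2, norm_prod, ← Finset.prod_pow]
  apply Finset.prod_congr rfl
  intro j _
  have h4 : Complex.exp (2 * π * Complex.I / N) ^ j = circleMap 0 1 (2 * π * j / N) := by
    rw [← Complex.exp_nat_mul]
    simp only [circleMap, zero_add, Complex.ofReal_one, one_mul]
    push_cast
    congr 1
    field_simp
  rw [h4, norm_sub_rev, norm_sub_circle]
  field_simp
  ring

theorem sum_log_le (N : ℕ) (hN : 0 < N) {t : ℝ} (ht : 0 < t) :
    ∑ j ∈ Finset.range N, Real.log (t + 2 - 2 * Real.cos (2 * π * j / N)) ≤ N * FF t := by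
  set R := Real.exp (FF t) with hR
  have hR0 : 0 < R := Real.exp_pos _
  have hR1 : 1 < R := Real.one_lt_exp_iff.mpr (FF_pos ht)
  have hRe : R + 1 / R = t + 2 := exp_FF ht.le
  have h1 := prod_roots N hN hR0
  rw [hRe, Finset.prod_mul_distrib, Finset.prod_const, Finset.card_range] at h1
  have hRN : 1 < R ^ N := one_lt_pow₀ hR1 hN.ne'
  have h2 : ∏ j ∈ Finset.range N, (t + 2 - 2 * Real.cos (2 * π * j / N)) ≤ R ^ N := by
    have h3 : R ^ N * ∏ j ∈ Finset.range N, (t + 2 - 2 * Real.cos (2 * π * j / N)) ≤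
        R ^ N * R ^ N := by
      rw [h1]; nlinarith
    exact le_of_mul_le_mul_left h3 (by positivity)
  have hpos : ∀ j ∈ Finset.range N, 0 < t + 2 - 2 * Real.cos (2 * π * j / N) := by
    intro j _
    have := Real.cos_le_one (2 * π * j / N)
    linarith
  rw [← Real.log_prod (fun j hj => (hpos j hj).ne')]
  calc Real.log (∏ j ∈ Finset.range N, (t + 2 - 2 * Real.cos (2 * π * j / N)))
      ≤ Real.log (R ^ N) := Real.log_le_log (Finset.prod_pos hpos) h2
    _ = N * FF t := by rw [Real.log_pow, hR, Real.log_exp]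

/-- Discretised iterated averages. -/
noncomputable def LL (N : ℕ) : ℕ → ℝ → ℝ
  | 0, s => FF s
  | (k + 1), s => (1 / N) * ∑ j ∈ Finset.range N, LL N k (s + (2 - 2 * Real.cos (2 * π * j / N)))

theorem LL_continuous (N k : ℕ) : Continuous (LL N k) := by
  induction k with
  | zero => exact FF_continuous
  | succ k ih =>
    have e : LL N (k + 1) = fun s => (1 / (N : ℝ)) * ∑ j ∈ Finset.range N,
        LL N k (s + (2 - 2 * Real.cos (2 * π * j / N))) := rfl
    rw [e]
    fun_prop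

theorem two_sub_cos_nonneg (θ : ℝ) : 0 ≤ 2 - 2 * Real.cos θ := by
  have := Real.cos_le_one θ
  linarith

theorem c1_base (N : ℕ) (hN : 0 < N) {s : ℝ} (hs : 0 ≤ s) :
    LL N 1 s ≤ (2 * π)⁻¹ * ∫ θ in (0)..(2 * π), FF (s + (2 - 2 * Real.cos θ)) := by
  have hpi : (0 : ℝ) < 2 * π := by positivity
  have hNr : (0 : ℝ) < N := by exact_mod_cast hN
  have e1 : LL N 1 s = (1 / N) * ∑ j ∈ Finset.range N, FF (s + (2 - 2 * Real.cos (2 * π * j / N))) :=
    rfl
  have e2 : ∀ j : ℕ, FF (s + (2 - 2 * Real.cos (2 * π * j / N))) = (2 * π)⁻¹ * ∫ θ in (0)..(2 * π),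
      Real.log (s + (2 - 2 * Real.cos (2 * π * j / N)) + 2 - 2 * Real.cos θ) := by
    intro j
    rw [avg_log (add_nonneg hs (two_sub_cos_nonneg _))]
  have hI : ∀ j ∈ Finset.range N, IntervalIntegrable (fun θ : ℝ =>
      Real.log (s + (2 - 2 * Real.cos (2 * π * j / N)) + 2 - 2 * Real.cos θ)) volume 0 (2 * π) :=
    fun j _ => log_integrable (add_nonneg hs (two_sub_cos_nonneg _))
  have hS : IntervalIntegrable (fun θ : ℝ => ∑ j ∈ Finset.range N,
      Real.log (s + (2 - 2 * Real.cos (2 * π * j / N)) + 2 - 2 * Real.cos θ)) volume 0 (2 * π) := by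
    have := IntervalIntegrable.sum (Finset.range N) hI
    have e : (fun θ : ℝ => ∑ j ∈ Finset.range N,
      Real.log (s + (2 - 2 * Real.cos (2 * π * j / N)) + 2 - 2 * Real.cos θ)) =
      ∑ j ∈ Finset.range N, fun θ : ℝ =>
        Real.log (s + (2 - 2 * Real.cos (2 * π * j / N)) + 2 - 2 * Real.cos θ) := by
      funext θ
      rw [Finset.sum_apply]
    rw [e]
    exact this
  rw [e1, Finset.sum_congr rfl (fun j _ => e2 j), ← Finset.mul_sum,
    ← intervalIntegral.integral_finsetSum hI, ← mul_assoc, mul_comm (1 / (N : ℝ)), mul_assoc,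
    ← intervalIntegral.integral_const_mul]
  apply mul_le_mul_of_nonneg_left _ (by positivity)
  apply intervalIntegral.integral_mono_on_of_le_Ioo hpi.le (hS.const_mul _)
    ((FF_continuous.comp (by fun_prop)).intervalIntegrable _ _)
  intro θ hθ
  show _ ≤ FF (s + (2 - 2 * Real.cos θ))
  have hcos : Real.cos θ < 1 := by
    rcases lt_or_eq_of_le (Real.cos_le_one θ) with h | h
    · exact h
    · exfalso
      rw [Real.cos_eq_one_iff_of_lt_of_lt (by linarith [hθ.1, Real.pi_pos]) hθ.2] at h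
      exact hθ.1.ne' h
  have ht : 0 < s + (2 - 2 * Real.cos θ) := by linarith
  have h1 := sum_log_le N hN ht
  have h2 : ∑ j ∈ Finset.range N,
      Real.log (s + (2 - 2 * Real.cos (2 * π * j / N)) + 2 - 2 * Real.cos θ) =
      ∑ j ∈ Finset.range N,
      Real.log (s + (2 - 2 * Real.cos θ) + 2 - 2 * Real.cos (2 * π * j / N)) := by
    apply Finset.sum_congr rfl
    intro j _
    congr 1
    ring
  rw [h2, one_div, inv_mul_eq_div, div_le_iff₀ hNr, mul_comm (FF _)]
  exact h1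

theorem c1 (N : ℕ) (hN : 0 < N) (k : ℕ) : ∀ s : ℝ, 0 ≤ s →
    LL N (k + 1) s ≤ (2 * π)⁻¹ * ∫ θ in (0)..(2 * π), LL N k (s + (2 - 2 * Real.cos θ)) := by
  induction k with
  | zero => intro s hs; exact c1_base N hN hs
  | succ k ih =>
    intro s hs
    have hc : ∀ a : ℝ, Continuous fun θ : ℝ => LL N k (s + (2 - 2 * Real.cos θ) + a) := by
      intro a
      exact (LL_continuous N k).comp (by fun_prop)
    have e1 : ∀ θ : ℝ, LL N (k + 1) (s + (2 - 2 * Real.cos θ)) = (1 / N) * ∑ j ∈ Finset.range N,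
        LL N k (s + (2 - 2 * Real.cos θ) + (2 - 2 * Real.cos (2 * π * j / N))) := fun θ => rfl
    have e2 : LL N (k + 1 + 1) s = (1 / N) * ∑ j ∈ Finset.range N,
        LL N (k + 1) (s + (2 - 2 * Real.cos (2 * π * j / N))) := rfl
    simp_rw [e1]
    rw [intervalIntegral.integral_const_mul, intervalIntegral.integral_finsetSum
      (fun j _ => (hc _).intervalIntegrable _ _), e2, ← mul_assoc, mul_comm (2 * π)⁻¹, mul_assoc,
      Finset.mul_sum (a := (2 * π)⁻¹)]
    apply mul_le_mul_of_nonneg_left _ (by positivity)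
    apply Finset.sum_le_sum
    intro j _
    refine (ih _ (add_nonneg hs (two_sub_cos_nonneg _))).trans (le_of_eq ?_)
    congr 2
    ext θ
    congr 1
    ring

theorem PB.mono {k : ℕ} {L L' : ℝ → ℝ} (h : PB k L) (hL : ∀ s, 0 ≤ s → L' s ≤ L s) : PB k L' := by
  intro V hV
  obtain ⟨x, hx, hxx⟩ := h V hV
  refine ⟨x, hx, fun s hs w hw => le_trans ?_ (hxx s hs w hw)⟩
  gcongr
  exact hL s hs

theorem pb_LL (N : ℕ) (hN : 0 < N) (k : ℕ) : PB (k + 1) (fun s => 2 * LL N k s) := by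
  induction k with
  | zero => exact pb_one
  | succ k ih =>
    refine (pb_step (L := fun s => 2 * LL N k s)
      (continuous_const.mul (LL_continuous N k)) ih).mono ?_
    intro s hs
    rw [intervalIntegral.integral_const_mul]
    have := c1 N hN k s hs
    nlinarith

end Pool.Agent.MP_f7f40d_pr
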