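import Pool.Agent.MP_f7f40d_pr.Dom

set_option autoImplicit false

namespace Pool.Agent.MP_f7f40d_pr

open Set
open scoped Real

/-- Integration of an inequality from `0`. -/
theorem le_of_deriv {f f' : ℝ → ℝ} (hf : ∀ x, HasDerivAt f (f' x) x) (h0 : f 0 = 0)
    (hf' : ∀ x, 0 ≤ x → 0 ≤ f' x) {x : ℝ} (hx : 0 ≤ x) : 0 ≤ f x := by
  have hm : MonotoneOn f (Ici 0) := by
    apply monotoneOn_of_deriv_nonneg (convex_Ici 0)
    · exact fun y _ => (hf y).continuousAt.continuousWithinAt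
    · exact fun y _ => (hf y).differentiableAt.differentiableWithinAt
    · intro y hy
      rw [(hf y).deriv]
      rw [interior_Ici] at hy
      exact hf' y (le_of_lt hy)
  have := hm (mem_Ici.mpr le_rfl) (mem_Ici.mpr hx) hx
  rwa [h0] at this

theorem cos_ge_two (x : ℝ) (_hx : 0 ≤ x) : 0 ≤ Real.cos x - (1 - x ^ 2 / 2) := by
  have := Real.one_sub_sq_div_two_le_cos (x := x)
  linarith

theorem sin_ge_three {x : ℝ} (hx : 0 ≤ x) : 0 ≤ Real.sin x - (x - x ^ 3 / 6) := by
  refine le_of_deriv (f := fun x => Real.sin x - (x - x ^ 3 / 6))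
    (f' := fun x => Real.cos x - (1 - x ^ 2 / 2)) ?_ (by simp) cos_ge_two hx
  intro y
  have h := (Real.hasDerivAt_sin y).sub ((hasDerivAt_id y).sub ((hasDerivAt_pow 3 y).div_const 6))
  exact h.congr_deriv (by simp; try ring)

theorem cos_le_four {x : ℝ} (hx : 0 ≤ x) : 0 ≤ (1 - x ^ 2 / 2 + x ^ 4 / 24) - Real.cos x := by
  refine le_of_deriv (f := fun x => (1 - x ^ 2 / 2 + x ^ 4 / 24) - Real.cos x)
    (f' := fun x => Real.sin x - (x - x ^ 3 / 6)) ?_ (by simp) (fun y hy => sin_ge_three hy) hx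
  intro y
  have h := (((hasDerivAt_const y (1 : ℝ)).sub ((hasDerivAt_pow 2 y).div_const 2)).add
    ((hasDerivAt_pow 4 y).div_const 24)).sub (Real.hasDerivAt_cos y)
  exact h.congr_deriv (by simp; try ring)

theorem sin_le_five {x : ℝ} (hx : 0 ≤ x) : 0 ≤ (x - x ^ 3 / 6 + x ^ 5 / 120) - Real.sin x := by
  refine le_of_deriv (f := fun x => (x - x ^ 3 / 6 + x ^ 5 / 120) - Real.sin x)
    (f' := fun x => (1 - x ^ 2 / 2 + x ^ 4 / 24) - Real.cos x) ?_ (by simp)
    (fun y hy => cos_le_four hy) hx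
  intro y
  have h := (((hasDerivAt_id y).sub ((hasDerivAt_pow 3 y).div_const 6)).add
    ((hasDerivAt_pow 5 y).div_const 120)).sub (Real.hasDerivAt_sin y)
  exact h.congr_deriv (by simp; try ring)

theorem cos_ge_six {x : ℝ} (hx : 0 ≤ x) :
    0 ≤ Real.cos x - (1 - x ^ 2 / 2 + x ^ 4 / 24 - x ^ 6 / 720) := by
  refine le_of_deriv (f := fun x => Real.cos x - (1 - x ^ 2 / 2 + x ^ 4 / 24 - x ^ 6 / 720))
    (f' := fun x => (x - x ^ 3 / 6 + x ^ 5 / 120) - Real.sin x) ?_ (by simp)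
    (fun y hy => sin_le_five hy) hx
  intro y
  have h := (Real.hasDerivAt_cos y).sub ((((hasDerivAt_const y (1 : ℝ)).sub
    ((hasDerivAt_pow 2 y).div_const 2)).add ((hasDerivAt_pow 4 y).div_const 24)).sub
    ((hasDerivAt_pow 6 y).div_const 720))
  exact h.congr_deriv (by simp; try ring)

theorem sin_ge_seven {x : ℝ} (hx : 0 ≤ x) :
    x - x ^ 3 / 6 + x ^ 5 / 120 - x ^ 7 / 5040 ≤ Real.sin x := by
  have := le_of_deriv (f := fun x => Real.sin x - (x - x ^ 3 / 6 + x ^ 5 / 120 - x ^ 7 / 5040))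
    (f' := fun x => Real.cos x - (1 - x ^ 2 / 2 + x ^ 4 / 24 - x ^ 6 / 720)) (by
      intro y
      have h := (Real.hasDerivAt_sin y).sub ((((hasDerivAt_id y).sub
        ((hasDerivAt_pow 3 y).div_const 6)).add ((hasDerivAt_pow 5 y).div_const 120)).sub
        ((hasDerivAt_pow 7 y).div_const 5040))
      exact h.congr_deriv (by simp; try ring)) (by simp) (fun y hy => cos_ge_six hy) hx
  linarith

/-- Rational lower bounds for `sin² (π t)`. -/
theorem sinsq_ge {t s : ℝ} (ht0 : 0 ≤ t) (ht1 : t ≤ 1 / 2) (hs : 0 ≤ s)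
    (h : s ≤ (3.14159 * t) - (3.14159 * t) ^ 3 / 6 + (3.14159 * t) ^ 5 / 120
      - (3.14159 * t) ^ 7 / 5040) : s ^ 2 ≤ Real.sin (π * t) ^ 2 := by
  have hpi := Real.pi_gt_d6
  have h1 : 3.14159 * t ≤ π * t := by
    apply mul_le_mul_of_nonneg_right _ ht0
    linarith
  have h2 : Real.sin (3.14159 * t) ≤ Real.sin (π * t) := by
    apply Real.sin_le_sin_of_le_of_le_pi_div_two _ _ h1
    · have := Real.pi_pos
      nlinarith
    · have := Real.pi_pos
      nlinarith
  have h3 := sin_ge_seven (x := 3.14159 * t) (by positivity)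
  exact pow_le_pow_left₀ hs (by linarith) 2

/-- The elementary inequality behind the chord bound. -/
theorem young_exp {b v : ℝ} (hb : 0 < b) :
    Real.exp (-v) - Real.exp (-((1 + b) * v)) ≤ b / (1 + b) * Real.exp (-(2 / (2 + b))) := by
  have hb1 : 0 < 1 + b := by linarith
  set l : ℝ := 2 * b / (b + 2) with hl
  have hle : Real.exp l ≤ 1 + b := by
    have := Real.le_log_one_add_of_nonneg hb.le
    calc Real.exp l ≤ Real.exp (Real.log (1 + b)) := Real.exp_le_exp.mpr this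
      _ = 1 + b := Real.exp_log hb1
  have e1 : Real.exp (-v) * (1 + (-((1 + b) * v) + l - -v)) ≤ Real.exp (-((1 + b) * v) + l) := by
    have := Real.add_one_le_exp (-((1 + b) * v) + l - -v)
    have h2 : Real.exp (-((1 + b) * v) + l) = Real.exp (-v) * Real.exp (-((1 + b) * v) + l - -v) := by
      rw [← Real.exp_add]; congr 1; ring
    rw [h2]
    apply mul_le_mul_of_nonneg_left _ (Real.exp_pos _).le
    linarith
  have e2 : Real.exp (-v) * (1 + (-(l / b) - -v)) ≤ Real.exp (-(l / b)) := by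
    have := Real.add_one_le_exp (-(l / b) - -v)
    have h2 : Real.exp (-(l / b)) = Real.exp (-v) * Real.exp (-(l / b) - -v) := by
      rw [← Real.exp_add]; congr 1; ring
    rw [h2]
    apply mul_le_mul_of_nonneg_left _ (Real.exp_pos _).le
    linarith
  have e3 : Real.exp (-((1 + b) * v) + l) ≤ (1 + b) * Real.exp (-((1 + b) * v)) := by
    rw [Real.exp_add, mul_comm]
    exact mul_le_mul_of_nonneg_right hle (Real.exp_pos _).le
  have e4 : l / b = 2 / (2 + b) := by
    rw [hl]; field_simp; ring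
  rw [e4] at e2
  have key : (1 + b) * Real.exp (-v) ≤ (1 + b) * Real.exp (-((1 + b) * v)) +
      b * Real.exp (-(2 / (2 + b))) := by
    have e5 : Real.exp (-v) * (1 + (-((1 + b) * v) + l - -v)) +
        b * (Real.exp (-v) * (1 + (-(2 / (2 + b)) - -v))) = (1 + b) * Real.exp (-v) := by
      rw [← e4]
      field_simp
      ring
    nlinarith
  have : b / (1 + b) * Real.exp (-(2 / (2 + b))) = b * Real.exp (-(2 / (2 + b))) / (1 + b) := by
    ring
  rw [this, le_div_iff₀ hb1]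
  nlinarith

/-- The function `S(t) = sin² (π t)` satisfies the chord inequality on `[t0, t1]` if it does at
the endpoints. -/
theorem chord_le {β b σ t0 t1 s0 s1 : ℝ} (hb : 0 < b) (h0 : 0 ≤ t0) (h01 : t0 < t1) (h1 : t1 ≤ 1 / 2)
    (hs0 : s0 ≤ Real.sin (π * t0) ^ 2) (hs1 : s1 ≤ Real.sin (π * t1) ^ 2)
    (he0 : β * t0 ^ 2 ≤ (1 + b) * s0 - b * σ) (he1 : β * t1 ^ 2 ≤ (1 + b) * s1 - b * σ)
    (hcv : 9.8697 * ((1 + b) * (1 - 2 * s0)) ≤ β) (hβ : 0 ≤ β) {t : ℝ} (ht0 : t0 ≤ t) (ht1 : t ≤ t1) :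
    β * t ^ 2 ≤ (1 + b) * Real.sin (π * t) ^ 2 - b * σ := by
  set h : ℝ → ℝ := fun t => (1 + b) * ((1 - Real.cos (2 * π * t)) / 2) - b * σ - β * t ^ 2 with hh
  have hS : ∀ t : ℝ, Real.sin (π * t) ^ 2 = (1 - Real.cos (2 * π * t)) / 2 := by
    intro t
    rw [show 2 * π * t = 2 * (π * t) by ring, Real.cos_two_mul, ← Real.sin_sq_add_cos_sq (π * t)]
    nlinarith [Real.sin_sq_add_cos_sq (π * t)]
  have hpi := Real.pi_pos
  have hd1 : ∀ t, HasDerivAt h ((1 + b) * (π * Real.sin (2 * π * t)) - 2 * β * t) t := by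
    intro t
    have hc : HasDerivAt (fun t : ℝ => Real.cos (2 * π * t)) (-Real.sin (2 * π * t) * (2 * π)) t := by
      have := ((hasDerivAt_id t).const_mul (2 * π)).cos
      exact this.congr_deriv (by simp)
    have := ((((hasDerivAt_const t (1 : ℝ)).sub hc).div_const 2).const_mul (1 + b)).sub_const (b * σ)
    have := this.sub ((hasDerivAt_pow 2 t).const_mul β)
    exact this.congr_deriv (by simp; ring)
  have hd2 : ∀ t, HasDerivAt (fun t : ℝ => (1 + b) * (π * Real.sin (2 * π * t)) - 2 * β * t)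
      ((1 + b) * (π * (Real.cos (2 * π * t) * (2 * π))) - 2 * β) t := by
    intro t
    have hc : HasDerivAt (fun t : ℝ => Real.sin (2 * π * t)) (Real.cos (2 * π * t) * (2 * π)) t := by
      have := ((hasDerivAt_id t).const_mul (2 * π)).sin
      exact this.congr_deriv (by simp)
    have := ((hc.const_mul π).const_mul (1 + b)).sub ((hasDerivAt_id t).const_mul (2 * β))
    exact this.congr_deriv (by simp)
  have hderiv : deriv h = fun t => (1 + b) * (π * Real.sin (2 * π * t)) - 2 * β * t := by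
    funext t; exact (hd1 t).deriv
  have hconc : ConcaveOn ℝ (Icc t0 t1) h := by
    apply concaveOn_of_deriv2_nonpos (convex_Icc t0 t1)
    · exact fun y _ => (hd1 y).continuousAt.continuousWithinAt
    · exact fun y _ => (hd1 y).differentiableAt.differentiableWithinAt
    · rw [hderiv]
      exact fun y _ => (hd2 y).differentiableAt.differentiableWithinAt
    · intro y hy
      rw [interior_Icc] at hy
      rw [Function.iterate_succ, Function.iterate_one, Function.comp_apply, hderiv, (hd2 y).deriv]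
      have hcos : Real.cos (2 * π * y) ≤ Real.cos (2 * π * t0) := by
        apply Real.cos_le_cos_of_nonneg_of_le_pi
        · positivity
        · have := hy.2
          nlinarith
        · have := hy.1
          nlinarith
      have hc0 : Real.cos (2 * π * t0) ≤ 1 - 2 * s0 := by
        have := hS t0
        linarith
      have hpi2 : π ^ 2 ≤ 9.8697 := by
        have := Real.pi_lt_d6
        nlinarith
      have h3 : π ^ 2 * ((1 + b) * Real.cos (2 * π * y)) ≤ β := by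
        rcases le_total (1 - 2 * s0) 0 with hneg | hneg
        · have : Real.cos (2 * π * y) ≤ 0 := by linarith
          have h4 : (1 + b) * Real.cos (2 * π * y) ≤ 0 :=
            mul_nonpos_of_nonneg_of_nonpos (by linarith) this
          have h5 : π ^ 2 * ((1 + b) * Real.cos (2 * π * y)) ≤ 0 :=
            mul_nonpos_of_nonneg_of_nonpos (by positivity) h4
          linarith
        calc π ^ 2 * ((1 + b) * Real.cos (2 * π * y)) ≤ π ^ 2 * ((1 + b) * (1 - 2 * s0)) := by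
              apply mul_le_mul_of_nonneg_left _ (by positivity)
              apply mul_le_mul_of_nonneg_left _ (by linarith)
              linarith
          _ ≤ 9.8697 * ((1 + b) * (1 - 2 * s0)) := by
              apply mul_le_mul_of_nonneg_right hpi2
              apply mul_nonneg (by linarith) (by linarith)
          _ ≤ β := hcv
      nlinarith
  have ht : t ∈ segment ℝ t0 t1 := by
    rw [segment_eq_Icc h01.le]; exact ⟨ht0, ht1⟩
  have hmin := hconc.min_le_of_mem_segment (left_mem_Icc.mpr h01.le) (right_mem_Icc.mpr h01.le) ht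
  have g0 : 0 ≤ h t0 := by
    simp only [hh, ← hS]
    nlinarith
  have g1 : 0 ≤ h t1 := by
    simp only [hh, ← hS]
    nlinarith
  have g : 0 ≤ h t := le_trans (le_min g0 g1) hmin
  simp only [hh, ← hS] at g
  linarith

/-- The chord bound for the difference of the two characteristic functions. -/
theorem chord_dom {lam β b σ c t : ℝ} (hl : 0 < lam) (hb : 0 < b)
    (hch : β * t ^ 2 ≤ (1 + b) * Real.sin (π * t) ^ 2 - b * σ)
    (hc : b / (1 + b) * Real.exp (-(4 * lam * σ + 2 / (2 + b))) ≤ c) :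
    Real.exp (-4 * lam * Real.sin (π * t) ^ 2) ≤ Real.exp (-(4 * lam * β) * t ^ 2) + c := by
  set s := Real.sin (π * t) ^ 2 with hs
  have h1 := young_exp (b := b) (v := 4 * lam * (s - σ)) hb
  have h2 : Real.exp (-4 * lam * s) = Real.exp (-(4 * lam * σ)) * Real.exp (-(4 * lam * (s - σ))) := by
    rw [← Real.exp_add]; congr 1; ring
  have h3 : Real.exp (-(4 * lam * σ)) * Real.exp (-((1 + b) * (4 * lam * (s - σ)))) ≤
      Real.exp (-(4 * lam * β) * t ^ 2) := by
    rw [← Real.exp_add]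
    apply Real.exp_le_exp.mpr
    have : 4 * lam * (β * t ^ 2) ≤ 4 * lam * ((1 + b) * s - b * σ) :=
      mul_le_mul_of_nonneg_left hch (by positivity)
    nlinarith
  have h4 : Real.exp (-(4 * lam * σ)) * (b / (1 + b) * Real.exp (-(2 / (2 + b)))) =
      b / (1 + b) * Real.exp (-(4 * lam * σ + 2 / (2 + b))) := by
    rw [neg_add, Real.exp_add]; ring
  have h5 := mul_le_mul_of_nonneg_left h1 (Real.exp_pos (-(4 * lam * σ))).le
  rw [mul_sub, h4] at h5
  rw [h2]
  linarith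

/-- Near the origin the Gaussian dominates. -/
theorem near_dom {lam β t0 t : ℝ} (hl : 0 < lam) (h0 : 0 < t0) (h1 : t0 ≤ 1 / 2)
    (hs : β * t0 ^ 2 ≤ Real.sin (π * t0) ^ 2) (ht : 0 ≤ t) (htt : t ≤ t0) :
    Real.exp (-4 * lam * Real.sin (π * t) ^ 2) ≤ Real.exp (-(4 * lam * β) * t ^ 2) := by
  apply Real.exp_le_exp.mpr
  have hpi := Real.pi_pos
  have hsin0 : 0 ≤ Real.sin (π * t0) :=
    Real.sin_nonneg_of_nonneg_of_le_pi (by positivity) (by nlinarith)
  have hconc := strictConcaveOn_sin_Icc.concaveOn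
  have h2 : t / t0 * Real.sin (π * t0) ≤ Real.sin (π * t) := by
    have ha : 0 ≤ 1 - t / t0 := by rw [sub_nonneg, div_le_one h0]; exact htt
    have hb : 0 ≤ t / t0 := by positivity
    have m0 : (0 : ℝ) ∈ Icc 0 π := ⟨le_rfl, hpi.le⟩
    have m1 : π * t0 ∈ Icc 0 π := ⟨by positivity, by nlinarith⟩
    have h3 := hconc.2 m0 m1 ha hb (by ring)
    simp only [smul_eq_mul, Real.sin_zero, mul_zero, zero_add] at h3
    have e : t / t0 * (π * t0) = π * t := by field_simp
    rwa [e] at h3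
  have h3 : (t / t0) ^ 2 * Real.sin (π * t0) ^ 2 ≤ Real.sin (π * t) ^ 2 := by
    rw [← mul_pow]
    exact pow_le_pow_left₀ (by positivity) h2 2
  have h4 : β * t ^ 2 ≤ Real.sin (π * t) ^ 2 := by
    calc β * t ^ 2 = (t / t0) ^ 2 * (β * t0 ^ 2) := by field_simp
      _ ≤ (t / t0) ^ 2 * Real.sin (π * t0) ^ 2 := mul_le_mul_of_nonneg_left hs (by positivity)
      _ ≤ _ := h3
  nlinarith

/-- Far from the origin a constant dominates. -/
theorem far_dom {lam κ c t1 s1 t : ℝ} (hl : 0 < lam) (h1 : 0 ≤ t1)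
    (hs : s1 ≤ Real.sin (π * t1) ^ 2) (ht : t1 ≤ t) (htt : t ≤ 1 / 2)
    (hc : Real.exp (-(4 * lam * s1)) ≤ c) :
    Real.exp (-4 * lam * Real.sin (π * t) ^ 2) ≤ Real.exp (-κ * t ^ 2) + c := by
  have hpi := Real.pi_pos
  have h2 : Real.sin (π * t1) ≤ Real.sin (π * t) := by
    apply Real.sin_le_sin_of_le_of_le_pi_div_two
    · nlinarith
    · nlinarith
    · nlinarith
  have h0 : 0 ≤ Real.sin (π * t1) :=
    Real.sin_nonneg_of_nonneg_of_le_pi (by positivity) (by nlinarith)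
  have h3 : Real.sin (π * t1) ^ 2 ≤ Real.sin (π * t) ^ 2 := pow_le_pow_left₀ h0 h2 2
  have h4 : Real.exp (-4 * lam * Real.sin (π * t) ^ 2) ≤ Real.exp (-(4 * lam * s1)) := by
    apply Real.exp_le_exp.mpr
    nlinarith
  have := Real.exp_pos (-κ * t ^ 2)
  linarith

/-- It suffices to check the domination for `t ≥ 0`. -/
theorem dom_of_nonneg {lam κ c : ℝ}
    (h : ∀ t : ℝ, 0 ≤ t → t ≤ 1 / 2 →
      Real.exp (-4 * lam * Real.sin (π * t) ^ 2) ≤ Real.exp (-κ * t ^ 2) + c) :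
    DomHyp lam κ c := by
  intro t ht
  rcases le_total 0 t with h0 | h0
  · exact h t h0 (by rwa [abs_of_nonneg h0] at ht)
  · have := h (-t) (by linarith) (by rwa [abs_of_nonpos h0] at ht)
    rw [mul_neg, Real.sin_neg, neg_sq, neg_sq] at this
    exact this

/-- One chord. -/
theorem dom_one {lam β b σ c t0 t1 s0 s1 : ℝ} (hl : 0 < lam) (hβ : 0 ≤ β) (hb : 0 < b)
    (h0 : 0 < t0) (h01 : t0 < t1) (h1 : t1 ≤ 1 / 2)
    (hs0 : s0 ≤ Real.sin (π * t0) ^ 2) (hs1 : s1 ≤ Real.sin (π * t1) ^ 2)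
    (hn : β * t0 ^ 2 ≤ s0)
    (he0 : β * t0 ^ 2 ≤ (1 + b) * s0 - b * σ) (he1 : β * t1 ^ 2 ≤ (1 + b) * s1 - b * σ)
    (hcv : 9.8697 * ((1 + b) * (1 - 2 * s0)) ≤ β)
    (hc1 : b / (1 + b) * Real.exp (-(4 * lam * σ + 2 / (2 + b))) ≤ c)
    (hc2 : Real.exp (-(4 * lam * s1)) ≤ c) : DomHyp lam (4 * lam * β) c := by
  have hc : 0 ≤ c := le_trans (Real.exp_pos _).le hc2
  apply dom_of_nonneg
  intro t ht ht2
  rcases le_total t t0 with h | h
  · have := near_dom hl h0 (by linarith) (hn.trans hs0) ht h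
    linarith
  rcases le_total t t1 with h' | h'
  · exact chord_dom hl hb (chord_le hb h0.le h01 h1 hs0 hs1 he0 he1 hcv hβ h h') hc1
  · exact far_dom hl (by linarith) hs1 h' ht2 hc2

/-- Two chords. -/
theorem dom_two {lam β b σ b' σ' c t0 t1 t2 s0 s1 s2 : ℝ} (hl : 0 < lam) (hβ : 0 ≤ β) (hb : 0 < b)
    (hb' : 0 < b')
    (h0 : 0 < t0) (h01 : t0 < t1) (h12 : t1 < t2) (h2 : t2 ≤ 1 / 2)
    (hs0 : s0 ≤ Real.sin (π * t0) ^ 2) (hs1 : s1 ≤ Real.sin (π * t1) ^ 2)
    (hs2 : s2 ≤ Real.sin (π * t2) ^ 2)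
    (hn : β * t0 ^ 2 ≤ s0)
    (he0 : β * t0 ^ 2 ≤ (1 + b) * s0 - b * σ) (he1 : β * t1 ^ 2 ≤ (1 + b) * s1 - b * σ)
    (he1' : β * t1 ^ 2 ≤ (1 + b') * s1 - b' * σ') (he2 : β * t2 ^ 2 ≤ (1 + b') * s2 - b' * σ')
    (hcv : 9.8697 * ((1 + b) * (1 - 2 * s0)) ≤ β) (hcv' : 9.8697 * ((1 + b') * (1 - 2 * s1)) ≤ β)
    (hc1 : b / (1 + b) * Real.exp (-(4 * lam * σ + 2 / (2 + b))) ≤ c)
    (hc1' : b' / (1 + b') * Real.exp (-(4 * lam * σ' + 2 / (2 + b'))) ≤ c)
    (hc2 : Real.exp (-(4 * lam * s2)) ≤ c) : DomHyp lam (4 * lam * β) c := by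
  have hc : 0 ≤ c := le_trans (Real.exp_pos _).le hc2
  apply dom_of_nonneg
  intro t ht ht2
  rcases le_total t t0 with h | h
  · have := near_dom hl h0 (by linarith) (hn.trans hs0) ht h
    linarith
  rcases le_total t t1 with h' | h'
  · exact chord_dom hl hb (chord_le hb h0.le h01 (by linarith) hs0 hs1 he0 he1 hcv hβ h h') hc1
  rcases le_total t t2 with h'' | h''
  · exact chord_dom hl hb' (chord_le hb' (by linarith) h12 h2 hs1 hs2 he1' he2 hcv' hβ h' h'') hc1'
  · exact far_dom hl (by linarith) hs2 h'' ht2 hc2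

end Pool.Agent.MP_f7f40d_pr
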