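import Pool.Agent.MP_f7f40d_pr.Sm4
import Pool.Agent.MP_f7f40d_pr.Sm5
import Pool.Agent.MP_f7f40d_pr.Sm0

set_option autoImplicit false

namespace Pool.Agent.MP_f7f40d_pr

open Finset
open scoped Real

theorem exp_ge {y m : ℝ} {p q : ℕ} (hq : 0 < q) (hm : 0 ≤ m) (h : m ^ q ≤ 2.7182818283 ^ p)
    (hy : (p : ℝ) / q ≤ y) : m ≤ Real.exp y := by
  have hqr : (0 : ℝ) < q := by exact_mod_cast hq
  have h1 : m ≤ Real.exp ((p : ℝ) / q) := by
    rw [← pow_le_pow_iff_left₀ hm (Real.exp_pos _).le hq.ne', ← Real.exp_nat_mul]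
    have e : (q : ℝ) * ((p : ℝ) / q) = (p : ℕ) * 1 := by field_simp
    rw [e, Real.exp_nat_mul]
    refine h.trans ?_
    exact pow_le_pow_left₀ (by norm_num) Real.exp_one_gt_d9.le p
  exact h1.trans (Real.exp_le_exp.mpr hy)

theorem exp_neg_le {y ρ : ℝ} {p q : ℕ} (hq : 0 < q) (hρ : 0 < ρ)
    (h : 1 ≤ ρ ^ q * 2.7182818283 ^ p) (hy : (p : ℝ) / q ≤ y) : Real.exp (-y) ≤ ρ := by
  have hqr : (0 : ℝ) < q := by exact_mod_cast hq
  have h1 : ρ⁻¹ ≤ Real.exp y := by
    refine exp_ge hq (by positivity) ?_ hy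
    rw [inv_pow, inv_le_iff_one_le_mul₀ (by positivity)]
    rwa [mul_comm] at h
  rw [Real.exp_neg]
  rw [inv_le_comm₀ (Real.exp_pos _) hρ]
  exact h1

theorem FF_ge {s r : ℝ} (p q : ℕ) (hs : 0 ≤ s) (hq : 0 < q) (hr : 1 ≤ r) (h : r + 1 / r ≤ s + 2)
    (hE : (2.7182818286 : ℝ) ^ p ≤ r ^ q) : (p : ℝ) / q ≤ FF s := by
  have hqr : (0 : ℝ) < q := by exact_mod_cast hq
  have hR1 : 1 ≤ Real.exp (FF s) := Real.one_le_exp (FF_nonneg s)
  have hRe := exp_FF hs
  set R := Real.exp (FF s) with hR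
  have hrR : r ≤ R := by
    by_contra hlt
    push Not at hlt
    have h1 : R + 1 / R < r + 1 / r := by
      have hR0 : 0 < R := by linarith
      have hr0 : 0 < r := by linarith
      have h2 : r + 1 / r - (R + 1 / R) = (r - R) * (r * R - 1) / (r * R) := by
        field_simp
        ring
      have h3 : 0 < (r - R) * (r * R - 1) / (r * R) := by
        apply div_pos _ (by positivity)
        apply mul_pos (by linarith)
        nlinarith
      linarith
    linarith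
  have h4 : Real.exp ((p : ℝ) / q) ≤ R := by
    refine le_trans ?_ hrR
    rw [← pow_le_pow_iff_left₀ (Real.exp_pos _).le (by linarith) hq.ne', ← Real.exp_nat_mul]
    have e : (q : ℝ) * ((p : ℝ) / q) = (p : ℕ) * 1 := by field_simp
    rw [e, Real.exp_nat_mul]
    refine le_trans ?_ hE
    exact pow_le_pow_left₀ (Real.exp_pos _).le Real.exp_one_lt_d9.le p
  rw [hR] at h4
  exact Real.exp_le_exp.mp h4

theorem FF_mono {s t : ℝ} (h : s ≤ t) : FF s ≤ FF t := by
  unfold FF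
  have := Real.sqrt_le_sqrt h
  have := Real.arsinh_le_arsinh.mpr (show Real.sqrt s / 2 ≤ Real.sqrt t / 2 by linarith)
  linarith

theorem pivotHyp_LL (N : ℕ) (hN : 0 < N) (k : ℕ) {m : ℝ} (hm : m ≤ Real.exp (2 * LL N k 0)) :
    PivotHyp (k + 1) m := by
  intro V hV
  obtain ⟨x, hx, h⟩ := pb_LL N hN k V hV
  refine ⟨x, hx, fun w hw hwx => ?_⟩
  have := h 0 le_rfl w hw
  rw [hwx, zero_smul, zero_add] at this
  simp only at this
  linarith

theorem cos_two_thirds : Real.cos (2 * π * (1 : ℕ) / (3 : ℕ)) = -1 / 2 := by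
  rw [show 2 * π * ((1 : ℕ) : ℝ) / ((3 : ℕ) : ℝ) = π - π / 3 by push_cast; ring, Real.cos_pi_sub,
    Real.cos_pi_div_three]
  norm_num

theorem cos_four_thirds : Real.cos (2 * π * (2 : ℕ) / (3 : ℕ)) = -1 / 2 := by
  rw [show 2 * π * ((2 : ℕ) : ℝ) / ((3 : ℕ) : ℝ) = π / 3 + π by push_cast; ring, Real.cos_add_pi,
    Real.cos_pi_div_three]
  norm_num

theorem LL3_succ (k : ℕ) (s : ℝ) : LL 3 (k + 1) s = (LL 3 k s + 2 * LL 3 k (s + 3)) / 3 := by
  have e : LL 3 (k + 1) s = (1 / ((3 : ℕ) : ℝ)) * ∑ j ∈ Finset.range 3,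
      LL 3 k (s + (2 - 2 * Real.cos (2 * π * j / (3 : ℕ)))) := rfl
  rw [e, Finset.sum_range_succ, Finset.sum_range_succ, Finset.sum_range_one, cos_two_thirds,
    cos_four_thirds]
  have h0 : s + (2 - 2 * Real.cos (2 * π * (0 : ℕ) / (3 : ℕ))) = s := by simp
  rw [h0, show s + (2 - 2 * (-1 / 2 : ℝ)) = s + 3 by ring]
  push_cast
  ring

theorem LL3_formula (k : ℕ) : ∀ s : ℝ, 3 ^ k * LL 3 k s =
    ∑ i ∈ Finset.range (k + 1), (k.choose i : ℝ) * 2 ^ i * FF (s + 3 * i) := by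
  induction k with
  | zero => intro s; simp [LL]
  | succ k ih =>
    intro s
    have h1 : (3 : ℝ) ^ (k + 1) * LL 3 (k + 1) s = 3 ^ k * LL 3 k s + 2 * (3 ^ k * LL 3 k (s + 3)) := by
      rw [LL3_succ, pow_succ]; ring
    rw [h1, ih, ih, Finset.sum_range_succ' _ (k + 1)]
    have h2 : ∀ i ∈ Finset.range (k + 1), ((k + 1).choose (i + 1) : ℝ) * 2 ^ (i + 1) *
        FF (s + 3 * ((i + 1 : ℕ) : ℝ)) = 2 * ((k.choose i : ℝ) * 2 ^ i * FF (s + 3 + 3 * i)) +
        (k.choose (i + 1) : ℝ) * 2 ^ (i + 1) * FF (s + 3 * ((i + 1 : ℕ) : ℝ)) := by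
      intro i _
      rw [Nat.choose_succ_succ]
      have : s + 3 * ((i + 1 : ℕ) : ℝ) = s + 3 + 3 * i := by push_cast; ring
      rw [this]
      push_cast
      ring
    rw [Finset.sum_congr rfl h2, Finset.sum_add_distrib, ← Finset.mul_sum]
    have h3 : ∑ i ∈ Finset.range (k + 1), (k.choose (i + 1) : ℝ) * 2 ^ (i + 1) *
        FF (s + 3 * ((i + 1 : ℕ) : ℝ)) + ((k + 1).choose 0 : ℝ) * 2 ^ 0 * FF (s + 3 * ((0 : ℕ) : ℝ)) =
        ∑ i ∈ Finset.range (k + 1), (k.choose i : ℝ) * 2 ^ i * FF (s + 3 * i) := by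
      have h4 := Finset.sum_range_succ' (fun i => (k.choose i : ℝ) * 2 ^ i * FF (s + 3 * i)) (k + 1)
      rw [Finset.sum_range_succ _ (k + 1), Nat.choose_succ_self] at h4
      simp only [Nat.choose_zero_right, Nat.cast_zero, zero_mul, add_zero] at h4 ⊢
      rw [h4]
    rw [← h3]
    ring

theorem LL3_ge (k : ℕ) (f : ℕ → ℝ) (hf : ∀ i ≤ k, f i ≤ FF (3 * i)) {L : ℝ}
    (hL : L * 3 ^ k ≤ ∑ i ∈ Finset.range (k + 1), (k.choose i : ℝ) * 2 ^ i * f i) :
    L ≤ LL 3 k 0 := by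
  have h := LL3_formula k 0
  have h1 : ∑ i ∈ Finset.range (k + 1), (k.choose i : ℝ) * 2 ^ i * f i ≤
      ∑ i ∈ Finset.range (k + 1), (k.choose i : ℝ) * 2 ^ i * FF (0 + 3 * i) := by
    apply Finset.sum_le_sum
    intro i hi
    rw [Finset.mem_range] at hi
    rw [zero_add]
    exact mul_le_mul_of_nonneg_left (hf i (by omega)) (by positivity)
  have h3 : (0 : ℝ) < 3 ^ k := by positivity
  have : L * 3 ^ k ≤ LL 3 k 0 * 3 ^ k := by
    rw [mul_comm (LL 3 k 0), h]; linarith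
  exact le_of_mul_le_mul_right this h3

/-- Rational lower bounds for `FF (3 i)`. -/
noncomputable def f3 : ℕ → ℝ
  | 0 => 0
  | 1 => 47 / 30
  | 2 => 33 / 16
  | 3 => 43 / 18
  | 4 => 79 / 30
  | 5 => 116 / 41
  | 6 => 179 / 60
  | 7 => 47 / 15
  | 8 => 127 / 39
  | _ => 0

theorem f3_le : ∀ i : ℕ, f3 i ≤ FF (3 * i) := by
  intro i
  match i with
  | 0 => simpa [f3] using FF_nonneg _
  | 1 =>
    have := FF_ge (s := 3 * ((1 : ℕ) : ℝ)) (r := 5989 / 1250) 47 30 (by norm_num) (by norm_num)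
      (by norm_num) (by norm_num) (by norm_num)
    simpa [f3] using this
  | 2 =>
    have := FF_ge (s := 3 * ((2 : ℕ) : ℝ)) (r := 78729 / 10000) 33 16 (by norm_num) (by norm_num)
      (by norm_num) (by norm_num) (by norm_num)
    simpa [f3] using this
  | 3 =>
    have := FF_ge (s := 3 * ((3 : ℕ) : ℝ)) (r := 109083 / 10000) 43 18 (by norm_num) (by norm_num)
      (by norm_num) (by norm_num) (by norm_num)
    simpa [f3] using this
  | 4 =>
    have := FF_ge (s := 3 * ((4 : ℕ) : ℝ)) (r := 69641 / 5000) 79 30 (by norm_num) (by norm_num)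
      (by norm_num) (by norm_num) (by norm_num)
    simpa [f3] using this
  | 5 =>
    have := FF_ge (s := 3 * ((5 : ℕ) : ℝ)) (r := 169409 / 10000) 116 41 (by norm_num) (by norm_num)
      (by norm_num) (by norm_num) (by norm_num)
    simpa [f3] using this
  | 6 =>
    have := FF_ge (s := 3 * ((6 : ℕ) : ℝ)) (r := 99749 / 5000) 179 60 (by norm_num) (by norm_num)
      (by norm_num) (by norm_num) (by norm_num)
    simpa [f3] using this
  | 7 =>
    have := FF_ge (s := 3 * ((7 : ℕ) : ℝ)) (r := 57391 / 2500) 47 15 (by norm_num) (by norm_num)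
      (by norm_num) (by norm_num) (by norm_num)
    simpa [f3] using this
  | 8 =>
    have := FF_ge (s := 3 * ((8 : ℕ) : ℝ)) (r := 129807 / 5000) 127 39 (by norm_num) (by norm_num)
      (by norm_num) (by norm_num) (by norm_num)
    simpa [f3] using this
  | (n + 9) => simpa [f3] using FF_nonneg _

end Pool.Agent.MP_f7f40d_pr
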