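import Pool.Agent.MP_f7f40d_pr.Sm6

set_option autoImplicit false

namespace Pool.Agent.MP_f7f40d_pr

open Finset
open scoped Real

theorem piv4 : PivotHyp 4 (1291/25) := by
  apply pivotHyp_LL 3 (by norm_num) 3
  apply exp_ge (p := 71) (q := 18) (by norm_num) (by norm_num) (by norm_num)
  have h : (71 / 36 : ℝ) ≤ LL 3 3 0 := by
    apply LL3_ge 3 f3 (fun i _ => f3_le i)
    norm_num [Finset.sum_range_succ, f3, Nat.choose]
  push_cast
  linarith

theorem piv5 : PivotHyp 5 (2161/25) := by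
  apply pivotHyp_LL 3 (by norm_num) 4
  apply exp_ge (p := 165) (q := 37) (by norm_num) (by norm_num) (by norm_num)
  have h : (165 / 74 : ℝ) ≤ LL 3 4 0 := by
    apply LL3_ge 4 f3 (fun i _ => f3_le i)
    norm_num [Finset.sum_range_succ, f3, Nat.choose]
  push_cast
  linarith

theorem piv6 : PivotHyp 6 (2573/20) := by
  apply pivotHyp_LL 3 (by norm_num) 5
  apply exp_ge (p := 34) (q := 7) (by norm_num) (by norm_num) (by norm_num)
  have h : (34 / 14 : ℝ) ≤ LL 3 5 0 := by
    apply LL3_ge 5 f3 (fun i _ => f3_le i)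
    norm_num [Finset.sum_range_succ, f3, Nat.choose]
  push_cast
  linarith

theorem piv7 : PivotHyp 7 (8951/50) := by
  apply pivotHyp_LL 3 (by norm_num) 6
  apply exp_ge (p := 83) (q := 16) (by norm_num) (by norm_num) (by norm_num)
  have h : (83 / 32 : ℝ) ≤ LL 3 6 0 := by
    apply LL3_ge 6 f3 (fun i _ => f3_le i)
    norm_num [Finset.sum_range_succ, f3, Nat.choose]
  push_cast
  linarith

theorem piv8 : PivotHyp 8 (2363/10) := by
  apply pivotHyp_LL 3 (by norm_num) 7
  apply exp_ge (p := 235) (q := 43) (by norm_num) (by norm_num) (by norm_num)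
  have h : (235 / 86 : ℝ) ≤ LL 3 7 0 := by
    apply LL3_ge 7 f3 (fun i _ => f3_le i)
    norm_num [Finset.sum_range_succ, f3, Nat.choose]
  push_cast
  linarith

theorem piv9 : PivotHyp 9 (15101/50) := by
  apply pivotHyp_LL 3 (by norm_num) 8
  apply exp_ge (p := 217) (q := 38) (by norm_num) (by norm_num) (by norm_num)
  have h : (217 / 76 : ℝ) ≤ LL 3 8 0 := by
    apply LL3_ge 8 f3 (fun i _ => f3_le i)
    norm_num [Finset.sum_range_succ, f3, Nat.choose]
  push_cast
  linarith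

theorem cos_two_fourths : Real.cos (2 * π * (1 : ℕ) / (4 : ℕ)) = 0 := by
  rw [show 2 * π * ((1 : ℕ) : ℝ) / ((4 : ℕ) : ℝ) = π / 2 by push_cast; ring, Real.cos_pi_div_two]

theorem cos_four_fourths : Real.cos (2 * π * (2 : ℕ) / (4 : ℕ)) = -1 := by
  rw [show 2 * π * ((2 : ℕ) : ℝ) / ((4 : ℕ) : ℝ) = π by push_cast; ring, Real.cos_pi]

theorem cos_six_fourths : Real.cos (2 * π * (3 : ℕ) / (4 : ℕ)) = 0 := by
  rw [show 2 * π * ((3 : ℕ) : ℝ) / ((4 : ℕ) : ℝ) = π / 2 + π by push_cast; ring, Real.cos_add_pi,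
    Real.cos_pi_div_two, neg_zero]

theorem LL4_succ (k : ℕ) (s : ℝ) :
    LL 4 (k + 1) s = (LL 4 k s + 2 * LL 4 k (s + 2) + LL 4 k (s + 4)) / 4 := by
  have e : LL 4 (k + 1) s = (1 / ((4 : ℕ) : ℝ)) * ∑ j ∈ Finset.range 4,
      LL 4 k (s + (2 - 2 * Real.cos (2 * π * j / (4 : ℕ)))) := rfl
  rw [e, Finset.sum_range_succ, Finset.sum_range_succ, Finset.sum_range_succ,
    Finset.sum_range_one, cos_two_fourths, cos_four_fourths, cos_six_fourths]
  have h0 : s + (2 - 2 * Real.cos (2 * π * (0 : ℕ) / (4 : ℕ))) = s := by simp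
  rw [h0, show s + (2 - 2 * (0 : ℝ)) = s + 2 by ring, show s + (2 - 2 * (-1 : ℝ)) = s + 4 by ring]
  push_cast
  ring

theorem piv3 : PivotHyp 3 (541/20) := by
  apply pivotHyp_LL 4 (by norm_num) 2
  apply exp_ge (p := 155) (q := 47) (by norm_num) (by norm_num) (by norm_num)
  have e : LL 4 2 0 = (FF 0 + 4 * FF 2 + 6 * FF 4 + 4 * FF 6 + FF 8) / 16 := by
    rw [LL4_succ, LL4_succ, LL4_succ, LL4_succ]
    simp only [LL]
    norm_num
    ring
  have h0 := FF_nonneg 0
  have h1 := FF_ge (s := 2) (r := 933/250) 79 60 (by norm_num) (by norm_num)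
    (by norm_num) (by norm_num) (by norm_num)
  have h2 := FF_ge (s := 4) (r := 14571/2500) 104 59 (by norm_num) (by norm_num)
    (by norm_num) (by norm_num) (by norm_num)
  have h3 := FF_ge (s := 6) (r := 78729/10000) 33 16 (by norm_num) (by norm_num)
    (by norm_num) (by norm_num) (by norm_num)
  have h4 := FF_ge (s := 8) (r := 98989/10000) 55 24 (by norm_num) (by norm_num)
    (by norm_num) (by norm_num) (by norm_num)
  rw [e]
  push_cast at *
  linarith

/-- Lower bounds for the sixteen terms. -/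
noncomputable def f16 : ℕ → ℝ
  | 0 => 0
  | 1 => 12 / 31
  | 2 => 44 / 59
  | 3 => 35 / 33
  | 4 => 79 / 60
  | 5 => 56 / 37
  | 6 => 38 / 23
  | 7 => 59 / 34
  | 8 => 37 / 21
  | 9 => 59 / 34
  | 10 => 38 / 23
  | 11 => 56 / 37
  | 12 => 79 / 60
  | 13 => 35 / 33
  | 14 => 44 / 59
  | 15 => 12 / 31
  | _ => 0

theorem two_sub_two_cos (x : ℝ) : 2 - 2 * Real.cos (2 * x) = 4 * Real.sin x ^ 2 := by
  rw [Real.cos_two_mul]
  nlinarith [Real.sin_sq_add_cos_sq x]

theorem f16_aux {j : ℕ} {sr r : ℝ} (p q : ℕ) (hj : j ≤ 8) (hsr : 0 ≤ sr)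
    (h : sr ≤ (3.14159 * ((j : ℝ) / 16)) - (3.14159 * ((j : ℝ) / 16)) ^ 3 / 6 +
      (3.14159 * ((j : ℝ) / 16)) ^ 5 / 120 - (3.14159 * ((j : ℝ) / 16)) ^ 7 / 5040)
    (hq : 0 < q) (hr : 1 ≤ r) (h2 : r + 1 / r ≤ 4 * sr ^ 2 + 2)
    (hE : (2.7182818286 : ℝ) ^ p ≤ r ^ q) :
    (p : ℝ) / q ≤ FF (2 - 2 * Real.cos (2 * π * j / (16 : ℕ))) := by
  have hj' : (j : ℝ) ≤ 8 := by exact_mod_cast hj
  have h1 := sinsq_ge (t := (j : ℝ) / 16) (by positivity) (by linarith) hsr h
  have e : 2 * π * (j : ℝ) / ((16 : ℕ) : ℝ) = 2 * (π * ((j : ℝ) / 16)) := by push_cast; ring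
  rw [e, two_sub_two_cos]
  refine (FF_ge p q (by positivity) hq hr h2 hE).trans (FF_mono ?_)
  linarith

theorem f16_sym {j : ℕ} (hj : j ≤ 16) :
    Real.cos (2 * π * (16 - j : ℕ) / (16 : ℕ)) = Real.cos (2 * π * j / (16 : ℕ)) := by
  rw [Nat.cast_sub hj, show 2 * π * (((16 : ℕ) : ℝ) - (j : ℝ)) / ((16 : ℕ) : ℝ) =
    2 * π - 2 * π * j / ((16 : ℕ) : ℝ) by push_cast; ring, Real.cos_two_pi_sub]

theorem f16_1 : f16 1 ≤ FF (2 - 2 * Real.cos (2 * π * (1 : ℕ) / (16 : ℕ))) := by
  have := f16_aux (j := 1) (sr := 19509/100000) (r := 921/625) 12 31 (by norm_num)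
    (by norm_num) (by norm_num) (by norm_num) (by norm_num) (by norm_num) (by norm_num)
  simpa only [f16, Nat.cast_ofNat] using this

theorem f16_2 : f16 2 ≤ FF (2 - 2 * Real.cos (2 * π * (2 : ℕ) / (16 : ℕ))) := by
  have := f16_aux (j := 2) (sr := 9567/25000) (r := 21123/10000) 44 59 (by norm_num)
    (by norm_num) (by norm_num) (by norm_num) (by norm_num) (by norm_num) (by norm_num)
  simpa only [f16, Nat.cast_ofNat] using this

theorem f16_3 : f16 3 ≤ FF (2 - 2 * Real.cos (2 * π * (3 : ℕ) / (16 : ℕ))) := by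
  have := f16_aux (j := 3) (sr := 13889/25000) (r := 28883/10000) 35 33 (by norm_num)
    (by norm_num) (by norm_num) (by norm_num) (by norm_num) (by norm_num) (by norm_num)
  simpa only [f16, Nat.cast_ofNat] using this

theorem f16_4 : f16 4 ≤ FF (2 - 2 * Real.cos (2 * π * (4 : ℕ) / (16 : ℕ))) := by
  have := f16_aux (j := 4) (sr := 7071/10000) (r := 933/250) 79 60 (by norm_num)
    (by norm_num) (by norm_num) (by norm_num) (by norm_num) (by norm_num) (by norm_num)
  simpa only [f16, Nat.cast_ofNat] using this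

theorem f16_5 : f16 5 ≤ FF (2 - 2 * Real.cos (2 * π * (5 : ℕ) / (16 : ℕ))) := by
  have := f16_aux (j := 5) (sr := 41573/50000) (r := 11363/2500) 56 37 (by norm_num)
    (by norm_num) (by norm_num) (by norm_num) (by norm_num) (by norm_num) (by norm_num)
  simpa only [f16, Nat.cast_ofNat] using this

theorem f16_6 : f16 6 ≤ FF (2 - 2 * Real.cos (2 * π * (6 : ℕ) / (16 : ℕ))) := by
  have := f16_aux (j := 6) (sr := 46193/50000) (r := 2089/400) 38 23 (by norm_num)
    (by norm_num) (by norm_num) (by norm_num) (by norm_num) (by norm_num) (by norm_num)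
  simpa only [f16, Nat.cast_ofNat] using this

theorem f16_7 : f16 7 ≤ FF (2 - 2 * Real.cos (2 * π * (7 : ℕ) / (16 : ℕ))) := by
  have := f16_aux (j := 7) (sr := 98073/100000) (r := 56709/10000) 59 34 (by norm_num)
    (by norm_num) (by norm_num) (by norm_num) (by norm_num) (by norm_num) (by norm_num)
  simpa only [f16, Nat.cast_ofNat] using this

theorem f16_8 : f16 8 ≤ FF (2 - 2 * Real.cos (2 * π * (8 : ℕ) / (16 : ℕ))) := by
  have := f16_aux (j := 8) (sr := 6249/6250) (r := 58271/10000) 37 21 (by norm_num)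
    (by norm_num) (by norm_num) (by norm_num) (by norm_num) (by norm_num) (by norm_num)
  simpa only [f16, Nat.cast_ofNat] using this

theorem f16_le : ∀ j ∈ Finset.range 16, f16 j ≤ FF (2 - 2 * Real.cos (2 * π * j / (16 : ℕ))) := by
  intro j hj
  rw [Finset.mem_range] at hj
  interval_cases j
  · simpa [f16] using FF_nonneg _
  · exact f16_1
  · exact f16_2
  · exact f16_3
  · exact f16_4
  · exact f16_5
  · exact f16_6
  · exact f16_7
  · exact f16_8
  · have h := f16_sym (j := 7) (by norm_num)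
    have h2 := f16_7
    rw [← h] at h2
    exact h2
  · have h := f16_sym (j := 6) (by norm_num)
    have h2 := f16_6
    rw [← h] at h2
    exact h2
  · have h := f16_sym (j := 5) (by norm_num)
    have h2 := f16_5
    rw [← h] at h2
    exact h2
  · have h := f16_sym (j := 4) (by norm_num)
    have h2 := f16_4
    rw [← h] at h2
    exact h2
  · have h := f16_sym (j := 3) (by norm_num)
    have h2 := f16_3
    rw [← h] at h2
    exact h2
  · have h := f16_sym (j := 2) (by norm_num)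
    have h2 := f16_2
    rw [← h] at h2
    exact h2
  · have h := f16_sym (j := 1) (by norm_num)
    have h2 := f16_1
    rw [← h] at h2
    exact h2

theorem piv2 : PivotHyp 2 (10201/1000) := by
  apply pivotHyp_LL 16 (by norm_num) 1
  apply exp_ge (p := 72) (q := 31) (by norm_num) (by norm_num) (by norm_num)
  have e : LL 16 1 0 = (1 / ((16 : ℕ) : ℝ)) * ∑ j ∈ Finset.range 16,
      FF (0 + (2 - 2 * Real.cos (2 * π * j / (16 : ℕ)))) := rfl
  have h := Finset.sum_le_sum f16_le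
  rw [e]
  simp only [zero_add]
  have h2 : ∑ j ∈ Finset.range 16, f16 j = 1135916622409/61122930330 := by
    norm_num [Finset.sum_range_succ, f16]
  rw [h2] at h
  push_cast at *
  linarith

end Pool.Agent.MP_f7f40d_pr
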