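import Pool.Agent.MP_f7f40d_pr.Sm7

set_option autoImplicit false

namespace Pool.Agent.MP_f7f40d_pr

open Finset
open scoped Real NNReal

/-- The numerical criterion in terms of rational bounds. -/
theorem crit_num {d : ℕ} {lam κ c m z S rz q x ρ : ℝ} (hz : 0 < z)
    (hS : ∑ j ∈ Finset.range (2 * d), z ^ j ≤ S) (hrz : z ^ (-(2 * d - 1 - lam : ℝ)) ≤ rz)
    (hκ : 0 < κ) (hc : 0 ≤ c) (hq0 : 0 ≤ q) (hq : 3.141593 ≤ q ^ 2 * κ) (hx0 : 0 < x)
    (hm : 0 ≤ m) (hx : x * κ ≤ 9.8696 * m)
    (hρ : Real.exp (-x) ≤ ρ) (hρ1 : ρ ≤ 1 / 2)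
    (hfin : S * (rz * ((q + c) * (1 + 2 * (ρ / (1 - ρ ^ 3))))) < 1) :
    (∑ j ∈ Finset.range (2 * d), z ^ j) * (z ^ (-(2 * d - 1 - lam : ℝ)) *
      ((Real.sqrt (π / κ) + c) * theta (π ^ 2 / κ * m))) < 1 := by
  have hsq : Real.sqrt (π / κ) ≤ q := by
    rw [Real.sqrt_le_left hq0, div_le_iff₀ hκ]
    have := Real.pi_lt_d6
    linarith
  have hxx : x ≤ π ^ 2 / κ * m := by
    rw [div_mul_eq_mul_div, le_div_iff₀ hκ]
    have h1 : 9.8696 ≤ π ^ 2 := by
      have := Real.pi_gt_d6
      nlinarith
    nlinarith
  have hθ : theta (π ^ 2 / κ * m) ≤ 1 + 2 * (ρ / (1 - ρ ^ 3)) := by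
    refine (theta_anti hx0 hxx).trans ((Sd.theta_le hx0).trans ?_)
    have h0 : 0 < Real.exp (-x) := Real.exp_pos _
    have hρ0 : 0 < ρ := h0.trans_le hρ
    have h3 : Real.exp (-x) ^ 3 ≤ ρ ^ 3 := pow_le_pow_left₀ h0.le hρ 3
    have h4 : ρ ^ 3 ≤ (1 / 2) ^ 3 := pow_le_pow_left₀ hρ0.le hρ1 3
    have h5 : 0 < 1 - ρ ^ 3 := by norm_num at h4; linarith
    have h6 : Real.exp (-x) / (1 - Real.exp (-x) ^ 3) ≤ ρ / (1 - ρ ^ 3) :=
      div_le_div₀ hρ0.le hρ h5 (by linarith)
    linarith
  have hS0 : 0 ≤ ∑ j ∈ Finset.range (2 * d), z ^ j :=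
    Finset.sum_nonneg fun j _ => by positivity
  have hz0 : 0 ≤ z ^ (-(2 * d - 1 - lam : ℝ)) := Real.rpow_nonneg hz.le _
  have hθ0 := theta_nonneg (π ^ 2 / κ * m)
  have hS1 : 0 ≤ S := hS0.trans hS
  have hrz1 : 0 ≤ rz := hz0.trans hrz
  refine lt_of_le_of_lt ?_ hfin
  gcongr

theorem rpow_neg_le {z r a : ℝ} (n D : ℕ) (hD : 0 < D) (hz : 0 < z) (hr : 0 < r)
    (ha : a = -((n : ℝ) / D)) (h : 1 ≤ r ^ D * z ^ n) : z ^ a ≤ r := by
  have hDr : (D : ℝ) ≠ 0 := by exact_mod_cast hD.ne'
  rw [ha, ← pow_le_pow_iff_left₀ (Real.rpow_nonneg hz.le _) hr.le hD.ne', ← Real.rpow_natCast,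
    ← Real.rpow_mul hz.le]
  have e : -((n : ℝ) / D) * (D : ℝ) = -(n : ℝ) := by field_simp
  rw [e, Real.rpow_neg hz.le, Real.rpow_natCast, inv_le_iff_one_le_mul₀ (by positivity)]
  exact h

/-- Domination in dimension `2`. -/
theorem dom2 : DomHyp (9/4) (4 * (9/4) * (357/50)) (251/500000) := by
  have hs0 := sinsq_ge (t := 617/2000) (s := 41221/50000) (by norm_num) (by norm_num) (by norm_num)
    (by norm_num)
  have hs1 := sinsq_ge (t := 93/250) (s := 46011/50000) (by norm_num) (by norm_num) (by norm_num)
    (by norm_num)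
  have hc0 := exp_neg_le (y := 4 * (9/4) * (3399/5000) + 2 / (2 + (423/500))) (ρ := 5469/5000000)
    (p := 75) (q := 11) (by norm_num) (by norm_num) (by norm_num) (by norm_num)
  have hf := exp_neg_le (y := 4 * (9/4) * (46011/50000) ^ 2) (ρ := 4903/10000000)
    (p := 221) (q := 29) (by norm_num) (by norm_num) (by norm_num) (by norm_num)
  refine dom_one (b := 423/500) (σ := 3399/5000) (t0 := 617/2000) (t1 := 93/250)
    (by norm_num) (by norm_num) (by norm_num) (by norm_num) (by norm_num) (by norm_num)
    hs0 hs1 (by norm_num) (by norm_num) (by norm_num) (by norm_num) ?_ (hf.trans (by norm_num))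
  refine le_trans (mul_le_mul_of_nonneg_left hc0 (by norm_num)) (by norm_num)

theorem perc2 : muP 2 ((9/4 : ℝ)).toNNReal (perc 2) = 1 := by
  have hcoe : ((((9/4 : ℝ)).toNNReal : ℝ≥0) : ℝ) = 9/4 := Real.coe_toNNReal _ (by norm_num)
  refine Sd.perc_of (z := 51/100) (c := 251/500000) (m := 10201/1000) (κ := 4 * (9/4) * (357/50))
    (by norm_num) ?_ (by norm_num) (by norm_num) ?_ (by norm_num) piv2 (by norm_num) (by norm_num) ?_
  · rw [Real.toNNReal_pos]; norm_num
  · rw [hcoe]; exact dom2
  · rw [hcoe]
    refine crit_num (S := 1902751/1000000) (rz := 1657/1000) (q := 221109/1000000) (x := 47 / 30) (ρ := 10437/50000)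
      (by norm_num) (by norm_num [Finset.sum_range_succ]) ?_ (by norm_num) (by norm_num) (by norm_num)
      (by norm_num) (by norm_num) (by norm_num) (by norm_num) ?_ (by norm_num) (by norm_num)
    · exact rpow_neg_le 3 4 (by norm_num) (by norm_num) (by norm_num) (by norm_num) (by norm_num)
    · exact exp_neg_le (p := 47) (q := 30) (by norm_num) (by norm_num) (by norm_num) (by norm_num)

/-- Domination in dimension `3`. -/
theorem dom3 : DomHyp (7/2) (4 * (7/2) * (214/25)) (143/250000) := by
  have hs0 := sinsq_ge (t := 413/2000) (s := 30209/50000) (by norm_num) (by norm_num) (by norm_num)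
    (by norm_num)
  have hs1 := sinsq_ge (t := 261/1000) (s := 73111/100000) (by norm_num) (by norm_num) (by norm_num)
    (by norm_num)
  have hc0 := exp_neg_le (y := 4 * (7/2) * (73/200) + 2 / (2 + (287/1000))) (ρ := 6407/2500000)
    (p := 179) (q := 30) (by norm_num) (by norm_num) (by norm_num) (by norm_num)
  have hf := exp_neg_le (y := 4 * (7/2) * (73111/100000) ^ 2) (ρ := 1407/2500000)
    (p := 217) (q := 29) (by norm_num) (by norm_num) (by norm_num) (by norm_num)
  refine dom_one (b := 287/1000) (σ := 73/200) (t0 := 413/2000) (t1 := 261/1000)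
    (by norm_num) (by norm_num) (by norm_num) (by norm_num) (by norm_num) (by norm_num)
    hs0 hs1 (by norm_num) (by norm_num) (by norm_num) (by norm_num) ?_ (hf.trans (by norm_num))
  refine le_trans (mul_le_mul_of_nonneg_left hc0 (by norm_num)) (by norm_num)

theorem perc3 : muP 3 ((7/2 : ℝ)).toNNReal (perc 3) = 1 := by
  have hcoe : ((((7/2 : ℝ)).toNNReal : ℝ≥0) : ℝ) = 7/2 := Real.coe_toNNReal _ (by norm_num)
  refine Sd.perc_of (z := 69/100) (c := 143/250000) (m := 541/20) (κ := 4 * (7/2) * (214/25))
    (by norm_num) ?_ (by norm_num) (by norm_num) ?_ (by norm_num) piv3 (by norm_num) (by norm_num) ?_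
  · rw [Real.toNNReal_pos]; norm_num
  · rw [hcoe]; exact dom3
  · rw [hcoe]
    refine crit_num (S := 28776833449/10000000000) (rz := 174473/100000) (q := 161911/1000000) (x := 49 / 22) (ρ := 107823/1000000)
      (by norm_num) (by norm_num [Finset.sum_range_succ]) ?_ (by norm_num) (by norm_num) (by norm_num)
      (by norm_num) (by norm_num) (by norm_num) (by norm_num) ?_ (by norm_num) (by norm_num)
    · exact rpow_neg_le 3 2 (by norm_num) (by norm_num) (by norm_num) (by norm_num) (by norm_num)
    · exact exp_neg_le (p := 49) (q := 22) (by norm_num) (by norm_num) (by norm_num) (by norm_num)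

/-- Domination in dimension `4`. -/
theorem dom4 : DomHyp (97/20) (4 * (97/20) * (227/25)) (343/500000) := by
  have hs0 := sinsq_ge (t := 317/2000) (s := 47761/100000) (by norm_num) (by norm_num) (by norm_num)
    (by norm_num)
  have hs1 := sinsq_ge (t := 21/100) (s := 6129/10000) (by norm_num) (by norm_num) (by norm_num)
    (by norm_num)
  have hc0 := exp_neg_le (y := 4 * (97/20) * (2281/10000) + 2 / (2 + (21/125))) (ρ := 9533/2000000)
    (p := 139) (q := 26) (by norm_num) (by norm_num) (by norm_num) (by norm_num)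
  have hf := exp_neg_le (y := 4 * (97/20) * (6129/10000) ^ 2) (ρ := 6853/10000000)
    (p := 51) (q := 7) (by norm_num) (by norm_num) (by norm_num) (by norm_num)
  refine dom_one (b := 21/125) (σ := 2281/10000) (t0 := 317/2000) (t1 := 21/100)
    (by norm_num) (by norm_num) (by norm_num) (by norm_num) (by norm_num) (by norm_num)
    hs0 hs1 (by norm_num) (by norm_num) (by norm_num) (by norm_num) ?_ (hf.trans (by norm_num))
  refine le_trans (mul_le_mul_of_nonneg_left hc0 (by norm_num)) (by norm_num)

theorem perc4 : muP 4 ((97/20 : ℝ)).toNNReal (perc 4) = 1 := by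
  have hcoe : ((((97/20 : ℝ)).toNNReal : ℝ≥0) : ℝ) = 97/20 := Real.coe_toNNReal _ (by norm_num)
  refine Sd.perc_of (z := 19/25) (c := 343/500000) (m := 1291/25) (κ := 4 * (97/20) * (227/25))
    (by norm_num) ?_ (by norm_num) (by norm_num) ?_ (by norm_num) piv4 (by norm_num) (by norm_num) ?_
  · rw [Real.toNNReal_pos]; norm_num
  · rw [hcoe]; exact dom4
  · rw [hcoe]
    refine crit_num (S := 22600721264/6103515625) (rz := 90203/50000) (q := 133547/1000000) (x := 81 / 28) (ρ := 27709/500000)
      (by norm_num) (by norm_num [Finset.sum_range_succ]) ?_ (by norm_num) (by norm_num) (by norm_num)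
      (by norm_num) (by norm_num) (by norm_num) (by norm_num) ?_ (by norm_num) (by norm_num)
    · exact rpow_neg_le 43 20 (by norm_num) (by norm_num) (by norm_num) (by norm_num) (by norm_num)
    · exact exp_neg_le (p := 81) (q := 28) (by norm_num) (by norm_num) (by norm_num) (by norm_num)

/-- Domination in dimension `5`. -/
theorem dom5 : DomHyp (63/10) (4 * (63/10) * (234/25)) (633/1000000) := by
  have hs0 := sinsq_ge (t := 253/2000) (s := 38703/100000) (by norm_num) (by norm_num) (by norm_num)
    (by norm_num)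
  have hs1 := sinsq_ge (t := 37/250) (s := 22419/50000) (by norm_num) (by norm_num) (by norm_num)
    (by norm_num)
  have hs2 := sinsq_ge (t := 91/500) (s := 1691/3125) (by norm_num) (by norm_num) (by norm_num)
    (by norm_num)
  have hc0 := exp_neg_le (y := 4 * (63/10) * (1499/10000) + 2 / (2 + (39/500))) (ρ := 87463/10000000)
    (p := 109) (q := 23) (by norm_num) (by norm_num) (by norm_num) (by norm_num)
  have hc1 := exp_neg_le (y := 4 * (63/10) * (217/1250) + 2 / (2 + (29/200))) (ρ := 497/100000)
    (p := 122) (q := 23) (by norm_num) (by norm_num) (by norm_num) (by norm_num)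
  have hf := exp_neg_le (y := 4 * (63/10) * (1691/3125) ^ 2) (ρ := 1567/2500000)
    (p := 59) (q := 8) (by norm_num) (by norm_num) (by norm_num) (by norm_num)
  refine dom_two (b := 39/500) (σ := 1499/10000) (b' := 29/200) (σ' := 217/1250)
    (t0 := 253/2000) (t1 := 37/250) (t2 := 91/500)
    (by norm_num) (by norm_num) (by norm_num) (by norm_num) (by norm_num) (by norm_num)
    (by norm_num) (by norm_num) hs0 hs1 hs2 (by norm_num) (by norm_num) (by norm_num)
    (by norm_num) (by norm_num) (by norm_num) (by norm_num) ?_ ?_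
    (hf.trans (by norm_num))
  · refine le_trans (mul_le_mul_of_nonneg_left hc0 (by norm_num)) (by norm_num)
  · refine le_trans (mul_le_mul_of_nonneg_left hc1 (by norm_num)) (by norm_num)

theorem perc5 : muP 5 ((63/10 : ℝ)).toNNReal (perc 5) = 1 := by
  have hcoe : ((((63/10 : ℝ)).toNNReal : ℝ≥0) : ℝ) = 63/10 := Real.coe_toNNReal _ (by norm_num)
  refine Sd.perc_of (z := 79/100) (c := 633/1000000) (m := 2161/25) (κ := 4 * (63/10) * (234/25))
    (by norm_num) ?_ (by norm_num) (by norm_num) ?_ (by norm_num) piv5 (by norm_num) (by norm_num) ?_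
  · rw [Real.toNNReal_pos]; norm_num
  · rw [hcoe]; exact dom5
  · rw [hcoe]
    refine crit_num (S := 4311034472255864419/1000000000000000000) (rz := 188977/100000) (q := 115409/1000000) (x := 47 / 13) (ρ := 26907/1000000)
      (by norm_num) (by norm_num [Finset.sum_range_succ]) ?_ (by norm_num) (by norm_num) (by norm_num)
      (by norm_num) (by norm_num) (by norm_num) (by norm_num) ?_ (by norm_num) (by norm_num)
    · exact rpow_neg_le 27 10 (by norm_num) (by norm_num) (by norm_num) (by norm_num) (by norm_num)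
    · exact exp_neg_le (p := 47) (q := 13) (by norm_num) (by norm_num) (by norm_num) (by norm_num)

/-- Domination in dimension `6`. -/
theorem dom6 : DomHyp (157/20) (4 * (157/20) * (949/100)) (123/200000) := by
  have hs0 := sinsq_ge (t := 1089/10000) (s := 8387/25000) (by norm_num) (by norm_num) (by norm_num)
    (by norm_num)
  have hs1 := sinsq_ge (t := 16/125) (s := 39137/100000) (by norm_num) (by norm_num) (by norm_num)
    (by norm_num)
  have hs2 := sinsq_ge (t := 163/1000) (s := 48999/100000) (by norm_num) (by norm_num) (by norm_num)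
    (by norm_num)
  have hc0 := exp_neg_le (y := 4 * (157/20) * (9/80) + 2 / (2 + (29/500))) (ρ := 11109/1000000)
    (p := 9) (q := 2) (by norm_num) (by norm_num) (by norm_num) (by norm_num)
  have hc1 := exp_neg_le (y := 4 * (157/20) * (663/5000) + 2 / (2 + (113/1000))) (ρ := 30267/5000000)
    (p := 143) (q := 28) (by norm_num) (by norm_num) (by norm_num) (by norm_num)
  have hf := exp_neg_le (y := 4 * (157/20) * (48999/100000) ^ 2) (ρ := 5323/10000000)
    (p := 98) (q := 13) (by norm_num) (by norm_num) (by norm_num) (by norm_num)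
  refine dom_two (b := 29/500) (σ := 9/80) (b' := 113/1000) (σ' := 663/5000)
    (t0 := 1089/10000) (t1 := 16/125) (t2 := 163/1000)
    (by norm_num) (by norm_num) (by norm_num) (by norm_num) (by norm_num) (by norm_num)
    (by norm_num) (by norm_num) hs0 hs1 hs2 (by norm_num) (by norm_num) (by norm_num)
    (by norm_num) (by norm_num) (by norm_num) (by norm_num) ?_ ?_
    (hf.trans (by norm_num))
  · refine le_trans (mul_le_mul_of_nonneg_left hc0 (by norm_num)) (by norm_num)
  · refine le_trans (mul_le_mul_of_nonneg_left hc1 (by norm_num)) (by norm_num)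

theorem perc6 : muP 6 ((157/20 : ℝ)).toNNReal (perc 6) = 1 := by
  have hcoe : ((((157/20 : ℝ)).toNNReal : ℝ≥0) : ℝ) = 157/20 := Real.coe_toNNReal _ (by norm_num)
  refine Sd.perc_of (z := 4/5) (c := 123/200000) (m := 2573/20) (κ := 4 * (157/20) * (949/100))
    (by norm_num) ?_ (by norm_num) (by norm_num) ?_ (by norm_num) piv6 (by norm_num) (by norm_num) ?_
  · rw [Real.toNNReal_pos]; norm_num
  · rw [hcoe]; exact dom6
  · rw [hcoe]
    refine crit_num (S := 227363409/48828125) (rz := 201961/100000) (q := 51339/500000) (x := 98 / 23) (ρ := 14111/1000000)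
      (by norm_num) (by norm_num [Finset.sum_range_succ]) ?_ (by norm_num) (by norm_num) (by norm_num)
      (by norm_num) (by norm_num) (by norm_num) (by norm_num) ?_ (by norm_num) (by norm_num)
    · exact rpow_neg_le 63 20 (by norm_num) (by norm_num) (by norm_num) (by norm_num) (by norm_num)
    · exact exp_neg_le (p := 98) (q := 23) (by norm_num) (by norm_num) (by norm_num) (by norm_num)

/-- Domination in dimension `7`. -/
theorem dom7 : DomHyp (19/2) (4 * (19/2) * (19/2)) (219/500000) := by
  have hs0 := sinsq_ge (t := 537/5000) (s := 2069/6250) (by norm_num) (by norm_num) (by norm_num)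
    (by norm_num)
  have hs1 := sinsq_ge (t := 149/1000) (s := 22559/50000) (by norm_num) (by norm_num) (by norm_num)
    (by norm_num)
  have hc0 := exp_neg_le (y := 4 * (19/2) * (137/1250) + 2 / (2 + (79/1000))) (ρ := 59463/10000000)
    (p := 41) (q := 8) (by norm_num) (by norm_num) (by norm_num) (by norm_num)
  have hf := exp_neg_le (y := 4 * (19/2) * (22559/50000) ^ 2) (ρ := 219/500000)
    (p := 116) (q := 15) (by norm_num) (by norm_num) (by norm_num) (by norm_num)
  refine dom_one (b := 79/1000) (σ := 137/1250) (t0 := 537/5000) (t1 := 149/1000)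
    (by norm_num) (by norm_num) (by norm_num) (by norm_num) (by norm_num) (by norm_num)
    hs0 hs1 (by norm_num) (by norm_num) (by norm_num) (by norm_num) ?_ (hf.trans (by norm_num))
  refine le_trans (mul_le_mul_of_nonneg_left hc0 (by norm_num)) (by norm_num)

theorem perc7 : muP 7 ((19/2 : ℝ)).toNNReal (perc 7) = 1 := by
  have hcoe : ((((19/2 : ℝ)).toNNReal : ℝ≥0) : ℝ) = 19/2 := Real.coe_toNNReal _ (by norm_num)
  refine Sd.perc_of (z := 81/100) (c := 219/500000) (m := 8951/50) (κ := 4 * (19/2) * (19/2))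
    (by norm_num) ?_ (by norm_num) (by norm_num) ?_ (by norm_num) piv7 (by norm_num) (by norm_num) ?_
  · rw [Real.toNNReal_pos]; norm_num
  · rw [hcoe]; exact dom7
  · rw [hcoe]
    refine crit_num (S := 498771177209086287515078341/100000000000000000000000000) (rz := 52269/25000) (q := 11661/125000) (x := 137 / 28) (ρ := 3/400)
      (by norm_num) (by norm_num [Finset.sum_range_succ]) ?_ (by norm_num) (by norm_num) (by norm_num)
      (by norm_num) (by norm_num) (by norm_num) (by norm_num) ?_ (by norm_num) (by norm_num)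
    · exact rpow_neg_le 7 2 (by norm_num) (by norm_num) (by norm_num) (by norm_num) (by norm_num)
    · exact exp_neg_le (p := 137) (q := 28) (by norm_num) (by norm_num) (by norm_num) (by norm_num)

/-- Domination in dimension `8`. -/
theorem dom8 : DomHyp (45/4) (4 * (45/4) * (239/25)) (397/1000000) := by
  have hs0 := sinsq_ge (t := 491/5000) (s := 30363/100000) (by norm_num) (by norm_num) (by norm_num)
    (by norm_num)
  have hs1 := sinsq_ge (t := 137/1000) (s := 41723/100000) (by norm_num) (by norm_num) (by norm_num)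
    (by norm_num)
  have hc0 := exp_neg_le (y := 4 * (45/4) * (461/5000) + 2 / (2 + (33/500))) (ρ := 60037/10000000)
    (p := 133) (q := 26) (by norm_num) (by norm_num) (by norm_num) (by norm_num)
  have hf := exp_neg_le (y := 4 * (45/4) * (41723/100000) ^ 2) (ρ := 991/2500000)
    (p := 47) (q := 6) (by norm_num) (by norm_num) (by norm_num) (by norm_num)
  refine dom_one (b := 33/500) (σ := 461/5000) (t0 := 491/5000) (t1 := 137/1000)
    (by norm_num) (by norm_num) (by norm_num) (by norm_num) (by norm_num) (by norm_num)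
    hs0 hs1 (by norm_num) (by norm_num) (by norm_num) (by norm_num) ?_ (hf.trans (by norm_num))
  refine le_trans (mul_le_mul_of_nonneg_left hc0 (by norm_num)) (by norm_num)

theorem perc8 : muP 8 ((45/4 : ℝ)).toNNReal (perc 8) = 1 := by
  have hcoe : ((((45/4 : ℝ)).toNNReal : ℝ≥0) : ℝ) = 45/4 := Real.coe_toNNReal _ (by norm_num)
  refine Sd.perc_of (z := 81/100) (c := 397/1000000) (m := 2363/10) (κ := 4 * (45/4) * (239/25))
    (by norm_num) ?_ (by norm_num) (by norm_num) ?_ (by norm_num) piv8 (by norm_num) (by norm_num) ?_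
  · rw [Real.toNNReal_pos]; norm_num
  · rw [hcoe]; exact dom8
  · rw [hcoe]
    refine crit_num (S := 5082437693668815132386428995301/1000000000000000000000000000000) (rz := 44077/20000) (q := 5341/62500) (x := 103 / 19) (ρ := 4423/1000000)
      (by norm_num) (by norm_num [Finset.sum_range_succ]) ?_ (by norm_num) (by norm_num) (by norm_num)
      (by norm_num) (by norm_num) (by norm_num) (by norm_num) ?_ (by norm_num) (by norm_num)
    · exact rpow_neg_le 15 4 (by norm_num) (by norm_num) (by norm_num) (by norm_num) (by norm_num)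
    · exact exp_neg_le (p := 103) (q := 19) (by norm_num) (by norm_num) (by norm_num) (by norm_num)

/-- Domination in dimension `9`. -/
theorem dom9 : DomHyp (131/10) (4 * (131/10) * (957/100)) (51/250000) := by
  have hs0 := sinsq_ge (t := 483/5000) (s := 7471/25000) (by norm_num) (by norm_num) (by norm_num)
    (by norm_num)
  have hs1 := sinsq_ge (t := 33/250) (s := 4029/10000) (by norm_num) (by norm_num) (by norm_num)
    (by norm_num)
  have hc0 := exp_neg_le (y := 4 * (131/10) * (893/10000) + 2 / (2 + (61/1000))) (ρ := 35279/10000000)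
    (p := 96) (q := 17) (by norm_num) (by norm_num) (by norm_num) (by norm_num)
  have hf := exp_neg_le (y := 4 * (131/10) * (4029/10000) ^ 2) (ρ := 407/2000000)
    (p := 17) (q := 2) (by norm_num) (by norm_num) (by norm_num) (by norm_num)
  refine dom_one (b := 61/1000) (σ := 893/10000) (t0 := 483/5000) (t1 := 33/250)
    (by norm_num) (by norm_num) (by norm_num) (by norm_num) (by norm_num) (by norm_num)
    hs0 hs1 (by norm_num) (by norm_num) (by norm_num) (by norm_num) ?_ (hf.trans (by norm_num))
  refine le_trans (mul_le_mul_of_nonneg_left hc0 (by norm_num)) (by norm_num)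

theorem perc9 : muP 9 ((131/10 : ℝ)).toNNReal (perc 9) = 1 := by
  have hcoe : ((((131/10 : ℝ)).toNNReal : ℝ≥0) : ℝ) = 131/10 := Real.coe_toNNReal _ (by norm_num)
  refine Sd.perc_of (z := 81/100) (c := 51/250000) (m := 15101/50) (κ := 4 * (131/10) * (957/100))
    (by norm_num) ?_ (by norm_num) (by norm_num) ?_ (by norm_num) piv9 (by norm_num) (by norm_num) ?_
  · rw [Real.toNNReal_pos]; norm_num
  · rw [hcoe]; exact dom9
  · rw [hcoe]
    refine crit_num (S := 51445873708161096083587360638169861/10000000000000000000000000000000000) (rz := 113731/50000) (q := 79151/1000000) (x := 101 / 17) (ρ := 2629/1000000)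
      (by norm_num) (by norm_num [Finset.sum_range_succ]) ?_ (by norm_num) (by norm_num) (by norm_num)
      (by norm_num) (by norm_num) (by norm_num) (by norm_num) ?_ (by norm_num) (by norm_num)
    · exact rpow_neg_le 39 10 (by norm_num) (by norm_num) (by norm_num) (by norm_num) (by norm_num)
    · exact exp_neg_le (p := 101) (q := 17) (by norm_num) (by norm_num) (by norm_num) (by norm_num)

end Pool.Agent.MP_f7f40d_pr
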