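import Pool.Agent.MP_f7f40d_pr.Sm8
import Pool.Agent.MP_f7f40d_pr.DuMain

set_option autoImplicit false

namespace Pool.Agent.MP_f7f40d_pr

open MeasureTheory
open scoped ENNReal NNReal

variable {d : ℕ}

/-- Almost sure percolation is monotone in the density. -/
theorem muP_mono {a b : ℝ≥0} (h : muP d a (perc d) = 1) : muP d (a + b) (perc d) = 1 := by
  apply le_antisymm prob_le_one
  rw [← map_sum_nuP, Measure.map_apply meas_sumF meas_perc]
  have h1 : nuP d a b (fstF ⁻¹' perc d) = 1 := by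
    rw [← Measure.map_apply meas_fstF meas_perc, map_fst_nuP, h]
  rw [← h1]
  apply measure_mono
  intro w hw
  refine Percolates.mono (A := Ac (fstF w)) hw fun v => ?_
  unfold Ac fstF sumF
  push_cast
  omega

theorem percProb_mono {lam lam' : ℝ} (h0 : 0 ≤ lam) (hl : lam ≤ lam') (h : percProb d lam = 1) :
    percProb d lam' = 1 := by
  have h1 : muP d lam.toNNReal (perc d) = 1 := h
  have h2 := muP_mono (b := (lam' - lam).toNNReal) h1
  rw [← Real.toNNReal_add h0 (by linarith), add_sub_cancel] at h2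
  exact h2

/-- Percolation at `d + (d² + 1) / 20`. -/
theorem percProb_small (d : ℕ) (hd : 2 ≤ d) : percProb d (d + ((d : ℝ) ^ 2 + 1) / 20) = 1 := by
  rcases Nat.lt_or_ge d 10 with h | h
  · interval_cases d
    · have := perc2
      have e : ((2 : ℕ) : ℝ) + (((2 : ℕ) : ℝ) ^ 2 + 1) / 20 = 9 / 4 := by norm_num
      rw [e]; exact this
    · have := perc3
      have e : ((3 : ℕ) : ℝ) + (((3 : ℕ) : ℝ) ^ 2 + 1) / 20 = 7 / 2 := by norm_num
      rw [e]; exact this
    · have := perc4
      have e : ((4 : ℕ) : ℝ) + (((4 : ℕ) : ℝ) ^ 2 + 1) / 20 = 97 / 20 := by norm_num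
      rw [e]; exact this
    · have := perc5
      have e : ((5 : ℕ) : ℝ) + (((5 : ℕ) : ℝ) ^ 2 + 1) / 20 = 63 / 10 := by norm_num
      rw [e]; exact this
    · have := perc6
      have e : ((6 : ℕ) : ℝ) + (((6 : ℕ) : ℝ) ^ 2 + 1) / 20 = 157 / 20 := by norm_num
      rw [e]; exact this
    · have := perc7
      have e : ((7 : ℕ) : ℝ) + (((7 : ℕ) : ℝ) ^ 2 + 1) / 20 = 19 / 2 := by norm_num
      rw [e]; exact this
    · have := perc8
      have e : ((8 : ℕ) : ℝ) + (((8 : ℕ) : ℝ) ^ 2 + 1) / 20 = 45 / 4 := by norm_num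
      rw [e]; exact this
    · have := perc9
      have e : ((9 : ℕ) : ℝ) + (((9 : ℕ) : ℝ) ^ 2 + 1) / 20 = 131 / 10 := by norm_num
      rw [e]; exact this
  · apply percProb_gt d (by omega)
    have hr : (10 : ℝ) ≤ d := by exact_mod_cast h
    nlinarith

end Pool.Agent.MP_f7f40d_pr
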